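import Pool.Agent.SelRel.Targets
import Pool.Agent.SelDeg2.LOC
import Pool.Agent.SelDeg2.TW

/-! Relations at primes in the Selberg class: ALP, the local roots have modulus at most 1. -/

set_option autoImplicit false

namespace Pool.Agent.SelRel

open Complex Filter Topology Set MeasureTheory Pool.Agent.SelPole

/-- summability of the local factor in every disc of radius less than `1` -/
theorem ALP_summable {F : ℂ → ℂ} {a b : ℕ → ℂ} (hF : IsSelberg F a b) {p : ℕ} (hp : p.Prime)
    {r : ℝ} (h0 : 0 < r) (h1 : r < 1) : Summable (fun j : ℕ => ‖a (p ^ j)‖ * r ^ j) := by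
  have hp1 : (1 : ℝ) < p := by exact_mod_cast hp.one_lt
  have hp0 : (0 : ℝ) < p := by linarith
  have hlp : 0 < Real.log p := Real.log_pos hp1
  have hlr : Real.log r < 0 := Real.log_neg h0 h1
  set ε : ℝ := -Real.log r / (2 * Real.log p) with hε
  have hε0 : 0 < ε := div_pos (by linarith) (by positivity)
  obtain ⟨C, hC⟩ := hF.ramanujan ε hε0
  have hpe : (p : ℝ) ^ ε * r = Real.exp (Real.log r / 2) := by
    have e1 : Real.log p * ε = -(Real.log r) / 2 := by
      rw [hε]
      field_simp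
    calc (p : ℝ) ^ ε * r = Real.exp (Real.log p * ε) * Real.exp (Real.log r) := by
          rw [Real.rpow_def_of_pos hp0, Real.exp_log h0]
      _ = Real.exp (Real.log r / 2) := by
          rw [← Real.exp_add, e1]
          congr 1
          ring
  have hq : Real.exp (Real.log r / 2) < 1 := by
    rw [Real.exp_lt_one_iff]
    linarith
  have hs : Summable (fun j : ℕ => C * (Real.exp (Real.log r / 2)) ^ j) :=
    (summable_geometric_of_lt_one (Real.exp_pos _).le hq).mul_left C
  refine Summable.of_nonneg_of_le (fun j => by positivity) (fun j => ?_) hs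
  have h2 := hC (p ^ j) (Nat.one_le_pow _ _ hp.pos)
  have h3 : (((p ^ j : ℕ) : ℝ)) ^ ε = ((p : ℝ) ^ ε) ^ j := by
    rw [Nat.cast_pow, ← Real.rpow_natCast, ← Real.rpow_natCast, ← Real.rpow_mul hp0.le,
      ← Real.rpow_mul hp0.le, mul_comm]
  rw [h3] at h2
  calc ‖a (p ^ j)‖ * r ^ j ≤ C * ((p : ℝ) ^ ε) ^ j * r ^ j := by gcongr
    _ = C * (Real.exp (Real.log r / 2)) ^ j := by rw [mul_assoc, ← mul_pow, hpe]

/-- the local factor is holomorphic in the unit disc -/
theorem ALP_diff {F : ℂ → ℂ} {a b : ℕ → ℂ} (hF : IsSelberg F a b) {p : ℕ} (hp : p.Prime) :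
    DifferentiableOn ℂ (fun z : ℂ => ∑' j : ℕ, a (p ^ j) * z ^ j) (Metric.ball 0 1) := by
  intro z hz
  rw [Metric.mem_ball, dist_zero_right] at hz
  obtain ⟨r, hzr, hr1⟩ := exists_between hz
  have hr0 : 0 < r := lt_of_le_of_lt (norm_nonneg _) hzr
  have hd : DifferentiableOn ℂ (fun z : ℂ => ∑' j : ℕ, a (p ^ j) * z ^ j) (Metric.ball 0 r) := by
    refine differentiableOn_tsum_of_summable_norm (ALP_summable hF hp hr0 hr1)
      (fun j => ?_) Metric.isOpen_ball (fun j w hw => ?_)
    · exact ((differentiable_id.pow j).const_mul _).differentiableOn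
    · rw [Metric.mem_ball, dist_zero_right] at hw
      rw [norm_mul, norm_pow]
      gcongr
  have hm : z ∈ Metric.ball (0 : ℂ) r := by
    rw [Metric.mem_ball, dist_zero_right]
    exact hzr
  exact (hd.differentiableAt (Metric.isOpen_ball.mem_nhds hm)).differentiableWithinAt

/-- the local factor near `0` -/
theorem ALP_near {F : ℂ → ℂ} {a b : ℕ → ℂ} (hF : IsSelberg F a b) {p : ℕ} (hp : p.Prime)
    {d : ℕ} {α : Fin d → ℂ} (hα : ∀ k : ℕ, 1 ≤ k → k * b (p ^ k) = ∑ i, α i ^ k)
    {z : ℂ} (hz : ‖z‖ ≤ 1 / p) (hz2 : ∀ i, ‖α i * z‖ < 1) :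
    (∑' j : ℕ, a (p ^ j) * z ^ j) * ∏ i, (1 - α i * z) = 1 := by
  obtain ⟨-, -, h3⟩ := SelDeg2.p_LOC SelDeg2.p_TW SelDeg2.p_MUL F a b hF p hp z hz
  have h4 : HasSum (fun n : ℕ => ∑ i, (α i * z) ^ n / n) (∑ i, -Complex.log (1 - α i * z)) :=
    hasSum_sum fun i _ => Complex.hasSum_taylorSeries_neg_log (hz2 i)
  have h5 := (hasSum_nat_add_iff' 1).mpr h4
  have h6 : (fun n : ℕ => ∑ i, (α i * z) ^ (n + 1) / ((n + 1 : ℕ) : ℂ)) =
      fun n : ℕ => b (p ^ (n + 1)) * z ^ (n + 1) := by
    funext n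
    have h7 := hα (n + 1) (by omega)
    have h8 : ((n + 1 : ℕ) : ℂ) ≠ 0 := by exact_mod_cast Nat.succ_ne_zero n
    rw [← Finset.sum_div, div_eq_iff h8]
    simp only [mul_pow]
    rw [← Finset.sum_mul, ← h7]
    ring
  rw [h6] at h5
  simp only [Finset.range_one, Finset.sum_singleton, Nat.cast_zero, div_zero,
    Finset.sum_const_zero, sub_zero] at h5
  rw [h3, h5.tsum_eq, Complex.exp_sum, ← Finset.prod_mul_distrib]
  refine Finset.prod_eq_one fun i _ => ?_
  have h9 : 1 - α i * z ≠ 0 := by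
    intro h
    have h10 : α i * z = 1 := by linear_combination -h
    have h11 := hz2 i
    rw [h10, norm_one] at h11
    exact lt_irrefl _ h11
  rw [Complex.exp_neg, Complex.exp_log h9, inv_mul_cancel₀ h9]

theorem p_ALP : T_ALP := by
  intro F a b hF p hp d α hα i
  by_contra hcon
  push Not at hcon
  have hp0 : (0 : ℝ) < p := by exact_mod_cast hp.pos
  set g : ℂ → ℂ := fun z => (∑' j : ℕ, a (p ^ j) * z ^ j) * ∏ i, (1 - α i * z) with hg
  have hgd : DifferentiableOn ℂ g (Metric.ball 0 1) := by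
    refine (ALP_diff hF hp).mul ?_
    refine Differentiable.differentiableOn ?_
    exact Differentiable.fun_finsetProd fun i _ =>
      (differentiable_const _).sub ((differentiable_id).const_mul _)
  have hga := hgd.analyticOnNhd Metric.isOpen_ball
  have h1a : AnalyticOnNhd ℂ (fun _ : ℂ => (1 : ℂ)) (Metric.ball 0 1) := analyticOnNhd_const
  have h0 : (0 : ℂ) ∈ Metric.ball (0 : ℂ) 1 := Metric.mem_ball_self one_pos
  have hev : g =ᶠ[𝓝 0] fun _ => (1 : ℂ) := by
    have e1 : ∀ᶠ z : ℂ in 𝓝 0, ‖z‖ < 1 / p := by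
      have : Tendsto (fun z : ℂ => ‖z‖) (𝓝 0) (𝓝 ‖(0 : ℂ)‖) := continuous_norm.tendsto 0
      rw [norm_zero] at this
      exact this.eventually_lt_const (by positivity)
    have e2 : ∀ᶠ z : ℂ in 𝓝 0, ∀ i, ‖α i * z‖ < 1 := by
      rw [Filter.eventually_all]
      intro j
      have hc : Continuous (fun z : ℂ => ‖α j * z‖) := by fun_prop
      have := hc.tendsto 0
      rw [mul_zero, norm_zero] at this
      exact this.eventually_lt_const one_pos
    filter_upwards [e1, e2] with z h1 h2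
    exact ALP_near hF hp hα h1.le h2
  have hEq := hga.eqOn_of_preconnected_of_eventuallyEq h1a
    (convex_ball (0 : ℂ) 1).isPreconnected h0 hev
  have hai : α i ≠ 0 := by
    intro h
    rw [h, norm_zero] at hcon
    linarith
  have hz0 : (α i)⁻¹ ∈ Metric.ball (0 : ℂ) 1 := by
    rw [Metric.mem_ball, dist_zero_right, norm_inv]
    exact inv_lt_one_of_one_lt₀ hcon
  have h5 := hEq hz0
  have h6 : g (α i)⁻¹ = 0 := by
    rw [hg]
    refine mul_eq_zero_of_right _ ?_
    refine Finset.prod_eq_zero (Finset.mem_univ i) ?_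
    rw [mul_inv_cancel₀ hai, sub_self]
  rw [h6] at h5
  exact zero_ne_one h5

end Pool.Agent.SelRel
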