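import Pool.Agent.SelRel.Targets

/-! Relations at primes: circle averages of `log |F|`. -/

set_option autoImplicit false

namespace Pool.Agent.SelRel

open Complex Filter Topology Set MeasureTheory Metric Pool.Agent.SelPole Pool.Agent.SelCR

/-- the closed disc of radius `15/8` about `2 + iT` -/
theorem AVF_ball {T : ℝ} (hT : 3 ≤ T) {s : ℂ} (hs : s ∈ closedBall (ctr T) (15 / 8)) :
    1 / 8 ≤ s.re ∧ s.re ≤ 4 ∧ 1 ≤ s.im ∧ s.im ≤ 2 * T := by
  rw [mem_closedBall, dist_eq_norm] at hs
  have h1 := (Complex.abs_re_le_norm (s - ctr T)).trans hs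
  have h2 := (Complex.abs_im_le_norm (s - ctr T)).trans hs
  have e1 : (s - ctr T).re = s.re - 2 := by simp [ctr]
  have e2 : (s - ctr T).im = s.im - T := by simp [ctr]
  rw [e1, abs_le] at h1
  rw [e2, abs_le] at h2
  exact ⟨by linarith [h1.1], by linarith [h1.2], by linarith [h2.1], by linarith [h2.2]⟩

theorem p_AVF : T_AVF := by
  intro F c hF hG
  obtain ⟨B, C, hB, hC, hg⟩ := hG
  obtain ⟨d, hd, hd'⟩ := line_two hF
  set K0 : ℝ := C + 2 * B + |Real.log d| with hK0
  have hK00 : 0 ≤ K0 := by positivity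
  refine ⟨3 * K0, by positivity, fun T hT => ?_⟩
  have hT0 : 0 < T := by linarith
  have hM : 0 ≤ K0 * T := by positivity
  have hctr : ctr T ∈ closedBall (ctr T) (15 / 8) := mem_closedBall_self (by norm_num)
  have han : AnalyticOnNhd ℂ F (closedBall (ctr T) (15 / 8)) := by
    intro z hz
    obtain ⟨h1, h2, h3, h4⟩ := AVF_ball hT hz
    exact analyticAt_of_ne hF (Qd_ne_one ⟨by linarith, by linarith⟩)
  have hb : ∀ z ∈ sphere (ctr T) (15 / 8), ‖F z‖ ≤ Real.exp (K0 * T) := by
    intro z hz
    obtain ⟨h1, h2, h3, h4⟩ := AVF_ball hT (sphere_subset_closedBall hz)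
    have h5 : z.im ^ B ≤ Real.exp (2 * B * T) := by
      calc z.im ^ B ≤ (2 * T) ^ B := Real.rpow_le_rpow (by linarith) h4 hB
        _ = Real.exp (Real.log (2 * T) * B) := Real.rpow_def_of_pos (by linarith) B
        _ ≤ Real.exp (2 * B * T) := by
            apply Real.exp_le_exp.2
            have h6 : Real.log (2 * T) ≤ 2 * T := Real.log_le_self (by linarith)
            nlinarith [mul_le_mul_of_nonneg_right h6 hB]
    have h6 : C ≤ Real.exp (C * T) := by
      have h7 : C ≤ C * T := by nlinarith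
      have h8 := Real.add_one_le_exp (C * T)
      linarith
    calc ‖F z‖ ≤ C * z.im ^ B := hg z h1 h2 h3
      _ ≤ Real.exp (C * T) * Real.exp (2 * B * T) :=
          mul_le_mul h6 h5 (Real.rpow_nonneg (by linarith) _) (Real.exp_pos _).le
      _ = Real.exp (C * T + 2 * B * T) := (Real.exp_add _ _).symm
      _ ≤ Real.exp (K0 * T) := by
          apply Real.exp_le_exp.2
          have h9 : 0 ≤ |Real.log d| * T := by positivity
          rw [hK0]
          nlinarith
  have h0 : Real.exp (-(K0 * T)) ≤ ‖F (ctr T)‖ := by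
    have h1 : Real.exp (-(K0 * T)) ≤ d := by
      rw [← Real.le_log_iff_exp_le hd]
      have h2 : |Real.log d| ≤ |Real.log d| * T := by
        nlinarith [abs_nonneg (Real.log d)]
      have h3 : |Real.log d| * T ≤ K0 * T := by
        apply mul_le_mul_of_nonneg_right _ hT0.le
        rw [hK0]; linarith
      have h4 := neg_abs_le (Real.log d)
      linarith
    exact h1.trans (hd' T)
  obtain ⟨i1, i2⟩ := avg_abs_log (by norm_num : (0 : ℝ) < 15 / 8) hM han hb h0
  refine ⟨?_, i2.trans (by linarith)⟩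
  have hmer : MeromorphicOn F (sphere (ctr T) |(15 / 8 : ℝ)|) := by
    rw [abs_of_pos (by norm_num : (0 : ℝ) < 15 / 8)]
    exact (han.mono sphere_subset_closedBall).meromorphicOn
  exact hmer.circleIntegrable_log_norm

end Pool.Agent.SelRel
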