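import Pool.Agent.SelRel.Targets
import Pool.Agent.SelCR.QL

/-! Relations at primes in the Selberg class, block AVV: circle averages of `VS`. -/

set_option autoImplicit false

namespace Pool.Agent.SelRel

open Complex Filter Topology Set MeasureTheory Metric Pool.Agent.SelPole Pool.Agent.SelCR
open Pool.Agent.PrimesOnly

/-- the points with `e t ≠ 0` are bounded away from `0` -/
lemma AVV_min {e : ℝ → ℝ} (h : Ln' e) : ∃ τ : ℝ, 0 < τ ∧ ∀ t : ℝ, e t ≠ 0 → τ ≤ t := by
  classical
  have hf := h.fin 1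
  rcases hf.toFinset.eq_empty_or_nonempty with h0 | h0
  · refine ⟨1, one_pos, fun t ht => ?_⟩
    by_contra hcon
    have : t ∈ hf.toFinset := by
      rw [Set.Finite.mem_toFinset]
      exact ⟨by linarith, ht⟩
    rw [h0] at this
    exact absurd this (Finset.notMem_empty t)
  · refine ⟨min 1 (hf.toFinset.min' h0), ?_, fun t ht => ?_⟩
    · refine lt_min one_pos ?_
      have h1 := Finset.min'_mem _ h0
      rw [Set.Finite.mem_toFinset] at h1
      by_contra hcon
      exact h1.2 (h.neg _ (not_lt.1 hcon))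
    · rcases le_or_gt t 1 with h1 | h1
      · refine (min_le_right _ _).trans (Finset.min'_le _ _ ?_)
        rw [Set.Finite.mem_toFinset]
        exact ⟨h1, ht⟩
      · exact (min_le_left _ _).trans h1.le

/-- the terms of `VS` -/
noncomputable def AVV_f (e : ℝ → ℝ) (t : ℝ) (s : ℂ) : ℝ :=
  e t * Real.log ‖1 - (s - 1 / 2) / (t * I)‖

lemma AVV_norm_le {T : ℝ} (hT : 3 ≤ T) {s : ℂ} (hs : s ∈ closedBall (ctr T) (15 / 8)) :
    ‖s - 1 / 2‖ ≤ T + 4 := by
  rw [mem_closedBall, dist_eq_norm] at hs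
  have h1 : s - 1 / 2 = (s - ctr T) + (3 / 2 + T * I) := by
    unfold ctr; ring
  rw [h1]
  refine (norm_add_le _ _).trans ?_
  have h2 : ‖(3 / 2 + T * I : ℂ)‖ ≤ 3 / 2 + T := by
    refine (norm_add_le _ _).trans ?_
    rw [norm_mul, Complex.norm_I, mul_one, Complex.norm_real, Real.norm_eq_abs,
      abs_of_nonneg (by linarith)]
    norm_num
  linarith

lemma AVV_norm_div {t : ℝ} (ht : 0 < t) (w : ℂ) : ‖w / (t * I)‖ = ‖w‖ / t := by
  rw [norm_div, norm_mul, Complex.norm_I, mul_one, Complex.norm_real, Real.norm_eq_abs,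
    abs_of_pos ht]

/-- the terms with large `t` -/
lemma AVV_large {T : ℝ} (hT : 3 ≤ T) {s : ℂ} (hs : s ∈ closedBall (ctr T) (15 / 8)) {t : ℝ}
    (ht : 2 * (T + 4) < t) : ‖(s - 1 / 2) / (t * I)‖ ≤ 1 / 2 ∧
    |Real.log ‖1 - (s - 1 / 2) / (t * I)‖| ≤ 4 * (T + 4) / (1 + |t|) := by
  have ht0 : 0 < t := by linarith
  have h1 := AVV_norm_le hT hs
  have h2 : ‖(s - 1 / 2) / (t * I)‖ ≤ 1 / 2 := by
    rw [AVV_norm_div ht0, div_le_iff₀ ht0]
    linarith
  refine ⟨h2, ?_⟩
  have h3 : ‖-((s - 1 / 2) / (t * I))‖ ≤ 1 / 2 := by rw [norm_neg]; exact h2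
  have h4 := Complex.norm_log_one_add_half_le_self h3
  rw [norm_neg, ← sub_eq_add_neg] at h4
  have h5 : |Real.log ‖1 - (s - 1 / 2) / (t * I)‖| ≤
      ‖Complex.log (1 - (s - 1 / 2) / (t * I))‖ := by
    rw [← Complex.log_re]
    exact Complex.abs_re_le_norm _
  refine h5.trans (h4.trans ?_)
  rw [AVV_norm_div ht0, abs_of_pos ht0]
  have h6 : ‖s - 1 / 2‖ / t ≤ (T + 4) / t := by gcongr
  have h7 : (T + 4) / t ≤ 2 * (T + 4) / (1 + t) := by
    rw [div_le_div_iff₀ ht0 (by linarith)]
    nlinarith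
  have h8 : 0 ≤ 2 * (T + 4) / (1 + t) := by positivity
  have h9 : 4 * (T + 4) / (1 + t) = 2 * (2 * (T + 4) / (1 + t)) := by ring
  rw [h9]
  linarith

/-- the terms with small `t` -/
lemma AVV_small {T : ℝ} (hT : 3 ≤ T) {t τ : ℝ} (hτ : 0 < τ) (h1 : τ ≤ t)
    (h2 : t ≤ 2 * (T + 4)) (a : ℝ) :
    CircleIntegrable (fun s => a * Real.log ‖1 - (s - 1 / 2) / (t * I)‖) (ctr T) (15 / 8) ∧
    CircleIntegrable (fun s => |a * Real.log ‖1 - (s - 1 / 2) / (t * I)‖|) (ctr T) (15 / 8) ∧
    Real.circleAverage (fun s => |a * Real.log ‖1 - (s - 1 / 2) / (t * I)‖|) (ctr T) (15 / 8) ≤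
      |a| * (3 * ((T + 4) * (2 + 1 / τ))) := by
  have ht0 : 0 < t := by linarith
  have htI : (t * I : ℂ) ≠ 0 := mul_ne_zero (by exact_mod_cast ht0.ne') I_ne_zero
  set P : ℂ → ℂ := fun s => 1 - (s - 1 / 2) / (t * I) with hP
  have hPan : AnalyticOnNhd ℂ P univ := by
    have : Differentiable ℂ P := by
      intro s
      exact ((differentiableAt_const _).sub (((differentiableAt_id).sub
        (differentiableAt_const _)).div_const _))
    exact fun s _ => this.analyticAt s
  set M : ℝ := (T + 4) * (2 + 1 / τ) with hM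
  have hM0 : 0 ≤ M := by positivity
  have hMt : t + (T + 4) / t ≤ M := by
    have h3 : (T + 4) / t ≤ (T + 4) / τ := by gcongr
    have h4 : M = 2 * (T + 4) + (T + 4) / τ := by rw [hM]; ring
    rw [h4]
    linarith
  have hq0 : 0 ≤ (T + 4) / t := by positivity
  have hb : ∀ z ∈ sphere (ctr T) (15 / 8), ‖P z‖ ≤ Real.exp M := by
    intro z hz
    have h5 := AVV_norm_le hT (sphere_subset_closedBall hz)
    have h6 : ‖P z‖ ≤ 1 + (T + 4) / t := by
      simp only [hP]
      refine (norm_sub_le _ _).trans ?_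
      rw [norm_one, AVV_norm_div ht0]
      gcongr
    have h7 := Real.add_one_le_exp M
    linarith
  have h0 : Real.exp (-M) ≤ ‖P (ctr T)‖ := by
    have h8 : P (ctr T) = (t * I - (3 / 2 + T * I)) / (t * I) := by
      rw [eq_div_iff htI]
      simp only [hP, ctr]
      rw [sub_mul, div_mul_cancel₀ _ htI]
      ring
    have h9 : 3 / 2 ≤ ‖(t * I - (3 / 2 + T * I) : ℂ)‖ := by
      have h10 : |(t * I - (3 / 2 + T * I) : ℂ).re| ≤ ‖(t * I - (3 / 2 + T * I) : ℂ)‖ :=
        Complex.abs_re_le_norm _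
      have h11 : (t * I - (3 / 2 + T * I) : ℂ).re = -(3 / 2) := by
        simp
      rw [h11] at h10
      rw [abs_neg, abs_of_pos (by norm_num)] at h10
      exact h10
    rw [h8, AVV_norm_div ht0, le_div_iff₀ ht0]
    have h12 : t ≤ Real.exp M := by
      have := Real.add_one_le_exp M
      linarith
    have h13 : Real.exp (-M) * t ≤ Real.exp (-M) * Real.exp M :=
      mul_le_mul_of_nonneg_left h12 (Real.exp_pos _).le
    rw [← Real.exp_add, neg_add_cancel, Real.exp_zero] at h13
    linarith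
  obtain ⟨h14, h15⟩ := avg_abs_log (P := P) (c := ctr T) (ρ := 15 / 8) (M := M) (by norm_num) hM0
    (hPan.mono (subset_univ _)) hb h0
  have h16 : CircleIntegrable (fun z => Real.log ‖P z‖) (ctr T) (15 / 8) := by
    have hmer : MeromorphicOn P (sphere (ctr T) |15 / 8|) :=
      (hPan.mono (subset_univ _)).meromorphicOn
    exact hmer.circleIntegrable_log_norm
  have h17 : (fun s => |a * Real.log ‖P s‖|) = (fun s => |a| • |Real.log ‖P s‖|) := by
    funext s
    rw [abs_mul, smul_eq_mul]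
  refine ⟨?_, ?_, ?_⟩
  · have := h16.const_fun_smul (a := a)
    simpa only [smul_eq_mul] using this
  · have := h14.const_fun_smul (a := |a|)
    rw [← h17] at this
    exact this
  · change Real.circleAverage (fun s => |a * Real.log ‖P s‖|) (ctr T) (15 / 8) ≤ _
    rw [h17, Real.circleAverage_fun_smul, smul_eq_mul]
    exact mul_le_mul_of_nonneg_left h15 (abs_nonneg _)

theorem p_AVV : T_AVV := by
  classical
  intro e h
  obtain ⟨τ, hτ, hmin⟩ := AVV_min h
  set G : ℝ := ∑' t : ℝ, |e t| / (1 + |t|) with hG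
  have hG0 : 0 ≤ G := tsum_nonneg (fun t => by positivity)
  refine ⟨2, (63 * (2 + 1 / τ) + 12) * G, by norm_num, by positivity, fun T hT => ?_⟩
  set R : ℝ := T + 4 with hR
  set S : Finset ℝ := (h.fin (2 * R)).toFinset with hS
  have hSmem : ∀ t, t ∈ S ↔ t ≤ 2 * R ∧ e t ≠ 0 := fun t => by
    rw [hS, Set.Finite.mem_toFinset]; rfl
  -- the rest
  set ψ : ℝ → ℂ → ℝ := fun t s => if t ∈ S then 0 else AVV_f e t s with hψ
  set g : ℝ → ℝ := fun t => 4 * R * (|e t| / (1 + |t|)) with hg
  have hgs : Summable g := h.sum.mul_left _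
  have hgG : ∑' t, g t = 4 * R * G := tsum_mul_left
  have hcase : ∀ t, t ∉ S → e t ≠ 0 → 2 * (T + 4) < t := by
    intro t ht he
    by_contra hcon
    exact ht ((hSmem t).2 ⟨not_lt.1 hcon, he⟩)
  have hb : ∀ t, ∀ s ∈ closedBall (ctr T) (15 / 8), ‖ψ t s‖ ≤ g t := by
    intro t s hs
    have hg0 : 0 ≤ g t := by simp only [hg]; positivity
    simp only [hψ]
    split_ifs with h1
    · rw [norm_zero]; exact hg0
    · by_cases he : e t = 0
      · unfold AVV_f
        rw [he, zero_mul, norm_zero]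
        exact hg0
      · have h2 := (AVV_large hT hs (hcase t h1 he)).2
        unfold AVV_f
        rw [Real.norm_eq_abs, abs_mul]
        have h3 : g t = |e t| * (4 * (T + 4) / (1 + |t|)) := by
          simp only [hg, hR]; ring
        rw [h3]
        exact mul_le_mul_of_nonneg_left h2 (abs_nonneg _)
  have hcont : ContinuousOn (fun s => ∑' t, ψ t s) (closedBall (ctr T) (15 / 8)) := by
    refine continuousOn_tsum (fun t => ?_) hgs (fun t s hs => hb t s hs)
    simp only [hψ]
    split_ifs with h1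
    · exact continuousOn_const
    · by_cases he : e t = 0
      · unfold AVV_f
        simp only [he, zero_mul]
        exact continuousOn_const
      · intro s hs
        have h2 := (AVV_large hT hs (hcase t h1 he)).1
        have h3 : (1 - (s - 1 / 2) / (t * I) : ℂ) ≠ 0 := by
          intro h4
          have h5 : (s - 1 / 2) / (t * I) = (1 : ℂ) := by
            rw [sub_eq_zero] at h4
            exact h4.symm
          rw [h5, norm_one] at h2
          norm_num at h2
        apply ContinuousAt.continuousWithinAt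
        unfold AVV_f
        refine continuousAt_const.mul (ContinuousAt.log ?_ (norm_ne_zero_iff.2 h3))
        exact (continuousAt_const.sub ((continuousAt_id.sub continuousAt_const).div_const _)).norm
  have hrest : CircleIntegrable (fun s => ∑' t, ψ t s) (ctr T) (15 / 8) :=
    (hcont.mono sphere_subset_closedBall).circleIntegrable (by norm_num)
  -- the splitting
  have hsplit : ∀ s ∈ closedBall (ctr T) (15 / 8),
      VS e s = ∑ t ∈ S, AVV_f e t s + ∑' t, ψ t s := by
    intro s hs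
    have h1 : Summable (fun t => ψ t s) := Summable.of_norm_bounded hgs (fun t => hb t s hs)
    have h2 : HasSum (fun t => if t ∈ S then AVV_f e t s else 0) (∑ t ∈ S, AVV_f e t s) := by
      have h3 : HasSum (fun t => if t ∈ S then AVV_f e t s else 0)
          (∑ t ∈ S, (if t ∈ S then AVV_f e t s else 0)) :=
        hasSum_sum_of_ne_finset_zero (fun t ht => if_neg ht)
      have h4 : ∑ t ∈ S, (if t ∈ S then AVV_f e t s else 0) = ∑ t ∈ S, AVV_f e t s :=
        Finset.sum_congr rfl (fun t ht => if_pos ht)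
      rw [h4] at h3
      exact h3
    have h5 := h2.add h1.hasSum
    have h6 : (fun t => (if t ∈ S then AVV_f e t s else 0) + ψ t s) = fun t => AVV_f e t s := by
      funext t
      simp only [hψ]
      split_ifs <;> simp
    rw [h6] at h5
    exact h5.tsum_eq
  have hsm : ∀ t ∈ S, CircleIntegrable (AVV_f e t) (ctr T) (15 / 8) ∧
      CircleIntegrable (fun s => |AVV_f e t s|) (ctr T) (15 / 8) ∧
      Real.circleAverage (fun s => |AVV_f e t s|) (ctr T) (15 / 8) ≤
        |e t| * (3 * ((T + 4) * (2 + 1 / τ))) := fun t ht =>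
    AVV_small hT hτ (hmin t ((hSmem t).1 ht).2) ((hSmem t).1 ht).1 (e t)
  have hint : CircleIntegrable (VS e) (ctr T) (15 / 8) := by
    have h1 : CircleIntegrable (fun s => ∑ t ∈ S, AVV_f e t s + ∑' t, ψ t s) (ctr T) (15 / 8) := by
      have h2 : CircleIntegrable (∑ t ∈ S, AVV_f e t) (ctr T) (15 / 8) :=
        CircleIntegrable.sum S (fun t ht => (hsm t ht).1)
      have h3 := h2.add hrest
      have h4 : (∑ t ∈ S, AVV_f e t + fun s => ∑' t, ψ t s) =
          fun s => ∑ t ∈ S, AVV_f e t s + ∑' t, ψ t s := by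
        funext s
        rw [Pi.add_apply, Finset.sum_apply]
      rw [h4] at h3
      exact h3
    exact (circleIntegrable_congr (fun s hs => by
      rw [abs_of_pos (by norm_num : (0 : ℝ) < 15 / 8)] at hs
      exact hsplit s (sphere_subset_closedBall hs))).2 h1
  refine ⟨hint, ?_⟩
  have habs : CircleIntegrable (fun s => |VS e s|) (ctr T) (15 / 8) := hint.abs
  have hcon : CircleIntegrable (fun _ : ℂ => 4 * R * G) (ctr T) (15 / 8) :=
    circleIntegrable_const _ _ _
  have hsum : CircleIntegrable (fun s => ∑ t ∈ S, |AVV_f e t s|) (ctr T) (15 / 8) := by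
    have h2 : CircleIntegrable (∑ t ∈ S, fun s => |AVV_f e t s|) (ctr T) (15 / 8) :=
      CircleIntegrable.sum S (fun t ht => (hsm t ht).2.1)
    have h4 : (∑ t ∈ S, fun s => |AVV_f e t s|) = fun s => ∑ t ∈ S, |AVV_f e t s| := by
      funext s
      rw [Finset.sum_apply]
    rw [h4] at h2
    exact h2
  have hup : CircleIntegrable (fun s => ∑ t ∈ S, |AVV_f e t s| + 4 * R * G) (ctr T) (15 / 8) :=
    hsum.fun_add hcon
  have h1 : Real.circleAverage (fun s => |VS e s|) (ctr T) (15 / 8) ≤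
      Real.circleAverage (fun s => ∑ t ∈ S, |AVV_f e t s| + 4 * R * G) (ctr T) (15 / 8) := by
    refine Real.circleAverage_mono habs hup (fun s hs => ?_)
    rw [abs_of_pos (by norm_num : (0 : ℝ) < 15 / 8)] at hs
    have hs' := sphere_subset_closedBall hs
    rw [hsplit s hs']
    refine (abs_add_le _ _).trans (add_le_add (Finset.abs_sum_le_sum_abs _ _) ?_)
    have h2 : ‖∑' t, ψ t s‖ ≤ ∑' t, g t := tsum_of_norm_bounded hgs.hasSum (fun t => hb t s hs')
    rw [hgG, Real.norm_eq_abs] at h2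
    exact h2
  have h2 : Real.circleAverage (fun s => ∑ t ∈ S, |AVV_f e t s| + 4 * R * G) (ctr T) (15 / 8) ≤
      3 * (R * (2 + 1 / τ)) * ((1 + 2 * R) * G) + 4 * R * G := by
    rw [Real.circleAverage_fun_add hsum hcon, Real.circleAverage_const,
      Real.circleAverage_fun_sum (fun t ht => (hsm t ht).2.1)]
    gcongr
    have h3 : ∑ t ∈ S, Real.circleAverage (fun s => |AVV_f e t s|) (ctr T) (15 / 8) ≤
        ∑ t ∈ S, (1 + 2 * R) * (3 * (R * (2 + 1 / τ))) * (|e t| / (1 + |t|)) := by
      refine Finset.sum_le_sum (fun t ht => ?_)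
      refine ((hsm t ht).2.2).trans ?_
      have h4 := ((hSmem t).1 ht).1
      have h5 : 0 < t := lt_of_lt_of_le hτ (hmin t ((hSmem t).1 ht).2)
      rw [abs_of_pos h5]
      have h6 : |e t| = (1 + t) * (|e t| / (1 + t)) := by
        field_simp
      have h7 : 0 ≤ |e t| / (1 + t) := by positivity
      have h8 : 0 ≤ 3 * (R * (2 + 1 / τ)) := by positivity
      calc |e t| * (3 * ((T + 4) * (2 + 1 / τ)))
          = (1 + t) * (3 * (R * (2 + 1 / τ))) * (|e t| / (1 + t)) := by
            conv_lhs => rw [h6]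
            rw [hR]; ring
        _ ≤ (1 + 2 * R) * (3 * (R * (2 + 1 / τ))) * (|e t| / (1 + t)) := by
            gcongr
    refine h3.trans ?_
    rw [← Finset.mul_sum]
    have h9 : ∑ t ∈ S, |e t| / (1 + |t|) ≤ G :=
      h.sum.sum_le_tsum S (fun t _ => by positivity)
    have h10 : 0 ≤ (1 + 2 * R) * (3 * (R * (2 + 1 / τ))) := by positivity
    calc (1 + 2 * R) * (3 * (R * (2 + 1 / τ))) * ∑ t ∈ S, |e t| / (1 + |t|)
        ≤ (1 + 2 * R) * (3 * (R * (2 + 1 / τ))) * G := mul_le_mul_of_nonneg_left h9 h10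
      _ = 3 * (R * (2 + 1 / τ)) * ((1 + 2 * R) * G) := by ring
  refine (h1.trans h2).trans ?_
  rw [Real.rpow_two]
  have h3 : R ≤ 3 * T := by rw [hR]; linarith
  have h4 : 1 + 2 * R ≤ 7 * T := by linarith
  have h5 : 0 ≤ R := by linarith
  have h6 : 0 ≤ 2 + 1 / τ := by positivity
  calc 3 * (R * (2 + 1 / τ)) * ((1 + 2 * R) * G) + 4 * R * G
      ≤ 3 * (3 * T * (2 + 1 / τ)) * (7 * T * G) + 4 * (3 * T) * G := by gcongr
    _ ≤ 3 * (3 * T * (2 + 1 / τ)) * (7 * T * G) + 12 * T ^ 2 * G := by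
        have h7 : T ≤ T ^ 2 := by nlinarith
        have h8 : 4 * (3 * T) * G = 12 * T * G := by ring
        rw [h8]
        gcongr
    _ = (63 * (2 + 1 / τ) + 12) * G * T ^ 2 := by ring

end Pool.Agent.SelRel
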