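import Pool.Agent.SelRel.Targets

/-! Zeros on the critical line, per unit interval: Jensen's inequality. -/

set_option autoImplicit false

namespace Pool.Agent.SelRel

open Complex Filter Topology Set MeasureTheory Metric Pool.Agent.SelPole Pool.Agent.SelCR
open Pool.Agent.PrimesOnly

theorem CNT_re (t : ℝ) : (pt t).re = 1 / 2 := by simp [pt]

theorem CNT_im (t : ℝ) : (pt t).im = t := by simp [pt]

theorem CNT_inj {t u : ℝ} (h : pt t = pt u) : t = u := by
  have h1 := congrArg Complex.im h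
  rwa [CNT_im, CNT_im] at h1

theorem CNT_ne_one (t : ℝ) : pt t ≠ 1 := by
  intro h
  have h1 := congrArg Complex.re h
  rw [CNT_re] at h1
  norm_num at h1

/-- a point of nonzero order is a zero -/
theorem CNT_zero {F : ℂ → ℂ} {c : ℕ → ℂ} (hF : EulerFE F c) {t : ℝ} (h : od F (pt t) ≠ 0) :
    F (pt t) = 0 := by
  by_contra h0
  apply h
  have h1 : AnalyticAt ℂ F (pt t) := analyticAt_of_ne hF (CNT_ne_one t)
  rw [od, h1.meromorphicOrderAt_eq, h1.analyticOrderAt_eq_zero.2 h0]
  simp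

/-- finitely many zeros on a compact piece of the line -/
theorem CNT_fin {F : ℂ → ℂ} {c : ℕ → ℂ} (hF : EulerFE F c) (X : ℝ) :
    {t : ℝ | 0 ≤ t ∧ t ≤ X ∧ od F (pt t) ≠ 0}.Finite := by
  by_contra hinf
  have hcomp : IsCompact (Icc (0 : ℝ) X) := isCompact_Icc
  obtain ⟨x, hx, hacc⟩ := Set.Infinite.exists_accPt_of_subset_isCompact hinf hcomp
    (fun t ht => ⟨ht.1, ht.2.1⟩)
  have h1 := order_punctured hF (pt x)
  have hcont : Tendsto pt (𝓝[≠] x) (𝓝[≠] (pt x)) := by
    refine tendsto_nhdsWithin_iff.2 ⟨?_, ?_⟩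
    · have : Continuous pt := by unfold pt; fun_prop
      exact this.continuousAt.tendsto.mono_left nhdsWithin_le_nhds
    · filter_upwards [self_mem_nhdsWithin] with t ht h
      exact ht (CNT_inj h)
  have h2 := hcont.eventually h1
  rw [accPt_iff_frequently_nhdsNE] at hacc
  obtain ⟨t, ht, ht'⟩ := (hacc.and_eventually h2).exists
  apply ht.2.2
  rw [od, ht']
  simp

/-- the number of zeros in a disc -/
theorem CNT_jensen {F : ℂ → ℂ} {c : ℂ} {r R M : ℝ} (hr : 0 < r) (hrR : r < R) (hM : 1 ≤ M)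
    (hF : AnalyticOnNhd ℂ F (closedBall c R)) (hc : F c ≠ 0)
    (hb : ∀ z ∈ sphere c R, ‖F z‖ ≤ M) (S : Finset ℂ)
    (hS : ∀ z ∈ S, z ∈ closedBall c r ∧ F z = 0) :
    (S.card : ℝ) ≤ Real.log (M / ‖F c‖) / Real.log (R / r) := by
  have hR : 0 < R := hr.trans hrR
  have har : |r| = r := abs_of_pos hr
  have haR : |R| = R := abs_of_pos hR
  have key := AnalyticOnNhd.sum_divisor_le (c := c) (r := r) (R := R) (M := M) (f := F)
    (by rw [har]; exact hr) (by rw [har, haR]; exact hrR) hM (by rw [haR]; exact hF) hc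
    (by rw [haR]; exact hb)
  refine le_trans ?_ key
  rw [har]
  have hFr : AnalyticOnNhd ℂ F (closedBall c r) := hF.mono (closedBall_subset_closedBall hrR.le)
  have hnn : ∀ u, 0 ≤ MeromorphicOn.divisor F (closedBall c r) u := fun u =>
    MeromorphicOn.AnalyticOnNhd.divisor_nonneg hFr u
  have hfin : (Function.support (fun u => MeromorphicOn.divisor F (closedBall c r) u)).Finite :=
    (MeromorphicOn.divisor F (closedBall c r)).finiteSupport (isCompact_closedBall c r)
  have hone : ∀ z ∈ S, 1 ≤ MeromorphicOn.divisor F (closedBall c r) z := by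
    intro z hz
    obtain ⟨hz1, hz2⟩ := hS z hz
    rw [MeromorphicOn.AnalyticOnNhd.divisor_apply hFr hz1]
    have h1 : analyticOrderAt F z ≠ 0 := by
      intro h
      exact ((hFr z hz1).analyticOrderAt_eq_zero.1 h) hz2
    have h2 : analyticOrderAt F z ≠ ⊤ := by
      intro h
      rw [analyticOrderAt_eq_top] at h
      have h3 := hFr.eqOn_zero_of_preconnected_of_eventuallyEq_zero
        (convex_closedBall c r).isPreconnected hz1 h
      exact hc (h3 (mem_closedBall_self hr.le))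
    obtain ⟨n, hn⟩ := ENat.ne_top_iff_exists.1 h2
    rw [← hn] at h1 ⊢
    have h3 : n ≠ 0 := by
      rintro rfl
      exact h1 (by simp)
    have h4 : ((n : ℕ∞).map (fun k : ℕ => (k : ℤ))).untop₀ = (n : ℤ) := by
      simp
    rw [h4]
    exact_mod_cast Nat.one_le_iff_ne_zero.2 h3
  have hsub : Function.support (fun u => MeromorphicOn.divisor F (closedBall c r) u) ⊆
      ((hfin.toFinset ∪ S : Finset ℂ) : Set ℂ) := by
    intro u hu
    simp only [Finset.coe_union, Set.Finite.coe_toFinset, Set.mem_union]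
    exact Or.inl hu
  have h1 : ∑ᶠ u, MeromorphicOn.divisor F (closedBall c r) u =
      ∑ u ∈ hfin.toFinset ∪ S, MeromorphicOn.divisor F (closedBall c r) u :=
    finsum_eq_sum_of_support_subset _ hsub
  have h2 : (S.card : ℤ) ≤ ∑ᶠ u, MeromorphicOn.divisor F (closedBall c r) u := by
    rw [h1]
    calc (S.card : ℤ) = ∑ u ∈ S, (1 : ℤ) := by simp
      _ ≤ ∑ u ∈ S, MeromorphicOn.divisor F (closedBall c r) u := Finset.sum_le_sum hone
      _ ≤ _ := Finset.sum_le_sum_of_subset_of_nonneg Finset.subset_union_right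
        (fun u _ _ => hnn u)
  exact_mod_cast h2

/-- the bound for large heights -/
theorem CNT_large {F : ℂ → ℂ} {c : ℕ → ℂ} (hF : EulerFE F c) (hg : PGr F) :
    ∃ C : ℝ, 0 ≤ C ∧ ∀ T : ℝ, 3 ≤ T → ∀ S : Finset ℝ,
      (∀ t ∈ S, T ≤ t ∧ t ≤ T + 1 ∧ od F (pt t) ≠ 0) →
      (S.card : ℝ) ≤ C * (1 + Real.log (1 + T)) := by
  obtain ⟨B, C, hB, hC, hbd⟩ := hg
  obtain ⟨c0, hc0, hlow⟩ := line_two hF
  set q : ℝ := Real.log ((15 / 8) / (8 / 5)) with hq
  have hq0 : 0 < q := Real.log_pos (by norm_num)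
  set K : ℝ := |Real.log ((C + 1) / c0)| + B * Real.log 2 + B with hK
  have hl2 : 0 ≤ Real.log 2 := Real.log_nonneg (by norm_num)
  have hK0 : 0 ≤ K := by positivity
  refine ⟨K / q, div_nonneg hK0 hq0.le, fun T hT S hS => ?_⟩
  set z0 : ℂ := 2 + ((T + 1 / 2 : ℝ) : ℂ) * I with hz0
  have hz0re : z0.re = 2 := by simp [hz0]
  have hz0im : z0.im = T + 1 / 2 := by simp [hz0]
  -- geometry of the disc
  have hball : ∀ z ∈ closedBall z0 (15 / 8), 1 / 8 ≤ z.re ∧ z.re ≤ 4 ∧ 1 ≤ z.im ∧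
      z.im ≤ 2 * (1 + T) := by
    intro z hz
    rw [mem_closedBall, dist_eq_norm] at hz
    have h1 := (abs_le.1 ((Complex.abs_re_le_norm (z - z0)).trans hz))
    have h2 := (abs_le.1 ((Complex.abs_im_le_norm (z - z0)).trans hz))
    rw [Complex.sub_re, hz0re] at h1
    rw [Complex.sub_im, hz0im] at h2
    refine ⟨?_, ?_, ?_, ?_⟩ <;> linarith [h1.1, h1.2, h2.1, h2.2]
  have hne1 : ∀ z ∈ closedBall z0 (15 / 8), z ≠ 1 := by
    intro z hz h
    have h1 := (hball z hz).2.2.1
    rw [h] at h1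
    norm_num at h1
  have hFan : AnalyticOnNhd ℂ F (closedBall z0 (15 / 8)) :=
    fun z hz => analyticAt_of_ne hF (hne1 z hz)
  have hFc : c0 ≤ ‖F z0‖ := hlow (T + 1 / 2)
  have hFc0 : F z0 ≠ 0 := norm_pos_iff.1 (hc0.trans_le hFc)
  set M : ℝ := (C + 1) * (2 * (1 + T)) ^ B with hM
  have hbase : 1 ≤ 2 * (1 + T) := by linarith
  have hpow1 : 1 ≤ (2 * (1 + T)) ^ B := Real.one_le_rpow hbase hB
  have hM1 : 1 ≤ M := by
    rw [hM]
    nlinarith
  have hMb : ∀ z ∈ sphere z0 (15 / 8), ‖F z‖ ≤ M := by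
    intro z hz
    obtain ⟨h1, h2, h3, h4⟩ := hball z (sphere_subset_closedBall hz)
    refine (hbd z h1 h2 h3).trans ?_
    have h5 : z.im ^ B ≤ (2 * (1 + T)) ^ B := Real.rpow_le_rpow (by linarith) h4 hB
    have h6 : 0 ≤ z.im ^ B := Real.rpow_nonneg (by linarith) B
    rw [hM]
    nlinarith
  classical
  have hcard : (S.image pt).card = S.card :=
    Finset.card_image_of_injective _ (fun t u h => CNT_inj h)
  have key := CNT_jensen (F := F) (c := z0) (r := 8 / 5) (R := 15 / 8) (M := M) (by norm_num)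
    (by norm_num) hM1 hFan hFc0 hMb (S.image pt) (by
      intro z hz
      obtain ⟨t, ht, rfl⟩ := Finset.mem_image.1 hz
      obtain ⟨h1, h2, h3⟩ := hS t ht
      refine ⟨?_, CNT_zero hF h3⟩
      rw [mem_closedBall, dist_eq_norm]
      have h4 : ‖pt t - z0‖ ^ 2 ≤ (8 / 5) ^ 2 := by
        rw [← Complex.normSq_eq_norm_sq, Complex.normSq_apply, Complex.sub_re, Complex.sub_im,
          CNT_re, CNT_im, hz0re, hz0im]
        nlinarith
      exact (abs_le_of_sq_le_sq' h4 (by norm_num)).2)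
  rw [hcard] at key
  refine key.trans ?_
  rw [← hq, div_mul_eq_mul_div]
  refine div_le_div_of_nonneg_right ?_ hq0.le
  have hlog : Real.log (M / ‖F z0‖) ≤ Real.log (M / c0) := by
    refine Real.log_le_log (div_pos (by linarith) (norm_pos_iff.2 hFc0)) ?_
    exact div_le_div_of_nonneg_left (by linarith) hc0 hFc
  refine hlog.trans ?_
  have h1 : M / c0 = ((C + 1) / c0) * (2 * (1 + T)) ^ B := by rw [hM]; ring
  have hT1 : 0 < 1 + T := by linarith
  rw [h1, Real.log_mul (by positivity) (by positivity), Real.log_rpow (by linarith),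
    Real.log_mul (by norm_num) hT1.ne']
  have hL : 0 ≤ Real.log (1 + T) := Real.log_nonneg (by linarith)
  have h2 := le_abs_self (Real.log ((C + 1) / c0))
  have h3 : 0 ≤ |Real.log ((C + 1) / c0)| := abs_nonneg _
  rw [hK]
  nlinarith [mul_nonneg h3 hL, mul_nonneg (mul_nonneg hB hl2) hL, mul_nonneg hB hL]

/-- CNT -/
theorem p_CNT : T_CNT := by
  intro F c hF hg
  obtain ⟨C, hC, hlarge⟩ := CNT_large hF hg
  have hfin := CNT_fin hF 4
  refine ⟨C + hfin.toFinset.card, fun T hT S hS => ?_⟩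
  have hL : 0 ≤ Real.log (1 + T) := Real.log_nonneg (by linarith)
  have hN : (0 : ℝ) ≤ hfin.toFinset.card := Nat.cast_nonneg _
  rcases le_total 3 T with h | h
  · refine (hlarge T h S hS).trans ?_
    nlinarith
  · have h1 : S ⊆ hfin.toFinset := by
      intro t ht
      obtain ⟨h2, h3, h4⟩ := hS t ht
      rw [Set.Finite.mem_toFinset]
      exact ⟨by linarith, by linarith, h4⟩
    have h2 : (S.card : ℝ) ≤ hfin.toFinset.card := by exact_mod_cast Finset.card_le_card h1
    nlinarith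

end Pool.Agent.SelRel
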