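import Pool.Agent.SelRel.Targets

/-! Boundary behaviour of the logarithmic derivative of a family. -/

set_option autoImplicit false

namespace Pool.Agent.SelRel

open Complex Filter Topology Set MeasureTheory Metric Pool.Agent.SelPole Pool.Agent.SelCR
open Pool.Agent.PrimesOnly

/-- the logarithmic derivative near a point -/
theorem FAM_local {F : ℂ → ℂ} {c : ℕ → ℂ} (hF : EulerFE F c) (z : ℂ) :
    ∃ v : ℂ → ℂ, AnalyticAt ℂ v z ∧ v z ≠ 0 ∧
      ∀ᶠ s in 𝓝[≠] z, logDeriv F s = (od F z : ℂ) / (s - z) + logDeriv v s := by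
  obtain ⟨n, v, hn, hv, hv0, hPv⟩ := hF.local_form z
  refine ⟨v, hv, hv0, ?_⟩
  have hod : od F z = n := by
    rw [od, hn, WithTop.untop₀_coe]
  rw [hod]
  have h1 := logDeriv_congr_nhdsNE hPv
  filter_upwards [h1, self_mem_nhdsWithin, mem_nhdsWithin_of_mem_nhds hv.eventually_analyticAt,
    mem_nhdsWithin_of_mem_nhds (hv.continuousAt.eventually_ne hv0)] with s a1 a2 a3 a4
  have hsz : s - z ≠ 0 := sub_ne_zero.mpr a2
  have hd : DifferentiableAt ℂ (fun x : ℂ => x - z) s := by fun_prop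
  have hdz : DifferentiableAt ℂ (fun x : ℂ => (x - z) ^ n) s := hd.zpow (Or.inl hsz)
  rw [a1]
  have h2 : logDeriv (fun x : ℂ => (x - z) ^ n * v x) s
      = logDeriv (fun x : ℂ => (x - z) ^ n) s + logDeriv v s :=
    logDeriv_mul s (zpow_ne_zero _ hsz) a4 hdz a3.differentiableAt
  have h3 : logDeriv (fun x : ℂ => (x - z) ^ n) s = n * logDeriv (fun x : ℂ => x - z) s :=
    logDeriv_fun_zpow hd n
  have h4 : logDeriv (fun x : ℂ => x - z) s = 1 / (s - z) := by
    rw [logDeriv_apply]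
    simp
  rw [h3, h4] at h2
  rw [mul_one_div] at h2
  exact h2

/-- the L-series of a family for `Re s > 1` -/
theorem FAM_series {ι : Type} [Fintype ι] {F : ι → ℂ → ℂ} {c : ι → ℕ → ℂ} (g : ι → ℂ)
    (hF : ∀ j, EulerFE (F j) (c j)) {s : ℂ} (hs : 1 < s.re) :
    ∑ j, g j * logDeriv (F j) s + LSeries (cco c g) s = 0 := by
  have h1 : cco c g = ∑ j, g j • c j := by
    funext n
    simp [cco, Finset.sum_apply]
  have h2 : LSeries (cco c g) s = ∑ j, g j * LSeries (c j) s := by
    rw [h1, LSeries_sum (fun j _ => ((hF j).summ s hs).smul (g j))]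
    exact Finset.sum_congr rfl (fun j _ => LSeries_smul (c j) (g j) s)
  rw [h2, ← Finset.sum_add_distrib]
  refine Finset.sum_eq_zero (fun j _ => ?_)
  have h3 : logDeriv (F j) s = -LSeries (c j) s := by
    rw [logDeriv_apply, ((hF j).ld s hs).deriv, mul_div_assoc, div_self ((hF j).ne s hs), mul_one]
  rw [h3]
  ring

/-- the identity for the logarithmic derivative of a family in a half plane -/
theorem FAM_id {ι : Type} [Fintype ι] {F : ι → ℂ → ℂ} {c : ι → ℕ → ℂ} {g : ι → ℂ}
    (hF : ∀ j, EulerFE (F j) (c j)) {β : ℝ}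
    (hab : LSeries.abscissaOfAbsConv (cco c g) ≤ ((β : ℝ) : EReal)) {z : ℂ} (hz : β < z.re) :
    ∀ᶠ s in 𝓝[≠] z, ∑ j, g j * logDeriv (F j) s + LSeries (cco c g) s = 0 := by
  set U : Set ℂ := {s | β < s.re} with hU
  have hUc : IsPreconnected U := (convex_halfSpace_re_gt β).isPreconnected
  have hmer : MeromorphicOn (fun s => ∑ j, g j * logDeriv (F j) s + LSeries (cco c g) s) U := by
    intro x hx
    refine MeromorphicAt.fun_add (MeromorphicAt.fun_sum (fun j _ => ?_)) ?_
    · exact (MeromorphicAt.const (g j) x).fun_mul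
        (((hF j).meromorphicAt x).deriv.div ((hF j).meromorphicAt x))
    · refine (LSeries_analyticOnNhd (cco c g) x ?_).meromorphicAt
      refine lt_of_le_of_lt hab ?_
      exact_mod_cast hx
  have h2 : meromorphicOrderAt (fun s => ∑ j, g j * logDeriv (F j) s + LSeries (cco c g) s)
      ((max 1 β + 1 : ℝ) : ℂ) = ⊤ := by
    rw [meromorphicOrderAt_eq_top_iff]
    refine mem_nhdsWithin_of_mem_nhds ?_
    have hx : (1 : ℝ) < (((max 1 β + 1 : ℝ) : ℂ)).re := by
      rw [Complex.ofReal_re]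
      have := le_max_left 1 β
      linarith
    filter_upwards [(isOpen_lt continuous_const continuous_re).mem_nhds hx] with s hs
    exact FAM_series g hF hs
  have hx0 : ((max 1 β + 1 : ℝ) : ℂ) ∈ U := by
    rw [hU, Set.mem_ofPred_eq, Complex.ofReal_re]
    have := le_max_right 1 β
    linarith
  have h3 : meromorphicOrderAt (fun s => ∑ j, g j * logDeriv (F j) s + LSeries (cco c g) s) z = ⊤ := by
    by_contra h
    exact (hmer.meromorphicOrderAt_ne_top_of_isPreconnected hUc hz hx0 h) h2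
  exact meromorphicOrderAt_eq_top_iff.mp h3

/-- the local identity near a point -/
theorem FAM_near {ι : Type} [Fintype ι] {F : ι → ℂ → ℂ} {c : ι → ℕ → ℂ} {g : ι → ℂ}
    (hF : ∀ j, EulerFE (F j) (c j)) {β : ℝ}
    (hab : LSeries.abscissaOfAbsConv (cco c g) ≤ ((β : ℝ) : EReal)) (z : ℂ) :
    ∃ G : ℂ → ℂ, AnalyticAt ℂ G z ∧ ∀ᶠ s in 𝓝 z, s ≠ z → β < s.re →
      cord F g z / (s - z) + G s + LSeries (cco c g) s = 0 := by
  choose v hv hv0 hvl using fun j => FAM_local (hF j) z
  have hGan : AnalyticAt ℂ (fun s => ∑ j, g j * logDeriv (v j) s) z := by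
    refine Finset.analyticAt_fun_sum _ (fun j _ => ?_)
    exact analyticAt_const.fun_mul ((hv j).deriv.div (hv j) (hv0 j))
  refine ⟨fun s => ∑ j, g j * logDeriv (v j) s, hGan, ?_⟩
  have hall : ∀ᶠ s in 𝓝[≠] z, ∀ j, logDeriv (F j) s
      = (od (F j) z : ℂ) / (s - z) + logDeriv (v j) s := eventually_all.mpr hvl
  have hall2 : ∀ᶠ s in 𝓝[≠] z, ∑ j, g j * logDeriv (F j) s
      = cord F g z / (s - z) + ∑ j, g j * logDeriv (v j) s := by
    filter_upwards [hall] with s hs
    rw [cord, Finset.sum_div, ← Finset.sum_add_distrib]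
    refine Finset.sum_congr rfl (fun j _ => ?_)
    rw [hs j]
    ring
  have hall3 := (eventually_nhdsWithin_iff.mp hall2).eventually_nhds
  filter_upwards [hall3, hGan.eventually_analyticAt] with s a1 a2 hsz hsre
  have h1 : ∀ᶠ x in 𝓝[≠] s, cord F g z / (x - z) + (∑ j, g j * logDeriv (v j) x)
      + LSeries (cco c g) x = 0 := by
    filter_upwards [FAM_id hF hab hsre, mem_nhdsWithin_of_mem_nhds a1,
      mem_nhdsWithin_of_mem_nhds (isOpen_ne.mem_nhds hsz)] with x b1 b2 b3
    rw [← b2 b3]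
    exact b1
  have hLan : AnalyticAt ℂ (LSeries (cco c g)) s := by
    refine LSeries_analyticOnNhd (cco c g) s ?_
    refine lt_of_le_of_lt hab ?_
    exact_mod_cast hsre
  have h2 : ContinuousAt (fun x => cord F g z / (x - z) + (∑ j, g j * logDeriv (v j) x)
      + LSeries (cco c g) x) s := by
    refine (ContinuousAt.add ?_ a2.continuousAt).add hLan.continuousAt
    exact continuousAt_const.div (by fun_prop) (sub_ne_zero.mpr hsz)
  have h3 := h2.tendsto.mono_left (nhdsWithin_le_nhds (s := {s}ᶜ))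
  have h4 : Tendsto (fun _ : ℂ => (0 : ℂ)) (𝓝[≠] s) (𝓝 0) := tendsto_const_nhds
  exact tendsto_nhds_unique (h3.congr' h1) h4

/-- the order relation in the open half plane -/
theorem FAM_cord {ι : Type} [Fintype ι] {F : ι → ℂ → ℂ} {c : ι → ℕ → ℂ} {g : ι → ℂ}
    (hF : ∀ j, EulerFE (F j) (c j)) {β : ℝ}
    (hab : LSeries.abscissaOfAbsConv (cco c g) ≤ ((β : ℝ) : EReal)) {z : ℂ} (hz : β < z.re) :
    cord F g z = 0 := by
  obtain ⟨G, hG, hid⟩ := FAM_near hF hab z
  have hLan : AnalyticAt ℂ (LSeries (cco c g)) z := by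
    refine LSeries_analyticOnNhd (cco c g) z ?_
    refine lt_of_le_of_lt hab ?_
    exact_mod_cast hz
  have h1 : Tendsto (fun s => -((s - z) * (G s + LSeries (cco c g) s))) (𝓝[≠] z)
      (𝓝 (-((z - z) * (G z + LSeries (cco c g) z)))) := by
    have : ContinuousAt (fun s => -((s - z) * (G s + LSeries (cco c g) s))) z :=
      ((by fun_prop : ContinuousAt (fun s : ℂ => s - z) z).mul
        (hG.continuousAt.add hLan.continuousAt)).neg
    exact this.tendsto.mono_left nhdsWithin_le_nhds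
  have h2 : ∀ᶠ s in 𝓝[≠] z, -((s - z) * (G s + LSeries (cco c g) s)) = cord F g z := by
    filter_upwards [mem_nhdsWithin_of_mem_nhds hid, self_mem_nhdsWithin,
      mem_nhdsWithin_of_mem_nhds ((isOpen_lt continuous_const continuous_re).mem_nhds hz)]
      with s a1 a2 a3
    have hsz : s - z ≠ 0 := sub_ne_zero.mpr a2
    have h3 := a1 a2 a3
    have h4 : cord F g z / (s - z) * (s - z) = cord F g z := div_mul_cancel₀ _ hsz
    linear_combination -(s - z) * h3 + h4
  have h3 : Tendsto (fun _ : ℂ => cord F g z) (𝓝[≠] z) (𝓝 (cord F g z)) := tendsto_const_nhds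
  have h4 := tendsto_nhds_unique h3 (h1.congr' h2)
  simpa using h4

theorem p_FAM : T_FAM := by
  intro ι _ F c g hF hab
  refine ⟨fun t => ?_, fun z hz => FAM_cord hF hab hz⟩
  set z : ℂ := pt t with hzdef
  have hzre : z.re = 1 / 2 := by
    simp [hzdef, pt]
  obtain ⟨G, hG, hid⟩ := FAM_near hF hab z
  have htend : Tendsto (fun y : ℝ => z + (y : ℂ)) (𝓝[>] 0) (𝓝 z) := by
    have : Tendsto (fun y : ℝ => z + (y : ℂ)) (𝓝 0) (𝓝 (z + ((0 : ℝ) : ℂ))) := by
      exact (by fun_prop : Continuous (fun y : ℝ => z + (y : ℂ))).tendsto 0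
    simp only [Complex.ofReal_zero, add_zero] at this
    exact this.mono_left nhdsWithin_le_nhds
  have h2 : ∀ᶠ y : ℝ in 𝓝[>] 0, (y : ℂ) * LSeries (cco c g) (z + y) =
      -cord F g z - (y : ℂ) * G (z + y) := by
    filter_upwards [htend.eventually hid, self_mem_nhdsWithin] with y hy hy0
    have hy0' : (0 : ℝ) < y := hy0
    have hyc : (y : ℂ) ≠ 0 := by exact_mod_cast hy0'.ne'
    have hsz : z + (y : ℂ) ≠ z := by
      intro h
      exact hyc (by simpa using h)
    have hsre : (1 / 2 : ℝ) < (z + (y : ℂ)).re := by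
      rw [Complex.add_re, Complex.ofReal_re, hzre]
      linarith
    have h3 := hy hsz hsre
    have h4 : z + (y : ℂ) - z = y := by ring
    rw [h4] at h3
    have h5 : cord F g z / (y : ℂ) * y = cord F g z := div_mul_cancel₀ _ hyc
    linear_combination (y : ℂ) * h3 - h5
  have h3 : Tendsto (fun y : ℝ => -cord F g z - (y : ℂ) * G (z + y)) (𝓝[>] 0)
      (𝓝 (-cord F g z - 0 * G z)) := by
    refine tendsto_const_nhds.sub (Tendsto.mul ?_ ?_)
    · have : Tendsto (fun y : ℝ => (y : ℂ)) (𝓝 0) (𝓝 ((0 : ℝ) : ℂ)) :=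
        Complex.continuous_ofReal.tendsto 0
      simpa using this.mono_left nhdsWithin_le_nhds
    · exact hG.continuousAt.tendsto.comp htend
  have h4 := h3.congr' (EventuallyEq.symm h2)
  simpa using h4

end Pool.Agent.SelRel
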