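import Pool.Agent.SelRel.Targets

/-! Relations at primes in the Selberg class: block GLO. -/

set_option autoImplicit false

namespace Pool.Agent.SelRel

open Complex Filter Topology Set MeasureTheory Metric Pool.Agent.SelPole Pool.Agent.SelCR
open Pool.Agent.PrimesOnly

/-- the combination of logarithmic derivatives -/
noncomputable def GLO_D {ι : Type} [Fintype ι] (F : ι → ℂ → ℂ) (g : ι → ℂ) (s : ℂ) : ℂ :=
  ∑ j, g j * logDeriv (F j) s

theorem GLO_mer {ι : Type} [Fintype ι] {F : ι → ℂ → ℂ} {c : ι → ℕ → ℂ} {g : ι → ℂ}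
    (h : ∀ j, EulerFE (F j) (c j)) (z : ℂ) : MeromorphicAt (GLO_D F g) z := by
  have h1 : ∀ j ∈ (Finset.univ : Finset ι), MeromorphicAt (fun s => g j * logDeriv (F j) s) z := by
    intro j _
    exact (MeromorphicAt.const (g j) z).mul ((h j).meromorphicAt z).logDeriv
  exact MeromorphicAt.fun_sum h1

theorem GLO_eq {ι : Type} [Fintype ι] {F : ι → ℂ → ℂ} {c : ι → ℕ → ℂ} {g : ι → ℂ}
    (h : ∀ j, EulerFE (F j) (c j)) {s : ℂ} (hs : 1 < s.re) :
    GLO_D F g s = -LSeries (cco c g) s := by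
  have h1 : cco c g = ∑ j, (g j) • c j := by
    funext n
    simp [cco, Finset.sum_apply]
  rw [h1, LSeries_sum (fun j _ => ((h j).summ s hs).smul (g j)), ← Finset.sum_neg_distrib]
  unfold GLO_D
  refine Finset.sum_congr rfl (fun j _ => ?_)
  rw [LSeries_smul, logDeriv_apply, ((h j).ld s hs).deriv]
  have h2 := (h j).ne s hs
  field_simp

theorem GLO_local {F : ℂ → ℂ} {c : ℕ → ℂ} (h : EulerFE F c) (z : ℂ) :
    Tendsto (fun s => (s - z) * logDeriv F s) (𝓝[≠] z) (𝓝 (od F z : ℂ)) := by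
  obtain ⟨n, u, hn, hu, hu0, hF⟩ := h.local_form z
  have hod : od F z = n := by
    rw [od, hn, WithTop.untop₀_coe]
  rw [hod]
  have h1 : ∀ᶠ s in 𝓝 z, s ≠ z → F s = (s - z) ^ n * u s := eventually_nhdsWithin_iff.mp hF
  have h2 : ∀ᶠ s in 𝓝 z, (∀ᶠ w in 𝓝 s, w ≠ z → F w = (w - z) ^ n * u w) ∧
      AnalyticAt ℂ u s ∧ u s ≠ 0 := by
    filter_upwards [h1.eventually_nhds, hu.eventually_analyticAt,
      hu.continuousAt.eventually_ne hu0] with s a b c using ⟨a, b, c⟩
  have h3 : ∀ᶠ s in 𝓝[≠] z, (s - z) * logDeriv F s = n + (s - z) * logDeriv u s := by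
    filter_upwards [mem_nhdsWithin_of_mem_nhds h2, self_mem_nhdsWithin] with s hs hsz
    obtain ⟨ha, hb, hc⟩ := hs
    have hne : s - z ≠ 0 := sub_ne_zero.mpr hsz
    have h4 : F =ᶠ[𝓝 s] fun w => (w - z) ^ n * u w := by
      filter_upwards [ha, isOpen_ne.mem_nhds hsz] with w h5 h6
      exact h5 h6
    have h5 : logDeriv F s = logDeriv (fun w => (w - z) ^ n * u w) s := by
      rw [logDeriv_apply, logDeriv_apply, h4.deriv_eq, h4.eq_of_nhds]
    have h6 : DifferentiableAt ℂ (fun w : ℂ => (w - z) ^ n) s :=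
      DifferentiableAt.zpow (by fun_prop) (Or.inl hne)
    have h6' : (fun w : ℂ => (w - z) ^ n) s ≠ 0 := zpow_ne_zero _ hne
    rw [h5, logDeriv_mul s h6' hc h6 hb.differentiableAt]
    have h7 : HasDerivAt (fun w : ℂ => (w - z) ^ n) (n * (s - z) ^ (n - 1)) s := by
      have h8 := (hasDerivAt_zpow n (s - z) (Or.inl hne)).comp s
        ((hasDerivAt_id s).sub_const z)
      rw [mul_one] at h8
      exact h8
    have h8 : logDeriv (fun w : ℂ => (w - z) ^ n) s = n / (s - z) := by
      rw [logDeriv_apply, h7.deriv, zpow_sub_one₀ hne]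
      have h9 : (s - z) ^ n ≠ 0 := zpow_ne_zero _ hne
      field_simp
    rw [h8, mul_add, mul_div_cancel₀ _ hne]
  have h4 : Tendsto (fun s => (n : ℂ) + (s - z) * logDeriv u s) (𝓝[≠] z)
      (𝓝 ((n : ℂ) + (z - z) * logDeriv u z)) := by
    have h5 : ContinuousAt (fun s => (n : ℂ) + (s - z) * logDeriv u s) z := by
      have h6 : ContinuousAt (logDeriv u) z := by
        have h7 : AnalyticAt ℂ (fun s => deriv u s / u s) z := hu.deriv.div hu hu0
        exact h7.continuousAt
      have h8 : ContinuousAt (fun s : ℂ => s - z) z := by fun_prop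
      exact continuousAt_const.add (h8.mul h6)
    exact h5.tendsto.mono_left nhdsWithin_le_nhds
  rw [sub_self, zero_mul, add_zero] at h4
  refine h4.congr' ?_
  filter_upwards [h3] with s hs
  rw [hs]

theorem GLO_lim {ι : Type} [Fintype ι] {F : ι → ℂ → ℂ} {c : ι → ℕ → ℂ} {g : ι → ℂ}
    (h : ∀ j, EulerFE (F j) (c j)) (z : ℂ) :
    Tendsto (fun s => (s - z) * GLO_D F g s) (𝓝[≠] z) (𝓝 (cord F g z)) := by
  have h1 : Tendsto (fun s => ∑ j, g j * ((s - z) * logDeriv (F j) s)) (𝓝[≠] z)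
      (𝓝 (∑ j, g j * (od (F j) z : ℂ))) :=
    tendsto_finsetSum _ (fun j _ => (GLO_local (h j) z).const_mul (g j))
  refine h1.congr (fun s => ?_)
  unfold GLO_D
  rw [Finset.mul_sum]
  exact Finset.sum_congr rfl (fun j _ => by ring)

theorem p_GLO : T_GLO := by
  intro ι _ F c g h h0 z
  have hc : ∀ {s : ℂ}, 1 < s.re → GLO_D F g s = 0 := by
    intro s hs
    rw [GLO_eq h hs]
    have h1 : LSeries (cco c g) s = LSeries (0 : ℕ → ℂ) s := by
      refine LSeries_congr (fun {n} hn => ?_) s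
      rcases Nat.lt_or_ge n 2 with h2 | h2
      · have h3 : n = 1 := by omega
        subst h3
        simp [cco, fun j => (h j).one]
      · simpa using h0 n h2
    rw [h1, LSeries_zero]
    simp
  have hD : MeromorphicOn (GLO_D F g) univ := fun s _ => GLO_mer h s
  have htop : meromorphicOrderAt (GLO_D F g) z = ⊤ := by
    by_contra hne
    have h2 := hD.meromorphicOrderAt_ne_top_of_isPreconnected isPreconnected_univ
      (mem_univ z) (mem_univ (2 : ℂ)) hne
    apply h2
    rw [meromorphicOrderAt_eq_top_iff]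
    have h3 : {s : ℂ | 1 < s.re} ∈ 𝓝 (2 : ℂ) :=
      (isOpen_lt continuous_const Complex.continuous_re).mem_nhds (by simp)
    filter_upwards [mem_nhdsWithin_of_mem_nhds h3] with s hs using hc hs
  rw [meromorphicOrderAt_eq_top_iff] at htop
  have h4 : Tendsto (fun s => (s - z) * GLO_D F g s) (𝓝[≠] z) (𝓝 0) := by
    refine tendsto_const_nhds.congr' ?_
    filter_upwards [htop] with s hs
    rw [hs, mul_zero]
  exact tendsto_nhds_unique (GLO_lim h z) h4

end Pool.Agent.SelRel
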