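import Pool.Agent.SelRel.Targets

/-! GLU: a function that is locally the real part of an analytic function off a discrete set is
globally so on a convex open set. -/

set_option autoImplicit false

namespace Pool.Agent.SelRel

open Complex Filter Topology Set Metric

/-- the real part of a differentiable function vanishing on a punctured ball -/
theorem GLU_re_zero {g : ℂ → ℂ} {s : ℂ} {ρ : ℝ} (hg : DifferentiableOn ℂ g (ball s ρ))
    (h : ∀ w ∈ ball s ρ, w ≠ s → (g w).re = 0) : ∀ w ∈ ball s ρ, (g w).re = 0 := by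
  intro w hw
  by_cases hws : w = s
  · subst hws
    have h1 : Tendsto (fun u => (g u).re) (𝓝[≠] w) (𝓝 ((g w).re)) :=
      ((Complex.continuous_re.continuousAt.comp
        ((hg w hw).differentiableAt (isOpen_ball.mem_nhds hw)).continuousAt).tendsto).mono_left
        nhdsWithin_le_nhds
    have h2 : (fun u => (g u).re) =ᶠ[𝓝[≠] w] fun _ => (0 : ℝ) := by
      filter_upwards [self_mem_nhdsWithin, mem_nhdsWithin_of_mem_nhds (isOpen_ball.mem_nhds hw)]
        with u a1 a2
      exact h u a2 a1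
    exact tendsto_nhds_unique (h1.congr' h2) tendsto_const_nhds
  · exact h w hw hws

/-- such a function is constant -/
theorem GLU_const {g : ℂ → ℂ} {s : ℂ} {ρ : ℝ} (hρ : 0 < ρ) (hg : DifferentiableOn ℂ g (ball s ρ))
    (h : ∀ w ∈ ball s ρ, w ≠ s → (g w).re = 0) : ∀ w ∈ ball s ρ, g w = g s := by
  have h1 : AnalyticOnNhd ℂ g (ball s ρ) := hg.analyticOnNhd isOpen_ball
  obtain ⟨c, hc⟩ := h1.eq_const_of_re_eq_const (GLU_re_zero hg h) isOpen_ball
    ((convex_ball s ρ).isConnected ⟨s, mem_ball_self hρ⟩)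
  intro w hw
  rw [hc w hw, hc s (mem_ball_self hρ)]

/-- its derivative at the centre is zero -/
theorem GLU_deriv {g : ℂ → ℂ} {s : ℂ} {ρ : ℝ} (hρ : 0 < ρ) (hg : DifferentiableOn ℂ g (ball s ρ))
    (h : ∀ w ∈ ball s ρ, w ≠ s → (g w).re = 0) : deriv g s = 0 := by
  have h1 : g =ᶠ[𝓝 s] fun _ => g s := by
    filter_upwards [isOpen_ball.mem_nhds (mem_ball_self hρ)] with w hw
    exact GLU_const hρ hg h w hw
  rw [h1.deriv_eq, deriv_const]

/-- two analytic functions with the same real part near `s` off `s` have the same derivative -/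
theorem GLU_deriv_eq {U : ℂ → ℝ} {f V : ℂ → ℂ} {s : ℂ} {ρ : ℝ} (hρ : 0 < ρ)
    (hf : DifferentiableOn ℂ f (ball s ρ)) (hV : DifferentiableOn ℂ V (ball s ρ))
    (h : ∀ w ∈ ball s ρ, w ≠ s → U w = (f w).re) (h' : ∀ w ∈ ball s ρ, w ≠ s → U w = (V w).re) :
    deriv f s = deriv V s := by
  have h1 : deriv (fun w => f w - V w) s = 0 := by
    refine GLU_deriv hρ (hf.sub hV) ?_
    intro w hw hws
    rw [Complex.sub_re, ← h w hw hws, ← h' w hw hws, sub_self]
  have h2 : DifferentiableAt ℂ f s :=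
    (hf s (mem_ball_self hρ)).differentiableAt (isOpen_ball.mem_nhds (mem_ball_self hρ))
  have h3 : DifferentiableAt ℂ V s :=
    (hV s (mem_ball_self hρ)).differentiableAt (isOpen_ball.mem_nhds (mem_ball_self hρ))
  have h4 : deriv (fun w => f w - V w) s = deriv f s - deriv V s := deriv_fun_sub h2 h3
  rw [h1] at h4
  exact (sub_eq_zero.mp h4.symm)

/-- **GLU** -/
theorem p_GLU : T_GLU := by
  intro U Q hQ hQc hQn hloc
  classical
  -- local data with balls inside `Q`
  have hloc2 : ∀ z : ℂ, ∃ (r : ℝ) (V : ℂ → ℂ), z ∈ Q → 0 < r ∧ ball z r ⊆ Q ∧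
      DifferentiableOn ℂ V (ball z r) ∧ ∀ s ∈ ball z r, s ≠ z → U s = (V s).re := by
    intro z
    by_cases hz : z ∈ Q
    · obtain ⟨r, V, hr, hV, hU⟩ := hloc z hz
      obtain ⟨r', hr', hsub⟩ := Metric.isOpen_iff.mp hQ z hz
      refine ⟨min r r', V, fun _ => ⟨lt_min hr hr', ?_, ?_, ?_⟩⟩
      · exact (ball_subset_ball (min_le_right _ _)).trans hsub
      · exact hV.mono (ball_subset_ball (min_le_left _ _))
      · intro s hs hsz
        exact hU s (ball_subset_ball (min_le_left _ _) hs) hsz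
    · exact ⟨1, fun _ => 0, fun h => absurd h hz⟩
  choose r V hrV using hloc2
  set K : ℂ → ℂ := fun z => deriv (V z) z with hK
  -- `K = deriv (V z)` on the ball of `z`
  have hKV : ∀ z ∈ Q, ∀ s ∈ ball z (r z), K s = deriv (V z) s := by
    intro z hz s hs
    obtain ⟨hr, hsub, hV, hU⟩ := hrV z hz
    obtain ⟨hr', hsub', hV', hU'⟩ := hrV s (hsub hs)
    by_cases hsz : s = z
    · subst hsz; rfl
    · have hpos : 0 < min (r s) (min (r z - dist s z) (dist s z)) := by
        refine lt_min hr' (lt_min ?_ (dist_pos.mpr hsz))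
        have := mem_ball.mp hs
        linarith
      have hb1 : ball s (min (r s) (min (r z - dist s z) (dist s z))) ⊆ ball s (r s) :=
        ball_subset_ball (min_le_left _ _)
      have hb2 : ball s (min (r s) (min (r z - dist s z) (dist s z))) ⊆ ball z (r z) := by
        refine (ball_subset_ball ((min_le_right _ _).trans (min_le_left _ _))).trans ?_
        intro w hw
        rw [mem_ball] at hw ⊢
        have := dist_triangle w s z
        linarith
      have hb3 : ∀ w ∈ ball s (min (r s) (min (r z - dist s z) (dist s z))), w ≠ z := by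
        intro w hw hwz
        subst hwz
        have h1 := mem_ball.mp hw
        have h2 : min (r s) (min (r w - dist s w) (dist s w)) ≤ dist s w :=
          (min_le_right _ _).trans (min_le_right _ _)
        rw [dist_comm] at h1
        linarith
      exact GLU_deriv_eq (U := U) hpos (hV'.mono hb1) (hV.mono hb2)
        (fun w hw hws => hU' w (hb1 hw) hws) (fun w hw _ => hU w (hb2 hw) (hb3 w hw))
  have hKd : DifferentiableOn ℂ K Q := by
    intro z hz
    obtain ⟨hr, hsub, hV, hU⟩ := hrV z hz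
    have h1 : K =ᶠ[𝓝 z] deriv (V z) := by
      filter_upwards [isOpen_ball.mem_nhds (mem_ball_self hr)] with s hs
      exact hKV z hz s hs
    have h2 : DifferentiableAt ℂ (deriv (V z)) z :=
      (hV.deriv isOpen_ball z (mem_ball_self hr)).differentiableAt
        (isOpen_ball.mem_nhds (mem_ball_self hr))
    exact (h1.differentiableAt_iff.mpr h2).differentiableWithinAt
  obtain ⟨f₀, hf₀'⟩ := hQc.exists_forall_hasDerivWithinAt hKd
  have hf₀ : ∀ z ∈ Q, HasDerivAt f₀ (K z) z := fun z hz =>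
    (hf₀' z hz).hasDerivAt (hQ.mem_nhds hz)
  have hf₀d : DifferentiableOn ℂ f₀ Q := fun z hz =>
    (hf₀ z hz).differentiableAt.differentiableWithinAt
  -- on the ball of `z`: `f₀ - V z` is constant
  have hfV : ∀ z ∈ Q, ∀ s ∈ ball z (r z), f₀ s - V z s = f₀ z - V z z := by
    intro z hz s hs
    obtain ⟨hr, hsub, hV, hU⟩ := hrV z hz
    have hd : DifferentiableOn ℂ (fun s => f₀ s - V z s) (ball z (r z)) :=
      (hf₀d.mono hsub).sub hV
    refine isOpen_ball.is_const_of_fderiv_eq_zero (convex_ball z (r z)).isPreconnected hd ?_ hs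
      (mem_ball_self hr)
    intro w hw
    have hVw : HasDerivAt (V z) (deriv (V z) w) w :=
      ((hV w hw).differentiableAt (isOpen_ball.mem_nhds hw)).hasDerivAt
    have h1 := (hf₀ w (hsub hw)).sub hVw
    rw [hKV z hz w hw, sub_self] at h1
    have h2 := h1.hasFDerivAt.fderiv
    have h3 : (fun s => f₀ s - V z s) = f₀ - V z := rfl
    rw [h3, h2]
    simp
  -- the constant
  set c : ℂ → ℝ := fun z => (V z z).re - (f₀ z).re with hc
  have hUc : ∀ z ∈ Q, ∀ s ∈ ball z (r z), s ≠ z → U s - (f₀ s).re = c z := by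
    intro z hz s hs hsz
    obtain ⟨hr, hsub, hV, hU⟩ := hrV z hz
    have h1 := congrArg Complex.re (hfV z hz s hs)
    rw [Complex.sub_re, Complex.sub_re] at h1
    rw [hU s hs hsz, hc]
    simp only
    linarith
  have hcc : ∀ z ∈ Q, ∀ s ∈ ball z (r z), c s = c z := by
    intro z hz s hs
    obtain ⟨hr, hsub, hV, hU⟩ := hrV z hz
    obtain ⟨hr', hsub', hV', hU'⟩ := hrV s (hsub hs)
    have h1 : ∀ᶠ w in 𝓝[≠] s, c s = U w - (f₀ w).re := by
      filter_upwards [self_mem_nhdsWithin,
        mem_nhdsWithin_of_mem_nhds (isOpen_ball.mem_nhds (mem_ball_self hr'))] with w a1 a2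
      exact (hUc s (hsub hs) w a2 a1).symm
    have h2 : ∀ᶠ w in 𝓝[≠] s, c z = U w - (f₀ w).re := by
      have h3 : ∀ᶠ w in 𝓝[≠] s, w ≠ z := by
        by_cases hsz : s = z
        · subst hsz; exact self_mem_nhdsWithin
        · exact mem_nhdsWithin_of_mem_nhds (isOpen_ne.mem_nhds hsz)
      filter_upwards [h3, mem_nhdsWithin_of_mem_nhds (isOpen_ball.mem_nhds hs)] with w a1 a2
      exact (hUc z hz w a2 a1).symm
    obtain ⟨w, a1, a2⟩ := (h1.and h2).exists
    rw [a1, a2]
  obtain ⟨c₀, hc₀⟩ : ∃ a, ∀ x ∈ Q, c x = a := by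
    have hev : ∀ z ∈ Q, c =ᶠ[𝓝 z] fun _ => c z := by
      intro z hz
      obtain ⟨hr, hsub, hV, hU⟩ := hrV z hz
      filter_upwards [isOpen_ball.mem_nhds (mem_ball_self hr)] with s hs
      exact hcc z hz s hs
    refine hQ.exists_is_const_of_fderiv_eq_zero (𝕜 := ℝ) hQc.isPreconnected ?_ ?_
    · intro z hz
      exact ((hev z hz).differentiableAt_iff.mpr
        (differentiableAt_const _)).differentiableWithinAt
    · intro z hz
      rw [(hev z hz).fderiv_eq, fderiv_fun_const]
  have hfan : AnalyticOnNhd ℂ (fun s => f₀ s + (c₀ : ℂ)) Q :=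
    (hf₀d.add_const (c₀ : ℂ)).analyticOnNhd hQ
  have hUf : ∀ z ∈ Q, ∀ s ∈ ball z (r z), s ≠ z → U s = (f₀ s + (c₀ : ℂ)).re := by
    intro z hz s hs hsz
    rw [Complex.add_re, Complex.ofReal_re, ← hc₀ z hz, ← hUc z hz s hs hsz]
    ring
  refine ⟨fun s => f₀ s + (c₀ : ℂ), hfan, ?_, ?_⟩
  · intro z hz
    filter_upwards [self_mem_nhdsWithin,
      mem_nhdsWithin_of_mem_nhds (isOpen_ball.mem_nhds (mem_ball_self (hrV z hz).1))] with s a1 a2
    exact hUf z hz s a2 a1
  · intro z hz r' V' hr' hV' hU'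
    obtain ⟨hr, hsub, hV, hU⟩ := hrV z hz
    have hpos : 0 < min (r z) r' := lt_min hr hr'
    have hb1 : ball z (min (r z) r') ⊆ ball z (r z) := ball_subset_ball (min_le_left _ _)
    have hb2 : ball z (min (r z) r') ⊆ ball z r' := ball_subset_ball (min_le_right _ _)
    refine GLU_deriv_eq (U := U) hpos ?_ (hV'.mono hb2)
      (fun w hw hws => hUf z hz w (hb1 hw) hws) (fun w hw hws => hU' w (hb2 hw) hws)
    exact (hfan.differentiableOn).mono (hb1.trans hsub)

end Pool.Agent.SelRel
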