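import Pool.Agent.SelRel.Targets

/-! Growth of an analytic function from the circle averages of its real part. -/

set_option autoImplicit false

namespace Pool.Agent.SelRel

open Complex Filter Topology Set Metric Real MeromorphicOn
open InnerProductSpace
open Pool.Agent.SelPole Pool.Agent.SelCR

/-- the Poisson step -/
theorem GRO_poisson {f : ℂ → ℂ} {c : ℂ} {ρ : ℝ} (hρ : 0 < ρ)
    (hf : AnalyticOnNhd ℂ f (closedBall c ρ)) {w : ℂ} (hw : w ∈ ball c ρ) :
    |(f w).re| ≤ ((ρ + ‖w - c‖) / (ρ - ‖w - c‖)) *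
      circleAverage (fun z => |(f z).re|) c ρ := by
  have hharm : HarmonicOnNhd (fun z => (f z).re) (closedBall c ρ) :=
    fun z hz => (hf z hz).harmonicAt_re
  have hmean := hharm.circleAverage_poissonKernel_smul hw
  have hwn : ‖w - c‖ < ρ := by rwa [mem_ball, dist_eq_norm] at hw
  set κ : ℝ := (ρ + ‖w - c‖) / (ρ - ‖w - c‖) with hκ
  have hκ0 : 0 ≤ κ := div_nonneg (by positivity) (by linarith)
  have hker : ∀ z ∈ sphere c ρ, |poissonKernel c w z| ≤ κ := by
    intro z hz
    have h1 := re_herglotzRieszKernel_le hz hw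
    have h2 := le_re_herglotzRieszKernel hz hw
    have h3 : poissonKernel c w z = ((z - c + (w - c)) / ((z - c) - (w - c))).re := by
      rw [poissonKernel_eq_re_herglotzRieszKernel]
      rfl
    rw [h3, abs_of_nonneg]
    · exact h1
    · refine le_trans ?_ h2
      exact div_nonneg (by linarith) (by positivity)
  have hcf : ContinuousOn (fun z => (f z).re) (sphere c ρ) := fun z hz =>
    (Complex.continuous_re.continuousAt.comp
      (hf z (sphere_subset_closedBall hz)).continuousAt).continuousWithinAt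
  have iH : CircleIntegrable (fun z => |(f z).re|) c ρ :=
    ContinuousOn.circleIntegrable hρ.le hcf.abs
  calc |(f w).re| = |circleAverage (poissonKernel c w • fun z => (f z).re) c ρ| := by
        rw [hmean]
    _ ≤ circleAverage (fun z => |(poissonKernel c w • fun z => (f z).re) z|) c ρ :=
        abs_circleAverage_le_circleAverage_abs
    _ ≤ circleAverage (fun z => κ • |(f z).re|) c ρ := by
        refine circleAverage_mono ?_ iH.const_smul (fun z hz => ?_)
        · apply ContinuousOn.circleIntegrable hρ.le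
          have h2 : ContinuousOn (poissonKernel c w) (sphere c ρ) := by
            rw [poissonKernel_eq_re_herglotzRieszKernel]
            have h3 := continuousOn_herglotzRieszKernel_sphere hw
            rw [abs_of_pos hρ] at h3
            exact Complex.continuous_re.comp_continuousOn h3
          exact (h2.smul hcf).abs
        · rw [abs_of_pos hρ] at hz
          simp only [Pi.smul_apply', smul_eq_mul, abs_mul]
          exact mul_le_mul_of_nonneg_right (hker z hz) (abs_nonneg _)
    _ = κ * circleAverage (fun z => |(f z).re|) c ρ := by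
        rw [circleAverage_fun_smul]; rfl

/-- equal averages -/
theorem GRO_avg {f : ℂ → ℂ} {U : ℂ → ℝ} {c : ℂ} {ρ : ℝ} (hρ : 0 < ρ)
    (h : ∀ z ∈ sphere c ρ, ∀ᶠ s in 𝓝[≠] z, U s = (f s).re) :
    circleAverage (fun z => |(f z).re|) c ρ = circleAverage (fun z => |U z|) c ρ := by
  refine circleAverage_congr_codiscreteWithin ?_ hρ.ne'
  rw [abs_of_pos hρ]
  show {z | |(f z).re| = |U z|} ∈ codiscreteWithin (sphere c ρ)
  rw [mem_codiscreteWithin]
  intro z hz
  rw [Filter.disjoint_principal_right]
  filter_upwards [h z hz] with s hs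
  simp [hs]

theorem p_GRO : T_GRO := by
  intro f U hf hU A K hA hK h1 h2
  -- radii
  set ρ : ℝ := 15 / 8 with hρ
  set r₁ : ℝ := 29 / 16 with hr₁
  set r : ℝ := 7 / 4 with hr
  have hρ0 : 0 < ρ := by rw [hρ]; norm_num
  have hr₁0 : 0 < r₁ := by rw [hr₁]; norm_num
  have hr0 : 0 < r := by rw [hr]; norm_num
  have hr₁ρ : r₁ < ρ := by rw [hr₁, hρ]; norm_num
  have hrr₁ : r < r₁ := by rw [hr₁, hr]; norm_num
  set κ : ℝ := (ρ + r₁) / (ρ - r₁) with hκ
  have hκ0 : 0 ≤ κ := div_nonneg (by linarith) (by linarith)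
  set K₂ : ℝ := 2 * (2 * (κ * K) + 1) * r / (r₁ - r) with hK₂
  have hK₂0 : 0 ≤ K₂ := div_nonneg (by positivity) (by linarith)
  refine ⟨K₂ + K, by positivity, ?_⟩
  intro s hs1 hs2' hs3
  set t : ℝ := s.im with ht
  have ht1 : 1 ≤ t := by linarith
  have htA : 1 ≤ t ^ A := Real.one_le_rpow ht1 hA
  set c : ℂ := ctr t with hc
  have hcr : c.re = 2 := by simp [hc, ctr]
  have hci : c.im = t := by simp [hc, ctr]
  have hball : ∀ z ∈ closedBall c ρ, z ∈ Qd := by
    intro z hz
    rw [mem_closedBall, dist_eq_norm] at hz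
    have h3 := (Complex.abs_re_le_norm (z - c)).trans hz
    have h4 := (Complex.abs_im_le_norm (z - c)).trans hz
    rw [Complex.sub_re, hcr, abs_le] at h3
    rw [Complex.sub_im, hci, abs_le] at h4
    rw [hρ] at h3 h4
    exact ⟨by linarith [h3.1], by linarith [h4.1]⟩
  have hfb : AnalyticOnNhd ℂ f (closedBall c ρ) := fun z hz => hf z (hball z hz)
  have havg : circleAverage (fun z => |(f z).re|) c ρ ≤ K * t ^ A := by
    rw [GRO_avg (U := U) hρ0 fun z hz => hU z (hball z (sphere_subset_closedBall hz))]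
    exact (h1 t hs3).2
  have havg0 : 0 ≤ circleAverage (fun z => |(f z).re|) c ρ := by
    exact circleAverage_nonneg_of_nonneg fun z _ => abs_nonneg _
  have hre : ∀ w ∈ ball c r₁, |(f w).re| ≤ κ * (K * t ^ A) := by
    intro w hw
    have hwρ : w ∈ ball c ρ := ball_subset_ball hr₁ρ.le hw
    refine (GRO_poisson hρ0 hfb hwρ).trans ?_
    have h4 : ‖w - c‖ ≤ r₁ := by
      rw [mem_ball, dist_eq_norm] at hw
      exact hw.le
    refine mul_le_mul ?_ havg havg0 hκ0
    rw [hκ]
    apply div_le_div₀ (by linarith) (by linarith) (by linarith) (by linarith)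
  -- Borel-Caratheodory
  set g : ℂ → ℂ := fun z => f (c + z) - f c with hg
  set Mb : ℝ := 2 * (κ * (K * t ^ A)) + 1 with hMb
  have hMb0 : 0 < Mb := by positivity
  have hgd : DifferentiableOn ℂ g (ball 0 r₁) := by
    intro z hz
    have h3 : c + z ∈ Qd := by
      apply hball
      rw [mem_closedBall, dist_eq_norm, add_sub_cancel_left]
      rw [mem_ball, dist_zero_right] at hz
      linarith
    have h4 : DifferentiableAt ℂ (fun z => f (c + z)) z :=
      (hf _ h3).differentiableAt.comp z (by fun_prop)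
    exact (h4.sub_const _).differentiableWithinAt
  have hgm : Set.MapsTo g (ball 0 r₁) {z | z.re ≤ Mb} := by
    intro z hz
    have h3 : c + z ∈ ball c r₁ := by
      rw [mem_ball, dist_eq_norm, add_sub_cancel_left]
      rwa [mem_ball, dist_zero_right] at hz
    have h4 := hre _ h3
    have h5 := hre c (mem_ball_self hr₁0)
    rw [abs_le] at h4 h5
    simp only [hg, mem_ofPred_eq, Complex.sub_re]
    linarith [h4.2, h5.1]
  have h3 : s - c = ((s.re - 2 : ℝ) : ℂ) := by
    apply Complex.ext
    · simp [hcr]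
    · rw [Complex.sub_im, hci, Complex.ofReal_im, ht, sub_self]
  have hswr : ‖s - c‖ ≤ r := by
    rw [h3, Complex.norm_real, Real.norm_eq_abs, abs_of_nonpos (by linarith)]
    rw [hr]
    linarith
  have hsw : s - c ∈ ball (0 : ℂ) r₁ := by
    rw [mem_ball, dist_zero_right]
    linarith
  have hbc := Complex.borelCaratheodory_zero hMb0 hgd hgm hr₁0 hsw (by simp [hg])
  have h3 : g (s - c) = f s - f c := by simp [hg]
  rw [h3] at hbc
  have h4 : 2 * Mb * ‖s - c‖ / (r₁ - ‖s - c‖) ≤ 2 * Mb * r / (r₁ - r) := by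
    apply div_le_div₀ (by positivity) (by gcongr) (by linarith) (by linarith)
  have h5 : 2 * Mb * r / (r₁ - r) ≤ K₂ * t ^ A := by
    rw [hK₂, div_mul_eq_mul_div]
    apply div_le_div_of_nonneg_right _ (by linarith)
    have h6 : Mb ≤ (2 * (κ * K) + 1) * t ^ A := by
      have : (2 * (κ * K) + 1) * t ^ A = 2 * (κ * (K * t ^ A)) + t ^ A := by ring
      rw [hMb, this]
      linarith
    calc 2 * Mb * r ≤ 2 * ((2 * (κ * K) + 1) * t ^ A) * r := by gcongr
      _ = _ := by ring
  calc ‖f s‖ = ‖(f s - f c) + f c‖ := by rw [sub_add_cancel]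
    _ ≤ ‖f s - f c‖ + ‖f c‖ := norm_add_le _ _
    _ ≤ K₂ * t ^ A + K * t ^ A := add_le_add ((hbc.trans h4).trans h5) (h2 t hs3)
    _ = (K₂ + K) * t ^ A := by ring

end Pool.Agent.SelRel
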