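import Pool.Agent.SelRel.Targets
import Pool.Agent.PrimesOnly.L2

/-! The weights on the line are square summable. -/

set_option autoImplicit false

namespace Pool.Agent.SelRel

open Complex Filter Topology Set MeasureTheory Metric Pool.Agent.SelPole Pool.Agent.SelCR
open Pool.Agent.PrimesOnly
open scoped ComplexConjugate ArithmeticFunction.vonMangoldt

theorem L2_summable {δ : ℕ → ℂ}
    (hs : ∀ h : ℝ, 0 < h → h ≤ 1 →
      Summable (fun n : ℕ => PrimesOnly.sq n * ‖δ n‖ ^ 2 * (n : ℝ) ^ (-(1 / 2 + h)))) :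
    ∀ s : ℂ, 1 / 2 < s.re → LSeriesSummable (fun n => (PrimesOnly.sq n : ℂ) * δ n) s := by
  intro s hs2
  set h : ℝ := min 1 (s.re - 1 / 2) with hh
  have h0 : 0 < h := lt_min one_pos (by linarith)
  have h1 : h ≤ 1 := min_le_left _ _
  have h2 : 1 / 2 + h ≤ s.re := by
    have := min_le_right 1 (s.re - 1 / 2)
    linarith
  have hy2 : 0 < 1 / 2 + h := by linarith
  have hb : LSeriesSummable (fun n => (PrimesOnly.sq n : ℂ) * δ n) ((1 / 2 + h : ℝ) : ℂ) := by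
    have hq : LSeriesSummable (fun n => (PrimesOnly.sq n : ℂ)) ((1 / 2 + h : ℝ) : ℂ) :=
      p_SQ.1 _ (by rw [Complex.ofReal_re]; linarith)
    have hq3 : Summable (fun n : ℕ => PrimesOnly.sq n * (n : ℝ) ^ (-(1 / 2 + h))) := by
      have h3 : ∀ n, LSeries.term (fun n => (PrimesOnly.sq n : ℂ)) ((1 / 2 + h : ℝ) : ℂ) n =
          ((PrimesOnly.sq n * (n : ℝ) ^ (-(1 / 2 + h)) : ℝ) : ℂ) :=
        fun n => LB_term PrimesOnly.sq _ hy2 n
      have h4 : Summable (fun n => ((PrimesOnly.sq n * (n : ℝ) ^ (-(1 / 2 + h)) : ℝ) : ℂ)) := by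
        refine hq.congr fun n => ?_
        rw [h3]
      exact Complex.summable_ofReal.mp h4
    refine Summable.of_norm ?_
    refine Summable.of_nonneg_of_le (fun n => norm_nonneg _) (fun n => ?_)
      (hq3.add (hs h h0 h1))
    rcases eq_or_ne n 0 with rfl | hn
    · rw [LSeries.term_zero, norm_zero]
      have := LB_sq_nonneg 0
      positivity
    · rw [LSeries.norm_term_eq, if_neg hn, Complex.ofReal_re, norm_mul, Complex.norm_real,
        Real.norm_of_nonneg (LB_sq_nonneg n), Real.rpow_neg (by positivity), div_eq_mul_inv]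
      have h5 : ‖δ n‖ ≤ 1 + ‖δ n‖ ^ 2 := by nlinarith [sq_nonneg (‖δ n‖ - 1), norm_nonneg (δ n)]
      have h6 : 0 ≤ PrimesOnly.sq n := LB_sq_nonneg n
      calc PrimesOnly.sq n * ‖δ n‖ * ((n : ℝ) ^ (1 / 2 + h))⁻¹
          ≤ PrimesOnly.sq n * (1 + ‖δ n‖ ^ 2) * ((n : ℝ) ^ (1 / 2 + h))⁻¹ := by gcongr
        _ = _ := by ring
  refine hb.of_re_le_re ?_
  rw [Complex.ofReal_re]
  exact h2

/-- the inequality for the series -/
theorem L2_ineq {δ : ℕ → ℂ} {y : ℝ} (hy : 0 < y)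
    (hd : Summable (fun n : ℕ => PrimesOnly.sq n * ‖δ n‖ ^ 2 * (n : ℝ) ^ (-(1 / 2 + y))))
    (hgs : ∀ s : ℂ, 1 / 2 < s.re → LSeriesSummable (fun n => (PrimesOnly.sq n : ℂ) * δ n) s)
    (S : Finset ℝ) (x : ℝ → ℂ) {θ : ℝ} (hθ : 0 < θ) :
    ‖∑ t ∈ S, x t * LSeries (fun n => (PrimesOnly.sq n : ℂ) * δ n)
        (((1 / 2 + y : ℝ) : ℂ) + (t : ℂ) * I)‖ ≤
      1 / 2 * (θ * (∑ s ∈ S, ∑ t ∈ S, x s * conj (x t) *
        LSeries (fun n => (PrimesOnly.sq n : ℂ))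
          (((1 / 2 + y : ℝ) : ℂ) + ((s - t : ℝ) : ℂ) * I)).re +
        1 / θ * ∑' n : ℕ, PrimesOnly.sq n * ‖δ n‖ ^ 2 * (n : ℝ) ^ (-(1 / 2 + y))) := by
  have hS := p_SQ.1
  set g : ℕ → ℂ := fun n => (PrimesOnly.sq n : ℂ) * δ n with hg
  set a : ℂ := ((1 / 2 + y : ℝ) : ℂ) with ha
  have hy2 : 0 < 1 / 2 + y := by linarith
  -- the quadratic series
  have hq1 : ∀ n, LSeries.term (fun n => (PrimesOnly.sq n : ℂ)) a n * ((‖tz S x n‖ ^ 2 : ℝ) : ℂ) =
      ((PrimesOnly.sq n * (n : ℝ) ^ (-(1 / 2 + y)) * ‖tz S x n‖ ^ 2 : ℝ) : ℂ) := by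
    intro n
    rw [ha, LB_term PrimesOnly.sq _ hy2]
    push_cast
    ring
  have hqs : HasSum (fun n => LSeries.term (fun n => (PrimesOnly.sq n : ℂ)) a n *
      ((‖tz S x n‖ ^ 2 : ℝ) : ℂ))
      (∑ s ∈ S, ∑ t ∈ S, x s * conj (x t) *
        LSeries (fun n => (PrimesOnly.sq n : ℂ)) (a + ((s - t : ℝ) : ℂ) * I)) := by
    have : (fun n => LSeries.term (fun n => (PrimesOnly.sq n : ℂ)) a n *
        ((‖tz S x n‖ ^ 2 : ℝ) : ℂ)) =
        fun n => ∑ s ∈ S, ∑ t ∈ S, x s * conj (x t) *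
          LSeries.term (fun n => (PrimesOnly.sq n : ℂ)) (a + ((s - t : ℝ) : ℂ) * I) n := by
      funext n
      rw [sum_term_sq]
    rw [this]
    refine hasSum_sum fun s _ => hasSum_sum fun t _ => ?_
    exact ((summable_shift hS hy (s - t)).hasSum).mul_left _
  have hq2 : HasSum (fun n : ℕ => PrimesOnly.sq n * (n : ℝ) ^ (-(1 / 2 + y)) * ‖tz S x n‖ ^ 2)
      (∑ s ∈ S, ∑ t ∈ S, x s * conj (x t) *
        LSeries (fun n => (PrimesOnly.sq n : ℂ)) (a + ((s - t : ℝ) : ℂ) * I)).re := by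
    have h1 := Complex.hasSum_re hqs
    simp only [hq1, Complex.ofReal_re] at h1
    exact h1
  have hq3 : HasSum (fun n : ℕ => PrimesOnly.sq n * ‖δ n‖ ^ 2 * (n : ℝ) ^ (-(1 / 2 + y)))
      (∑' n : ℕ, PrimesOnly.sq n * ‖δ n‖ ^ 2 * (n : ℝ) ^ (-(1 / 2 + y))) := hd.hasSum
  -- the linear series
  have hl : HasSum (fun n => LSeries.term g a n * tz S x n)
      (∑ t ∈ S, x t * LSeries g (a + (t : ℂ) * I)) := by
    have : (fun n => LSeries.term g a n * tz S x n) =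
        fun n => ∑ t ∈ S, x t * LSeries.term g (a + (t : ℂ) * I) n := by
      funext n
      rw [sum_term]
    rw [this]
    refine hasSum_sum fun t _ => ?_
    exact ((summable_shift hgs hy t).hasSum).mul_left _
  have hb : ∀ n, ‖LSeries.term g a n * tz S x n‖ ≤
      1 / 2 * (θ * (PrimesOnly.sq n * (n : ℝ) ^ (-(1 / 2 + y)) * ‖tz S x n‖ ^ 2) +
        1 / θ * (PrimesOnly.sq n * ‖δ n‖ ^ 2 * (n : ℝ) ^ (-(1 / 2 + y)))) := by
    intro n
    have h1 : ‖LSeries.term g a n‖ ≤ PrimesOnly.sq n * (n : ℝ) ^ (-(1 / 2 + y)) * ‖δ n‖ := by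
      rcases eq_or_ne n 0 with rfl | hn
      · rw [LSeries.term_zero, norm_zero]
        exact mul_nonneg (mul_nonneg (LB_sq_nonneg 0) (by positivity)) (norm_nonneg _)
      · rw [LSeries.norm_term_eq, if_neg hn, ha, Complex.ofReal_re, Real.rpow_neg (by positivity),
          hg, norm_mul, Complex.norm_real, Real.norm_of_nonneg (LB_sq_nonneg n), div_eq_mul_inv]
        exact le_of_eq (by ring)
    rw [norm_mul]
    have h2 : 0 ≤ PrimesOnly.sq n * (n : ℝ) ^ (-(1 / 2 + y)) :=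
      mul_nonneg (LB_sq_nonneg n) (by positivity)
    set w := PrimesOnly.sq n * (n : ℝ) ^ (-(1 / 2 + y)) with hw
    set z := ‖tz S x n‖ with hz
    set u := ‖δ n‖ with hu
    have hz0 : 0 ≤ z := norm_nonneg _
    have hu0 : 0 ≤ u := norm_nonneg _
    have h3 : u * z ≤ (θ * z ^ 2 + 1 / θ * u ^ 2) / 2 := by
      have h4 : 0 ≤ (θ * z - u) ^ 2 / θ := by positivity
      have h5 : (θ * z - u) ^ 2 / θ = θ * z ^ 2 + 1 / θ * u ^ 2 - 2 * (u * z) := by
        field_simp; ring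
      linarith
    calc ‖LSeries.term g a n‖ * z ≤ (w * u) * z := mul_le_mul_of_nonneg_right h1 hz0
      _ = w * (u * z) := by ring
      _ ≤ w * ((θ * z ^ 2 + 1 / θ * u ^ 2) / 2) := mul_le_mul_of_nonneg_left h3 h2
      _ = _ := by rw [hw]; ring
  have hr : HasSum (fun n : ℕ => 1 / 2 *
        (θ * (PrimesOnly.sq n * (n : ℝ) ^ (-(1 / 2 + y)) * ‖tz S x n‖ ^ 2) +
        1 / θ * (PrimesOnly.sq n * ‖δ n‖ ^ 2 * (n : ℝ) ^ (-(1 / 2 + y)))))
      (1 / 2 * (θ * (∑ s ∈ S, ∑ t ∈ S, x s * conj (x t) *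
        LSeries (fun n => (PrimesOnly.sq n : ℂ)) (a + ((s - t : ℝ) : ℂ) * I)).re +
        1 / θ * ∑' n : ℕ, PrimesOnly.sq n * ‖δ n‖ ^ 2 * (n : ℝ) ^ (-(1 / 2 + y)))) :=
    ((hq2.mul_left θ).add (hq3.mul_left (1 / θ))).mul_left (1 / 2)
  rw [← hl.tsum_eq, ← hr.tsum_eq]
  have hn : Summable (fun n => ‖LSeries.term g a n * tz S x n‖) :=
    Summable.of_nonneg_of_le (fun n => norm_nonneg _) hb hr.summable
  exact (norm_tsum_le_tsum_norm hn).trans (hn.tsum_le_tsum hb hr.summable)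

/-- the square bound -/
theorem L2_core {e δ : ℕ → ℂ} {σ₀ K : ℝ} (hσ₀ : σ₀ < 1 / 2)
    (hE : LSeriesSummable (fun n => e n - (PrimesOnly.sq n : ℂ) * δ n) σ₀)
    (hK : ∀ h : ℝ, 0 < h → h ≤ 1 →
      Summable (fun n : ℕ => PrimesOnly.sq n * ‖δ n‖ ^ 2 * (n : ℝ) ^ (-(1 / 2 + h))) ∧
      h * ∑' n : ℕ, PrimesOnly.sq n * ‖δ n‖ ^ 2 * (n : ℝ) ^ (-(1 / 2 + h)) ≤ K) {o : ℝ → ℂ}
    (ho : ∀ t : ℝ, Tendsto (fun y : ℝ => (y : ℂ) * LSeries e (1 / 2 + y + t * I)) (𝓝[>] 0)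
      (𝓝 (o t))) (S : Finset ℝ) : ∑ t ∈ S, ‖o t‖ ^ 2 ≤ K := by
  set g : ℕ → ℂ := fun n => (PrimesOnly.sq n : ℂ) * δ n with hg
  set f : ℕ → ℂ := fun n => e n - (PrimesOnly.sq n : ℂ) * δ n with hf
  have heg : f + g = e := by
    funext n
    simp [hf, hg]
  have hgs : ∀ s : ℂ, 1 / 2 < s.re → LSeriesSummable g s :=
    L2_summable fun h h0 h1 => (hK h h0 h1).1
  have hK0 : 0 ≤ K := by
    refine le_trans (mul_nonneg one_pos.le (tsum_nonneg fun n => ?_)) (hK 1 one_pos le_rfl).2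
    have := LB_sq_nonneg n
    positivity
  have hEs : ∀ s : ℂ, 1 / 2 < s.re → LSeriesSummable f s := by
    intro s hs
    refine hE.of_re_le_re ?_
    rw [Complex.ofReal_re]
    linarith
  -- limits for `g`
  have hlim : ∀ t : ℝ, Tendsto (fun y : ℝ => (y : ℂ) *
      LSeries g (((1 / 2 + y : ℝ) : ℂ) + (t : ℂ) * I))
      (𝓝[>] 0) (𝓝 (o t)) := by
    intro t
    have h1 := (ho t).sub (small_part hσ₀ hE t)
    rw [sub_zero] at h1
    refine h1.congr' ?_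
    filter_upwards [self_mem_nhdsWithin] with y hy
    have hy' : 0 < y := hy
    have e1 : (((1 / 2 + y : ℝ) : ℂ) + (t : ℂ) * I) = 1 / 2 + y + t * I := by push_cast; ring
    have hre : 1 / 2 < (1 / 2 + (y : ℂ) + t * I).re := by simp; exact hy'
    rw [e1, ← mul_sub]
    congr 1
    have h2 := LSeries_add (hEs _ hre) (hgs _ hre)
    rw [heg] at h2
    rw [h2]
    ring
  have hsq : ∀ t : ℝ, Tendsto (fun y : ℝ => (y : ℂ) *
      LSeries (fun n => (PrimesOnly.sq n : ℂ)) (((1 / 2 + y : ℝ) : ℂ) + (t : ℂ) * I))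
      (𝓝[>] 0) (𝓝 (if t = 0 then 1 else 0)) := by
    intro t
    refine (p_SQ.2 t).congr fun y => ?_
    congr 2
    push_cast
    ring
  set A : ℝ := ∑ t ∈ S, ‖o t‖ ^ 2 with hA
  have hA0 : 0 ≤ A := Finset.sum_nonneg fun t _ => by positivity
  set x : ℝ → ℂ := fun t => conj (o t) with hx
  have hL : Tendsto (fun y : ℝ => ‖∑ t ∈ S, x t * ((y : ℂ) *
      LSeries g (((1 / 2 + y : ℝ) : ℂ) + (t : ℂ) * I))‖) (𝓝[>] 0) (𝓝 A) := by
    have h1 : Tendsto (fun y : ℝ => ∑ t ∈ S, x t * ((y : ℂ) *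
      LSeries g (((1 / 2 + y : ℝ) : ℂ) + (t : ℂ) * I))) (𝓝[>] 0) (𝓝 (∑ t ∈ S, x t * o t)) :=
      tendsto_finsetSum _ fun t _ => (hlim t).const_mul (x t)
    have h2 : ∑ t ∈ S, x t * o t = (A : ℂ) := by
      rw [hA]
      push_cast
      refine Finset.sum_congr rfl fun t _ => ?_
      rw [hx]
      simp only
      rw [mul_comm, Complex.mul_conj, Complex.normSq_eq_norm_sq]
      push_cast
      rfl
    rw [h2] at h1
    have h3 := h1.norm
    rwa [Complex.norm_real, Real.norm_of_nonneg hA0] at h3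
  have hQ : Tendsto (fun y : ℝ => (∑ s ∈ S, ∑ t ∈ S, x s * conj (x t) * ((y : ℂ) *
        LSeries (fun n => (PrimesOnly.sq n : ℂ))
          (((1 / 2 + y : ℝ) : ℂ) + ((s - t : ℝ) : ℂ) * I))).re)
      (𝓝[>] 0) (𝓝 A) := by
    have h1 : Tendsto (fun y : ℝ => ∑ s ∈ S, ∑ t ∈ S, x s * conj (x t) * ((y : ℂ) *
        LSeries (fun n => (PrimesOnly.sq n : ℂ))
          (((1 / 2 + y : ℝ) : ℂ) + ((s - t : ℝ) : ℂ) * I)))
        (𝓝[>] 0) (𝓝 (∑ s ∈ S, ∑ t ∈ S, x s * conj (x t) * (if s - t = 0 then 1 else 0))) :=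
      tendsto_finsetSum _ fun s _ => tendsto_finsetSum _ fun t _ =>
        (hsq (s - t)).const_mul _
    have h2 : ∑ s ∈ S, ∑ t ∈ S, x s * conj (x t) * (if s - t = 0 then (1 : ℂ) else 0)
        = (A : ℂ) := by
      rw [hA]
      push_cast
      refine Finset.sum_congr rfl fun s hs => ?_
      rw [Finset.sum_eq_single s]
      · rw [sub_self, if_pos rfl, mul_one, hx]
        simp only
        rw [Complex.conj_conj, mul_comm, Complex.mul_conj, Complex.normSq_eq_norm_sq]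
        push_cast
        rfl
      · intro t _ hts
        rw [if_neg (sub_ne_zero.mpr (Ne.symm hts)), mul_zero]
      · intro h
        exact absurd hs h
    rw [h2] at h1
    exact (Complex.continuous_re.tendsto _).comp h1
  have key : ∀ θ : ℝ, 0 < θ → A ≤ 1 / 2 * (θ * A + 1 / θ * K) := by
    intro θ hθ
    have hR : Tendsto (fun y : ℝ => 1 / 2 * (θ * (∑ s ∈ S, ∑ t ∈ S, x s * conj (x t) * ((y : ℂ) *
        LSeries (fun n => (PrimesOnly.sq n : ℂ))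
          (((1 / 2 + y : ℝ) : ℂ) + ((s - t : ℝ) : ℂ) * I))).re +
        1 / θ * K))
        (𝓝[>] 0) (𝓝 (1 / 2 * (θ * A + 1 / θ * K))) :=
      ((hQ.const_mul θ).add tendsto_const_nhds).const_mul (1 / 2)
    refine le_of_tendsto_of_tendsto hL hR ?_
    have hev : ∀ᶠ y : ℝ in 𝓝[>] 0, y ≤ 1 := by
      have : ∀ᶠ y : ℝ in 𝓝 0, y ≤ 1 := Iic_mem_nhds one_pos
      exact this.filter_mono nhdsWithin_le_nhds
    filter_upwards [self_mem_nhdsWithin, hev] with y hy hy1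
    have hy' : (0 : ℝ) < y := hy
    have h1 := L2_ineq hy' (hK y hy' hy1).1 hgs S x hθ
    have h2 := (hK y hy' hy1).2
    have e1 : ∑ t ∈ S, x t * ((y : ℂ) * LSeries g (((1 / 2 + y : ℝ) : ℂ) + (t : ℂ) * I)) =
        (y : ℂ) * ∑ t ∈ S, x t * LSeries g (((1 / 2 + y : ℝ) : ℂ) + (t : ℂ) * I) := by
      rw [Finset.mul_sum]
      exact Finset.sum_congr rfl fun t _ => by ring
    have e2 : ∑ s ∈ S, ∑ t ∈ S, x s * conj (x t) * ((y : ℂ) *
        LSeries (fun n => (PrimesOnly.sq n : ℂ))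
          (((1 / 2 + y : ℝ) : ℂ) + ((s - t : ℝ) : ℂ) * I)) =
        (y : ℂ) * ∑ s ∈ S, ∑ t ∈ S, x s * conj (x t) *
        LSeries (fun n => (PrimesOnly.sq n : ℂ))
          (((1 / 2 + y : ℝ) : ℂ) + ((s - t : ℝ) : ℂ) * I) := by
      rw [Finset.mul_sum]
      refine Finset.sum_congr rfl fun s _ => ?_
      rw [Finset.mul_sum]
      exact Finset.sum_congr rfl fun t _ => by ring
    rw [e1, e2, norm_mul, Complex.norm_real, Real.norm_of_nonneg hy'.le, Complex.re_ofReal_mul]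
    set TT := ∑' n : ℕ, PrimesOnly.sq n * ‖δ n‖ ^ 2 * (n : ℝ) ^ (-(1 / 2 + y)) with hTT
    calc y * ‖∑ t ∈ S, x t * LSeries g (((1 / 2 + y : ℝ) : ℂ) + (t : ℂ) * I)‖ ≤ y * _ :=
          mul_le_mul_of_nonneg_left h1 hy'.le
      _ = 1 / 2 * (θ * (y * (∑ s ∈ S, ∑ t ∈ S, x s * conj (x t) *
        LSeries (fun n => (PrimesOnly.sq n : ℂ))
          (((1 / 2 + y : ℝ) : ℂ) + ((s - t : ℝ) : ℂ) * I)).re) +
        1 / θ * (y * TT)) := by ring
      _ ≤ _ := by gcongr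
  rcases eq_or_lt_of_le hA0 with h0 | h0
  · rw [← h0]
    exact hK0
  · have h2 : 0 < Real.sqrt A := Real.sqrt_pos.mpr h0
    have h3 : Real.sqrt A * Real.sqrt A = A := Real.mul_self_sqrt hA0
    have hKK : Real.sqrt K * Real.sqrt K = K := Real.mul_self_sqrt hK0
    by_contra hcon
    push Not at hcon
    rcases eq_or_lt_of_le hK0 with hk | hk
    · have h5 := key 1 one_pos
      rw [← hk] at h5
      linarith
    · have hk2 : 0 < Real.sqrt K := Real.sqrt_pos.mpr hk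
      have h5 := key (Real.sqrt K / Real.sqrt A) (by positivity)
      have h6 : Real.sqrt K / Real.sqrt A * A = Real.sqrt K * Real.sqrt A := by
        rw [div_mul_eq_mul_div, div_eq_iff h2.ne']
        linear_combination (-Real.sqrt K) * h3
      have h7 : 1 / (Real.sqrt K / Real.sqrt A) * K = Real.sqrt K * Real.sqrt A := by
        rw [one_div_div, div_mul_eq_mul_div, div_eq_iff hk2.ne']
        linear_combination (-Real.sqrt A) * hKK
      rw [h6, h7] at h5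
      have h8 : Real.sqrt K < Real.sqrt A := Real.sqrt_lt_sqrt hK0 hcon
      have h9 : Real.sqrt A * Real.sqrt A ≤ Real.sqrt K * Real.sqrt A := by
        rw [h3]
        linarith
      exact absurd (le_of_mul_le_mul_right h9 h2) (not_le.mpr h8)

theorem p_L2 (hFAM : T_FAM) : T_L2 := by
  intro ι _ F c g hF hab d σ₀ K hσ₀ hE hK
  refine ⟨K, fun S => ?_⟩
  have h1 := (hFAM hF hab).1
  have h2 : ∀ t : ℝ, Tendsto (fun y : ℝ => (y : ℂ) * LSeries (cco c g) (1 / 2 + y + t * I)) (𝓝[>] 0)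
      (𝓝 (-cord F g (pt t))) := by
    intro t
    refine (h1 t).congr fun y => ?_
    congr 2
    unfold pt
    ring
  have h3 := L2_core hσ₀ hE hK h2 S
  simpa using h3

end Pool.Agent.SelRel
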