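import Pool.Agent.SelRel.Targets

/-! Relations at primes in the Selberg class: local structure of `ES` and `VS` (block LOC). -/

set_option autoImplicit false

namespace Pool.Agent.SelRel

open Complex Filter Topology Set MeasureTheory Metric Pool.Agent.SelPole Pool.Agent.SelCR
open Pool.Agent.PrimesOnly

noncomputable section

theorem LOC_pt_im (t : ℝ) : (pt t).im = t := by
  simp [pt]

theorem LOC_pt_re (t : ℝ) : (pt t).re = 1 / 2 := by
  simp [pt]

/-- the distance of `z` to the other points -/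
theorem LOC_radius {e : ℝ → ℝ} (he : Ln' e) (z : ℂ) : ∃ r : ℝ, 0 < r ∧
    ∀ t : ℝ, e t ≠ 0 → pt t ≠ z → 2 * r ≤ ‖z - pt t‖ := by
  have hfin := he.fin (z.im + 1)
  have hf2 : (pt '' {t : ℝ | t ≤ z.im + 1 ∧ e t ≠ 0} \ {z}).Finite := (hfin.image pt).sdiff
  have hop : IsOpen (pt '' {t : ℝ | t ≤ z.im + 1 ∧ e t ≠ 0} \ {z})ᶜ := hf2.isClosed.isOpen_compl
  have hz : z ∈ (pt '' {t : ℝ | t ≤ z.im + 1 ∧ e t ≠ 0} \ {z})ᶜ := by
    intro h
    exact h.2 rfl
  obtain ⟨ε, hε, hball⟩ := Metric.isOpen_iff.1 hop z hz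
  refine ⟨min ε 1 / 2, by positivity, fun t ht htz => ?_⟩
  have h0 : 2 * (min ε 1 / 2) = min ε 1 := by ring
  rw [h0]
  by_cases h : t ≤ z.im + 1
  · refine (min_le_left _ _).trans ?_
    by_contra hlt
    rw [not_le] at hlt
    have h1 : pt t ∈ ball z ε := by
      rw [mem_ball, dist_comm, dist_eq_norm]
      exact hlt
    exact hball h1 ⟨⟨t, ⟨h, ht⟩, rfl⟩, htz⟩
  · refine (min_le_right _ _).trans ?_
    rw [not_le] at h
    have h1 : |(z - pt t).im| ≤ ‖z - pt t‖ := abs_im_le_norm _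
    have h2 : (z - pt t).im = z.im - t := by simp [LOC_pt_im]
    rw [h2] at h1
    have h3 : -(z.im - t) ≤ |z.im - t| := neg_le_abs _
    linarith

/-- the distance to `z` is comparable with `1 + |t|` -/
theorem LOC_dist {z : ℂ} {r t : ℝ} (hr : 0 < r) (h : 2 * r ≤ ‖z - pt t‖) :
    1 + |t| ≤ ((1 + ‖z‖) / (2 * r) + 1) * ‖z - pt t‖ := by
  have h1 : |t| ≤ ‖pt t‖ := by
    have := abs_im_le_norm (pt t)
    rwa [LOC_pt_im] at this
  have h2 : ‖pt t‖ ≤ ‖z‖ + ‖z - pt t‖ := by
    have h3 : pt t = z - (z - pt t) := by ring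
    calc ‖pt t‖ = ‖z - (z - pt t)‖ := by rw [← h3]
      _ ≤ _ := norm_sub_le _ _
  have h4 : 1 + ‖z‖ ≤ (1 + ‖z‖) / (2 * r) * ‖z - pt t‖ := by
    rw [div_mul_eq_mul_div, le_div_iff₀ (by positivity)]
    exact mul_le_mul_of_nonneg_left h (by positivity)
  nlinarith

/-- the term of the local function, without weight -/
def LOC_a (z : ℂ) (t : ℝ) (s : ℂ) : ℂ := by
  classical exact if pt t = z then -(Real.log t : ℂ) else
    (Real.log ‖1 - (z - 1 / 2) / (t * I)‖ : ℂ) + Complex.log (1 + (s - z) / (z - pt t))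

/-- its derivative -/
def LOC_b (z : ℂ) (t : ℝ) (s : ℂ) : ℂ := by
  classical exact if pt t = z then 0 else 1 / (s - pt t)

theorem LOC_ratio {z s : ℂ} {r t : ℝ} (hr : 0 < r) (h : 2 * r ≤ ‖z - pt t‖) (hs : s ∈ ball z r) :
    ‖(s - z) / (z - pt t)‖ ≤ 1 / 2 := by
  rw [mem_ball, dist_eq_norm] at hs
  have h0 : 0 < ‖z - pt t‖ := by linarith
  rw [norm_div, div_le_iff₀ h0]
  linarith

theorem LOC_slit {z s : ℂ} {r t : ℝ} (hr : 0 < r) (h : 2 * r ≤ ‖z - pt t‖) (hs : s ∈ ball z r) :
    1 + (s - z) / (z - pt t) ∈ slitPlane := by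
  have h1 := LOC_ratio hr h hs
  left
  have h2 : |((s - z) / (z - pt t)).re| ≤ ‖(s - z) / (z - pt t)‖ := abs_re_le_norm _
  have h3 : -|((s - z) / (z - pt t)).re| ≤ ((s - z) / (z - pt t)).re := neg_abs_le _
  rw [add_re, one_re]
  linarith

theorem LOC_hasDeriv {z s : ℂ} {r t : ℝ} (hr : 0 < r) (h : pt t ≠ z → 2 * r ≤ ‖z - pt t‖)
    (hs : s ∈ ball z r) : HasDerivAt (LOC_a z t) (LOC_b z t s) s := by
  by_cases hz : pt t = z
  · have h1 : LOC_a z t = fun _ => -(Real.log t : ℂ) := by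
      funext s; simp [LOC_a, hz]
    have h2 : LOC_b z t s = 0 := by simp [LOC_b, hz]
    rw [h1, h2]
    exact hasDerivAt_const _ _
  · have hh := h hz
    have h1 : LOC_a z t = fun s => (Real.log ‖1 - (z - 1 / 2) / (t * I)‖ : ℂ) +
        Complex.log (1 + (s - z) / (z - pt t)) := by
      funext s; simp [LOC_a, hz]
    have h2 : LOC_b z t s = 1 / (s - pt t) := by simp [LOC_b, hz]
    rw [h1, h2]
    have hne : z - pt t ≠ 0 := sub_ne_zero.2 (Ne.symm hz)
    have h3 : HasDerivAt (fun s : ℂ => 1 + (s - z) / (z - pt t)) (1 / (z - pt t)) s := by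
      have := (((hasDerivAt_id s).sub_const z).div_const (z - pt t)).const_add 1
      simpa using this
    have hsl := LOC_slit hr hh hs
    have h4 := (h3.clog hsl).const_add (Real.log ‖1 - (z - 1 / 2) / (t * I)‖ : ℂ)
    have hne2 : (1 + (s - z) / (z - pt t)) ≠ 0 := slitPlane_ne_zero hsl
    have hne3 : s - pt t ≠ 0 := by
      intro h0
      apply hne2
      have : s = pt t := sub_eq_zero.1 h0
      rw [this]
      field_simp
      ring
    have h5 : 1 / (s - pt t) = 1 / (z - pt t) / (1 + (s - z) / (z - pt t)) := by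
      have h6 : 1 + (s - z) / (z - pt t) = (s - pt t) / (z - pt t) := by
        rw [eq_div_iff hne, add_mul, div_mul_cancel₀ _ hne]
        ring
      rw [h6, div_div_div_cancel_right₀ hne]
    rw [h5]
    exact h4

theorem LOC_bound {z s : ℂ} {r t : ℝ} (hr : 0 < r) (h : pt t ≠ z → 2 * r ≤ ‖z - pt t‖)
    (hs : s ∈ ball z r) : ‖LOC_b z t s‖ ≤ 2 * ((1 + ‖z‖) / (2 * r) + 1) / (1 + |t|) := by
  by_cases hz : pt t = z
  · have h2 : LOC_b z t s = 0 := by simp [LOC_b, hz]
    rw [h2, norm_zero]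
    positivity
  · have hh := h hz
    have h2 : LOC_b z t s = 1 / (s - pt t) := by simp [LOC_b, hz]
    have h3 := LOC_dist hr hh
    rw [mem_ball, dist_eq_norm] at hs
    have h4 : ‖z - pt t‖ ≤ ‖s - pt t‖ + ‖s - z‖ := by
      have : z - pt t = (s - pt t) - (s - z) := by ring
      rw [this]
      exact norm_sub_le _ _
    have h5 : ‖z - pt t‖ ≤ 2 * ‖s - pt t‖ := by linarith
    have h6 : 0 < ‖s - pt t‖ := by linarith
    rw [h2, norm_div, norm_one, div_le_div_iff₀ h6 (by positivity)]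
    have h7 : 0 ≤ (1 + ‖z‖) / (2 * r) + 1 := by positivity
    nlinarith [mul_le_mul_of_nonneg_left h5 h7]

/-- the real part of a term -/
theorem LOC_re {z s : ℂ} {r t : ℝ} (hr : 0 < r) (ht : 0 < t) (h : pt t ≠ z → 2 * r ≤ ‖z - pt t‖)
    (hs : s ∈ ball z r) (hsz : s ≠ z) :
    Real.log ‖1 - (s - 1 / 2) / (t * I)‖ =
      (by classical exact if pt t = z then Real.log ‖s - z‖ else 0) + (LOC_a z t s).re := by
  have htI : (t : ℂ) * I ≠ 0 := mul_ne_zero (by exact_mod_cast ht.ne') I_ne_zero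
  have hnI : ‖(t : ℂ) * I‖ = t := by
    rw [norm_mul, norm_I, mul_one, norm_real, Real.norm_eq_abs, abs_of_pos ht]
  have key : ∀ u : ℂ, 1 - (u - 1 / 2) / (t * I) = (pt t - u) / (t * I) := by
    intro u
    have h1 : pt t - u = t * I - (u - 1 / 2) := by
      rw [pt]
      ring
    rw [h1, sub_div (t * I : ℂ) (u - 1 / 2), div_self htI]
  by_cases hz : pt t = z
  · have h1 : LOC_a z t s = -(Real.log t : ℂ) := by simp [LOC_a, hz]
    rw [h1, key, hz, norm_div, hnI, norm_sub_rev, Real.log_div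
      (norm_ne_zero_iff.2 (sub_ne_zero.2 hsz)) ht.ne']
    simp [sub_eq_add_neg]
  · have hh := h hz
    have h1 : LOC_a z t s = (Real.log ‖1 - (z - 1 / 2) / (t * I)‖ : ℂ) +
        Complex.log (1 + (s - z) / (z - pt t)) := by simp [LOC_a, hz]
    have hne : z - pt t ≠ 0 := sub_ne_zero.2 (Ne.symm hz)
    have hne' : pt t - z ≠ 0 := sub_ne_zero.2 hz
    have hne2 : (1 + (s - z) / (z - pt t)) ≠ 0 := slitPlane_ne_zero (LOC_slit hr hh hs)
    have h2 : (pt t - s) / (t * I) = (pt t - z) / (t * I) * (1 + (s - z) / (z - pt t)) := by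
      field_simp
      ring
    rw [h1, key, key, h2, norm_mul, Real.log_mul
      (norm_ne_zero_iff.2 (div_ne_zero hne' htI)) (norm_ne_zero_iff.2 hne2)]
    simp [hz, Complex.log_re]

theorem LOC_log_bound {u : ℂ} (hu : ‖u‖ ≤ 1 / 2) : |Real.log ‖1 - u‖| ≤ 2 * ‖u‖ := by
  have h1 : Real.log ‖1 - u‖ = (Complex.log (1 + -u)).re := by
    rw [Complex.log_re, ← sub_eq_add_neg]
  rw [h1]
  have h2 := abs_re_le_norm (Complex.log (1 + -u))
  have h3 := norm_log_one_add_half_le_self (z := -u) (by rwa [norm_neg])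
  rw [norm_neg] at h3
  have := norm_nonneg u
  linarith

/-- summability at the centre -/
theorem LOC_summ {e : ℝ → ℝ} (he : Ln' e) (z : ℂ) :
    Summable (fun t : ℝ => (e t : ℂ) * LOC_a z t z) := by
  have hg : Summable (fun t : ℝ => 4 * ‖z - 1 / 2‖ * (|e t| / (1 + |t|))) := he.sum.mul_left _
  refine Summable.of_norm_bounded_eventually hg ?_
  have hfin := he.fin (2 * ‖z - 1 / 2‖ + 1 + ‖z‖)
  rw [Filter.eventually_cofinite]
  refine hfin.subset ?_
  intro t ht
  by_contra hcon
  apply ht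
  by_cases he0 : e t = 0
  · rw [he0]
    simp
  have ht2 : 2 * ‖z - 1 / 2‖ + 1 + ‖z‖ < t := by
    by_contra h
    exact hcon ⟨not_lt.1 h, he0⟩
  have hw := norm_nonneg (z - 1 / 2)
  have hzn := norm_nonneg z
  have ht1 : 1 < t := by linarith
  have htpos : 0 < t := by linarith
  have hz : pt t ≠ z := by
    intro h
    have h1 : (pt t).im = z.im := by rw [h]
    rw [LOC_pt_im] at h1
    have h2 := abs_im_le_norm z
    rw [← h1, abs_of_pos htpos] at h2
    linarith
  have h1 : LOC_a z t z = (Real.log ‖1 - (z - 1 / 2) / (t * I)‖ : ℂ) := by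
    simp [LOC_a, hz]
  have hnI : ‖(t : ℂ) * I‖ = t := by
    rw [norm_mul, norm_I, mul_one, norm_real, Real.norm_eq_abs, abs_of_pos htpos]
  have hu : ‖(z - 1 / 2) / (t * I)‖ = ‖z - 1 / 2‖ / t := by rw [norm_div, hnI]
  have h2 : |Real.log ‖1 - (z - 1 / 2) / (t * I)‖| ≤ 2 * (‖z - 1 / 2‖ / t) := by
    rw [← hu]
    apply LOC_log_bound
    rw [hu, div_le_iff₀ htpos]
    linarith
  rw [h1, norm_mul, norm_real, norm_real, Real.norm_eq_abs, Real.norm_eq_abs]
  have h3 : 2 * (‖z - 1 / 2‖ / t) ≤ 4 * ‖z - 1 / 2‖ / (1 + |t|) := by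
    rw [abs_of_pos htpos, ← mul_div_assoc, div_le_div_iff₀ htpos (by linarith)]
    nlinarith
  calc |e t| * |Real.log ‖1 - (z - 1 / 2) / (t * I)‖| ≤ |e t| * (4 * ‖z - 1 / 2‖ / (1 + |t|)) :=
        mul_le_mul_of_nonneg_left (h2.trans h3) (abs_nonneg _)
    _ = _ := by ring

/-- the sum over the points equal to `z` -/
theorem LOC_single {E : Type*} [AddCommMonoid E] [TopologicalSpace E] (z : ℂ) (f : ℝ → E) :
    HasSum (fun t : ℝ => (by classical exact if pt t = z then f t else 0))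
      (by classical exact if z.re = 1 / 2 then f z.im else 0) := by
  classical
  by_cases hz : z.re = 1 / 2
  · have h1 : ∀ t : ℝ, pt t = z ↔ t = z.im := by
      intro t
      constructor
      · intro h
        rw [← h, LOC_pt_im]
      · intro h
        apply Complex.ext
        · rw [LOC_pt_re, hz]
        · rw [LOC_pt_im, h]
    simp only [h1, hz, if_true]
    have := hasSum_ite_eq z.im (f z.im)
    convert this using 2 with t
    split_ifs with h
    · rw [h]
    · rfl
  · have h1 : ∀ t : ℝ, pt t ≠ z := by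
      intro t h
      apply hz
      rw [← h, LOC_pt_re]
    simp only [h1, hz, if_false]
    exact hasSum_zero

theorem p_LOC : T_LOC := by
  intro e he z _
  obtain ⟨r, hr, hrad⟩ := LOC_radius he z
  set K : ℝ := 2 * ((1 + ‖z‖) / (2 * r) + 1) with hK
  set u : ℝ → ℝ := fun t => K * (|e t| / (1 + |t|)) with hu
  have husum : Summable u := he.sum.mul_left _
  set g : ℝ → ℂ → ℂ := fun t s => (e t : ℂ) * LOC_a z t s with hg
  set g' : ℝ → ℂ → ℂ := fun t s => (e t : ℂ) * LOC_b z t s with hg'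
  have hder : ∀ (t : ℝ) (s : ℂ), s ∈ ball z r → HasDerivAt (g t) (g' t s) s := by
    intro t s hs
    by_cases he0 : e t = 0
    · have h1 : g t = fun _ => 0 := by
        funext s; simp [hg, he0]
      have h2 : g' t s = 0 := by simp [hg', he0]
      rw [h1, h2]
      exact hasDerivAt_const _ _
    · exact (LOC_hasDeriv hr (hrad t he0) hs).const_mul _
  have hbd : ∀ (t : ℝ) (s : ℂ), s ∈ ball z r → ‖g' t s‖ ≤ u t := by
    intro t s hs
    by_cases he0 : e t = 0
    · simp [hg', hu, he0]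
    · have h1 := LOC_bound hr (hrad t he0) hs
      simp only [hg', hu]
      rw [norm_mul, norm_real, Real.norm_eq_abs]
      calc |e t| * ‖LOC_b z t s‖ ≤ |e t| * (K / (1 + |t|)) :=
            mul_le_mul_of_nonneg_left h1 (abs_nonneg _)
        _ = _ := by ring
  have hpre : IsPreconnected (ball z r) := (convex_ball z r).isPreconnected
  have hz0 : z ∈ ball z r := mem_ball_self hr
  have hs0 : Summable (fun t => g t z) := LOC_summ he z
  have hV : ∀ s ∈ ball z r, HasDerivAt (fun s => ∑' t, g t s) (∑' t, g' t s) s := fun s hs =>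
    hasDerivAt_tsum_of_isPreconnected husum isOpen_ball hpre hder hbd hz0 hs0 hs
  have hVs : ∀ s ∈ ball z r, Summable (fun t => g t s) := fun s hs =>
    summable_of_summable_hasDerivAt_of_isPreconnected husum isOpen_ball hpre hder hbd hz0 hs0 hs
  refine ⟨r, fun s => ∑' t, g t s, hr,
    fun s hs => (hV s hs).differentiableAt.differentiableWithinAt, fun s hs hsz => ⟨?_, ?_⟩⟩
  · have h1 := LOC_single z (fun t => e t * Real.log ‖s - z‖)
    have h2 : HasSum (fun t => (g t s).re) (∑' t, g t s).re := Complex.hasSum_re (hVs s hs).hasSum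
    have h3 := h1.add h2
    unfold VS
    have h4 : (fun t : ℝ => e t * Real.log ‖1 - (s - 1 / 2) / (t * I)‖) = fun t =>
        (by classical exact if pt t = z then e t * Real.log ‖s - z‖ else 0) + (g t s).re := by
      funext t
      by_cases he0 : e t = 0
      · simp [hg, he0]
      · have ht : 0 < t := by
          by_contra hn
          exact he0 (he.neg t (not_lt.1 hn))
        rw [LOC_re hr ht (hrad t he0) hs hsz]
        simp only [hg, re_ofReal_mul, mul_add]
        split_ifs <;> simp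
    rw [h4, h3.tsum_eq]
    congr 1
    unfold ez
    split_ifs <;> simp
  · have h1 := LOC_single z (fun t => (e t : ℂ) / (s - z))
    have hsg' : Summable (fun t => g' t s) := Summable.of_norm_bounded husum (fun t => hbd t s hs)
    have h3 := h1.add hsg'.hasSum
    unfold ES
    have h4 : (fun t : ℝ => (e t : ℂ) / (s - pt t)) = fun t =>
        (by classical exact if pt t = z then (e t : ℂ) / (s - z) else 0) + g' t s := by
      funext t
      by_cases hz : pt t = z
      · simp [hg', LOC_b, hz]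
      · simp [hg', LOC_b, hz, div_eq_mul_inv]
    rw [h4, h3.tsum_eq, (hV s hs).deriv]
    congr 1
    unfold ez
    split_ifs <;> simp

end

end Pool.Agent.SelRel
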