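import Pool.Agent.SelRel.Targets

/-! Relations at primes in the Selberg class: block LOF, the local structure of `log |F|`
(helper42). -/

set_option autoImplicit false

namespace Pool.Agent.SelRel

open Complex Filter Topology Set MeasureTheory Metric Pool.Agent.SelPole Pool.Agent.SelCR
open Pool.Agent.PrimesOnly

/-- the order at a point where an analytic function does not vanish -/
theorem LOF_order {F : ℂ → ℂ} {z : ℂ} (h : AnalyticAt ℂ F z) (h0 : F z ≠ 0) :
    meromorphicOrderAt F z = 0 := by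
  rw [h.meromorphicOrderAt_eq, h.analyticOrderAt_eq_zero.2 h0]
  rfl

theorem p_LOF : T_LOF := by
  intro F c hF z hz
  obtain ⟨n, v, hn, hv, hvz, hFv⟩ := hF.local_form z
  have hod : od F z = n := by
    unfold od
    rw [hn]
    exact WithTop.untop₀_coe n
  have h1 : ∀ᶠ s in 𝓝 z, (s ≠ z → F s = (s - z) ^ n * v s) ∧ AnalyticAt ℂ v s ∧ v s ≠ 0 := by
    filter_upwards [eventually_nhdsWithin_iff.mp hFv, hv.eventually_analyticAt,
      hv.continuousAt.eventually_ne hvz] with s a b c using ⟨a, b, c⟩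
  obtain ⟨r, hr, hb⟩ := Metric.eventually_nhds_iff_ball.1 h1
  obtain ⟨V, hV, hVe⟩ := exists_log isOpen_ball (convex_ball z r) ⟨z, mem_ball_self hr⟩
    (fun s hs => (hb s hs).2.1) (fun s hs => (hb s hs).2.2)
  refine ⟨r, V, hr, hV.differentiableOn, ?_, ?_⟩
  · intro s hs hsz
    have hne : s - z ≠ 0 := sub_ne_zero.mpr hsz
    have hFs := (hb s hs).1 hsz
    have hvs := (hb s hs).2.2
    have hz0 : (s - z) ^ n ≠ 0 := zpow_ne_zero _ hne
    refine ⟨by rw [hFs]; exact mul_ne_zero hz0 hvs, ?_⟩
    rw [hFs, norm_mul, Real.log_mul (norm_ne_zero_iff.2 hz0) (norm_ne_zero_iff.2 hvs), norm_zpow,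
      Real.log_zpow, hod, ← hVe s hs, Complex.norm_exp, Real.log_exp]
  · intro hz1
    have han : AnalyticAt ℂ F z := analyticAt_of_ne hF (Qd_ne_one hz)
    have hn0 : n = 0 := by
      have h2 := LOF_order han (hF.ne z hz1)
      rw [hn] at h2
      exact_mod_cast h2
    refine ⟨by rw [hod, hn0], ?_⟩
    have hzb : z ∈ ball z r := mem_ball_self hr
    -- `F = exp V` near `z`
    have h3 : ∀ᶠ s in 𝓝[≠] z, F s = exp (V s) := by
      filter_upwards [mem_nhdsWithin_of_mem_nhds (isOpen_ball.mem_nhds hzb),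
        self_mem_nhdsWithin] with s hs hsz
      rw [hVe s hs, (hb s hs).1 hsz, hn0, zpow_zero, one_mul]
    have hVc : ContinuousAt V z := (hV z hzb).continuousAt
    have h4 : F z = exp (V z) := by
      have h5 := han.continuousAt.tendsto.mono_left (nhdsWithin_le_nhds (s := {z}ᶜ))
      have h6 : Tendsto (fun s => exp (V s)) (𝓝[≠] z) (𝓝 (exp (V z))) :=
        (hVc.cexp).tendsto.mono_left (nhdsWithin_le_nhds (s := {z}ᶜ))
      exact tendsto_nhds_unique (h5.congr' h3) h6
    have h5 : F =ᶠ[𝓝 z] fun s => exp (V s) := by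
      have h6 := eventually_nhdsWithin_iff.mp h3
      filter_upwards [h6] with s hs
      by_cases hsz : s = z
      · rw [hsz, h4]
      · exact hs hsz
    have h6 : HasDerivAt (fun s => exp (V s)) (exp (V z) * deriv V z) z :=
      (hV z hzb).differentiableAt.hasDerivAt.cexp
    have h7 : HasDerivAt F (exp (V z) * deriv V z) z := h6.congr_of_eventuallyEq h5
    have h8 := h7.unique (hF.ld z hz1)
    rw [h4] at h8
    have h9 : exp (V z) ≠ 0 := Complex.exp_ne_zero _
    have h10 : exp (V z) * deriv V z = exp (V z) * (-LSeries c z) := by rw [h8]; ring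
    exact mul_left_cancel₀ h9 h10

end Pool.Agent.SelRel
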