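import Pool.Agent.SelRel.Targets

/-! Relations at primes in the Selberg class: block MES, `ES` on the line `Re s = 2`. -/

set_option autoImplicit false

namespace Pool.Agent.SelRel

open Complex Filter Topology Set MeasureTheory

lemma MES_k (t t' : ℝ) : 1 / (1 + |t - t'|) ≤ (1 + |t|) / (1 + |t'|) := by
  rw [div_le_div_iff₀ (by positivity) (by positivity), one_mul]
  have h1 : |t'| ≤ |t| + |t - t'| := by
    have := abs_sub_abs_le_abs_sub t' t
    rw [abs_sub_comm t' t] at this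
    linarith
  nlinarith [abs_nonneg t, abs_nonneg (t - t')]

lemma MES_term (e : ℝ → ℝ) (t t' : ℝ) :
    |e t'| / (1 + |t - t'|) ≤ (1 + |t|) * (|e t'| / (1 + |t'|)) := by
  have h := mul_le_mul_of_nonneg_left (MES_k t t') (abs_nonneg (e t'))
  calc |e t'| / (1 + |t - t'|) = |e t'| * (1 / (1 + |t - t'|)) := by ring
    _ ≤ |e t'| * ((1 + |t|) / (1 + |t'|)) := h
    _ = _ := by ring

/-- the majorant -/
noncomputable def MES_phi (e : ℝ → ℝ) (t : ℝ) : ℝ := ∑' t', |e t'| / (1 + |t - t'|)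

lemma MES_summable {e : ℝ → ℝ} (h : Ln' e) (t : ℝ) :
    Summable (fun t' : ℝ => |e t'| / (1 + |t - t'|)) :=
  Summable.of_nonneg_of_le (fun t' => by positivity) (MES_term e t) (h.sum.mul_left (1 + |t|))

lemma MES_phi_nonneg (e : ℝ → ℝ) (t : ℝ) : 0 ≤ MES_phi e t :=
  tsum_nonneg fun t' => by positivity

lemma MES_phi_le {e : ℝ → ℝ} (h : Ln' e) (t : ℝ) :
    MES_phi e t ≤ (1 + |t|) * ∑' t' : ℝ, |e t'| / (1 + |t'|) := by
  rw [← tsum_mul_left]
  exact (MES_summable h t).tsum_le_tsum (MES_term e t) (h.sum.mul_left _)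

lemma MES_ctr (τ t : ℝ) : (1 + |τ - t|) / 2 ≤ ‖ctr τ - pt t‖ := by
  have h1 := Complex.abs_re_le_norm (ctr τ - pt t)
  have h2 := Complex.abs_im_le_norm (ctr τ - pt t)
  have e1 : (ctr τ - pt t).re = 3 / 2 := by
    simp [ctr, pt]; norm_num
  have e2 : (ctr τ - pt t).im = τ - t := by
    simp [ctr, pt]
  rw [e1] at h1
  rw [e2] at h2
  have h3 : |(3 / 2 : ℝ)| = 3 / 2 := abs_of_pos (by norm_num)
  rw [h3] at h1
  linarith

lemma MES_ES {e : ℝ → ℝ} (h : Ln' e) (τ : ℝ) : ‖ES e (ctr τ)‖ ≤ 2 * MES_phi e τ := by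
  have hs := ((MES_summable h τ).mul_left 2).hasSum
  have := tsum_of_norm_bounded (f := fun t : ℝ => (e t : ℂ) / (ctr τ - pt t)) hs (fun t => ?_)
  · rw [tsum_mul_left] at this
    exact this
  · rw [norm_div, Complex.norm_real, Real.norm_eq_abs]
    have h1 := MES_ctr τ t
    have h2 : 0 < (1 + |τ - t|) / 2 := by positivity
    calc |e t| / ‖ctr τ - pt t‖ ≤ |e t| / ((1 + |τ - t|) / 2) :=
          div_le_div_of_nonneg_left (abs_nonneg _) h2 h1
      _ = 2 * (|e t| / (1 + |τ - t|)) := by field_simp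

lemma MES_shift {e : ℝ → ℝ} (h : Ln' e) {δ t τ : ℝ} (h1 : t ≤ τ) (h2 : τ ≤ t + δ) :
    MES_phi e τ ≤ (1 + δ) * MES_phi e t := by
  unfold MES_phi
  rw [← tsum_mul_left]
  refine (MES_summable h τ).tsum_le_tsum (fun t' => ?_) ((MES_summable h t).mul_left _)
  have hδ : 0 ≤ δ := by linarith
  have h3 : 1 + |t - t'| ≤ (1 + δ) * (1 + |τ - t'|) := by
    have h4 : |t - t'| ≤ |τ - t'| + δ := by
      have h5 : t - t' = (τ - t') - (τ - t) := by ring
      rw [h5]
      refine (abs_sub _ _).trans ?_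
      rw [abs_of_nonneg (by linarith : 0 ≤ τ - t)]
      linarith
    nlinarith [abs_nonneg (τ - t')]
  calc |e t'| / (1 + |τ - t'|) = |e t'| * (1 / (1 + |τ - t'|)) := by ring
    _ ≤ |e t'| * ((1 + δ) / (1 + |t - t'|)) := by
        apply mul_le_mul_of_nonneg_left _ (abs_nonneg _)
        rw [div_le_div_iff₀ (by positivity) (by positivity)]
        linarith
    _ = _ := by ring

lemma MES_inner {e : ℝ → ℝ} (h : Ln' e) {δ : ℝ} (hδ : 0 < δ) (t : ℝ) :
    0 ≤ ∫ τ in t..t + δ, ‖ES e (ctr τ)‖ ∧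
      ∫ τ in t..t + δ, ‖ES e (ctr τ)‖ ≤ 2 * (1 + δ) * δ * MES_phi e t := by
  have h0 : 0 ≤ ∫ τ in t..t + δ, ‖ES e (ctr τ)‖ :=
    intervalIntegral.integral_nonneg (by linarith) fun _ _ => norm_nonneg _
  refine ⟨h0, ?_⟩
  have h1 := intervalIntegral.norm_integral_le_of_norm_le_const (a := t) (b := t + δ)
    (f := fun τ => ‖ES e (ctr τ)‖) (C := 2 * ((1 + δ) * MES_phi e t)) (fun τ hτ => ?_)
  · rw [Real.norm_of_nonneg h0, add_sub_cancel_left, abs_of_pos hδ] at h1
    linarith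
  · rw [uIoc_of_le (by linarith)] at hτ
    rw [norm_norm]
    have := MES_shift h hτ.1.le hτ.2
    have h2 := MES_ES h τ
    linarith

/-- the tail -/
noncomputable def MES_tl (e : ℝ → ℝ) (X : ℝ) : ℝ :=
  ∑' t' : ℝ, (if X < t' then |e t'| / (1 + |t'|) else 0)

lemma MES_tl_nonneg (e : ℝ → ℝ) (X : ℝ) : 0 ≤ MES_tl e X :=
  tsum_nonneg fun t' => by split_ifs <;> positivity

lemma MES_tl_tendsto {e : ℝ → ℝ} (h : Ln' e) : Tendsto (MES_tl e) atTop (𝓝 0) := by
  have h1 := tendsto_tsum_of_dominated_convergence (𝓕 := (atTop : Filter ℝ))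
    (f := fun X t' => if X < t' then |e t'| / (1 + |t'|) else 0) (g := fun _ => (0 : ℝ)) h.sum
    (fun t' => ?_) (Eventually.of_forall fun X t' => ?_)
  · rw [tsum_zero] at h1
    exact h1
  · refine tendsto_const_nhds.congr' ?_
    filter_upwards [eventually_ge_atTop t'] with X hX
    rw [if_neg (not_lt.2 hX)]
  · split_ifs
    · rw [Real.norm_of_nonneg (by positivity)]
    · rw [norm_zero]; positivity

lemma MES_split {e : ℝ → ℝ} (h : Ln' e) (X t : ℝ) :
    MES_phi e t ≤ ∑ t' ∈ (h.fin X).toFinset, |e t'| / (1 + |t - t'|) +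
      ∑' t' : ℝ, (if X < t' then |e t'| / (1 + |t - t'|) else 0) := by
  classical
  set F := (h.fin X).toFinset with hF
  set a : ℝ → ℝ := fun t' => |e t'| / (1 + |t - t'|) with ha
  have ha0 : ∀ t', 0 ≤ a t' := fun t' => by rw [ha]; positivity
  have hs := MES_summable h t
  have hs1 : Summable (fun t' => if t' ∈ F then a t' else 0) :=
    Summable.of_nonneg_of_le (fun t' => by split_ifs <;> first | exact ha0 _ | exact le_rfl)
      (fun t' => by split_ifs <;> first | exact le_rfl | exact ha0 _) hs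
  have hs2 : Summable (fun t' => if X < t' then a t' else 0) :=
    Summable.of_nonneg_of_le (fun t' => by split_ifs <;> first | exact ha0 _ | exact le_rfl)
      (fun t' => by split_ifs <;> first | exact le_rfl | exact ha0 _) hs
  have e1 : ∑' t', (if t' ∈ F then a t' else 0) = ∑ t' ∈ F, a t' := by
    rw [tsum_eq_sum (s := F) (fun t' ht' => if_neg ht')]
    exact Finset.sum_congr rfl fun t' ht' => if_pos ht'
  rw [← e1, ← hs1.tsum_add hs2]
  refine hs.tsum_le_tsum (fun t' => ?_) (hs1.add hs2)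
  show a t' ≤ _
  by_cases h1 : X < t'
  · rw [if_pos h1]
    have : 0 ≤ if t' ∈ F then a t' else 0 := by split_ifs <;> first | exact ha0 _ | exact le_rfl
    linarith
  · rw [if_neg h1, add_zero]
    by_cases h2 : e t' = 0
    · have : a t' = 0 := by rw [ha]; simp [h2]
      rw [this]
      split_ifs <;> simp
    · rw [if_pos]
      rw [hF, Set.Finite.mem_toFinset]
      exact ⟨not_lt.1 h1, h2⟩

lemma MES_second {e : ℝ → ℝ} (h : Ln' e) {X t T : ℝ} (ht : 0 ≤ t) (hT : 1 ≤ T) (hX : 0 ≤ X) :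
    (∑' t' : ℝ, (if X < t' then |e t'| / (1 + |t - t'|) else 0)) * Real.exp (-(t / T) ^ 2) ≤
      2 * MES_tl e X * Real.exp (-(t / T) ^ 2) +
      4 * (∑' t' : ℝ, |e t'| / (1 + |t'|)) * T * Real.exp (-(X / T) ^ 2 / 8) *
        Real.exp (-(t / (2 * T)) ^ 2) := by
  have hT0 : 0 < T := by linarith
  have hs := MES_summable h t
  have hs2 : Summable (fun t' : ℝ => if X < t' then |e t'| / (1 + |t - t'|) else 0) :=
    Summable.of_nonneg_of_le (fun t' => by split_ifs <;> positivity)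
      (fun t' => by split_ifs <;> first | exact le_rfl | positivity) hs
  have hs3 : Summable (fun t' : ℝ => if X < t' then |e t'| / (1 + |t'|) else 0) :=
    Summable.of_nonneg_of_le (fun t' => by split_ifs <;> positivity)
      (fun t' => by split_ifs <;> first | exact le_rfl | positivity) h.sum
  have hS0 : 0 ≤ ∑' t' : ℝ, |e t'| / (1 + |t'|) := tsum_nonneg fun t' => by positivity
  have htl := MES_tl_nonneg e X
  rcases le_or_gt t (X / 2) with h1 | h1
  · have h2 : ∑' t' : ℝ, (if X < t' then |e t'| / (1 + |t - t'|) else 0) ≤ 2 * MES_tl e X := by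
      unfold MES_tl
      rw [← tsum_mul_left]
      refine hs2.tsum_le_tsum (fun t' => ?_) (hs3.mul_left 2)
      split_ifs with h3
      · have h4 : |t - t'| = t' - t := by
          rw [abs_sub_comm, abs_of_nonneg (by linarith)]
        have h5 : |t'| = t' := abs_of_nonneg (by linarith)
        calc |e t'| / (1 + |t - t'|) = |e t'| * (1 / (1 + |t - t'|)) := by ring
          _ ≤ |e t'| * (2 / (1 + |t'|)) := by
              apply mul_le_mul_of_nonneg_left _ (abs_nonneg _)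
              rw [div_le_div_iff₀ (by positivity) (by positivity), h4, h5]
              linarith
          _ = _ := by ring
      · simp
    have h3 := mul_le_mul_of_nonneg_right h2 (Real.exp_pos (-(t / T) ^ 2)).le
    have h4 : 0 ≤ 4 * (∑' t' : ℝ, |e t'| / (1 + |t'|)) * T * Real.exp (-(X / T) ^ 2 / 8) *
        Real.exp (-(t / (2 * T)) ^ 2) := by positivity
    linarith
  · have h2 : ∑' t' : ℝ, (if X < t' then |e t'| / (1 + |t - t'|) else 0) ≤
        (1 + t) * ∑' t' : ℝ, |e t'| / (1 + |t'|) := by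
      have h3 := MES_phi_le h t
      rw [abs_of_nonneg ht] at h3
      refine le_trans ?_ h3
      exact hs2.tsum_le_tsum (fun t' => by split_ifs <;> first | exact le_rfl | positivity) hs
    set v := t / T with hv
    have hv0 : 0 ≤ v := by positivity
    have hvX : (X / T) ^ 2 / 4 ≤ v ^ 2 := by
      have h3 : X / T / 2 ≤ v := by
        rw [hv, div_div, mul_comm T 2, ← div_div]
        exact div_le_div_of_nonneg_right h1.le hT0.le
      have h4 : 0 ≤ X / T / 2 := by positivity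
      nlinarith
    have h5 : 1 + t ≤ T * (4 * Real.exp (v ^ 2 / 4)) := by
      have h6 : v ^ 2 / 4 + 1 ≤ Real.exp (v ^ 2 / 4) := Real.add_one_le_exp _
      have h7 : t = T * v := by rw [hv]; field_simp
      have h8 : 1 + v ≤ 4 * Real.exp (v ^ 2 / 4) := by nlinarith [sq_nonneg (v - 1)]
      calc 1 + t ≤ T + T * v := by rw [← h7]; linarith
        _ = T * (1 + v) := by ring
        _ ≤ _ := mul_le_mul_of_nonneg_left h8 hT0.le
    have h9 : t / (2 * T) = v / 2 := by rw [hv]; field_simp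
    have h10 : Real.exp (v ^ 2 / 4) * Real.exp (-v ^ 2) ≤
        Real.exp (-(X / T) ^ 2 / 8) * Real.exp (-(v / 2) ^ 2) := by
      rw [← Real.exp_add, ← Real.exp_add]
      apply Real.exp_le_exp.2
      nlinarith
    rw [h9]
    have h11 : (1 + t) * Real.exp (-v ^ 2) ≤
        4 * T * (Real.exp (-(X / T) ^ 2 / 8) * Real.exp (-(v / 2) ^ 2)) := by
      calc (1 + t) * Real.exp (-v ^ 2) ≤ T * (4 * Real.exp (v ^ 2 / 4)) * Real.exp (-v ^ 2) :=
            mul_le_mul_of_nonneg_right h5 (Real.exp_pos _).le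
        _ = 4 * T * (Real.exp (v ^ 2 / 4) * Real.exp (-v ^ 2)) := by ring
        _ ≤ _ := mul_le_mul_of_nonneg_left h10 (by positivity)
    have h12 := mul_le_mul_of_nonneg_right h2 (Real.exp_pos (-v ^ 2)).le
    have h13 := mul_le_mul_of_nonneg_left h11 hS0
    have h14 : 0 ≤ 2 * MES_tl e X * Real.exp (-v ^ 2) := by positivity
    nlinarith

lemma MES_first {T E y : ℝ} (hT : 1 ≤ T) (hE0 : 0 ≤ E) (hE : E ≤ 1) (hy : 1 ≤ y) :
    1 / y * E ≤ 1 / T * E + T ^ (1 / 12 : ℝ) * y ^ (-(13 / 12) : ℝ) := by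
  have hT0 : 0 < T := by linarith
  have hy0 : 0 < y := by linarith
  have h0 : 0 ≤ T ^ (1 / 12 : ℝ) * y ^ (-(13 / 12) : ℝ) := by positivity
  rcases le_or_gt T y with h1 | h1
  · have h2 : 1 / y ≤ 1 / T := one_div_le_one_div_of_le hT0 h1
    have h3 := mul_le_mul_of_nonneg_right h2 hE0
    linarith
  · have h2 : 1 / y = y ^ (1 / 12 : ℝ) * y ^ (-(13 / 12) : ℝ) := by
      rw [← Real.rpow_add hy0, one_div, ← Real.rpow_neg_one]
      norm_num
    have h3 : y ^ (1 / 12 : ℝ) ≤ T ^ (1 / 12 : ℝ) :=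
      Real.rpow_le_rpow hy0.le h1.le (by norm_num)
    have h4 : 1 / y ≤ T ^ (1 / 12 : ℝ) * y ^ (-(13 / 12) : ℝ) := by
      rw [h2]
      exact mul_le_mul_of_nonneg_right h3 (by positivity)
    have h5 : 1 / y * E ≤ 1 / y := mul_le_of_le_one_right (by positivity) hE
    have h6 : 0 ≤ 1 / T * E := by positivity
    linarith

lemma MES_gauss {a : ℝ} (ha : 0 < a) : Integrable (fun t : ℝ => Real.exp (-(t / a) ^ 2)) ∧
    ∫ t : ℝ, Real.exp (-(t / a) ^ 2) ≤ 2 * a := by
  have h1 : (fun t : ℝ => Real.exp (-(t / a) ^ 2)) =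
      fun t : ℝ => Real.exp (-(1 / a ^ 2) * t ^ 2) := by
    funext t
    congr 1
    rw [div_pow]; ring
  rw [h1]
  refine ⟨integrable_exp_neg_mul_sq (by positivity), ?_⟩
  rw [integral_gaussian]
  have h2 : Real.pi / (1 / a ^ 2) = Real.pi * a ^ 2 := by field_simp
  rw [h2, Real.sqrt_le_left (by positivity)]
  nlinarith [Real.pi_lt_four, sq_pos_of_pos ha]

/-- the constant -/
noncomputable def MES_C : ℝ := ∫ x : ℝ, (1 + |x|) ^ (-(13 / 12) : ℝ)

lemma MES_pow (t' : ℝ) : Integrable (fun t : ℝ => (1 + |t - t'|) ^ (-(13 / 12) : ℝ)) ∧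
    ∫ t : ℝ, (1 + |t - t'|) ^ (-(13 / 12) : ℝ) = MES_C := by
  have h1 : Integrable (fun t : ℝ => (1 + |t|) ^ (-(13 / 12) : ℝ)) := by
    have := integrable_one_add_norm (E := ℝ) (μ := volume) (r := 13 / 12)
      (by rw [Module.finrank_self]; norm_num)
    exact this
  exact ⟨h1.comp_sub_right t', integral_sub_right_eq_self
    (fun t : ℝ => (1 + |t|) ^ (-(13 / 12) : ℝ)) t'⟩

lemma MES_C_nonneg : 0 ≤ MES_C := integral_nonneg fun x => by positivity

lemma MES_bound {e : ℝ → ℝ} (h : Ln' e) {δ : ℝ} (hδ : 0 < δ) {C : ℝ}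
    (hC : ∀ X : ℝ, 1 ≤ X → ∀ S : Finset ℝ, (∀ t ∈ S, t ≤ X) → ∑ t ∈ S, |e t| ≤ C * X ^ (2 / 3 : ℝ))
    {T X : ℝ} (hT : 1 ≤ T) (hX : 1 ≤ X) :
    0 ≤ (1 / T) * ∫ t in Ioi (3 : ℝ),
      (∫ τ in t..t + δ, ‖ES e (ctr τ)‖) * Real.exp (-(t / T) ^ 2) ∧
    (1 / T) * ∫ t in Ioi (3 : ℝ),
      (∫ τ in t..t + δ, ‖ES e (ctr τ)‖) * Real.exp (-(t / T) ^ 2) ≤
      2 * (1 + δ) * δ * (C * X ^ (2 / 3 : ℝ) * ((2 + T ^ (1 / 12 : ℝ) * MES_C) / T) +
        4 * MES_tl e X + 16 * (∑' t' : ℝ, |e t'| / (1 + |t'|)) *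
          (T * Real.exp (-(X / T) ^ 2 / 8))) := by
  have hT0 : 0 < T := by linarith
  set F := (h.fin X).toFinset with hF
  set S0 := ∑' t' : ℝ, |e t'| / (1 + |t'|) with hS0
  have hS00 : 0 ≤ S0 := tsum_nonneg fun t' => by positivity
  set D := 2 * (1 + δ) * δ with hD
  have hD0 : 0 ≤ D := by positivity
  set E1 : ℝ → ℝ := fun t => Real.exp (-(t / T) ^ 2) with hE1
  set E2 : ℝ → ℝ := fun t => Real.exp (-(t / (2 * T)) ^ 2) with hE2
  set q := Real.exp (-(X / T) ^ 2 / 8) with hq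
  have hq0 : 0 < q := Real.exp_pos _
  have hE10 : ∀ t, 0 < E1 t := fun t => Real.exp_pos _
  have hE20 : ∀ t, 0 < E2 t := fun t => Real.exp_pos _
  have hE11 : ∀ t, E1 t ≤ 1 := by
    intro t
    rw [hE1]
    apply Real.exp_le_one_iff.2
    have := sq_nonneg (t / T)
    linarith
  have htl := MES_tl_nonneg e X
  obtain ⟨i1, i1'⟩ := MES_gauss hT0
  obtain ⟨i2, i2'⟩ := MES_gauss (by positivity : 0 < 2 * T)
  set g : ℝ → ℝ := fun t => D * ((∑ t' ∈ F, |e t'| * (1 / T * E1 t +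
    T ^ (1 / 12 : ℝ) * (1 + |t - t'|) ^ (-(13 / 12) : ℝ))) + 2 * MES_tl e X * E1 t +
      4 * S0 * T * q * E2 t) with hg
  have hsumint : ∀ t' ∈ F, Integrable (fun t : ℝ => |e t'| * (1 / T * E1 t +
    T ^ (1 / 12 : ℝ) * (1 + |t - t'|) ^ (-(13 / 12) : ℝ))) := fun t' _ =>
    ((i1.const_mul _).add ((MES_pow t').1.const_mul _)).const_mul _
  have hA : Integrable (fun t : ℝ => ∑ t' ∈ F, |e t'| * (1 / T * E1 t +
    T ^ (1 / 12 : ℝ) * (1 + |t - t'|) ^ (-(13 / 12) : ℝ))) := integrable_finsetSum F hsumint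
  have hgint : Integrable g :=
    ((hA.add (i1.const_mul (2 * MES_tl e X))).add (i2.const_mul (4 * S0 * T * q))).const_mul D
  have hg0 : ∀ t, 0 ≤ g t := by
    intro t
    rw [hg]
    have h1 : 0 ≤ ∑ t' ∈ F, |e t'| * (1 / T * E1 t +
        T ^ (1 / 12 : ℝ) * (1 + |t - t'|) ^ (-(13 / 12) : ℝ)) :=
      Finset.sum_nonneg fun t' _ => by
        have := hE10 t
        positivity
    have h2 := hE10 t
    have h3 := hE20 t
    positivity
  have hle : ∀ t : ℝ, 3 < t → (∫ τ in t..t + δ, ‖ES e (ctr τ)‖) * E1 t ≤ g t := by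
    intro t ht
    have ht0 : 0 ≤ t := by linarith
    obtain ⟨_, h2⟩ := MES_inner h hδ t
    have h3 := mul_le_mul_of_nonneg_right h2 (hE10 t).le
    refine h3.trans ?_
    rw [hg, mul_assoc]
    apply mul_le_mul_of_nonneg_left _ hD0
    have h4 := mul_le_mul_of_nonneg_right (MES_split h X t) (hE10 t).le
    have h5 := MES_second h ht0 hT (by linarith : 0 ≤ X)
    have h6 : (∑ t' ∈ F, |e t'| / (1 + |t - t'|)) * E1 t ≤ ∑ t' ∈ F, |e t'| * (1 / T * E1 t +
        T ^ (1 / 12 : ℝ) * (1 + |t - t'|) ^ (-(13 / 12) : ℝ)) := by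
      rw [Finset.sum_mul]
      apply Finset.sum_le_sum
      intro t' _
      have h7 := MES_first (y := 1 + |t - t'|) hT (hE10 t).le (hE11 t)
        (by have := abs_nonneg (t - t'); linarith)
      calc |e t'| / (1 + |t - t'|) * E1 t = |e t'| * (1 / (1 + |t - t'|) * E1 t) := by ring
        _ ≤ _ := mul_le_mul_of_nonneg_left h7 (abs_nonneg _)
    have h8 : MES_phi e t * E1 t ≤ (∑ t' ∈ F, |e t'| / (1 + |t - t'|)) * E1 t +
        (∑' t' : ℝ, (if X < t' then |e t'| / (1 + |t - t'|) else 0)) * E1 t := by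
      rw [← add_mul]; exact h4
    have h9 : (∑' t' : ℝ, (if X < t' then |e t'| / (1 + |t - t'|) else 0)) * E1 t ≤
        2 * MES_tl e X * E1 t + 4 * S0 * T * q * E2 t := h5
    linarith
  have hnn : 0 ≤ ∫ t in Ioi (3 : ℝ), (∫ τ in t..t + δ, ‖ES e (ctr τ)‖) * E1 t :=
    integral_nonneg fun t => mul_nonneg (MES_inner h hδ t).1 (hE10 t).le
  refine ⟨mul_nonneg (by positivity) hnn, ?_⟩
  have hI : ∫ t in Ioi (3 : ℝ), (∫ τ in t..t + δ, ‖ES e (ctr τ)‖) * E1 t ≤ ∫ t, g t := by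
    refine le_trans (integral_mono_of_nonneg
      (Eventually.of_forall fun t => mul_nonneg (MES_inner h hδ t).1 (hE10 t).le)
      hgint.integrableOn ?_) (setIntegral_le_integral hgint (Eventually.of_forall hg0))
    exact (ae_restrict_iff' measurableSet_Ioi).2 (Eventually.of_forall hle)
  have hGI : ∫ t, g t ≤ D * (C * X ^ (2 / 3 : ℝ) * (2 + T ^ (1 / 12 : ℝ) * MES_C) +
      4 * T * MES_tl e X + 16 * S0 * T ^ 2 * q) := by
    have e1 : ∫ t, g t = D * ((∑ t' ∈ F, |e t'| * (1 / T * (∫ t, E1 t) +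
        T ^ (1 / 12 : ℝ) * MES_C)) + 2 * MES_tl e X * (∫ t, E1 t) +
          4 * S0 * T * q * (∫ t, E2 t)) := by
      have j2 : Integrable (fun t : ℝ => 2 * MES_tl e X * E1 t) := i1.const_mul _
      have j3 : Integrable (fun t : ℝ => 4 * S0 * T * q * E2 t) := i2.const_mul _
      have j12 : Integrable (fun t : ℝ => (∑ t' ∈ F, |e t'| * (1 / T * E1 t +
        T ^ (1 / 12 : ℝ) * (1 + |t - t'|) ^ (-(13 / 12) : ℝ))) + 2 * MES_tl e X * E1 t) :=
        hA.add j2
      have k1 : ∫ t, g t = D * ∫ t, ((∑ t' ∈ F, |e t'| * (1 / T * E1 t +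
        T ^ (1 / 12 : ℝ) * (1 + |t - t'|) ^ (-(13 / 12) : ℝ))) + 2 * MES_tl e X * E1 t +
          4 * S0 * T * q * E2 t) := integral_const_mul _ _
      rw [k1, integral_add j12 j3, integral_add hA j2,
        integral_finsetSum F hsumint, integral_const_mul, integral_const_mul]
      congr 3
      apply Finset.sum_congr rfl
      intro t' _
      rw [integral_const_mul, integral_add (i1.const_mul _) ((MES_pow t').1.const_mul _),
        integral_const_mul, integral_const_mul, (MES_pow t').2]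
    rw [e1]
    apply mul_le_mul_of_nonneg_left _ hD0
    have h1 : ∑ t' ∈ F, |e t'| ≤ C * X ^ (2 / 3 : ℝ) := by
      apply hC X hX F
      intro t' ht'
      rw [hF, Set.Finite.mem_toFinset] at ht'
      exact ht'.1
    have h2 : 1 / T * (∫ t, E1 t) ≤ 2 := by
      calc 1 / T * (∫ t, E1 t) ≤ 1 / T * (2 * T) := mul_le_mul_of_nonneg_left i1' (by positivity)
        _ = 2 := by field_simp
    have hR0 : 0 ≤ T ^ (1 / 12 : ℝ) * MES_C := mul_nonneg (by positivity) MES_C_nonneg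
    have h3 : ∑ t' ∈ F, |e t'| * (1 / T * (∫ t, E1 t) + T ^ (1 / 12 : ℝ) * MES_C) ≤
        C * X ^ (2 / 3 : ℝ) * (2 + T ^ (1 / 12 : ℝ) * MES_C) := by
      rw [← Finset.sum_mul]
      have h4 : (∑ t' ∈ F, |e t'|) * (1 / T * (∫ t, E1 t) + T ^ (1 / 12 : ℝ) * MES_C) ≤
          (∑ t' ∈ F, |e t'|) * (2 + T ^ (1 / 12 : ℝ) * MES_C) :=
        mul_le_mul_of_nonneg_left (by linarith) (Finset.sum_nonneg fun _ _ => abs_nonneg _)
      exact h4.trans (mul_le_mul_of_nonneg_right h1 (by linarith))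
    have h5 : 2 * MES_tl e X * (∫ t, E1 t) ≤ 4 * T * MES_tl e X := by
      calc 2 * MES_tl e X * (∫ t, E1 t) ≤ 2 * MES_tl e X * (2 * T) :=
            mul_le_mul_of_nonneg_left i1' (by positivity)
        _ = _ := by ring
    have h6 : 4 * S0 * T * q * (∫ t, E2 t) ≤ 16 * S0 * T ^ 2 * q := by
      calc 4 * S0 * T * q * (∫ t, E2 t) ≤ 4 * S0 * T * q * (2 * (2 * T)) :=
            mul_le_mul_of_nonneg_left i2' (by positivity)
        _ = _ := by ring
    linarith
  calc (1 / T) * ∫ t in Ioi (3 : ℝ), (∫ τ in t..t + δ, ‖ES e (ctr τ)‖) * E1 t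
      ≤ (1 / T) * (D * (C * X ^ (2 / 3 : ℝ) * (2 + T ^ (1 / 12 : ℝ) * MES_C) +
          4 * T * MES_tl e X + 16 * S0 * T ^ 2 * q)) :=
        mul_le_mul_of_nonneg_left (hI.trans hGI) (by positivity)
    _ = _ := by field_simp

lemma MES_cont {e : ℝ → ℝ} (h : Ln' e) : ContinuousOn (ES e) {s | 1 < s.re} := by
  intro s hs
  have hs' : 1 < s.re := hs
  set M : ℝ := |s.im| + 1 with hM
  have hM1 : 1 ≤ M := by rw [hM]; have := abs_nonneg s.im; linarith
  set U : Set ℂ := {z | 1 < z.re ∧ |z.im| < M} with hU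
  have hUo : IsOpen U := by
    rw [hU]
    exact (isOpen_lt continuous_const Complex.continuous_re).inter
      (isOpen_lt (Complex.continuous_im.abs) continuous_const)
  have hsU : s ∈ U := ⟨hs', by rw [hM]; linarith⟩
  have hne : ∀ (t : ℝ) (z : ℂ), z ∈ U → 1 / 2 ≤ ‖z - pt t‖ ∧ |z.im - t| ≤ ‖z - pt t‖ := by
    intro t z hz
    have h1 := Complex.abs_re_le_norm (z - pt t)
    have h2 := Complex.abs_im_le_norm (z - pt t)
    have e1 : (z - pt t).re = z.re - 1 / 2 := by simp [pt]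
    have e2 : (z - pt t).im = z.im - t := by simp [pt]
    rw [e1] at h1
    rw [e2] at h2
    have h3 := hz.1
    exact ⟨by linarith [le_abs_self (z.re - 1 / 2)], h2⟩
  have hcont : ContinuousOn (ES e) U := by
    unfold ES
    refine continuousOn_tsum (u := fun t : ℝ => (4 * M + 4) * (|e t| / (1 + |t|))) (fun t => ?_)
      (h.sum.mul_left _) (fun t z hz => ?_)
    · apply ContinuousOn.div continuousOn_const (continuousOn_id.sub continuousOn_const)
      intro z hz h0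
      have := (hne t z hz).1
      have h0' : z - pt t = 0 := h0
      rw [h0', norm_zero] at this
      linarith
    · obtain ⟨h1, h2⟩ := hne t z hz
      rw [norm_div, Complex.norm_real, Real.norm_eq_abs]
      have h3 : 0 < ‖z - pt t‖ := by linarith
      have h4 : 1 + |t| ≤ (4 * M + 4) * ‖z - pt t‖ := by
        have h5 : |t| ≤ |z.im - t| + M := by
          have h6 : t = z.im - (z.im - t) := by ring
          have h7 := abs_sub z.im (z.im - t)
          rw [← h6] at h7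
          linarith [hz.2]
        nlinarith
      calc |e t| / ‖z - pt t‖ = |e t| * (1 / ‖z - pt t‖) := by ring
        _ ≤ |e t| * ((4 * M + 4) / (1 + |t|)) := by
            apply mul_le_mul_of_nonneg_left _ (abs_nonneg _)
            rw [div_le_div_iff₀ h3 (by positivity)]
            linarith
        _ = _ := by ring
  exact (hcont.continuousAt (hUo.mem_nhds hsU)).continuousWithinAt

theorem p_MES : T_MES := by
  intro e h
  have hS00 : 0 ≤ ∑' t' : ℝ, |e t'| / (1 + |t'|) := tsum_nonneg fun t' => by positivity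
  refine ⟨MES_cont h, ⟨2 * ∑' t' : ℝ, |e t'| / (1 + |t'|), by positivity, fun t ht => ?_⟩, ?_⟩
  · have h1 := MES_ES h t
    have h2 := MES_phi_le h t
    rw [abs_of_nonneg ht] at h2
    nlinarith
  · intro δ hδ
    obtain ⟨C, hC⟩ := h.part
    have hlim : Tendsto (fun T : ℝ => 2 * (1 + δ) * δ *
        (C * (2 * T ^ (-(1 / 6) : ℝ) + MES_C * T ^ (-(1 / 12) : ℝ)) +
        4 * MES_tl e (T ^ (5 / 4 : ℝ)) + 16 * (∑' t' : ℝ, |e t'| / (1 + |t'|)) *
          (64 * ((T ^ (1 / 2 : ℝ) / 8) ^ 2 * Real.exp (-(T ^ (1 / 2 : ℝ) / 8)))))) atTop (𝓝 0) := by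
      have l1 : Tendsto (fun T : ℝ => T ^ (-(1 / 6) : ℝ)) atTop (𝓝 0) :=
        tendsto_rpow_neg_atTop (by norm_num)
      have l2 : Tendsto (fun T : ℝ => T ^ (-(1 / 12) : ℝ)) atTop (𝓝 0) :=
        tendsto_rpow_neg_atTop (by norm_num)
      have l3 : Tendsto (fun T : ℝ => MES_tl e (T ^ (5 / 4 : ℝ))) atTop (𝓝 0) :=
        (MES_tl_tendsto h).comp (tendsto_rpow_atTop (by norm_num))
      have l4 : Tendsto (fun T : ℝ => (T ^ (1 / 2 : ℝ) / 8) ^ 2 *
          Real.exp (-(T ^ (1 / 2 : ℝ) / 8))) atTop (𝓝 0) :=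
        (Real.tendsto_pow_mul_exp_neg_atTop_nhds_zero 2).comp
          ((tendsto_rpow_atTop (by norm_num)).atTop_div_const (by norm_num))
      have := (((((l1.const_mul 2).add (l2.const_mul MES_C)).const_mul C).add
        (l3.const_mul 4)).add ((l4.const_mul 64).const_mul
          (16 * (∑' t' : ℝ, |e t'| / (1 + |t'|))))).const_mul (2 * (1 + δ) * δ)
      simpa using this
    refine tendsto_of_tendsto_of_tendsto_of_le_of_le' tendsto_const_nhds hlim ?_ ?_
    · filter_upwards [eventually_ge_atTop 1] with T hT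
      exact (MES_bound h hδ hC hT (X := T ^ (5 / 4 : ℝ))
        (Real.one_le_rpow hT (by norm_num))).1
    · filter_upwards [eventually_ge_atTop 1] with T hT
      have hT0 : 0 < T := by linarith
      refine ((MES_bound h hδ hC hT (X := T ^ (5 / 4 : ℝ))
        (Real.one_le_rpow hT (by norm_num))).2).trans (le_of_eq ?_)
      have e1 : (T ^ (5 / 4 : ℝ)) ^ (2 / 3 : ℝ) = T ^ (5 / 6 : ℝ) := by
        rw [← Real.rpow_mul hT0.le]; norm_num
      have e2 : T ^ (5 / 6 : ℝ) / T = T ^ (-(1 / 6) : ℝ) := by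
        rw [← Real.rpow_sub_one hT0.ne']; norm_num
      have e3 : T ^ (5 / 6 : ℝ) * T ^ (1 / 12 : ℝ) / T = T ^ (-(1 / 12) : ℝ) := by
        rw [← Real.rpow_add hT0, ← Real.rpow_sub_one hT0.ne']; norm_num
      have e4 : (T ^ (5 / 4 : ℝ) / T) ^ 2 = T ^ (1 / 2 : ℝ) := by
        rw [← Real.rpow_sub_one hT0.ne', ← Real.rpow_natCast, ← Real.rpow_mul hT0.le]; norm_num
      have e5 : (T ^ (1 / 2 : ℝ) / 8) ^ 2 = T / 64 := by
        rw [div_pow, ← Real.rpow_natCast, ← Real.rpow_mul hT0.le]; norm_num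
      rw [e1, e4, e5]
      have e6 : C * T ^ (5 / 6 : ℝ) * ((2 + T ^ (1 / 12 : ℝ) * MES_C) / T) =
          C * (2 * T ^ (-(1 / 6) : ℝ) + MES_C * T ^ (-(1 / 12) : ℝ)) := by
        rw [← e2, ← e3]; ring
      rw [e6]
      have e7 : -T ^ (1 / 2 : ℝ) / 8 = -(T ^ (1 / 2 : ℝ) / 8) := by ring
      rw [e7]
      ring

end Pool.Agent.SelRel
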