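import Pool.Agent.SelRel.TargetsC
import Pool.Agent.SelDeg2.RAT
import Pool.Agent.SelDeg2.FE
import Pool.Agent.SelDeg2.PL
import Pool.Agent.SelTwo.G1
import Pool.Agent.SelTwo.STIR

/-! Members of the Selberg class have polynomial growth in vertical strips. -/

set_option autoImplicit false

namespace Pool.Agent.SelRel

open Complex Filter Topology Asymptotics Set Pool.Agent.SelPole Pool.Agent.SelCR
open Pool.Agent.PrimesOnly Pool.Agent.SelTwo
open Pool.Agent.SelDeg2 (ContM)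
open Pool.Agent.SelDeg2.PL_ (ev_exp norm_le low cmp sqle eq_vl)

/-- quotient of gamma factors, every degree -/
theorem PLG_gam : T_GAM := by
  intro k l m hl hm
  have hG1 := p_G1 p_STIR
  have hfac : ∀ τ : ℝ, gP k l m (vl (5 / 4) τ) = ∏ j, Pool.Agent.SelDeg2.ratf (l j) (m j) τ :=
    fun τ => rfl
  choose C hC0 hC using fun j => Pool.Agent.SelDeg2.ratf_bound hG1 (l j) (m j) (hl j) (hm j)
  refine ⟨∏ j, C j, ⌈2 * ∑ j, l j⌉₊, fun τ => ?_⟩
  rw [hfac, norm_prod]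
  have hpos : 0 < 1 + |τ| := by linarith [abs_nonneg τ]
  have hone : 1 ≤ 1 + |τ| := by linarith [abs_nonneg τ]
  calc ∏ j, ‖Pool.Agent.SelDeg2.ratf (l j) (m j) τ‖ ≤ ∏ j, (C j * (1 + |τ|) ^ (2 * l j)) :=
        Finset.prod_le_prod (fun j _ => norm_nonneg _) (fun j _ => hC j τ)
    _ = (∏ j, C j) * (1 + |τ|) ^ (2 * ∑ j, l j) := by
        rw [Finset.prod_mul_distrib, ← Real.rpow_sum_of_pos hpos, ← Finset.mul_sum]
    _ ≤ (∏ j, C j) * (1 + |τ|) ^ ((⌈2 * ∑ j, l j⌉₊ : ℕ) : ℝ) :=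
        mul_le_mul_of_nonneg_left (Real.rpow_le_rpow_of_exponent_le hone (Nat.le_ceil _))
          (Finset.prod_nonneg fun j _ => hC0 j)
    _ = _ := by rw [Real.rpow_natCast]

theorem PLG_powle (N : ℕ) (s : ℂ) (h1 : -1 / 4 ≤ s.re) :
    (1 + |s.im|) ^ N ≤ 2 ^ N * ‖s + 3‖ ^ N := by
  rw [← mul_pow]
  refine pow_le_pow_left₀ (by positivity) ?_ N
  have h2 := sqle s h1
  have h3 := low s h1
  have h4 : (1 + |s.im|) ^ 2 ≤ (2 * ‖s + 3‖) ^ 2 := by nlinarith
  exact (sq_le_sq₀ (by positivity) (by positivity)).1 h4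

/-- Phragmen-Lindelöf in the strip `-1/4 ≤ Re s ≤ 5/4` -/
theorem PLG_pl (F : ℂ → ℂ) (M N : ℕ) (hcont : ContM F M)
    (hr : ∃ B : ℝ, ∀ t : ℝ, ‖F (vl (5 / 4) t)‖ ≤ B)
    (hlf : ∃ B : ℝ, ∀ t : ℝ, ‖F (vl (-1 / 4) t)‖ ≤ B * (1 + |t|) ^ N) :
    ∃ C : ℝ, 0 ≤ C ∧ ∀ s : ℂ, -1 / 4 ≤ s.re → s.re ≤ 5 / 4 → 1 ≤ |s.im| →
      ‖F s‖ ≤ C * (1 + |s.im|) ^ (M + N) := by
  obtain ⟨g, hg, ⟨A, C, hAC⟩, hgF⟩ := hcont
  obtain ⟨B₁, hB₁⟩ := hr
  obtain ⟨B₂, hB₂⟩ := hlf
  set C₀ : ℝ := |B₁| + 2 ^ N * |B₂| with hC₀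
  have hC₀n : 0 ≤ C₀ := by positivity
  set h : ℂ → ℂ := fun s => g s / (s + 3) ^ (M + N) with hh
  have hne : ∀ s : ℂ, -1 / 4 ≤ s.re → s + 3 ≠ 0 := by
    intro s hs h0
    have := low s hs
    rw [h0, norm_zero] at this
    linarith
  have hdiff : ∀ s : ℂ, -1 / 4 ≤ s.re → DifferentiableAt ℂ h s := by
    intro s hs
    exact (hg s).div ((differentiableAt_id.add_const _).pow (M + N)) (pow_ne_zero _ (hne s hs))
  have hcl : DiffContOnCl ℂ h (re ⁻¹' Ioo (-1 / 4) (5 / 4)) := by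
    refine ⟨fun s hs => (hdiff s hs.1.le).differentiableWithinAt, fun s hs => ?_⟩
    have : s ∈ re ⁻¹' Icc (-1 / 4) (5 / 4) :=
      closure_minimal (preimage_mono Ioo_subset_Icc_self)
        (isClosed_Icc.preimage Complex.continuous_re) hs
    exact (hdiff s this.1).continuousAt.continuousWithinAt
  have hbd : ∀ s : ℂ, -1 / 4 ≤ s.re → s.re ≤ 5 / 4 → ‖h s‖ ≤ C₀ := by
    intro s hs1 hs2
    refine PhragmenLindelof.vertical_strip hcl ⟨1, ?_, 1, ?_⟩ ?_ ?_ hs1 hs2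
    · have := Real.pi_gt_three
      rw [show (5 / 4 - -1 / 4 : ℝ) = 3 / 2 by norm_num, lt_div_iff₀ (by norm_num)]
      linarith
    · refine IsBigO.of_bound (|C|) ?_
      have hev : ∀ᶠ z : ℂ in comap (_root_.abs ∘ im) atTop, (3 + |z.im|) ^ (max A 0) ≤
          Real.exp |z.im| := (tendsto_comap (f := _root_.abs ∘ im)).eventually (ev_exp (max A 0))
      rw [eventually_inf_principal]
      filter_upwards [hev] with z hz hzs
      have h1 := hAC z
      have h2 : ‖h z‖ ≤ ‖g z‖ := by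
        rw [hh]
        simp only
        rw [norm_div, norm_pow]
        apply div_le_self (norm_nonneg _)
        have := low z hzs.1.le
        exact one_le_pow₀ (by linarith)
      have h3 : (1 + ‖z‖) ^ A ≤ Real.exp |z.im| := by
        have hn := norm_nonneg z
        calc (1 + ‖z‖) ^ A ≤ (1 + ‖z‖) ^ (max A 0) :=
              Real.rpow_le_rpow_of_exponent_le (by linarith) (le_max_left _ _)
          _ ≤ (3 + |z.im|) ^ (max A 0) :=
              Real.rpow_le_rpow (by linarith)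
                (by have := norm_le z hzs.1.le hzs.2.le; linarith) (le_max_right _ _)
          _ ≤ _ := hz
      rw [Real.norm_eq_abs, abs_of_pos (Real.exp_pos _), one_mul, one_mul]
      calc ‖h z‖ ≤ C * Real.exp ((1 + ‖z‖) ^ A) := h2.trans h1
        _ ≤ |C| * Real.exp ((1 + ‖z‖) ^ A) :=
            mul_le_mul_of_nonneg_right (le_abs_self _) (Real.exp_pos _).le
        _ ≤ |C| * Real.exp (Real.exp |z.im|) :=
            mul_le_mul_of_nonneg_left (Real.exp_le_exp.2 h3) (abs_nonneg _)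
    · intro z hz
      have hz1 : -1 / 4 ≤ z.re := hz.ge
      have hne1 : z ≠ 1 := by
        rintro rfl; norm_num at hz
      have hF : ‖F z‖ ≤ B₂ * (1 + |z.im|) ^ N := by
        have := hB₂ z.im
        rwa [← hz, ← eq_vl] at this
      have hpos : 0 < ‖z + 3‖ := by have := low z hz1; linarith
      rw [hh]
      simp only
      rw [hgF z hne1, norm_div, norm_mul, norm_pow, norm_pow, div_le_iff₀ (by positivity)]
      have hB : ‖F z‖ ≤ |B₂| * (2 ^ N * ‖z + 3‖ ^ N) := by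
        refine hF.trans ?_
        calc B₂ * (1 + |z.im|) ^ N ≤ |B₂| * (1 + |z.im|) ^ N :=
              mul_le_mul_of_nonneg_right (le_abs_self _) (by positivity)
          _ ≤ _ := mul_le_mul_of_nonneg_left (PLG_powle N z hz1) (abs_nonneg _)
      have h4 : ‖z - 1‖ ^ M ≤ ‖z + 3‖ ^ M := pow_le_pow_left₀ (norm_nonneg _) (cmp z hz1) M
      calc ‖z - 1‖ ^ M * ‖F z‖ ≤ ‖z + 3‖ ^ M * (|B₂| * (2 ^ N * ‖z + 3‖ ^ N)) :=
            mul_le_mul h4 hB (norm_nonneg _) (by positivity)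
        _ = (2 ^ N * |B₂|) * ‖z + 3‖ ^ (M + N) := by ring
        _ ≤ C₀ * ‖z + 3‖ ^ (M + N) :=
            mul_le_mul_of_nonneg_right (by rw [hC₀]; linarith [abs_nonneg B₁]) (by positivity)
    · intro z hz
      have hz1 : -1 / 4 ≤ z.re := by rw [hz]; norm_num
      have hne1 : z ≠ 1 := by
        rintro rfl; norm_num at hz
      have hF : ‖F z‖ ≤ B₁ := by
        have := hB₁ z.im
        rwa [← hz, ← eq_vl] at this
      have hl := low z hz1
      rw [hh]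
      simp only
      rw [hgF z hne1, norm_div, norm_mul, norm_pow, norm_pow, div_le_iff₀ (by positivity)]
      have h4 : ‖z - 1‖ ^ M ≤ ‖z + 3‖ ^ M := pow_le_pow_left₀ (norm_nonneg _) (cmp z hz1) M
      have h5 : ‖z + 3‖ ^ M ≤ ‖z + 3‖ ^ (M + N) := pow_le_pow_right₀ (by linarith) (by omega)
      have h6 : 0 ≤ 2 ^ N * |B₂| := by positivity
      calc ‖z - 1‖ ^ M * ‖F z‖ ≤ ‖z + 3‖ ^ (M + N) * |B₁| :=
            mul_le_mul (h4.trans h5) (hF.trans (le_abs_self _)) (norm_nonneg _) (by positivity)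
        _ = |B₁| * ‖z + 3‖ ^ (M + N) := by ring
        _ ≤ C₀ * ‖z + 3‖ ^ (M + N) :=
            mul_le_mul_of_nonneg_right (by rw [hC₀]; linarith) (by positivity)
  refine ⟨C₀ * 5 ^ (M + N), by positivity, fun s hs1 hs2 hs3 => ?_⟩
  have him : 0 < |s.im| := by linarith
  have hne1 : s ≠ 1 := by
    rintro rfl; simp at him
  have hs1' : 1 ≤ ‖s - 1‖ := by
    have := Complex.abs_im_le_norm (s - 1)
    simp at this
    linarith
  have hb := hbd s hs1 hs2
  have hl := low s hs1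
  rw [hh] at hb
  simp only at hb
  rw [hgF s hne1, norm_div, norm_mul, norm_pow, norm_pow, div_le_iff₀ (by positivity)] at hb
  have hu : ‖s + 3‖ ≤ 5 * (1 + |s.im|) := by
    calc ‖s + 3‖ ≤ ‖s‖ + ‖(3 : ℂ)‖ := norm_add_le _ _
      _ ≤ (2 + |s.im|) + 3 := by
          have := norm_le s hs1 hs2
          have h3 : ‖(3 : ℂ)‖ = 3 := by simp
          linarith
      _ ≤ _ := by linarith
  calc ‖F s‖ ≤ ‖s - 1‖ ^ M * ‖F s‖ :=
        le_mul_of_one_le_left (norm_nonneg _) (one_le_pow₀ hs1')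
    _ ≤ C₀ * ‖s + 3‖ ^ (M + N) := hb
    _ ≤ C₀ * (5 * (1 + |s.im|)) ^ (M + N) :=
        mul_le_mul_of_nonneg_left (pow_le_pow_left₀ (norm_nonneg _) hu (M + N)) hC₀n
    _ = _ := by rw [mul_pow]; ring

theorem p_PLG : T_PLG := by
  intro F a b hF
  obtain ⟨M, g, hg, hgo, hgF⟩ := hF.continuation
  obtain ⟨Q, k, l, m, w, hQ, hl, hm, hw, hfe⟩ := hF.functional
  obtain ⟨Cg, N, hCg⟩ := PLG_gam k l m hl hm
  have hcont : ContM F M := ⟨g, hg, hgo, hgF⟩
  have hFE : FEq F Q k l m w := ⟨hQ, hl, hm, hw, hfe⟩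
  -- bounds by absolute convergence
  set B : ℝ := ∑' n, ‖LSeries.term a (5 / 4 : ℂ) n‖ with hB
  have hs54 : LSeriesSummable a (5 / 4 : ℂ) := by
    apply hF.summable
    norm_num
  have hB0 : 0 ≤ B := tsum_nonneg fun n => norm_nonneg _
  have hbig : ∀ s : ℂ, 5 / 4 ≤ s.re → ‖F s‖ ≤ B := by
    intro s hs
    rw [hF.eq_series s (by linarith)]
    have h2 : ∀ n, ‖LSeries.term a s n‖ ≤ ‖LSeries.term a (5 / 4 : ℂ) n‖ := fun n =>
      LSeries.norm_term_le_of_re_le_re _ (by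
        have : ((5 / 4 : ℂ)).re = 5 / 4 := by norm_num
        rw [this]; exact hs) n
    have hs : Summable (fun n => ‖LSeries.term a s n‖) :=
      Summable.of_nonneg_of_le (fun n => norm_nonneg _) h2 hs54.norm
    exact (norm_tsum_le_tsum_norm hs).trans (hs.tsum_le_tsum h2 hs54.norm)
  have hright : ∀ t : ℝ, ‖F (vl (5 / 4) t)‖ ≤ B := fun t => hbig _ (by simp [vl])
  have hleft : ∀ t : ℝ, ‖F (vl (-1 / 4) t)‖ ≤ (Q ^ (3 / 2 : ℝ) * |Cg| * B) * (1 + |t|) ^ N := by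
    intro t
    rw [Pool.Agent.SelDeg2.p_FE F M Q k l m w hcont hFE t, norm_mul, norm_mul, norm_mul, hw,
      Complex.norm_cpow_eq_rpow_re_of_pos hQ, Complex.norm_conj, one_mul]
    have hre : (1 - 2 * vl (-1 / 4) t).re = 3 / 2 := by
      simp [vl]
      norm_num
    rw [hre]
    have h1 : ‖gP k l m (vl (5 / 4) (-t))‖ ≤ |Cg| * (1 + |t|) ^ N := by
      refine (hCg (-t)).trans ?_
      rw [abs_neg]
      exact mul_le_mul_of_nonneg_right (le_abs_self _) (by positivity)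
    have hQ32 : 0 ≤ Q ^ (3 / 2 : ℝ) := Real.rpow_nonneg hQ.le _
    calc Q ^ (3 / 2 : ℝ) * ‖gP k l m (vl (5 / 4) (-t))‖ * ‖F (vl (5 / 4) t)‖
        ≤ Q ^ (3 / 2 : ℝ) * (|Cg| * (1 + |t|) ^ N) * B := by
          refine mul_le_mul (mul_le_mul_of_nonneg_left h1 hQ32) (hright t) (norm_nonneg _) ?_
          positivity
      _ = _ := by ring
  obtain ⟨C, hC0, hC⟩ := PLG_pl F M N hcont ⟨B, hright⟩ ⟨_, hleft⟩
  refine ⟨((M + N : ℕ) : ℝ), C * 2 ^ (M + N) + B, by positivity, by positivity, ?_⟩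
  intro s h1 h2 h3
  rw [Real.rpow_natCast]
  have hp1 : 1 ≤ s.im ^ (M + N) := one_le_pow₀ h3
  have hC2 : 0 ≤ C * 2 ^ (M + N) := by positivity
  rcases le_total s.re (5 / 4) with h | h
  · have h4 := hC s (by linarith) h (by rw [abs_of_nonneg (by linarith)]; exact h3)
    rw [abs_of_nonneg (by linarith)] at h4
    have h5 : (1 + s.im) ^ (M + N) ≤ (2 * s.im) ^ (M + N) :=
      pow_le_pow_left₀ (by linarith) (by linarith) _
    calc ‖F s‖ ≤ C * (1 + s.im) ^ (M + N) := h4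
      _ ≤ C * (2 * s.im) ^ (M + N) := mul_le_mul_of_nonneg_left h5 hC0
      _ = C * 2 ^ (M + N) * s.im ^ (M + N) := by rw [mul_pow]; ring
      _ ≤ (C * 2 ^ (M + N) + B) * s.im ^ (M + N) :=
          mul_le_mul_of_nonneg_right (by linarith) (by linarith)
  · calc ‖F s‖ ≤ B := hbig s h
      _ = B * 1 := (mul_one B).symm
      _ ≤ B * s.im ^ (M + N) := mul_le_mul_of_nonneg_left hp1 hB0
      _ ≤ (C * 2 ^ (M + N) + B) * s.im ^ (M + N) :=
          mul_le_mul_of_nonneg_right (by linarith) (by linarith)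

end Pool.Agent.SelRel
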