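import Pool.Agent.SelRel.Targets

/-! Relations at primes: block SUM (consequences of the counting bound). -/

set_option autoImplicit false

namespace Pool.Agent.SelRel

open Complex Filter Topology Set MeasureTheory

theorem SUM_log (x : ℝ) (hx : 1 ≤ x) : 1 + Real.log x ≤ 4 * x ^ (1 / 3 : ℝ) := by
  have h1 : Real.log x ≤ x ^ (1 / 3 : ℝ) / (1 / 3 : ℝ) :=
    Real.log_le_rpow_div (by linarith) (by norm_num)
  have h2 : 1 ≤ x ^ (1 / 3 : ℝ) := Real.one_le_rpow hx (by norm_num)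
  have h3 : x ^ (1 / 3 : ℝ) / (1 / 3 : ℝ) = 3 * x ^ (1 / 3 : ℝ) := by ring
  linarith

theorem SUM_pos {e : ℝ → ℝ} (hneg : ∀ t : ℝ, t ≤ 0 → e t = 0) {t : ℝ} (ht : e t ≠ 0) :
    0 < t := by
  by_contra h
  exact ht (hneg t (not_lt.1 h))

theorem SUM_fib {e : ℝ → ℝ} (hneg : ∀ t : ℝ, t ≤ 0 → e t = 0) {C : ℝ} (hC0 : 0 ≤ C)
    (hC : ∀ T : ℝ, 0 ≤ T → ∀ S : Finset ℝ, (∀ t ∈ S, T ≤ t ∧ t ≤ T + 1 ∧ e t ≠ 0) →
      (S.card : ℝ) ≤ C * (1 + Real.log (1 + T)))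
    (w : ℕ → ℝ) (hw : ∀ k, 0 ≤ w k) (u : ℝ → ℝ) (hu : ∀ t : ℝ, 0 < t → u t ≤ w ⌊t⌋₊)
    (S : Finset ℝ) (hS : ∀ t ∈ S, e t ≠ 0) (K : ℕ) (hK : ∀ t ∈ S, ⌊t⌋₊ < K) :
    ∑ t ∈ S, u t ≤ ∑ k ∈ Finset.range K, C * (4 * (1 + (k : ℝ)) ^ (1 / 3 : ℝ)) * w k := by
  classical
  rw [← Finset.sum_fiberwise_of_maps_to (g := fun t : ℝ => ⌊t⌋₊) (t := Finset.range K)
    (fun t ht => Finset.mem_range.2 (hK t ht))]
  apply Finset.sum_le_sum
  intro k _
  have hcard : ((S.filter (fun t => ⌊t⌋₊ = k)).card : ℝ) ≤ C * (1 + Real.log (1 + (k : ℝ))) := by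
    apply hC k (Nat.cast_nonneg k)
    intro t ht
    rw [Finset.mem_filter] at ht
    have hpos := SUM_pos hneg (hS t ht.1)
    refine ⟨?_, ?_, hS t ht.1⟩
    · rw [← ht.2]; exact Nat.floor_le hpos.le
    · rw [← ht.2]; exact (Nat.lt_floor_add_one t).le
  have hlog := SUM_log (1 + (k : ℝ)) (by linarith [(Nat.cast_nonneg k : (0 : ℝ) ≤ k)])
  calc ∑ t ∈ S with ⌊t⌋₊ = k, u t ≤ ∑ t ∈ S with ⌊t⌋₊ = k, w k := by
        apply Finset.sum_le_sum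
        intro t ht
        rw [Finset.mem_filter] at ht
        have := hu t (SUM_pos hneg (hS t ht.1))
        rwa [ht.2] at this
    _ = ((S.filter (fun t => ⌊t⌋₊ = k)).card : ℝ) * w k := by
        rw [Finset.sum_const, nsmul_eq_mul]
    _ ≤ (C * (1 + Real.log (1 + (k : ℝ)))) * w k :=
        mul_le_mul_of_nonneg_right hcard (hw k)
    _ ≤ _ := by
        apply mul_le_mul_of_nonneg_right _ (hw k)
        exact mul_le_mul_of_nonneg_left hlog hC0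

theorem SUM_card {e : ℝ → ℝ} (hneg : ∀ t : ℝ, t ≤ 0 → e t = 0) {C : ℝ} (hC0 : 0 ≤ C)
    (hC : ∀ T : ℝ, 0 ≤ T → ∀ S : Finset ℝ, (∀ t ∈ S, T ≤ t ∧ t ≤ T + 1 ∧ e t ≠ 0) →
      (S.card : ℝ) ≤ C * (1 + Real.log (1 + T))) {X : ℝ} (hX : 1 ≤ X)
    (S : Finset ℝ) (hS : ∀ t ∈ S, e t ≠ 0) (hSX : ∀ t ∈ S, t ≤ X) :
    (S.card : ℝ) ≤ 16 * C * X ^ (4 / 3 : ℝ) := by
  have h1 := SUM_fib hneg hC0 hC (fun _ => 1) (fun _ => zero_le_one) (fun _ => 1)
    (fun _ _ => le_refl _) S hS (⌊X⌋₊ + 1)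
    (fun t ht => Nat.lt_succ_of_le (Nat.floor_le_floor (hSX t ht)))
  rw [Finset.sum_const, nsmul_eq_mul, mul_one] at h1
  have hX0 : 0 ≤ X := by linarith
  have h2 : ∑ k ∈ Finset.range (⌊X⌋₊ + 1), C * (4 * (1 + (k : ℝ)) ^ (1 / 3 : ℝ)) * 1
      ≤ ∑ k ∈ Finset.range (⌊X⌋₊ + 1), 8 * C * X ^ (1 / 3 : ℝ) := by
    apply Finset.sum_le_sum
    intro k hk
    have hkX : (k : ℝ) ≤ X := by
      have : k ≤ ⌊X⌋₊ := Nat.lt_succ_iff.1 (Finset.mem_range.1 hk)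
      exact (Nat.cast_le.2 this).trans (Nat.floor_le hX0)
    have h3 : (1 + (k : ℝ)) ^ (1 / 3 : ℝ) ≤ 2 * X ^ (1 / 3 : ℝ) := by
      calc (1 + (k : ℝ)) ^ (1 / 3 : ℝ) ≤ (2 * X) ^ (1 / 3 : ℝ) :=
            Real.rpow_le_rpow (by positivity) (by linarith) (by norm_num)
        _ = (2 : ℝ) ^ (1 / 3 : ℝ) * X ^ (1 / 3 : ℝ) := Real.mul_rpow (by norm_num) hX0
        _ ≤ 2 * X ^ (1 / 3 : ℝ) := by
            apply mul_le_mul_of_nonneg_right _ (by positivity)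
            calc (2 : ℝ) ^ (1 / 3 : ℝ) ≤ (2 : ℝ) ^ (1 : ℝ) :=
                  Real.rpow_le_rpow_of_exponent_le (by norm_num) (by norm_num)
              _ = 2 := Real.rpow_one 2
    calc C * (4 * (1 + (k : ℝ)) ^ (1 / 3 : ℝ)) * 1 = C * 4 * (1 + (k : ℝ)) ^ (1 / 3 : ℝ) := by ring
      _ ≤ C * 4 * (2 * X ^ (1 / 3 : ℝ)) := mul_le_mul_of_nonneg_left h3 (by positivity)
      _ = 8 * C * X ^ (1 / 3 : ℝ) := by ring
  rw [Finset.sum_const, nsmul_eq_mul, Finset.card_range] at h2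
  have h4 : ((⌊X⌋₊ + 1 : ℕ) : ℝ) ≤ 2 * X := by
    push_cast
    have := Nat.floor_le hX0
    linarith
  have h5 : X ^ (4 / 3 : ℝ) = X * X ^ (1 / 3 : ℝ) := by
    rw [show (4 / 3 : ℝ) = 1 + 1 / 3 by norm_num, Real.rpow_add (by linarith), Real.rpow_one]
  calc (S.card : ℝ) ≤ ((⌊X⌋₊ + 1 : ℕ) : ℝ) * (8 * C * X ^ (1 / 3 : ℝ)) := h1.trans h2
    _ ≤ (2 * X) * (8 * C * X ^ (1 / 3 : ℝ)) :=
        mul_le_mul_of_nonneg_right h4 (by positivity)
    _ = 16 * C * X ^ (4 / 3 : ℝ) := by rw [h5]; ring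

theorem p_SUM : T_SUM := by
  intro e h
  obtain ⟨C1, hC1⟩ := h.cnt
  set C := max C1 0 with hCdef
  have hC0 : 0 ≤ C := le_max_right _ _
  have hC : ∀ T : ℝ, 0 ≤ T → ∀ S : Finset ℝ, (∀ t ∈ S, T ≤ t ∧ t ≤ T + 1 ∧ e t ≠ 0) →
      (S.card : ℝ) ≤ C * (1 + Real.log (1 + T)) := by
    intro T hT S hS
    refine (hC1 T hT S hS).trans (mul_le_mul_of_nonneg_right (le_max_left _ _) ?_)
    have : 0 ≤ Real.log (1 + T) := Real.log_nonneg (by linarith)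
    linarith
  set E := ∑' t : ℝ, e t ^ 2 with hE
  have hE0 : 0 ≤ E := tsum_nonneg (fun t => sq_nonneg _)
  refine ⟨h.neg, ?_, ?_, ?_⟩
  · -- fin
    intro X
    by_contra hinf
    have hinf : {t : ℝ | t ≤ X ∧ e t ≠ 0}.Infinite := hinf
    obtain ⟨n, hn⟩ := exists_nat_gt (16 * C * (max X 1) ^ (4 / 3 : ℝ))
    obtain ⟨S, hS, hcard⟩ := hinf.exists_subset_card_eq n
    have := SUM_card h.neg hC0 hC (le_max_right X 1) S (fun t ht => (hS ht).2)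
      (fun t ht => (hS ht).1.trans (le_max_left X 1))
    rw [hcard] at this
    linarith
  · -- sum
    have hsum : Summable (fun k : ℕ => C * (4 * (1 + (k : ℝ)) ^ (1 / 3 : ℝ)) *
        (1 / (1 + (k : ℝ)) ^ 2)) := by
      have h1 : Summable (fun k : ℕ => 1 / ((k : ℝ)) ^ (5 / 3 : ℝ)) :=
        Real.summable_one_div_nat_rpow.2 (by norm_num)
      have h2 := (summable_nat_add_iff 1).2 h1
      have h3 := h2.mul_left (4 * C)
      refine h3.congr ?_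
      intro k
      have hk : (0 : ℝ) < 1 + (k : ℝ) := by positivity
      have h4 : (1 + (k : ℝ)) ^ 2 = (1 + (k : ℝ)) ^ (1 / 3 : ℝ) * (1 + (k : ℝ)) ^ (5 / 3 : ℝ) := by
        rw [← Real.rpow_add hk, ← Real.rpow_natCast]
        norm_num
      have h5 : (((k + 1 : ℕ)) : ℝ) = 1 + (k : ℝ) := by push_cast; ring
      rw [h5, h4]
      have h6 : (1 + (k : ℝ)) ^ (1 / 3 : ℝ) ≠ 0 := (Real.rpow_pos_of_pos hk _).ne'
      have h7 : (1 + (k : ℝ)) ^ (5 / 3 : ℝ) ≠ 0 := (Real.rpow_pos_of_pos hk _).ne'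
      field_simp
    set B := ∑' k : ℕ, C * (4 * (1 + (k : ℝ)) ^ (1 / 3 : ℝ)) * (1 / (1 + (k : ℝ)) ^ 2) with hB
    apply summable_of_sum_le (c := E + B)
    · intro t
      positivity
    · intro S
      classical
      have h1 : ∑ t ∈ S, |e t| / (1 + |t|) = ∑ t ∈ S with e t ≠ 0, |e t| / (1 + |t|) := by
        rw [Finset.sum_filter]
        apply Finset.sum_congr rfl
        intro t _
        by_cases ht : e t = 0
        · simp [ht]
        · simp [ht]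
      rw [h1]
      have h2 : ∀ t ∈ S.filter (fun t => e t ≠ 0), |e t| / (1 + |t|) ≤
          e t ^ 2 + 1 / (1 + |t|) ^ 2 := by
        intro t _
        have h3 : |e t| ^ 2 = e t ^ 2 := sq_abs _
        have h4 : |e t| / (1 + |t|) = |e t| * (1 / (1 + |t|)) := by ring
        have h5 : 1 / (1 + |t|) ^ 2 = (1 / (1 + |t|)) ^ 2 := by
          rw [div_pow, one_pow]
        rw [h4, h5, ← h3]
        nlinarith [sq_nonneg (|e t| - 1 / (1 + |t|)), sq_nonneg (|e t|),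
          sq_nonneg (1 / (1 + |t|))]
      refine (Finset.sum_le_sum h2).trans ?_
      rw [Finset.sum_add_distrib]
      apply add_le_add
      · exact h.l2.sum_le_tsum _ (fun t _ => sq_nonneg _)
      · obtain ⟨K, hK⟩ : ∃ K : ℕ, ∀ t ∈ S.filter (fun t => e t ≠ 0), ⌊t⌋₊ < K := by
          refine ⟨(S.sup (fun t => ⌊t⌋₊)) + 1, fun t ht => ?_⟩
          exact Nat.lt_succ_of_le
            (Finset.le_sup (f := fun t : ℝ => ⌊t⌋₊) (Finset.mem_filter.1 ht).1)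
        refine (SUM_fib h.neg hC0 hC (fun k => 1 / (1 + (k : ℝ)) ^ 2) (fun k => by positivity)
          (fun t => 1 / (1 + |t|) ^ 2) ?_ _ (fun t ht => (Finset.mem_filter.1 ht).2) K hK).trans ?_
        · intro t ht
          have h6 : (⌊t⌋₊ : ℝ) ≤ |t| := (Nat.floor_le ht.le).trans (le_abs_self t)
          have h7 : (0 : ℝ) < 1 + (⌊t⌋₊ : ℝ) := by positivity
          show 1 / (1 + |t|) ^ 2 ≤ 1 / (1 + (⌊t⌋₊ : ℝ)) ^ 2
          apply one_div_le_one_div_of_le (by positivity)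
          apply pow_le_pow_left₀ h7.le
          linarith
        · exact hsum.sum_le_tsum _ (fun k _ => by positivity)
  · -- part
    refine ⟨Real.sqrt (16 * C * E), ?_⟩
    intro X hX S hSX
    classical
    have h1 : ∑ t ∈ S, |e t| = ∑ t ∈ S with e t ≠ 0, |e t| := by
      rw [Finset.sum_filter]
      apply Finset.sum_congr rfl
      intro t _
      by_cases ht : e t = 0
      · simp [ht]
      · simp [ht]
    rw [h1]
    set S' := S.filter (fun t => e t ≠ 0) with hS'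
    have hX0 : (0 : ℝ) ≤ X := by linarith
    have h2 : (∑ t ∈ S', |e t|) ^ 2 ≤ (S'.card : ℝ) * ∑ t ∈ S', |e t| ^ 2 :=
      sq_sum_le_card_mul_sum_sq
    have h3 : ∑ t ∈ S', |e t| ^ 2 ≤ E := by
      simp only [sq_abs]
      exact h.l2.sum_le_tsum _ (fun t _ => sq_nonneg _)
    have h4 := SUM_card h.neg hC0 hC hX S' (fun t ht => (Finset.mem_filter.1 ht).2)
      (fun t ht => hSX t (Finset.mem_filter.1 ht).1)
    have h5 : (∑ t ∈ S', |e t|) ^ 2 ≤ (16 * C * E) * (X ^ (2 / 3 : ℝ)) ^ 2 := by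
      have h6 : (X ^ (2 / 3 : ℝ)) ^ 2 = X ^ (4 / 3 : ℝ) := by
        rw [← Real.rpow_natCast, ← Real.rpow_mul hX0]
        norm_num
      rw [h6]
      calc (∑ t ∈ S', |e t|) ^ 2 ≤ (S'.card : ℝ) * ∑ t ∈ S', |e t| ^ 2 := h2
        _ ≤ (S'.card : ℝ) * E := mul_le_mul_of_nonneg_left h3 (Nat.cast_nonneg _)
        _ ≤ (16 * C * X ^ (4 / 3 : ℝ)) * E := mul_le_mul_of_nonneg_right h4 hE0
        _ = (16 * C * E) * X ^ (4 / 3 : ℝ) := by ring
    apply le_of_sq_le_sq _ (by positivity)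
    rw [mul_pow, Real.sq_sqrt (by positivity)]
    exact h5

end Pool.Agent.SelRel
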