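import Pool.Agent.SelRel.Sel2
import Pool.Agent.SelRel.CNT
import Pool.Agent.SelRel.SUM
import Pool.Agent.SelRel.LOC
import Pool.Agent.SelRel.LOF
import Pool.Agent.SelRel.GLU
import Pool.Agent.SelRel.AVV
import Pool.Agent.SelRel.AVF
import Pool.Agent.SelRel.GRO
import Pool.Agent.SelRel.MES
import Pool.Agent.SelRel.FAM
import Pool.Agent.SelRel.GLO
import Pool.Agent.SelRel.L2
import Pool.Agent.SelRel.PLG

/-! The relation theorem, without hypotheses. -/

set_option autoImplicit false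

namespace Pool.Agent.SelRel

open Complex Filter Topology Set MeasureTheory Metric Pool.Agent.SelPole Pool.Agent.SelCR
open Pool.Agent.PrimesOnly

theorem p_Z : T_Z := main_Z p_CNT p_SUM p_LOC p_LOF p_GLU p_AVV p_AVF p_GRO p_MES

theorem sel_rel' {ι : Type} [Fintype ι]
    {F : ι → ℂ → ℂ} {a b : ι → ℕ → ℂ} {g : ι → ℂ} (hF : ∀ j, IsSelberg (F j) (a j) (b j))
    (h1 : Small (fun p => ∑ j, g j * a j p)) (h2 : MSB (fun p => ∑ j, g j * b j (p ^ 2)))
    (n : ℕ) : ∑ j, g j * b j n = 0 :=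
  sel_rel p_Z p_FAM (p_L2 p_FAM) p_PLG hF h1 h2 n

end Pool.Agent.SelRel
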