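import Pool.Agent.SelRel.Defs2

/-! Relations at primes: CYC, functions on a cyclic group of residues. -/

set_option autoImplicit false

namespace Pool.Agent.SelRel

theorem CYC_gen {q : ℕ} [NeZero q] (h : IsCyclic (ZMod q)ˣ) :
    ∃ u : (ZMod q)ˣ, ∀ χ ψ : DirichletCharacter ℂ q, χ u = ψ u → χ = ψ := by
  obtain ⟨u, hu⟩ := IsCyclic.exists_monoid_generator (α := (ZMod q)ˣ)
  refine ⟨u, fun χ ψ he => ?_⟩
  refine MulChar.ext fun v => ?_
  obtain ⟨k, rfl⟩ := hu v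
  simp only [Units.val_pow_eq_pow_val, map_pow, he]

theorem CYC_exp {q : ℕ} [NeZero q] (f : (ZMod q)ˣ → ℂ) :
    ∃ c : DirichletCharacter ℂ q → ℂ, ∀ u : (ZMod q)ˣ,
    f u = ∑ᶠ χ : DirichletCharacter ℂ q, c χ * χ u := by
  classical
  have hq : ((q.totient : ℕ) : ℂ) ≠ 0 := by
    exact_mod_cast (Nat.totient_pos.mpr (Nat.pos_of_ne_zero (NeZero.ne q))).ne'
  refine ⟨fun χ => ((q.totient : ℕ) : ℂ)⁻¹ * ∑ v : (ZMod q)ˣ, f v * χ ((v : ZMod q)⁻¹),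
    fun u => ?_⟩
  rw [finsum_eq_sum_of_fintype]
  have h1 : ∀ χ : DirichletCharacter ℂ q,
      ((q.totient : ℕ) : ℂ)⁻¹ * (∑ v : (ZMod q)ˣ, f v * χ ((v : ZMod q)⁻¹)) * χ u =
      ∑ v : (ZMod q)ˣ, ((q.totient : ℕ) : ℂ)⁻¹ * f v * (χ ((v : ZMod q)⁻¹) * χ u) := by
    intro χ
    rw [Finset.mul_sum, Finset.sum_mul]
    exact Finset.sum_congr rfl fun v _ => by ring
  rw [Finset.sum_congr rfl fun χ _ => h1 χ, Finset.sum_comm]
  have h2 : ∀ v : (ZMod q)ˣ,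
      ∑ χ : DirichletCharacter ℂ q, ((q.totient : ℕ) : ℂ)⁻¹ * f v *
        (χ ((v : ZMod q)⁻¹) * χ u) = if v = u then f v else 0 := by
    intro v
    rw [← Finset.mul_sum, DirichletCharacter.sum_char_inv_mul_char_eq ℂ v.isUnit (u : ZMod q)]
    by_cases hv : v = u
    · rw [if_pos hv, if_pos (by rw [hv])]
      field_simp
    · rw [if_neg hv, if_neg (fun h => hv (Units.ext h)), mul_zero]
  rw [Finset.sum_congr rfl fun v _ => h2 v, Finset.sum_ite_eq' Finset.univ u f,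
    if_pos (Finset.mem_univ u)]

theorem p_CYC : T_CYC := by
  intro q _ h
  exact ⟨CYC_gen h, CYC_exp⟩

end Pool.Agent.SelRel
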