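import Pool.Agent.SelRel.Targets

/-! The analytic core with a remainder of mean value zero. -/

set_option autoImplicit false

namespace Pool.Agent.SelRel

open Complex Filter Topology Set MeasureTheory Metric Pool.Agent.SelPole Pool.Agent.SelCR
open Pool.Agent.PrimesOnly
open scoped ComplexConjugate

/-- mean values on the line `Re s = σ0`, with a remainder of mean value zero -/
theorem mean_shift_r {g : ℂ → ℂ} {σ₁ T0 A K : ℝ} (hσ : 0 < σ₁) (hT0 : 1 ≤ T0) (hA : 0 ≤ A)
    (hK : 0 ≤ K) (hg : AnalyticOnNhd ℂ g Qd)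
    (hb : ∀ s : ℂ, σ₁ ≤ s.re → s.re ≤ 2 → T0 ≤ s.im → ‖g s‖ ≤ K * s.im ^ A)
    {a : ℕ → ℂ} (ha : Summable (fun n => ‖a n‖)) (ν : ℕ → ℝ) {r : ℝ → ℂ}
    (hser : ∀ t : ℝ, 0 < t → g (2 + t * I) = (∑' n, a n * exp (-((ν n * t : ℝ) : ℂ) * I)) + r t)
    (hr : Tendsto (fun T : ℝ => (1 / T) * ∫ t in Ioi T0, ‖r t‖ * Real.exp (-(t / T) ^ 2)) atTop (𝓝 0))
    (μ : ℝ) {σ0 : ℝ} (h1 : σ₁ ≤ σ0) (h2 : σ0 ≤ 2) :
    Tendsto (fun T : ℝ => (1 / T : ℂ) * ∫ t in Ioi T0, g (σ0 + t * I) * exp ((μ * t : ℝ) * I) *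
      exp (((t * I) / T) ^ 2)) atTop
      (𝓝 (exp ((μ * (2 - σ0) : ℝ) : ℂ) * (cG * ∑' n, (if ν n = μ then a n else 0)))) := by
  obtain ⟨C, hC⟩ := shift hσ hT0 hA hK hg hb μ h1 h2
  have hm0 := mean_series ha ν μ (2 - σ0) (T0 := T0) (by linarith)
  set S : ℝ → ℂ := fun t => ∑' n, a n * exp (-((ν n * t : ℝ) : ℂ) * I) with hS
  have hterm : ∀ (n : ℕ) (t : ℝ), ‖a n * exp (-((ν n * t : ℝ) : ℂ) * I)‖ = ‖a n‖ := by
    intro n t
    rw [norm_mul, ← Complex.ofReal_neg, Complex.norm_exp_ofReal_mul_I, mul_one]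
  have hSc : Continuous S := by
    refine continuous_tsum (fun n => by fun_prop) ha (fun n t => ?_)
    rw [hterm]
  have hSb : ∀ t, ‖S t‖ ≤ ∑' n, ‖a n‖ := by
    intro t
    have h3 : Summable (fun n => ‖a n * exp (-((ν n * t : ℝ) : ℂ) * I)‖) := by
      simpa only [hterm] using ha
    refine (norm_tsum_le_tsum_norm h3).trans (le_of_eq ?_)
    simp only [hterm]
  set B : ℝ := ∑' n, ‖a n‖ with hB
  have hB0 : 0 ≤ B := tsum_nonneg (fun n => norm_nonneg _)
  have hgc : ContinuousOn (fun t : ℝ => g (2 + t * I)) (Ioi 0) := by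
    intro t ht
    have h3 : ContinuousAt (fun t : ℝ => g (2 + t * I)) t :=
      ContinuousAt.comp (f := fun t : ℝ => (2 + t * I : ℂ))
        (hg _ ⟨by norm_num, by simpa using ht⟩).continuousAt (by fun_prop)
    exact h3.continuousWithinAt
  have hrc : ContinuousOn r (Ioi 0) := by
    refine (hgc.sub hSc.continuousOn).congr (fun t ht => ?_)
    have h3 := hser t ht
    show r t = g (2 + t * I) - S t
    rw [h3]
    simp [hS]
  have hrb : ∀ t, T0 < t → ‖r t‖ ≤ (K + B) * t ^ A := by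
    intro t ht
    have ht0 : 0 < t := by linarith
    have h3 : r t = g (2 + t * I) - S t := by rw [hser t ht0]; simp [hS]
    have h4 := hb (2 + t * I) (by simp; linarith) (by simp) (by simpa using ht.le)
    have h5 : (2 + t * I : ℂ).im = t := by simp
    rw [h5] at h4
    have h6 : 1 ≤ t ^ A := Real.one_le_rpow (by linarith) hA
    rw [h3]
    refine (norm_sub_le _ _).trans ?_
    have := hSb t
    nlinarith
  have hwn : ∀ t T : ℝ, ‖exp (((((2 - σ0 : ℝ) : ℂ) + t * I) / T) ^ 2)‖ =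
      Real.exp (((2 - σ0) / T) ^ 2) * Real.exp (-(t / T) ^ 2) := by
    intro t T
    rw [Complex.norm_exp, ← Real.exp_add]
    congr 1
    have : ((((2 - σ0 : ℝ) : ℂ) + t * I) / T) ^ 2 =
        (((((2 - σ0) / T) ^ 2 - (t / T) ^ 2 : ℝ) : ℂ)) + ((2 * ((2 - σ0) / T) * (t / T) : ℝ) : ℂ) * I := by
      push_cast
      have hI : (I : ℂ) ^ 2 = -1 := Complex.I_sq
      linear_combination ((t : ℂ) / T) ^ 2 * hI
    rw [this, Complex.add_re, Complex.ofReal_re, Complex.re_ofReal_mul, Complex.I_re]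
    ring
  have hint : ∀ {u : ℝ → ℂ} {K' : ℝ}, ContinuousOn u (Ioi T0) → (∀ t, T0 < t → ‖u t‖ ≤ K' * t ^ A) →
      ∀ T : ℝ, 0 < T → IntegrableOn (fun t : ℝ => u t * exp ((μ * t : ℝ) * I) *
        exp (((((2 - σ0 : ℝ) : ℂ) + t * I) / T) ^ 2)) (Ioi T0) := by
    intro u K' hu hub T hT
    refine Integrable.mono' (((integrableOn_rpow_gauss hT hA (by linarith)).const_mul
      (K' * Real.exp (((2 - σ0) / T) ^ 2)))) ?_ ?_
    · refine ContinuousOn.aestronglyMeasurable ?_ measurableSet_Ioi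
      exact (hu.mul (by fun_prop)).mul (by fun_prop)
    · filter_upwards [ae_restrict_mem measurableSet_Ioi] with t ht
      rw [norm_mul, norm_mul, Complex.norm_exp_ofReal_mul_I, mul_one, hwn]
      calc ‖u t‖ * (Real.exp (((2 - σ0) / T) ^ 2) * Real.exp (-(t / T) ^ 2))
          ≤ (K' * t ^ A) * (Real.exp (((2 - σ0) / T) ^ 2) * Real.exp (-(t / T) ^ 2)) :=
            mul_le_mul_of_nonneg_right (hub t ht) (by positivity)
        _ = _ := by ring
  have hm : Tendsto (fun T : ℝ => (1 / T : ℂ) * ∫ t in Ioi T0,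
      (S t + r t) * exp ((μ * t : ℝ) * I) *
        exp (((((2 - σ0 : ℝ) : ℂ) + t * I) / T) ^ 2)) atTop
        (𝓝 (cG * ∑' n, (if ν n = μ then a n else 0))) := by
    have hz : Tendsto (fun T : ℝ => (1 / T : ℂ) * ∫ t in Ioi T0,
        r t * exp ((μ * t : ℝ) * I) *
        exp (((((2 - σ0 : ℝ) : ℂ) + t * I) / T) ^ 2)) atTop (𝓝 0) := by
      rw [tendsto_zero_iff_norm_tendsto_zero]
      have h3 := hr.const_mul (Real.exp 4)
      rw [mul_zero] at h3
      refine squeeze_zero' (Eventually.of_forall (fun _ => norm_nonneg _)) ?_ h3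
      filter_upwards [eventually_ge_atTop 1] with T hT
      have hTpos : 0 < T := by linarith
      have h4 : ‖(1 / T : ℂ)‖ = 1 / T := by
        rw [norm_div, norm_one, Complex.norm_real, Real.norm_of_nonneg hTpos.le]
      rw [norm_mul, h4]
      have h5 : ‖∫ t in Ioi T0, r t * exp ((μ * t : ℝ) * I) *
          exp (((((2 - σ0 : ℝ) : ℂ) + t * I) / T) ^ 2)‖ ≤
          Real.exp 4 * ∫ t in Ioi T0, ‖r t‖ * Real.exp (-(t / T) ^ 2) := by
        refine (norm_integral_le_integral_norm _).trans ?_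
        rw [← integral_const_mul]
        refine setIntegral_mono_on (hint (hrc.mono (Ioi_subset_Ioi (by linarith))) hrb T hTpos).norm
          ?_ measurableSet_Ioi (fun t ht => ?_)
        · refine Integrable.mono' (((integrableOn_rpow_gauss hTpos hA (by linarith : (0 : ℝ) ≤ T0)).const_mul
            (Real.exp 4 * (K + B)))) ?_ ?_
          · refine ContinuousOn.aestronglyMeasurable ?_ measurableSet_Ioi
            exact continuousOn_const.mul ((hrc.mono (Ioi_subset_Ioi (by linarith))).norm.mul (by fun_prop))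
          · filter_upwards [ae_restrict_mem measurableSet_Ioi] with t ht
            rw [norm_mul, norm_mul, norm_norm, Real.norm_of_nonneg (Real.exp_pos _).le,
              Real.norm_of_nonneg (Real.exp_pos _).le]
            calc Real.exp 4 * (‖r t‖ * Real.exp (-(t / T) ^ 2)) ≤
                Real.exp 4 * (((K + B) * t ^ A) * Real.exp (-(t / T) ^ 2)) := by
                  gcongr
                  exact hrb t ht
              _ = _ := by ring
        · rw [norm_mul, norm_mul, Complex.norm_exp_ofReal_mul_I, mul_one, hwn]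
          have h6 : Real.exp (((2 - σ0) / T) ^ 2) ≤ Real.exp 4 := by
            apply Real.exp_le_exp.2
            rw [div_pow, div_le_iff₀ (by positivity)]
            nlinarith
          calc ‖r t‖ * (Real.exp (((2 - σ0) / T) ^ 2) * Real.exp (-(t / T) ^ 2))
              ≤ ‖r t‖ * (Real.exp 4 * Real.exp (-(t / T) ^ 2)) := by gcongr
            _ = _ := by ring
      calc 1 / T * ‖∫ t in Ioi T0, r t * exp ((μ * t : ℝ) * I) *
          exp (((((2 - σ0 : ℝ) : ℂ) + t * I) / T) ^ 2)‖ ≤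
          1 / T * (Real.exp 4 * ∫ t in Ioi T0, ‖r t‖ * Real.exp (-(t / T) ^ 2)) :=
            mul_le_mul_of_nonneg_left h5 (by positivity)
        _ = _ := by ring
    have h3 := hm0.add hz
    rw [add_zero] at h3
    refine h3.congr' ?_
    filter_upwards [eventually_gt_atTop 0] with T hT
    rw [← mul_add]
    congr 1
    have i1 := hint (u := S) (K' := B) hSc.continuousOn (fun t ht => by
      have h6 : 1 ≤ t ^ A := Real.one_le_rpow (by linarith) hA
      have := hSb t
      nlinarith) T hT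
    have i2 := hint (hrc.mono (Ioi_subset_Ioi (by linarith))) hrb T hT
    have i3 := integral_add i1 i2
    simp only [hS] at i3 ⊢
    push_cast at i3 ⊢
    rw [← i3]
    congr 1
    funext t
    ring
  have hJ0 : ∀ T : ℝ, (∫ t in Ioi T0, g (σ0 + t * I) * exp (μ * (σ0 + t * I)) *
      exp (((t * I) / T) ^ 2)) = exp ((μ * σ0 : ℝ) : ℂ) *
      ∫ t in Ioi T0, g (σ0 + t * I) * exp ((μ * t : ℝ) * I) * exp (((t * I) / T) ^ 2) := by
    intro T
    rw [← integral_const_mul]
    congr 1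
    funext t
    have : exp ((μ : ℂ) * (σ0 + t * I)) = exp ((μ * σ0 : ℝ) : ℂ) * exp ((μ * t : ℝ) * I) := by
      rw [← Complex.exp_add]
      congr 1
      push_cast
      ring
    rw [this]
    ring
  have hJ2 : ∀ T : ℝ, (∫ t in Ioi T0, g (2 + t * I) * exp (μ * (2 + t * I)) *
      exp ((((2 - σ0 : ℝ) + t * I) / T) ^ 2)) = exp ((μ * 2 : ℝ) : ℂ) *
      ∫ t in Ioi T0, (S t + r t) * exp ((μ * t : ℝ) * I) *
        exp (((((2 - σ0 : ℝ) : ℂ) + t * I) / T) ^ 2) := by
    intro T
    rw [← integral_const_mul]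
    refine setIntegral_congr_fun measurableSet_Ioi (fun t ht => ?_)
    have ht0 : 0 < t := by linarith [mem_Ioi.1 ht]
    rw [hser t ht0]
    have : exp ((μ : ℂ) * (2 + t * I)) = exp ((μ * 2 : ℝ) : ℂ) * exp ((μ * t : ℝ) * I) := by
      rw [← Complex.exp_add]
      congr 1
      push_cast
      ring
    rw [this]
    ring
  have hd : Tendsto (fun T : ℝ => (1 / T : ℂ) *
      ((∫ t in Ioi T0, g (σ0 + t * I) * exp (μ * (σ0 + t * I)) * exp (((t * I) / T) ^ 2)) -
        ∫ t in Ioi T0, g (2 + t * I) * exp (μ * (2 + t * I)) *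
          exp ((((2 - σ0 : ℝ) + t * I) / T) ^ 2))) atTop (𝓝 0) := by
    rw [tendsto_zero_iff_norm_tendsto_zero]
    have h3 : Tendsto (fun T : ℝ => (1 / T) * C) atTop (𝓝 (0 * C)) :=
      (tendsto_const_nhds.div_atTop tendsto_id).mul_const C
    rw [zero_mul] at h3
    refine squeeze_zero' (Eventually.of_forall (fun _ => norm_nonneg _)) ?_ h3
    filter_upwards [eventually_ge_atTop 1] with T hT
    rw [norm_mul]
    have h4 : ‖(1 / T : ℂ)‖ = 1 / T := by
      rw [norm_div, norm_one, Complex.norm_real, Real.norm_of_nonneg (by linarith)]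
    rw [h4]
    exact mul_le_mul_of_nonneg_left (hC T hT) (by positivity)
  have h3 := hd.add (hm.const_mul (exp ((μ * 2 : ℝ) : ℂ)))
  rw [zero_add] at h3
  have h4 := h3.const_mul (exp (-((μ * σ0 : ℝ) : ℂ)))
  have h5 : exp (-((μ * σ0 : ℝ) : ℂ)) * (exp ((μ * 2 : ℝ) : ℂ) *
      (cG * ∑' n, (if ν n = μ then a n else 0))) =
      exp ((μ * (2 - σ0) : ℝ) : ℂ) * (cG * ∑' n, (if ν n = μ then a n else 0)) := by
    rw [← mul_assoc, ← Complex.exp_add]
    congr 2
    push_cast
    ring
  rw [h5] at h4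
  refine h4.congr (fun T => ?_)
  rw [hJ0, hJ2]
  have h6 : exp (-((μ * σ0 : ℝ) : ℂ)) * exp ((μ * σ0 : ℝ) : ℂ) = 1 := by
    rw [← Complex.exp_add]; simp
  push_cast
  push_cast at h6
  linear_combination (1 / (T : ℂ) * ∫ t in Ioi T0, g (σ0 + t * I) * exp ((μ * t : ℂ) * I) *
    exp (((t * I) / T) ^ 2)) * h6


/-- **Abstract core.** -/
theorem core_abs {f : ℂ → ℂ} (hf : AnalyticOnNhd ℂ f Qd) {A K : ℝ} (hA : 0 ≤ A) (hK : 0 ≤ K)
    (hb : ∀ s : ℂ, 1 / 4 ≤ s.re → s.re ≤ 2 → 3 ≤ s.im → ‖f s‖ ≤ K * s.im ^ A)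
    (hre0 : ∀ δ : ℝ, 0 < δ → Tendsto (fun t : ℝ => ((f ((1 / 4 : ℝ) + (t + δ : ℝ) * I)).re -
      (f ((1 - 1 / 4 : ℝ) + (t + δ : ℝ) * I)).re) -
      ((f ((1 / 4 : ℝ) + t * I)).re - (f ((1 - 1 / 4 : ℝ) + t * I)).re)) atTop (𝓝 0))
    {β : ℕ → ℂ} (hs2 : ∀ t : ℝ, LSeriesSummable β (2 + t * I))
    (hser0 : ∀ δ : ℝ, 0 < δ → ∃ r : ℝ → ℂ, (∀ t : ℝ, 0 < t →
      f (2 + ((t + δ : ℝ) : ℂ) * I) - f (2 + t * I) =
        (LSeries β (2 + ((t + δ : ℝ) : ℂ) * I) - LSeries β (2 + t * I)) + r t) ∧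
      Tendsto (fun T : ℝ => (1 / T) * ∫ t in Ioi (3 : ℝ), ‖r t‖ * Real.exp (-(t / T) ^ 2))
        atTop (𝓝 0)) :
    ∀ m : ℕ, 2 ≤ m → β m = 0 := by
  intro m hm
  have hm0 : m ≠ 0 := by omega
  set lam : ℝ := Real.log m with hlam
  have hlam0 : 0 < lam := Real.log_pos (by exact_mod_cast (by omega : 1 < m))
  set δ : ℝ := 1 / lam with hδ
  have hδ0 : 0 < δ := by positivity
  set σ : ℝ := 1 / 4 with hσ
  -- the shifted difference
  set g : ℂ → ℂ := fun s => f (s + δ * I) - f s with hg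
  have hshQ : ∀ s ∈ Qd, s + δ * I ∈ Qd := by
    intro s hs
    refine ⟨by simpa using hs.1, ?_⟩
    have := hs.2
    simp
    linarith
  have hgan : AnalyticOnNhd ℂ g Qd := by
    intro s hs
    refine AnalyticAt.sub ?_ (hf s hs)
    exact AnalyticAt.fun_comp (g := f) (hf _ (hshQ s hs)) (by fun_prop)
  have hgb : ∀ s : ℂ, σ ≤ s.re → s.re ≤ 2 → 3 ≤ s.im → ‖g s‖ ≤ (K * (1 + δ) ^ A + K) * s.im ^ A := by
    intro s h1 h2 h3
    have h4 := hb (s + δ * I) (by simpa using h1) (by simpa using h2) (by simp; linarith)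
    have h5 := hb s h1 h2 h3
    have h6 : (s + δ * I).im = s.im + δ := by simp
    rw [h6] at h4
    have h7 : (s.im + δ) ^ A ≤ (1 + δ) ^ A * s.im ^ A := by
      rw [← Real.mul_rpow (by positivity) (by linarith)]
      refine Real.rpow_le_rpow (by linarith) ?_ hA
      nlinarith
    calc ‖g s‖ ≤ ‖f (s + δ * I)‖ + ‖f s‖ := norm_sub_le _ _
      _ ≤ K * ((1 + δ) ^ A * s.im ^ A) + K * s.im ^ A :=
          add_le_add (h4.trans (mul_le_mul_of_nonneg_left h7 hK)) h5
      _ = _ := by ring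
  have hK'0 : 0 ≤ K * (1 + δ) ^ A + K := by positivity
  -- the series on the line `Re s = 2`
  set a : ℕ → ℂ := fun n => if n = 0 then 0 else
    β n * (((n : ℝ) ^ (-(2 : ℝ)) : ℝ) : ℂ) * (exp (-((Real.log n * δ : ℝ) : ℂ) * I) - 1)
    with ha
  set ν : ℕ → ℝ := fun n => Real.log n with hν
  have hterm : ∀ (t : ℝ) (n : ℕ), LSeries.term (β) (2 + t * I) n =
      if n = 0 then 0 else β n * (((n : ℝ) ^ (-(2 : ℝ)) : ℝ) : ℂ) *
        exp (-((Real.log n * t : ℝ) : ℂ) * I) := by
    intro t n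
    by_cases hn : n = 0
    · simp [hn]
    · rw [LSeries.term_of_ne_zero hn, if_neg hn]
      have hn0 : (n : ℂ) ≠ 0 := by exact_mod_cast hn
      have hn1 : (0 : ℝ) < n := by exact_mod_cast Nat.pos_of_ne_zero hn
      rw [Complex.cpow_add _ _ hn0, div_eq_mul_inv, mul_inv, mul_assoc]
      congr 2
      · rw [Real.rpow_neg hn1.le, Complex.ofReal_inv, Complex.ofReal_cpow hn1.le,
          Complex.ofReal_natCast]
        norm_num
      · rw [Complex.cpow_def_of_ne_zero hn0, ← Complex.exp_neg, ← Complex.natCast_log]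
        congr 1
        push_cast
        ring
  obtain ⟨r, hr1, hr2⟩ := hser0 δ hδ0
  have hser : ∀ t : ℝ, 0 < t → g (2 + t * I) = (∑' n, a n * exp (-((ν n * t : ℝ) : ℂ) * I)) + r t := by
    intro t ht
    have e0 : g (2 + t * I) = (LSeries β (2 + ((t + δ : ℝ) : ℂ) * I) - LSeries β (2 + t * I)) + r t := by
      rw [← hr1 t ht]
      simp only [hg]
      congr 2
      push_cast
      ring
    rw [e0]
    congr 1
    have e2 : LSeries β (2 + ((t + δ : ℝ) : ℂ) * I) - LSeries β (2 + t * I) =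
        ∑' n, (LSeries.term β (2 + ((t + δ : ℝ) : ℂ) * I) n -
          LSeries.term β (2 + t * I) n) := by
      rw [Summable.tsum_sub (hs2 _) (hs2 _)]
      simp only [LSeries]
    rw [e2]
    refine tsum_congr (fun n => ?_)
    rw [hterm, hterm]
    simp only [ha, hν]
    by_cases hn : n = 0
    · simp [hn]
    · rw [if_neg hn, if_neg hn, if_neg hn]
      have e3 : exp (-((Real.log n * (t + δ) : ℝ) : ℂ) * I) =
          exp (-((Real.log n * δ : ℝ) : ℂ) * I) * exp (-((Real.log n * t : ℝ) : ℂ) * I) := by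
        rw [← Complex.exp_add]
        congr 1
        push_cast
        ring
      rw [e3]
      ring
  have hasum : Summable (fun n => ‖a n‖) := by
    have h1 : Summable (fun n => 2 * ‖LSeries.term (β) (2 + (0 : ℝ) * I) n‖) :=
      (hs2 0).norm.mul_left 2
    refine Summable.of_nonneg_of_le (fun n => norm_nonneg _) (fun n => ?_) h1
    rw [hterm]
    simp only [ha]
    by_cases hn : n = 0
    · simp [hn]
    · rw [if_neg hn, if_neg hn, norm_mul, norm_mul (β n * _), ← Complex.ofReal_neg,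
        ← Complex.ofReal_neg, Complex.norm_exp_ofReal_mul_I, mul_one, mul_comm]
      refine mul_le_mul_of_nonneg_right ?_ (norm_nonneg _)
      refine (norm_sub_le _ _).trans ?_
      rw [Complex.norm_exp_ofReal_mul_I, norm_one]
      norm_num
  -- the two frequencies
  have hsum1 : ∑' n, (if ν n = lam then a n else 0) = a m := by
    rw [tsum_eq_single m]
    · rw [if_pos (by simp only [hν, hlam])]
    · intro n hn
      rw [if_neg]
      intro h
      simp only [hν, hlam] at h
      rcases Nat.eq_zero_or_pos n with h0 | h0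
      · rw [h0, Nat.cast_zero, Real.log_zero] at h
        exact absurd h hlam0.ne
      · have h1 := Real.log_injOn_pos (show (n : ℝ) ∈ Ioi 0 by simpa using h0)
          (show (m : ℝ) ∈ Ioi 0 by simpa using Nat.pos_of_ne_zero hm0) h
        exact hn (by exact_mod_cast h1)
  have hsum2 : ∑' n, (if ν n = -lam then a n else 0) = 0 := by
    have : (fun n => if ν n = -lam then a n else 0) = fun _ => 0 := by
      funext n
      rw [if_neg]
      intro h
      have h1 : 0 ≤ ν n := by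
        simp only [hν]
        exact Real.log_natCast_nonneg n
      linarith
    rw [this, tsum_zero]
  -- the mean of the real part
  have hre : ∀ σ0 : ℝ, σ ≤ σ0 → σ0 ≤ 2 → Tendsto (fun T : ℝ => (1 / T : ℂ) *
      ∫ t in Ioi (3 : ℝ), ((2 * (g (σ0 + t * I)).re : ℝ) : ℂ) * exp ((lam * t : ℝ) * I) *
        exp (((t * I) / T) ^ 2)) atTop (𝓝 (exp ((lam * (2 - σ0) : ℝ) : ℂ) * (cG * a m))) := by
    intro σ0 h1 h2
    have m1 := mean_shift_r (T0 := 3) (by norm_num [hσ]) (by norm_num) hA hK'0 hgan hgb hasum ν hser hr2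
      lam h1 h2
    have m2 := mean_shift_r (T0 := 3) (by norm_num [hσ]) (by norm_num) hA hK'0 hgan hgb hasum ν hser hr2
      (-lam) h1 h2
    rw [hsum1] at m1
    rw [hsum2, mul_zero, mul_zero] at m2
    have m3 := (Complex.continuous_conj.tendsto _).comp m2
    rw [map_zero] at m3
    have m4 := m1.add m3
    rw [add_zero] at m4
    refine m4.congr' ?_
    filter_upwards [eventually_gt_atTop 0] with T hT
    have hc : ContinuousOn (fun t : ℝ => g (σ0 + t * I)) (Ioi 3) := by
      intro t ht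
      have ht' := mem_Ioi.1 ht
      have hQ : (σ0 + t * I : ℂ) ∈ Qd := ⟨by
        have : (0 : ℝ) < σ0 := by rw [hσ] at h1; linarith
        simpa using this, by
        have : (0 : ℝ) < t := by linarith
        simpa using this⟩
      have h3 : ContinuousAt (fun t : ℝ => g (σ0 + t * I)) t :=
        ContinuousAt.comp (f := fun t : ℝ => (σ0 + t * I : ℂ)) (hgan _ hQ).continuousAt
          (by fun_prop)
      exact h3.continuousWithinAt
    have hbd : ∀ t : ℝ, 3 < t → ‖g (σ0 + t * I)‖ ≤ (K * (1 + δ) ^ A + K) * t ^ A := by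
      intro t ht
      have := hgb (σ0 + t * I) (by simpa using h1) (by simpa using h2) (by simpa using ht.le)
      simpa using this
    have i1 := int_line (T0 := 3) (by norm_num) hA hc hbd lam hT
    have i2 := int_line (T0 := 3) (g := fun t : ℝ => conj (g (σ0 + t * I))) (by norm_num) hA
      (Complex.continuous_conj.comp_continuousOn hc)
      (fun t ht => by rw [Complex.norm_conj]; exact hbd t ht) lam hT
    simp only [Function.comp_apply, map_mul, map_div₀, map_one, Complex.conj_ofReal]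
    rw [← integral_conj, ← mul_add]
    congr 1
    have e1 : (fun t : ℝ => conj (g (σ0 + t * I) * exp ((-lam * t : ℝ) * I) *
        exp (((t * I) / T) ^ 2))) = fun t : ℝ => conj (g (σ0 + t * I)) * exp ((lam * t : ℝ) * I) *
        exp (((t * I) / T) ^ 2) := by
      funext t
      rw [map_mul, map_mul, conj_weight, ← Complex.exp_conj (((-lam * t : ℝ) : ℂ) * I)]
      congr 3
      simp only [map_mul, Complex.conj_ofReal, Complex.conj_I]
      push_cast
      try ring_nf
    rw [e1, ← integral_add i1 i2]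
    congr 1
    funext t
    have e2 : ((2 * (g (σ0 + t * I)).re : ℝ) : ℂ) = g (σ0 + t * I) + conj (g (σ0 + t * I)) := by
      rw [Complex.add_conj]
    rw [e2]
    ring
  have hσ12 : σ < 1 / 2 := by norm_num [hσ]
  have hσpos : 0 < σ := by norm_num [hσ]
  have hσ1 : 0 < 1 - σ := by norm_num [hσ]
  have l1 := hre σ le_rfl (by norm_num [hσ])
  have l2 := hre (1 - σ) (by norm_num [hσ]) (by norm_num [hσ])
  -- the difference tends to zero
  set Df : ℝ → ℝ := fun t => 2 * (g (σ + t * I)).re - 2 * (g ((1 - σ : ℝ) + t * I)).re with hDf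
  have hQ : ∀ {x t : ℝ}, 0 < x → 0 < t → (x + t * I : ℂ) ∈ Qd := fun hx ht =>
    ⟨by simpa using hx, by simpa using ht⟩
  have hcl : ∀ {x : ℝ}, 0 < x → ContinuousOn (fun t : ℝ => (2 * (g (x + t * I)).re : ℝ)) (Ici 3) := by
    intro x hx t ht
    have ht' := mem_Ici.1 ht
    have h3 : ContinuousAt (fun t : ℝ => g (x + t * I)) t :=
      ContinuousAt.comp (f := fun t : ℝ => (x + t * I : ℂ))
        (hgan _ (hQ hx (by linarith))).continuousAt (by fun_prop)
    have h4 : ContinuousAt (fun t : ℝ => (2 * (g (x + t * I)).re : ℝ)) t :=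
      continuousAt_const.mul ((Complex.continuous_re.continuousAt).comp h3)
    exact h4.continuousWithinAt
  have hDfc : ContinuousOn Df (Ici 3) := (hcl hσpos).sub (hcl hσ1)
  have hDf0 : Tendsto Df atTop (𝓝 0) := by
    have h1 := (hre0 δ hδ0).const_mul 2
    rw [mul_zero] at h1
    refine h1.congr (fun t => ?_)
    simp only [hDf, hg, Complex.sub_re]
    have e1 : ∀ x : ℂ, x + t * I + δ * I = x + ((t + δ : ℝ) : ℂ) * I := by
      intro x; push_cast; ring
    rw [e1, e1]
    ring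
  have l3 := mean_small (T0 := 3) (by norm_num) hDfc hDf0 lam
  have l4 := l1.sub l2
  have hbr : ∀ {x : ℝ}, σ ≤ x → x ≤ 2 → ∀ t : ℝ, 3 < t →
      ‖((2 * (g (x + t * I)).re : ℝ) : ℂ)‖ ≤ (2 * (K * (1 + δ) ^ A + K)) * t ^ A := by
    intro x h1 h2 t ht
    have h3 := hgb (x + t * I) (by simpa using h1) (by simpa using h2) (by simpa using ht.le)
    have h4 : (x + t * I : ℂ).im = t := by simp
    rw [h4] at h3
    rw [Complex.norm_real, norm_mul, Real.norm_of_nonneg (by norm_num : (0 : ℝ) ≤ 2),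
      Real.norm_eq_abs]
    have h5 := (Complex.abs_re_le_norm (g (x + t * I))).trans h3
    linarith
  have l5 := tendsto_nhds_unique (l4.congr' (f₂ := fun T : ℝ => (1 / T : ℂ) *
      ∫ t in Ioi (3 : ℝ), (Df t : ℂ) * exp ((lam * t : ℝ) * I) * exp (((t * I) / T) ^ 2)) (by
    filter_upwards [eventually_gt_atTop 0] with T hT
    rw [← mul_sub]
    congr 1
    have i1 := int_line (T0 := 3) (g := fun t : ℝ => ((2 * (g (σ + t * I)).re : ℝ) : ℂ))
      (by norm_num) hA (Complex.continuous_ofReal.comp_continuousOn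
        ((hcl hσpos).mono Ioi_subset_Ici_self)) (hbr le_rfl (by norm_num [hσ])) lam hT
    have i2 := int_line (T0 := 3)
      (g := fun t : ℝ => ((2 * (g ((1 - σ : ℝ) + t * I)).re : ℝ) : ℂ))
      (by norm_num) hA (Complex.continuous_ofReal.comp_continuousOn
        ((hcl hσ1).mono Ioi_subset_Ici_self))
        (hbr (by norm_num [hσ]) (by norm_num [hσ])) lam hT
    rw [← integral_sub i1 i2]
    congr 1
    funext t
    simp only [hDf]
    push_cast
    ring)) l3
  -- conclusion
  have h1 : (exp ((lam * (2 - σ) : ℝ) : ℂ) - exp ((lam * (2 - (1 - σ)) : ℝ) : ℂ)) * (cG * a m) = 0 := by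
    rw [sub_mul]; exact l5
  have h2 : exp ((lam * (2 - σ) : ℝ) : ℂ) - exp ((lam * (2 - (1 - σ)) : ℝ) : ℂ) ≠ 0 := by
    rw [← Complex.ofReal_exp, ← Complex.ofReal_exp, ← Complex.ofReal_sub]
    have h3 : Real.exp (lam * (2 - (1 - σ))) < Real.exp (lam * (2 - σ)) := by
      apply Real.exp_lt_exp.2
      apply mul_lt_mul_of_pos_left _ hlam0
      norm_num [hσ]
    exact_mod_cast (sub_pos.2 h3).ne'
  have h3 : a m = 0 := by
    rcases mul_eq_zero.1 h1 with h | h
    · exact absurd h h2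
    · rcases mul_eq_zero.1 h with h | h
      · exact absurd h cG_ne_zero
      · exact h
  have h4 : exp (-((Real.log m * δ : ℝ) : ℂ) * I) - 1 ≠ 0 := by
    have h5 : Real.log m * δ = 1 := by
      rw [hδ, ← hlam]
      field_simp
    rw [h5, sub_ne_zero]
    intro h
    rw [Complex.exp_eq_one_iff] at h
    obtain ⟨k, hk⟩ := h
    have h6 := congrArg Complex.im hk
    simp at h6
    have h7 : (-1 : ℝ) = k * (2 * Real.pi) := by
      rw [h6]
    have h8 : |(-1 : ℝ)| = |(k : ℝ)| * (2 * Real.pi) := by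
      rw [h7, abs_mul, abs_of_pos (by positivity : (0 : ℝ) < 2 * Real.pi)]
    have h9 : (k : ℝ) ≠ 0 := by
      intro h10
      rw [h10, zero_mul] at h7
      norm_num at h7
    have h10 : (1 : ℝ) ≤ |(k : ℝ)| := by
      have : (1 : ℤ) ≤ |k| := Int.one_le_abs (by exact_mod_cast h9)
      exact_mod_cast this
    have h11 := Real.pi_gt_three
    rw [abs_neg, abs_one] at h8
    nlinarith
  simp only [ha, if_neg hm0] at h3
  have h5 : β m = 0 := by
    rcases mul_eq_zero.1 h3 with h | h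
    · rcases mul_eq_zero.1 h with h | h
      · exact h
      · exfalso
        have : (0 : ℝ) < (m : ℝ) ^ (-(2 : ℝ)) := by
          have : (0 : ℝ) < m := by exact_mod_cast Nat.pos_of_ne_zero hm0
          positivity
        exact this.ne' (by exact_mod_cast h)
    · exact absurd h h4
  exact h5

end Pool.Agent.SelRel
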