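import Pool.Agent.SelCR.Core
import Pool.Agent.PrimesOnly.Defs

/-! Relations at primes in the Selberg class: definitions. -/

set_option autoImplicit false

namespace Pool.Agent.SelRel

open Complex Filter Topology Set MeasureTheory Pool.Agent.SelPole Pool.Agent.SelCR
open Pool.Agent.PrimesOnly

noncomputable section

/-- the order of `F` at `z`, as an integer -/
def od (F : ℂ → ℂ) (z : ℂ) : ℤ := (meromorphicOrderAt F z).untop₀

/-- polynomial growth in vertical strips -/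
def PGr (F : ℂ → ℂ) : Prop := ∃ B C : ℝ, 0 ≤ B ∧ 0 ≤ C ∧
  ∀ s : ℂ, 1 / 8 ≤ s.re → s.re ≤ 4 → 1 ≤ s.im → ‖F s‖ ≤ C * s.im ^ B

/-- the working class; `c` are the coefficients of `-F'/F` -/
structure Cls (F : ℂ → ℂ) (c : ℕ → ℂ) : Prop where
  eu : EulerFE F c
  gr : PGr F
  ufe : UFE F

/-- the points `1/2 + it` -/
def pt (t : ℝ) : ℂ := 1 / 2 + t * I

/-- weights on the critical line: `e(t)` for `t > 0`, square summable, with few `t` -/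
structure Ln (e : ℝ → ℝ) : Prop where
  neg : ∀ t : ℝ, t ≤ 0 → e t = 0
  l2 : Summable (fun t : ℝ => e t ^ 2)
  cnt : ∃ C : ℝ, ∀ T : ℝ, 0 ≤ T → ∀ S : Finset ℝ, (∀ t ∈ S, T ≤ t ∧ t ≤ T + 1 ∧ e t ≠ 0) →
    (S.card : ℝ) ≤ C * (1 + Real.log (1 + T))

/-- consequences of `Ln`, proved in SUM -/
structure Ln' (e : ℝ → ℝ) : Prop where
  neg : ∀ t : ℝ, t ≤ 0 → e t = 0
  fin : ∀ X : ℝ, {t : ℝ | t ≤ X ∧ e t ≠ 0}.Finite
  sum : Summable (fun t : ℝ => |e t| / (1 + |t|))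
  part : ∃ C : ℝ, ∀ X : ℝ, 1 ≤ X → ∀ S : Finset ℝ, (∀ t ∈ S, t ≤ X) →
    ∑ t ∈ S, |e t| ≤ C * X ^ (2 / 3 : ℝ)

/-- `E(s) = ∑ e(t) / (s - 1/2 - it)` -/
def ES (e : ℝ → ℝ) (s : ℂ) : ℂ := ∑' t : ℝ, (e t : ℂ) / (s - pt t)

/-- `v(s) = ∑ e(t) log |1 - (s - 1/2)/(it)|` -/
def VS (e : ℝ → ℝ) (s : ℂ) : ℝ := ∑' t : ℝ, e t * Real.log ‖1 - (s - 1 / 2) / (t * I)‖

/-- the weight at the point `z` -/
def ez (e : ℝ → ℝ) (z : ℂ) : ℝ := by classical exact if z.re = 1 / 2 then e z.im else 0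

/-- the centre of the circles -/
def ctr (T : ℝ) : ℂ := 2 + T * I

/-- the order relation of a family, coefficients `g` -/
def cord {ι : Type} [Fintype ι] (F : ι → ℂ → ℂ) (g : ι → ℂ) (z : ℂ) : ℂ := ∑ j, g j * (od (F j) z : ℂ)

/-- the coefficients of a family -/
def cco {ι : Type} [Fintype ι] (c : ι → ℕ → ℂ) (g : ι → ℂ) (n : ℕ) : ℂ := ∑ j, g j * c j n

end

end Pool.Agent.SelRel
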