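import Pool.Agent.SelRel.Targets

/-! Relations at primes: Dirichlet L-functions and Q1, definitions and targets. -/

set_option autoImplicit false

namespace Pool.Agent.SelRel

open Complex Filter Topology Set MeasureTheory Metric Pool.Agent.SelPole Pool.Agent.SelCR
open Pool.Agent.PrimesOnly
open scoped ComplexConjugate ArithmeticFunction.vonMangoldt

noncomputable section

instance instNZ {q : ℕ} [NeZero q] (χ : DirichletCharacter ℂ q) : NeZero χ.conductor :=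
  ⟨χ.conductor_ne_zero⟩

/-- `L(s + iθ, χ*)` for `x = (χ, θ)`, `χ*` the primitive character inducing `χ`; for the trivial
character this is `ζ(s + iθ)` -/
def LF {q : ℕ} [NeZero q] (x : DirichletCharacter ℂ q × ℝ) (s : ℂ) : ℂ :=
  DirichletCharacter.LFunction x.1.primitiveCharacter (s + x.2 * I)

/-- the Dirichlet coefficients of `LF x` -/
def aLF {q : ℕ} (x : DirichletCharacter ℂ q × ℝ) (n : ℕ) : ℂ :=
  x.1.primitiveCharacter (n : ZMod x.1.conductor) * (n : ℂ) ^ (-((x.2 : ℂ) * I))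

/-- the coefficients of `log (LF x)` -/
def bLF {q : ℕ} (x : DirichletCharacter ℂ q × ℝ) (n : ℕ) : ℂ :=
  ((Λ n / Real.log n : ℝ) : ℂ) * aLF x n

/-- bounded in mean square over the primes -/
def MeanSq (δ : ℕ → ℂ) : Prop := ∃ K : ℝ, ∀ h : ℝ, 0 < h → h ≤ 1 →
  Summable (fun p : Nat.Primes => ‖δ p‖ ^ 2 * Real.log p * ((p : ℕ) : ℝ) ^ (-(1 + h))) ∧
  h * ∑' p : Nat.Primes, ‖δ p‖ ^ 2 * Real.log p * ((p : ℕ) : ℝ) ^ (-(1 + h)) ≤ K

/-- summable over the primes on a line to the left of `Re s = 1/2` -/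
def SmallP (δ : ℕ → ℂ) : Prop := ∃ σ₀ : ℝ, σ₀ < 1 / 2 ∧
  Summable (fun p : Nat.Primes => ‖δ p‖ * ((p : ℕ) : ℝ) ^ (-σ₀))

/-- a set of primes which is thin with exponent `< 1/2` -/
def ThinP (E : Set ℕ) : Prop := ∃ σ₀ : ℝ, σ₀ < 1 / 2 ∧
  Summable (fun p : Nat.Primes => E.indicator (fun n : ℕ => (n : ℝ) ^ (-σ₀)) p)

/-- FNO: finite order from the functional equation and a bound in a half plane -/
def T_FNO : Prop := ∀ {F g : ℂ → ℂ} {M : ℕ}, Differentiable ℂ g →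
  (∀ s : ℂ, s ≠ 1 → g s = (s - 1) ^ M * F s) → HasFunctionalEquation F →
  (∃ (B : ℕ) (C : ℝ), ∀ s : ℂ, 1 / 2 ≤ s.re → ‖g s‖ ≤ C * (1 + ‖s‖) ^ B) → FiniteOrder g

/-- HFE: functional equations of zeta and of `L(s, χ)`, and vertical shifts -/
def T_HFE : Prop := HasFunctionalEquation riemannZeta ∧
  (∀ {N : ℕ} [NeZero N] {χ : DirichletCharacter ℂ N}, χ.IsPrimitive → χ ≠ 1 →
    HasFunctionalEquation (DirichletCharacter.LFunction χ)) ∧
  ∀ {F : ℂ → ℂ}, HasFunctionalEquation F → ∀ θ : ℝ, HasFunctionalEquation (fun s => F (s + θ * I))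

/-- SLF: zeta and the shifted Dirichlet L-functions are in the Selberg class -/
def T_SLF : Prop := ∀ {q : ℕ} [NeZero q] (x : DirichletCharacter ℂ q × ℝ), (x.1 = 1 → x.2 = 0) →
  IsSelberg (LF x) (aLF x) (bLF x)

/-- SEP: primes separating a finite set of pairs -/
def T_SEP : Prop := ∀ {q : ℕ} [NeZero q] (X : Finset (DirichletCharacter ℂ q × ℝ)) (u : (ZMod q)ˣ),
  (∀ x ∈ X, ∀ y ∈ X, x.2 = y.2 → x.1 u = y.1 u → x = y) →
  {p : ℕ | p.Prime ∧ (p : ZMod q) = u ∧ ∀ x ∈ X, ∀ y ∈ X, aLF x p = aLF y p → x = y}.Infinite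

/-- ENT: entire quotients -/
def T_ENT : Prop := ∀ {F G : ℂ → ℂ} {c d : ℕ → ℂ}, EulerFE F c → EulerFE G d →
  (∀ z : ℂ, meromorphicOrderAt G z ≤ meromorphicOrderAt F z) →
  ∃ H : ℂ → ℂ, Differentiable ℂ H ∧ ∀ s : ℂ, s ≠ 1 → F s = G s * H s

/-- MSB: bounded coefficients are bounded in mean square -/
def T_MSB : Prop := ∀ {δ : ℕ → ℂ} {B : ℝ}, (∀ p : ℕ, p.Prime → ‖δ p‖ ≤ B) → MeanSq δ

/-- THN: a relation outside a thin set -/
def T_THN : Prop := ∀ {E : Set ℕ} {δ : ℕ → ℂ}, ThinP E → (∀ p : ℕ, p.Prime → p ∉ E → δ p = 0) →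
  (∀ ε : ℝ, 0 < ε → ∃ C : ℝ, ∀ p : ℕ, p.Prime → ‖δ p‖ ≤ C * (p : ℝ) ^ ε) → SmallP δ

/-- QQ: a rational functional -/
def T_QQ : Prop := ∃ φ : ℂ →ₗ[ℚ] ℚ, φ 1 = 1

/-- CYC: functions on a cyclic group of residues -/
def T_CYC : Prop := ∀ {q : ℕ} [NeZero q], IsCyclic (ZMod q)ˣ →
  (∃ u : (ZMod q)ˣ, ∀ χ ψ : DirichletCharacter ℂ q, χ u = ψ u → χ = ψ) ∧
  ∀ f : (ZMod q)ˣ → ℂ, ∃ c : DirichletCharacter ℂ q → ℂ, ∀ u : (ZMod q)ˣ,
    f u = ∑ᶠ χ : DirichletCharacter ℂ q, c χ * χ u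

end

end Pool.Agent.SelRel
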