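import Pool.Agent.SelRel.Q1

/-! Relations with Dirichlet L-functions. -/

set_option autoImplicit false

namespace Pool.Agent.SelRel

open Complex Filter Topology Set MeasureTheory Metric Pool.Agent.SelPole Pool.Agent.SelCR
open Pool.Agent.PrimesOnly
open scoped ComplexConjugate ArithmeticFunction.vonMangoldt

/-- polynomial Euler product -/
def PolyE (b : ℕ → ℂ) (d : ℕ) : Prop := ∀ p : ℕ, p.Prime → ∃ α : Fin d → ℂ,
  ∀ k : ℕ, 1 ≤ k → (k : ℂ) * b (p ^ k) = ∑ i, α i ^ k

section chars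

variable {q : ℕ} [NeZero q]

theorem char_coprime (χ : DirichletCharacter ℂ q) {n : ℕ} (hn : n.Coprime q) :
    χ.primitiveCharacter (n : ZMod χ.conductor) = χ (n : ZMod q) := by
  have h := χ.primitiveCharacter_apply_of_isCoprime (a := (n : ℤ))
    (by rwa [Nat.isCoprime_iff_coprime])
  simpa using h

theorem prim_ne_one {χ : DirichletCharacter ℂ q} (h : χ ≠ 1) : χ.primitiveCharacter ≠ 1 := by
  intro h1
  apply h
  have h2 := χ.changeLevel_primitiveCharacter
  rw [h1, map_one] at h2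
  exact h2.symm

theorem LF_modOne {n : ℕ} [NeZero n] (hn : n = 1) (ψ : DirichletCharacter ℂ n) :
    DirichletCharacter.LFunction ψ = riemannZeta := by
  subst hn
  exact DirichletCharacter.LFunction_modOne_eq

theorem LF_zeta {x : DirichletCharacter ℂ q × ℝ} (h1 : x.1 = 1) (h2 : x.2 = 0) (s : ℂ) :
    LF x s = riemannZeta s := by
  unfold LF
  have hc : x.1.conductor = 1 := by rw [h1]; exact DirichletCharacter.conductor_one
  rw [LF_modOne hc, h2]
  simp

theorem LF_entire {x : DirichletCharacter ℂ q × ℝ} (h1 : x.1 ≠ 1) : Differentiable ℂ (LF x) := by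
  unfold LF
  exact (DirichletCharacter.differentiable_LFunction (prim_ne_one h1)).comp
    (differentiable_id.add_const _)

theorem aLF_pow (x : DirichletCharacter ℂ q × ℝ) {p : ℕ} (k : ℕ) :
    aLF x (p ^ k) = aLF x p ^ k := by
  unfold aLF
  rw [mul_pow]
  congr 1
  · push_cast
    rw [map_pow]
  · push_cast
    rw [← Complex.natCast_cpow_natCast_mul, mul_comm, Complex.cpow_mul_nat]

theorem aLF_norm (x : DirichletCharacter ℂ q × ℝ) {n : ℕ} (hn : n ≠ 0) : ‖aLF x n‖ ≤ 1 := by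
  unfold aLF
  rw [norm_mul]
  have h1 : ‖(n : ℂ) ^ (-((x.2 : ℂ) * I))‖ = 1 := by
    rw [Complex.norm_natCast_cpow_of_pos (Nat.pos_of_ne_zero hn)]
    simp
  rw [h1, mul_one]
  exact DirichletCharacter.norm_le_one _ _

theorem bLF_pow (x : DirichletCharacter ℂ q × ℝ) {p : ℕ} (hp : p.Prime) {k : ℕ} (hk : 1 ≤ k) :
    (k : ℂ) * bLF x (p ^ k) = aLF x p ^ k := by
  unfold bLF
  rw [ArithmeticFunction.vonMangoldt_apply_pow (by omega),
    ArithmeticFunction.vonMangoldt_apply_prime hp, aLF_pow]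
  have hl : Real.log p ≠ 0 := (Real.log_pos (by exact_mod_cast hp.one_lt)).ne'
  have hk0 : (k : ℂ) ≠ 0 := by exact_mod_cast (by omega : k ≠ 0)
  have hlc : Complex.log (p : ℂ) ≠ 0 := by
    rw [← Complex.natCast_log]
    exact_mod_cast hl
  push_cast
  rw [Real.log_pow]
  push_cast
  field_simp

theorem bLF_norm (x : DirichletCharacter ℂ q × ℝ) {p : ℕ} (hp : p.Prime) : ‖bLF x (p ^ 2)‖ ≤ 1 := by
  have h := bLF_pow x hp (k := 2) (by norm_num)
  have h1 : ‖aLF x p ^ 2‖ ≤ 1 := by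
    rw [norm_pow]
    exact pow_le_one₀ (norm_nonneg _) (aLF_norm x hp.ne_zero)
  rw [← h, norm_mul, Complex.norm_natCast] at h1
  push_cast at h1
  linarith [norm_nonneg (bLF x (p ^ 2))]

theorem aLF_coprime (x : DirichletCharacter ℂ q × ℝ) {n : ℕ} (hn : n.Coprime q) :
    aLF x n = x.1 (n : ZMod q) * (n : ℂ) ^ (-((x.2 : ℂ) * I)) := by
  unfold aLF
  rw [char_coprime x.1 hn]

theorem aLF_ne_zero (x : DirichletCharacter ℂ q × ℝ) {p : ℕ} (hp : p.Prime) {u : (ZMod q)ˣ}
    (hpu : (p : ZMod q) = u) : aLF x p ≠ 0 := by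
  have hc : p.Coprime q := by
    rw [← ZMod.isUnit_iff_coprime, hpu]
    exact u.isUnit
  rw [aLF_coprime x hc, hpu]
  refine mul_ne_zero ?_ ?_
  · exact ((x.1.toUnitHom u).ne_zero)
  · exact Complex.cpow_ne_zero_iff.2 (Or.inl (by exact_mod_cast hp.ne_zero))

theorem Q1For_LF {x : DirichletCharacter ℂ q × ℝ} (h1 : x.1 ≠ 1) : Q1For (LF x) := by
  intro r hr hp
  have h := (LF_entire h1).analyticAt 1 |>.meromorphicOrderAt_nonneg
  rw [hp] at h
  exfalso
  have h2 : (0 : ℤ) ≤ -(r : ℤ) := by exact_mod_cast h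
  omega

end chars

/-- `Small` does not depend on finitely many primes -/
theorem small_congr {δ δ' : ℕ → ℂ} {q : ℕ} (hq : q ≠ 0) (h : Small δ)
    (he : ∀ p : ℕ, p.Prime → ¬ p ∣ q → δ' p = δ p) : Small δ' := by
  obtain ⟨σ₀, hσ, hs⟩ := h
  refine ⟨σ₀, hσ, ?_⟩
  have hfin : {p : Nat.Primes | (p : ℕ) ∣ q}.Finite := by
    refine Set.Finite.of_finite_image (f := fun p : Nat.Primes => (p : ℕ)) ?_
      (Subtype.val_injective.injOn)
    refine (Set.finite_Iic q).subset ?_
    rintro _ ⟨p, hp, rfl⟩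
    exact Nat.le_of_dvd (Nat.pos_of_ne_zero hq) hp
  have h1 : Summable (fun p : Nat.Primes => open Classical in if (p : ℕ) ∣ q then
      ‖δ' p‖ * ((p : ℕ) : ℝ) ^ (-σ₀) else 0) := by
    refine summable_of_finite_support (hfin.subset ?_)
    intro p hp
    rw [Function.mem_support] at hp
    by_contra hcon
    exact hp (if_neg hcon)
  refine Summable.of_nonneg_of_le (fun p => by positivity) (fun p => ?_) (h1.add hs)
  by_cases hp : (p : ℕ) ∣ q
  · rw [if_pos hp]
    have : 0 ≤ ‖δ p‖ * ((p : ℕ) : ℝ) ^ (-σ₀) := by positivity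
    linarith
  · rw [if_neg hp, zero_add, he p p.2 hp]

theorem msb_of {δ : ℕ → ℂ} (h : MeanSq δ) : MSB δ := h

/-- the relation theorem for one function and a family -/
theorem one_rel {ι : Type} [Fintype ι] {F : ℂ → ℂ} {a b : ℕ → ℂ}
    (hF : IsSelberg F a b) {L : ι → ℂ → ℂ} {aL bL : ι → ℕ → ℂ}
    (hL : ∀ j, IsSelberg (L j) (aL j) (bL j)) {c : ι → ℂ}
    (h1 : Small (fun p => a p - ∑ j, c j * aL j p))
    (h2 : MSB (fun p => b (p ^ 2) - ∑ j, c j * bL j (p ^ 2))) (n : ℕ) :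
    b n = ∑ j, c j * bL j n := by
  set G : Option ι → ℂ → ℂ := fun o => o.elim F L with hG
  set aa : Option ι → ℕ → ℂ := fun o => o.elim a aL with haa
  set bb : Option ι → ℕ → ℂ := fun o => o.elim b bL with hbb
  set g : Option ι → ℂ := fun o => o.elim 1 (fun j => -c j) with hg
  have hE : ∀ o, IsSelberg (G o) (aa o) (bb o) := by
    intro o
    cases o with
    | none => exact hF
    | some j => exact hL j
  have hsum : ∀ (x : ℕ → ℂ) (y : ι → ℕ → ℂ) (n : ℕ),
      ∑ o : Option ι, g o * (o.elim x y : ℕ → ℂ) n = x n - ∑ j, c j * y j n := by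
    intro x y n
    rw [Fintype.sum_option]
    simp only [hg, Option.elim, one_mul, neg_mul, Finset.sum_neg_distrib]
    ring
  have h3 := sel_rel' hE (g := g) (by
    have : (fun p => ∑ o, g o * aa o p) = fun p => a p - ∑ j, c j * aL j p := by
      funext p
      exact hsum a aL p
    rw [this]
    exact h1) (by
    have : (fun p => ∑ o, g o * bb o (p ^ 2)) = fun p => b (p ^ 2) - ∑ j, c j * bL j (p ^ 2) := by
      funext p
      exact hsum b bL (p ^ 2)
    rw [this]
    exact h2) n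
  have h4 := hsum b bL n
  have h5 : b n - ∑ j, c j * bL j n = 0 := by
    rw [← h4]
    exact h3
  exact sub_eq_zero.1 h5

/-- **Relations with Dirichlet L-functions**: the relation between the coefficients of the
logarithms. -/
theorem dir_rel (hSLF : T_SLF) (hMSB : T_MSB) (hALP : T_ALP) {F : ℂ → ℂ} {a b : ℕ → ℂ}
    (hF : IsSelberg F a b) {d : ℕ} (hP : PolyE b d) {q : ℕ} [NeZero q]
    (X : Finset (DirichletCharacter ℂ q × ℝ)) (hX : ∀ x ∈ X, x.1 = 1 → x.2 = 0)
    (c : DirichletCharacter ℂ q × ℝ → ℂ)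
    (hrel : Small (fun p => open Classical in if p ∣ q then 0 else
      a p - ∑ x ∈ X, c x * (x.1 (p : ZMod q) * (p : ℂ) ^ (-((x.2 : ℂ) * I))))) (n : ℕ) :
    b n = ∑ x : X, c x * bLF (x : DirichletCharacter ℂ q × ℝ) n := by
  classical
  have hL : ∀ x : X, IsSelberg (LF (x : DirichletCharacter ℂ q × ℝ))
      (aLF (x : DirichletCharacter ℂ q × ℝ)) (bLF (x : DirichletCharacter ℂ q × ℝ)) :=
    fun x => hSLF _ (hX x x.2)
  have hsm : Small (fun p => a p - ∑ x : X, c x * aLF (x : DirichletCharacter ℂ q × ℝ) p) := by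
    refine small_congr (NeZero.ne q) hrel (fun p hp hpq => ?_)
    rw [if_neg hpq]
    congr 1
    rw [← Finset.sum_coe_sort X]
    refine Finset.sum_congr rfl (fun x _ => ?_)
    have hc : p.Coprime q := (Nat.Prime.coprime_iff_not_dvd hp).2 hpq
    rw [aLF_coprime _ hc]
  have hms : MSB (fun p => b (p ^ 2) - ∑ x : X, c x *
      bLF (x : DirichletCharacter ℂ q × ℝ) (p ^ 2)) := by
    apply msb_of
    refine hMSB (δ := fun p => b (p ^ 2) - ∑ x : X, c x *
      bLF (x : DirichletCharacter ℂ q × ℝ) (p ^ 2)) (B := (d : ℝ) + ∑ x : X, ‖c x‖) (fun p hp => ?_)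
    refine (norm_sub_le _ _).trans (add_le_add ?_ ?_)
    · obtain ⟨α, hα⟩ := hP p hp
      have h1 := hALP hF hp hα
      have h2 := hα 2 (by norm_num)
      have h3 : ‖((2 : ℕ) : ℂ) * b (p ^ 2)‖ ≤ d := by
        rw [h2]
        refine (norm_sum_le _ _).trans ?_
        calc ∑ i, ‖α i ^ 2‖ ≤ ∑ i : Fin d, (1 : ℝ) := by
              refine Finset.sum_le_sum (fun i _ => ?_)
              rw [norm_pow]
              exact pow_le_one₀ (norm_nonneg _) (h1 i)
          _ = d := by simp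
      rw [norm_mul, Complex.norm_natCast] at h3
      push_cast at h3
      linarith [norm_nonneg (b (p ^ 2))]
    · refine (norm_sum_le _ _).trans (Finset.sum_le_sum (fun x _ => ?_))
      rw [norm_mul]
      have := bLF_norm (x : DirichletCharacter ℂ q × ℝ) hp
      nlinarith [norm_nonneg (c x)]
  exact one_rel hF hL hsm hms n

/-- integrality from one prime -/
theorem dir_int (hVAN : T_VAN) {b : ℕ → ℂ} {d : ℕ} (hP : PolyE b d) {q : ℕ} [NeZero q]
    (X : Finset (DirichletCharacter ℂ q × ℝ)) (c : DirichletCharacter ℂ q × ℝ → ℂ)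
    (h : ∀ n, b n = ∑ x : X, c x * bLF (x : DirichletCharacter ℂ q × ℝ) n) {p : ℕ} (hp : p.Prime)
    {u : (ZMod q)ˣ} (hpu : (p : ZMod q) = u)
    (hsep : ∀ x ∈ X, ∀ y ∈ X, aLF x p = aLF y p → x = y) :
    ∃ m : DirichletCharacter ℂ q × ℝ → ℕ, ∀ x ∈ X, c x = m x := by
  classical
  obtain ⟨α, hα⟩ := hP p hp
  refine ⟨fun x => (Finset.univ.filter (fun i => α i = aLF x p)).card, fun x₀ hx₀ => ?_⟩
  set w : Fin d ⊕ X → ℂ := Sum.elim (fun _ => 1) (fun x => -c x) with hw
  set y : Fin d ⊕ X → ℂ := Sum.elim α (fun x => aLF (x : DirichletCharacter ℂ q × ℝ) p) with hy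
  have h1 : ∀ k : ℕ, 1 ≤ k → ∑ i, w i * y i ^ k = 0 := by
    intro k hk
    rw [Fintype.sum_sum_type]
    simp only [hw, hy, Sum.elim_inl, Sum.elim_inr, one_mul]
    rw [← hα k hk, h (p ^ k), Finset.mul_sum, ← Finset.sum_add_distrib]
    refine Finset.sum_eq_zero (fun x _ => ?_)
    have := bLF_pow (x : DirichletCharacter ℂ q × ℝ) hp hk
    rw [← this]
    ring
  have h2 := hVAN h1 (aLF x₀ p) (aLF_ne_zero x₀ hp hpu)
  rw [Fintype.sum_sum_type] at h2
  simp only [hw, hy, Sum.elim_inl, Sum.elim_inr] at h2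
  have h3 : ∑ x : X, (if aLF (x : DirichletCharacter ℂ q × ℝ) p = aLF x₀ p then -c x else 0) =
      -c x₀ := by
    rw [Finset.sum_eq_single (⟨x₀, hx₀⟩ : X)]
    · simp
    · intro x _ hx
      rw [if_neg]
      intro heq
      exact hx (Subtype.ext (hsep _ x.2 _ hx₀ heq))
    · intro h
      exact absurd (Finset.mem_univ _) h
  have h4 : ∑ i : Fin d, (if α i = aLF x₀ p then (1 : ℂ) else 0) =
      ((Finset.univ.filter (fun i => α i = aLF x₀ p)).card : ℂ) := by
    rw [Finset.sum_ite]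
    simp
  have h5 : ((Finset.univ.filter (fun i => α i = aLF x₀ p)).card : ℂ) + -c x₀ = 0 := by
    rw [← h4, ← h3]
    convert h2
  linear_combination -h5

end Pool.Agent.SelRel
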