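import Pool.Agent.SelRel.Defs2
import Pool.Agent.SelPole.Final

/-! ENT: entire quotients. -/

set_option autoImplicit false

namespace Pool.Agent.SelRel

open Complex Filter Topology Set Pool.Agent.SelPole

theorem ENT_analyticAt {F : ℂ → ℂ} {c : ℕ → ℂ} (hF : EulerFE F c) {x : ℂ} (hx : x ≠ 1) :
    AnalyticAt ℂ F x := by
  obtain ⟨m, g, hg, hge⟩ := hF.cont
  apply Complex.analyticAt_iff_eventually_differentiableAt.mpr
  filter_upwards [isOpen_ne.mem_nhds hx] with z hz
  have h2 : DifferentiableAt ℂ (fun s => g s / (s - 1) ^ m) z := by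
    have h3 : (z - 1) ^ m ≠ 0 := pow_ne_zero _ (sub_ne_zero.mpr hz)
    have h4 := hg z
    exact h4.div (by fun_prop) h3
  refine h2.congr_of_eventuallyEq ?_
  filter_upwards [isOpen_ne.mem_nhds hz] with w hw
  rw [hge w hw]
  have : (w - 1) ^ m ≠ 0 := pow_ne_zero _ (sub_ne_zero.mpr hw)
  field_simp

theorem p_ENT : T_ENT := by
  intro F G c d hF hG hord
  have hm : MeromorphicOn (F * G⁻¹) univ := fun z _ => (hF.meromorphicAt z).mul (hG.meromorphicAt z).inv
  have ho : ∀ z, 0 ≤ meromorphicOrderAt (F * G⁻¹) z := by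
    intro z
    rw [meromorphicOrderAt_mul (hF.meromorphicAt z) (hG.meromorphicAt z).inv, meromorphicOrderAt_inv]
    obtain ⟨a, ha⟩ := WithTop.ne_top_iff_exists.mp (hF.order_ne_top z)
    obtain ⟨b, hb⟩ := WithTop.ne_top_iff_exists.mp (hG.order_ne_top z)
    have h1 := hord z
    rw [← ha, ← hb] at h1 ⊢
    have h2 : b ≤ a := by exact_mod_cast h1
    have h3 : -((b : ℤ) : WithTop ℤ) = ((-b : ℤ) : WithTop ℤ) := rfl
    rw [h3, ← WithTop.coe_add]
    have h4 : (0 : ℤ) ≤ a + -b := by linarith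
    exact_mod_cast h4
  have hd : Differentiable ℂ (toMeromorphicNFOn (F * G⁻¹) univ) := by
    intro z
    have h1 := meromorphicNFOn_toMeromorphicNFOn (F * G⁻¹) univ (mem_univ z)
    have h2 : 0 ≤ meromorphicOrderAt (toMeromorphicNFOn (F * G⁻¹) univ) z := by
      rw [meromorphicOrderAt_toMeromorphicNFOn hm (mem_univ z)]; exact ho z
    exact ((h1.meromorphicOrderAt_nonneg_iff_analyticAt).1 h2).differentiableAt
  refine ⟨toMeromorphicNFOn (F * G⁻¹) univ, hd, ?_⟩
  · intro s hs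
    have e1 := hm.toMeromorphicNFOn_eq_self_on_nhdsNE (mem_univ s)
    have e2 := (meromorphicOrderAt_ne_top_iff_eventually_ne_zero (hG.meromorphicAt s)).1
      (hG.order_ne_top s)
    have hF' : Tendsto F (𝓝[≠] s) (𝓝 (F s)) :=
      (ENT_analyticAt hF hs).continuousAt.tendsto.mono_left nhdsWithin_le_nhds
    have hG' : Tendsto G (𝓝[≠] s) (𝓝 (G s)) :=
      (ENT_analyticAt hG hs).continuousAt.tendsto.mono_left nhdsWithin_le_nhds
    have hH' : Tendsto (toMeromorphicNFOn (F * G⁻¹) univ) (𝓝[≠] s)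
        (𝓝 (toMeromorphicNFOn (F * G⁻¹) univ s)) :=
      (hd s).continuousAt.tendsto.mono_left nhdsWithin_le_nhds
    refine tendsto_nhds_unique hF' ((hG'.mul hH').congr' ?_)
    filter_upwards [e1, e2] with z h1 h2
    rw [h1]
    simp only [Pi.mul_apply, Pi.inv_apply]
    field_simp

end Pool.Agent.SelRel
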