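import Pool.Agent.SelRel.Defs2

/-! FNO: finite order from the functional equation and a bound in a half plane. -/

set_option autoImplicit false

namespace Pool.Agent.SelRel

open Complex Filter Topology Set MeasureTheory Metric Pool.Agent.SelPole Pool.Agent.SelCR
open Pool.Agent.PrimesOnly
open scoped ComplexConjugate

/-! ### bounds for Gamma and 1/Gamma -/

lemma FNO_beta {u v : ℂ} (_hu : 0 < u.re) (_hv : 0 < v.re) :
    ‖betaIntegral u v‖ ≤ ‖betaIntegral (u.re : ℂ) (v.re : ℂ)‖ := by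
  have e : betaIntegral (u.re : ℂ) (v.re : ℂ) =
      ((∫ x : ℝ in (0 : ℝ)..1, x ^ (u.re - 1) * (1 - x) ^ (v.re - 1) : ℝ) : ℂ) := by
    rw [betaIntegral, ← intervalIntegral.integral_ofReal]
    refine intervalIntegral.integral_congr fun x hx => ?_
    rw [uIcc_of_le zero_le_one] at hx
    push_cast
    rw [ofReal_cpow hx.1, ofReal_cpow (by linarith [hx.2])]
    push_cast
    rfl
  have e2 : ∫ x : ℝ in (0 : ℝ)..1, ‖(x : ℂ) ^ (u - 1) * (1 - (x : ℂ)) ^ (v - 1)‖ =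
      ∫ x : ℝ in (0 : ℝ)..1, x ^ (u.re - 1) * (1 - x) ^ (v.re - 1) := by
    rw [intervalIntegral.integral_of_le zero_le_one, intervalIntegral.integral_of_le zero_le_one,
      integral_Ioc_eq_integral_Ioo, integral_Ioc_eq_integral_Ioo]
    refine setIntegral_congr_fun measurableSet_Ioo fun x hx => ?_
    have h1 : (1 : ℂ) - (x : ℂ) = ((1 - x : ℝ) : ℂ) := by push_cast; rfl
    rw [norm_mul, norm_cpow_eq_rpow_re_of_pos hx.1, h1,
      norm_cpow_eq_rpow_re_of_pos (by linarith [hx.2])]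
    simp
  have h0 : 0 ≤ ∫ x : ℝ in (0 : ℝ)..1, x ^ (u.re - 1) * (1 - x) ^ (v.re - 1) := by
    refine intervalIntegral.integral_nonneg zero_le_one fun x hx => ?_
    exact mul_nonneg (Real.rpow_nonneg hx.1 _) (Real.rpow_nonneg (by linarith [hx.2]) _)
  rw [e, norm_real, Real.norm_of_nonneg h0, ← e2, betaIntegral]
  exact intervalIntegral.norm_integral_le_integral_norm zero_le_one

lemma FNO_Gamma_le {w : ℂ} (hw : 0 < w.re) : ‖Gamma w‖ ≤ Real.Gamma w.re := by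
  rw [Complex.Gamma_eq_integral hw, Real.Gamma_eq_integral hw, GammaIntegral]
  refine (norm_integral_le_integral_norm _).trans (le_of_eq ?_)
  refine setIntegral_congr_fun measurableSet_Ioi fun x hx => ?_
  rw [norm_mul, norm_cpow_eq_rpow_re_of_pos hx, norm_real, Real.norm_of_nonneg (Real.exp_pos _).le]
  simp

lemma FNO_inv_Gamma (w : ℂ) : (Gamma w)⁻¹ = Gamma (1 - w) * (Complex.sin (Real.pi * w) /
    Real.pi) ∨ Gamma (1 - w) = 0 := by
  by_cases h : Gamma (1 - w) = 0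
  · exact Or.inr h
  · left
    have h1 := congrArg (·⁻¹) (Complex.Gamma_mul_Gamma_one_sub w)
    simp only [mul_inv, inv_div] at h1
    rw [← h1]
    field_simp

lemma FNO_sin (z : ℂ) : ‖Complex.sin z‖ ≤ Real.exp ‖z‖ := by
  rw [Complex.sin, norm_div, norm_mul, norm_I, mul_one]
  have h1 : ‖Complex.exp (-z * I)‖ ≤ Real.exp ‖z‖ := by
    rw [Complex.norm_exp]
    refine Real.exp_le_exp.2 ((Complex.re_le_norm _).trans ?_)
    simp
  have h2 : ‖Complex.exp (z * I)‖ ≤ Real.exp ‖z‖ := by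
    rw [Complex.norm_exp]
    refine Real.exp_le_exp.2 ((Complex.re_le_norm _).trans ?_)
    simp
  have h3 : ‖Complex.exp (-z * I) - Complex.exp (z * I)‖ ≤ 2 * Real.exp ‖z‖ :=
    (norm_sub_le _ _).trans (by linarith)
  have : ‖(2 : ℂ)‖ = 2 := by simp
  rw [this]
  linarith

/-- left half plane -/
lemma FNO_iG_left {w : ℂ} (hw : w.re < 1) :
    ‖(Gamma w)⁻¹‖ ≤ Real.Gamma (1 - w.re) * Real.exp (Real.pi * ‖w‖) := by
  have hre : 0 < (1 - w).re := by simp; linarith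
  have h0 : Gamma (1 - w) ≠ 0 := Complex.Gamma_ne_zero_of_re_pos hre
  have h1 := (FNO_inv_Gamma w).resolve_right h0
  rw [h1, norm_mul, norm_div]
  have h2 : ‖Gamma (1 - w)‖ ≤ Real.Gamma (1 - w.re) := by
    have := FNO_Gamma_le hre
    simpa using this
  have h3 : ‖Complex.sin (Real.pi * w)‖ ≤ Real.exp (Real.pi * ‖w‖) := by
    refine (FNO_sin _).trans (Real.exp_le_exp.2 (le_of_eq ?_))
    rw [norm_mul, norm_real, Real.norm_of_nonneg Real.pi_pos.le]
  have hpi : ‖(Real.pi : ℂ)‖ = Real.pi := by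
    rw [norm_real, Real.norm_of_nonneg Real.pi_pos.le]
  rw [hpi]
  have h4 : ‖Complex.sin (Real.pi * w)‖ / Real.pi ≤ Real.exp (Real.pi * ‖w‖) := by
    rw [div_le_iff₀ Real.pi_pos]
    have : (1 : ℝ) ≤ Real.pi := by linarith [Real.pi_gt_three]
    nlinarith [Real.exp_pos (Real.pi * ‖w‖)]
  exact mul_le_mul h2 h4 (by positivity) (Real.Gamma_nonneg_of_nonneg (by linarith))

/-- right half plane -/
lemma FNO_iG_right {w : ℂ} (hw : 1 / 2 < w.re) :
    ‖(Gamma w)⁻¹‖ ≤ Real.exp (Real.pi * (1 + ‖w‖)) * Real.Gamma (1 / 2) ^ 2 *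
      (Real.Gamma w.re)⁻¹ := by
  set u : ℂ := (1 / 2 : ℝ) + w.im * I with hu
  set c : ℝ := w.re - 1 / 2 with hc
  have hc0 : 0 < c := by simp only [hc]; linarith
  have hure : u.re = 1 / 2 := by simp [hu]
  have huc : u + (c : ℂ) = w := by
    apply Complex.ext <;> simp [hu, hc]
  have e1 := Complex.Gamma_mul_Gamma_eq_betaIntegral (s := u) (t := (c : ℂ))
    (by rw [hure]; norm_num) (by simpa using hc0)
  rw [huc] at e1
  have e2 := Complex.Gamma_mul_Gamma_eq_betaIntegral (s := ((1 / 2 : ℝ) : ℂ)) (t := (c : ℂ))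
    (by simp) (by simpa using hc0)
  have e3 : ((1 / 2 : ℝ) : ℂ) + (c : ℂ) = (w.re : ℂ) := by
    rw [hc]; push_cast; ring
  rw [e3] at e2
  have hG0 : Gamma w ≠ 0 := Complex.Gamma_ne_zero_of_re_pos (by linarith)
  have hGu : Gamma u ≠ 0 := Complex.Gamma_ne_zero_of_re_pos (by rw [hure]; norm_num)
  have hGc : Gamma (c : ℂ) ≠ 0 := Complex.Gamma_ne_zero_of_re_pos (by simpa using hc0)
  have hb := FNO_beta (u := u) (v := (c : ℂ)) (by rw [hure]; norm_num) (by simpa using hc0)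
  rw [hure, ofReal_re] at hb
  have hGcr : 0 < Real.Gamma c := Real.Gamma_pos_of_pos hc0
  have hGw : 0 < Real.Gamma w.re := Real.Gamma_pos_of_pos (by linarith)
  have hGh : 0 < Real.Gamma (1 / 2) := Real.Gamma_pos_of_pos (by norm_num)
  have e4 : ‖betaIntegral ((1 / 2 : ℝ) : ℂ) (c : ℂ)‖ =
      Real.Gamma (1 / 2) * Real.Gamma c / Real.Gamma w.re := by
    have := congrArg norm e2
    rw [norm_mul, norm_mul, Complex.Gamma_ofReal, Complex.Gamma_ofReal, Complex.Gamma_ofReal,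
      norm_real, norm_real, norm_real, Real.norm_of_nonneg hGcr.le, Real.norm_of_nonneg hGw.le,
      Real.norm_of_nonneg hGh.le] at this
    rw [this]
    field_simp
  have e5 : (Gamma w)⁻¹ = (Gamma u)⁻¹ * ((Gamma (c : ℂ))⁻¹ * betaIntegral u c) := by
    field_simp
    rw [mul_comm, ← e1]
    ring
  have h1 : ‖(Gamma u)⁻¹‖ ≤ Real.Gamma (1 / 2) * Real.exp (Real.pi * (1 + ‖w‖)) := by
    have := FNO_iG_left (w := u) (by rw [hure]; norm_num)
    rw [hure] at this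
    refine this.trans ?_
    rw [show (1 : ℝ) - 1 / 2 = 1 / 2 by norm_num]
    refine mul_le_mul_of_nonneg_left (Real.exp_le_exp.2 ?_) hGh.le
    refine mul_le_mul_of_nonneg_left ?_ Real.pi_pos.le
    rw [hu]
    refine (norm_add_le _ _).trans ?_
    rw [norm_mul, norm_I, mul_one, norm_real, norm_real]
    have := Complex.abs_im_le_norm w
    rw [Real.norm_eq_abs, Real.norm_eq_abs, abs_of_pos (by norm_num : (0 : ℝ) < 1 / 2)]
    linarith
  have h2 : ‖(Gamma (c : ℂ))⁻¹ * betaIntegral u c‖ ≤ Real.Gamma (1 / 2) * (Real.Gamma w.re)⁻¹ := by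
    rw [norm_mul, norm_inv, Complex.Gamma_ofReal, norm_real, Real.norm_of_nonneg hGcr.le]
    calc (Real.Gamma c)⁻¹ * ‖betaIntegral u c‖ ≤
        (Real.Gamma c)⁻¹ * (Real.Gamma (1 / 2) * Real.Gamma c / Real.Gamma w.re) := by
          rw [← e4]; exact mul_le_mul_of_nonneg_left hb (inv_nonneg.2 hGcr.le)
      _ = _ := by field_simp
  rw [e5, norm_mul]
  calc ‖(Gamma u)⁻¹‖ * ‖(Gamma (c : ℂ))⁻¹ * betaIntegral u c‖ ≤
      (Real.Gamma (1 / 2) * Real.exp (Real.pi * (1 + ‖w‖))) *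
        (Real.Gamma (1 / 2) * (Real.Gamma w.re)⁻¹) :=
        mul_le_mul h1 h2 (norm_nonneg _) (by positivity)
    _ = _ := by ring

lemma FNO_rG {δ x : ℝ} (hδ : 0 < δ) (hx : δ ≤ x) :
    Real.Gamma x ≤ (δ ^ 2)⁻¹ * Real.exp ((x + 2) ^ 2) := by
  have hx0 : 0 < x := hδ.trans_le hx
  have e1 : Real.Gamma (x + 1) = x * Real.Gamma x := Real.Gamma_add_one hx0.ne'
  have e2 : Real.Gamma (x + 1 + 1) = (x + 1) * Real.Gamma (x + 1) :=
    Real.Gamma_add_one (by positivity)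
  have e3 : Real.Gamma x = Real.Gamma (x + 1 + 1) / (x * (x + 1)) := by
    rw [e2, e1]; field_simp
  set n : ℕ := ⌈x⌉₊ with hn
  have hxn : x ≤ n := Nat.le_ceil x
  have hnx : (n : ℝ) < x + 1 := Nat.ceil_lt_add_one hx0.le
  have h1 : Real.Gamma (x + 1 + 1) ≤ Real.Gamma (((n + 1 : ℕ) : ℝ) + 1) := by
    apply Real.Gamma_strictMonoOn_Ici.monotoneOn
    · simp only [mem_Ici]; linarith
    · simp only [mem_Ici]; push_cast; linarith [Nat.cast_nonneg (α := ℝ) n]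
    · push_cast; linarith
  rw [Real.Gamma_nat_eq_factorial] at h1
  have h2 : (((n + 1).factorial : ℕ) : ℝ) ≤ ((n : ℝ) + 1) ^ (n + 1) := by
    have := Nat.factorial_le_pow (n + 1)
    exact_mod_cast this
  have h3 : ((n : ℝ) + 1) ^ (n + 1) ≤ Real.exp ((x + 2) ^ 2) := by
    have h4 : (n : ℝ) + 1 ≤ Real.exp ((n : ℝ) + 1) := by
      have := Real.add_one_le_exp ((n : ℝ) + 1)
      linarith
    calc ((n : ℝ) + 1) ^ (n + 1) ≤ (Real.exp ((n : ℝ) + 1)) ^ (n + 1) := by gcongr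
      _ = Real.exp (((n : ℝ) + 1) ^ 2) := by
        rw [← Real.exp_nat_mul]; congr 1; push_cast; ring
      _ ≤ _ := by
        refine Real.exp_le_exp.2 ?_
        have : (n : ℝ) + 1 ≤ x + 2 := by linarith
        gcongr
  have h5 : Real.Gamma (x + 1 + 1) ≤ Real.exp ((x + 2) ^ 2) := h1.trans (h2.trans h3)
  have h6 : δ ^ 2 ≤ x * (x + 1) := by nlinarith
  rw [e3, div_eq_inv_mul]
  have h7 : (x * (x + 1))⁻¹ ≤ (δ ^ 2)⁻¹ := inv_anti₀ (by positivity) h6
  exact mul_le_mul h7 h5 (Real.Gamma_nonneg_of_nonneg (by positivity)) (by positivity)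

lemma FNO_rG_inv : ∃ C : ℝ, 0 ≤ C ∧ ∀ x : ℝ, 1 / 2 ≤ x → (Real.Gamma x)⁻¹ ≤ C := by
  have hcont : ContinuousOn (fun x : ℝ => (Real.Gamma x)⁻¹) (Icc (1 / 2) 2) := by
    refine ContinuousOn.inv₀ ?_ ?_
    · intro x hx
      refine (Real.differentiableAt_Gamma fun m => ?_).continuousAt.continuousWithinAt
      have : (0 : ℝ) < x := by linarith [hx.1]
      have h2 : (0 : ℝ) ≤ m := Nat.cast_nonneg m
      intro h
      linarith
    · intro x hx
      exact (Real.Gamma_pos_of_pos (by linarith [hx.1])).ne'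
  obtain ⟨C, hC⟩ := isCompact_Icc.exists_bound_of_continuousOn hcont
  refine ⟨max C 1, by positivity, fun x hx => ?_⟩
  by_cases h : x ≤ 2
  · exact ((le_abs_self _).trans (hC x ⟨hx, h⟩)).trans (le_max_left _ _)
  · push Not at h
    have h1 : Real.Gamma 2 ≤ Real.Gamma x :=
      Real.Gamma_strictMonoOn_Ici.monotoneOn (by simp) (by simp; linarith) h.le
    rw [Real.Gamma_two] at h1
    exact (inv_le_one_of_one_le₀ h1).trans (le_max_right _ _)

/-! ### growth classes -/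

/-- growth at most `C exp (D (1 + ‖s‖)²)` on `S` -/
def FNO_B (S : Set ℂ) (h : ℂ → ℂ) : Prop :=
  ∃ C D : ℝ, 0 ≤ C ∧ 0 ≤ D ∧ ∀ s ∈ S, ‖h s‖ ≤ C * Real.exp (D * (1 + ‖s‖) ^ 2)

lemma FNO_mul {S : Set ℂ} {f h : ℂ → ℂ} (hf : FNO_B S f) (hh : FNO_B S h) :
    FNO_B S (fun s => f s * h s) := by
  obtain ⟨C, D, hC, hD, H⟩ := hf
  obtain ⟨C', D', hC', hD', H'⟩ := hh
  refine ⟨C * C', D + D', by positivity, by positivity, fun s hs => ?_⟩
  rw [norm_mul, add_mul, Real.exp_add]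
  calc ‖f s‖ * ‖h s‖ ≤
      (C * Real.exp (D * (1 + ‖s‖) ^ 2)) * (C' * Real.exp (D' * (1 + ‖s‖) ^ 2)) :=
        mul_le_mul (H s hs) (H' s hs) (norm_nonneg _) (by positivity)
    _ = _ := by ring

lemma FNO_const (S : Set ℂ) (c : ℂ) : FNO_B S (fun _ => c) :=
  ⟨‖c‖, 0, norm_nonneg _, le_rfl, fun s _ => by simp⟩

lemma FNO_pow {S : Set ℂ} {f : ℂ → ℂ} (hf : FNO_B S f) (n : ℕ) : FNO_B S (fun s => f s ^ n) := by
  induction n with
  | zero => simpa using FNO_const S 1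
  | succ n ih => simpa [pow_succ] using FNO_mul ih hf

lemma FNO_prod {S : Set ℂ} {ι : Type*} (t : Finset ι) {f : ι → ℂ → ℂ}
    (hf : ∀ i ∈ t, FNO_B S (f i)) : FNO_B S (fun s => ∏ i ∈ t, f i s) := by
  classical
  induction t using Finset.induction_on with
  | empty => simpa using FNO_const S 1
  | insert a t ha ih =>
    have h1 : FNO_B S (fun s => f a s * ∏ i ∈ t, f i s) :=
      FNO_mul (hf a (Finset.mem_insert_self a t))
        (ih fun i hi => hf i (Finset.mem_insert_of_mem hi))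
    simpa [Finset.prod_insert ha] using h1

/-- a bound by `K (1 + ‖s‖)` -/
lemma FNO_lin {S : Set ℂ} {f : ℂ → ℂ} {K : ℝ} (hK : 0 ≤ K)
    (hf : ∀ s ∈ S, ‖f s‖ ≤ K * (1 + ‖s‖)) : FNO_B S f := by
  refine ⟨K, 1, hK, zero_le_one, fun s hs => (hf s hs).trans ?_⟩
  refine mul_le_mul_of_nonneg_left ?_ hK
  have h1 : (1 + ‖s‖) ^ 2 + 1 ≤ Real.exp ((1 + ‖s‖) ^ 2) := Real.add_one_le_exp _
  have h2 : 0 ≤ ‖s‖ := norm_nonneg s
  rw [one_mul]
  nlinarith

/-- composition with a map of linear growth -/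
lemma FNO_comp {S T : Set ℂ} {f φ : ℂ → ℂ} (hf : FNO_B T f) {K : ℝ} (hK : 0 ≤ K)
    (hφ : ∀ s ∈ S, φ s ∈ T ∧ ‖φ s‖ ≤ K * (1 + ‖s‖)) : FNO_B S (fun s => f (φ s)) := by
  obtain ⟨C, D, hC, hD, H⟩ := hf
  refine ⟨C, D * (1 + K) ^ 2, hC, by positivity, fun s hs => ?_⟩
  obtain ⟨h1, h2⟩ := hφ s hs
  refine (H _ h1).trans (mul_le_mul_of_nonneg_left (Real.exp_le_exp.2 ?_) hC)
  rw [mul_assoc, ← mul_pow]
  refine mul_le_mul_of_nonneg_left ?_ hD
  have h3 : 0 ≤ ‖s‖ := norm_nonneg s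
  have h4 : 1 + ‖φ s‖ ≤ (1 + K) * (1 + ‖s‖) := by nlinarith
  gcongr

lemma FNO_G (δ : ℝ) (hδ : 0 < δ) : FNO_B {s | δ ≤ s.re} Gamma := by
  have hm : 0 < min δ 1 := lt_min hδ one_pos
  refine ⟨(min δ 1 ^ 2)⁻¹, 4, by positivity, by norm_num, fun s hs => ?_⟩
  have hs' : δ ≤ s.re := hs
  have h1 := FNO_Gamma_le (w := s) (by linarith)
  have h2 := FNO_rG (x := s.re) hm ((min_le_left _ _).trans hs')
  refine (h1.trans h2).trans (mul_le_mul_of_nonneg_left (Real.exp_le_exp.2 ?_) (by positivity))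
  have h3 : s.re ≤ ‖s‖ := Complex.re_le_norm s
  have h4 : 0 ≤ ‖s‖ := norm_nonneg s
  nlinarith

lemma FNO_iG : FNO_B univ (fun s => (Gamma s)⁻¹) := by
  obtain ⟨C, hC0, hC⟩ := FNO_rG_inv
  refine ⟨max ((((1 / 2 : ℝ)) ^ 2)⁻¹) (Real.Gamma (1 / 2) ^ 2 * C), 16, by positivity,
    by norm_num, fun s _ => ?_⟩
  have h4 : 0 ≤ ‖s‖ := norm_nonneg s
  have hpi : Real.pi ≤ 4 := Real.pi_le_four
  have hpi0 : 0 < Real.pi := Real.pi_pos
  by_cases hs : s.re ≤ 1 / 2
  · have h1 := FNO_iG_left (w := s) (by linarith)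
    have h2 := FNO_rG (δ := 1 / 2) (x := 1 - s.re) (by norm_num) (by linarith)
    have h3 : -s.re ≤ ‖s‖ := (neg_le_abs _).trans (Complex.abs_re_le_norm s)
    calc ‖(Gamma s)⁻¹‖ ≤ Real.Gamma (1 - s.re) * Real.exp (Real.pi * ‖s‖) := h1
      _ ≤ ((((1 / 2 : ℝ)) ^ 2)⁻¹ * Real.exp ((1 - s.re + 2) ^ 2)) * Real.exp (Real.pi * ‖s‖) :=
        mul_le_mul_of_nonneg_right h2 (Real.exp_pos _).le
      _ = (((1 / 2 : ℝ)) ^ 2)⁻¹ * Real.exp ((1 - s.re + 2) ^ 2 + Real.pi * ‖s‖) := by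
        rw [Real.exp_add]; ring
      _ ≤ _ := by
        refine mul_le_mul (le_max_left _ _) (Real.exp_le_exp.2 ?_) (Real.exp_pos _).le
          (by positivity)
        have h5 : Real.pi * ‖s‖ ≤ 4 * ‖s‖ := mul_le_mul_of_nonneg_right hpi h4
        have h6 : 0 ≤ 1 - s.re + 2 := by linarith
        have h7 : 1 - s.re + 2 ≤ 3 + ‖s‖ := by linarith
        have h8 : (1 - s.re + 2) ^ 2 ≤ (3 + ‖s‖) ^ 2 := by gcongr
        nlinarith
  · push Not at hs
    have h1 := FNO_iG_right (w := s) hs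
    have h2 := hC s.re hs.le
    have hG : 0 < Real.Gamma (1 / 2) := Real.Gamma_pos_of_pos (by norm_num)
    calc ‖(Gamma s)⁻¹‖ ≤ Real.exp (Real.pi * (1 + ‖s‖)) * Real.Gamma (1 / 2) ^ 2 *
        (Real.Gamma s.re)⁻¹ := h1
      _ ≤ Real.exp (Real.pi * (1 + ‖s‖)) * Real.Gamma (1 / 2) ^ 2 * C :=
        mul_le_mul_of_nonneg_left h2 (by positivity)
      _ = (Real.Gamma (1 / 2) ^ 2 * C) * Real.exp (Real.pi * (1 + ‖s‖)) := by ring
      _ ≤ _ := by
        refine mul_le_mul (le_max_right _ _) (Real.exp_le_exp.2 ?_) (Real.exp_pos _).le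
          (by positivity)
        have h5 : Real.pi * (1 + ‖s‖) ≤ 4 * (1 + ‖s‖) :=
          mul_le_mul_of_nonneg_right hpi (by positivity)
        nlinarith

/-! ### the functional equation as an identity of entire functions -/

/-- the reflected function is entire -/
lemma FNO_conj {g : ℂ → ℂ} (hg : Differentiable ℂ g) :
    Differentiable ℂ (fun s : ℂ => (starRingEnd ℂ) (g ((starRingEnd ℂ) s))) := by
  intro s
  have := (hg ((starRingEnd ℂ) s)).conj_conj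
  simpa [Function.comp_def] using this

lemma FNO_id {F g : ℂ → ℂ} {M : ℕ} (hg : Differentiable ℂ g)
    (hgF : ∀ s : ℂ, s ≠ 1 → g s = (s - 1) ^ M * F s)
    {Q : ℝ} {k : ℕ} {l : Fin k → ℝ} {m : Fin k → ℂ} {w : ℂ}
    (hQ : 0 < Q) (hl : ∀ j, 0 < l j) (hm : ∀ j, 0 ≤ (m j).re)
    (hfe : ∀ s : ℂ, 0 < s.re → s.re < 1 →
      (Q : ℂ) ^ s * (∏ j, Gamma (l j * s + m j)) * F s =
        w * (starRingEnd ℂ) ((Q : ℂ) ^ (1 - (starRingEnd ℂ) s) *
          (∏ j, Gamma (l j * (1 - (starRingEnd ℂ) s) + m j)) * F (1 - (starRingEnd ℂ) s)))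
    (s : ℂ) :
    (Q : ℂ) ^ s * (-s) ^ M * g s *
      ∏ j, (Gamma ((l j : ℂ) * (1 - s) + (starRingEnd ℂ) (m j)))⁻¹ =
    w * (Q : ℂ) ^ (1 - s) * (s - 1) ^ M * (starRingEnd ℂ) (g ((starRingEnd ℂ) (1 - s))) *
      ∏ j, (Gamma ((l j : ℂ) * s + m j))⁻¹ := by
  have hQ0 : (Q : ℂ) ≠ 0 := by exact_mod_cast hQ.ne'
  set iG : ℂ → ℂ := fun s => (Gamma s)⁻¹ with hiG
  have hiGd : Differentiable ℂ iG := differentiable_one_div_Gamma
  have hgs := FNO_conj hg
  set gs : ℂ → ℂ := fun s : ℂ => (starRingEnd ℂ) (g ((starRingEnd ℂ) s)) with hgsdef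
  set A : ℂ → ℂ := fun s => (Q : ℂ) ^ s * (-s) ^ M * g s *
    ∏ j, iG ((l j : ℂ) * (1 - s) + (starRingEnd ℂ) (m j)) with hA
  set B : ℂ → ℂ := fun s => w * (Q : ℂ) ^ (1 - s) * (s - 1) ^ M * gs (1 - s) *
    ∏ j, iG ((l j : ℂ) * s + m j) with hB
  have hAd : Differentiable ℂ A := by
    intro s
    refine ((DifferentiableAt.mul ?_ ?_).mul (hg s)).mul ?_
    · exact DifferentiableAt.const_cpow differentiableAt_id (Or.inl hQ0)
    · exact differentiableAt_id.neg.pow M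
    · refine DifferentiableAt.fun_finsetProd fun j _ => ?_
      refine (hiGd _).comp s ?_
      exact ((differentiableAt_const _).mul
        ((differentiableAt_const _).sub differentiableAt_id)).add (differentiableAt_const _)
  have hBd : Differentiable ℂ B := by
    intro s
    have h1s : DifferentiableAt ℂ (fun s : ℂ => 1 - s) s :=
      (differentiableAt_const _).sub differentiableAt_id
    refine ((((differentiableAt_const _).mul ?_).mul ?_).mul ?_).mul ?_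
    · exact DifferentiableAt.const_cpow h1s (Or.inl hQ0)
    · exact (differentiableAt_id.sub (differentiableAt_const _)).pow M
    · exact (hgs _).comp s h1s
    · refine DifferentiableAt.fun_finsetProd fun j _ => ?_
      refine (hiGd _).comp s ?_
      exact ((differentiableAt_const _).mul differentiableAt_id).add (differentiableAt_const _)
  have hstrip : ∀ s : ℂ, 0 < s.re → s.re < 1 → A s = B s := by
    intro s hs0 hs1
    have hne1 : s ≠ 1 := by rintro rfl; simp at hs1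
    have h1c : (1 - (starRingEnd ℂ) s) ≠ 1 := by
      intro h
      have h0 : (starRingEnd ℂ) s = 0 := by linear_combination -h
      have : s.re = 0 := by
        have := congrArg Complex.re h0
        simpa using this
      linarith
    have e1 : g s = (s - 1) ^ M * F s := hgF s hne1
    have e2 : gs (1 - s) = (-s) ^ M * (starRingEnd ℂ) (F (1 - (starRingEnd ℂ) s)) := by
      simp only [hgsdef, map_sub, map_one]
      rw [hgF _ h1c]
      simp only [map_mul, map_pow, map_sub, map_one, Complex.conj_conj]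
      rw [show (1 : ℂ) - s - 1 = -s by ring]
    have hfes := hfe s hs0 hs1
    have e3 : (starRingEnd ℂ) ((Q : ℂ) ^ (1 - (starRingEnd ℂ) s) *
          (∏ j, Gamma ((l j : ℂ) * (1 - (starRingEnd ℂ) s) + m j)) *
            F (1 - (starRingEnd ℂ) s)) =
        (Q : ℂ) ^ (1 - s) * (∏ j, Gamma ((l j : ℂ) * (1 - s) + (starRingEnd ℂ) (m j))) *
          (starRingEnd ℂ) (F (1 - (starRingEnd ℂ) s)) := by
      rw [map_mul, map_mul, map_prod]
      congr 1
      congr 1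
      · have h := Complex.conj_cpow (Q : ℂ) (1 - s)
          (by rw [Complex.arg_ofReal_of_nonneg hQ.le]; exact Real.pi_pos.ne)
        rw [Complex.conj_ofReal] at h
        rw [h]; simp
      · refine Finset.prod_congr rfl fun j _ => ?_
        rw [← Complex.Gamma_conj]
        simp
    rw [e3] at hfes
    have hG1 : ∀ j, Gamma ((l j : ℂ) * s + m j) ≠ 0 := fun j => by
      apply Complex.Gamma_ne_zero_of_re_pos
      have := mul_pos (hl j) hs0
      simp; linarith [hm j]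
    have hG2 : ∀ j, Gamma ((l j : ℂ) * (1 - s) + (starRingEnd ℂ) (m j)) ≠ 0 := fun j => by
      apply Complex.Gamma_ne_zero_of_re_pos
      have := mul_pos (hl j) (show 0 < 1 - s.re by linarith)
      simp; linarith [hm j]
    have p1 : (∏ j, Gamma ((l j : ℂ) * s + m j)) * ∏ j, iG ((l j : ℂ) * s + m j) = 1 := by
      rw [← Finset.prod_mul_distrib]
      exact Finset.prod_eq_one fun j _ => mul_inv_cancel₀ (hG1 j)
    have p2 : (∏ j, Gamma ((l j : ℂ) * (1 - s) + (starRingEnd ℂ) (m j))) *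
        ∏ j, iG ((l j : ℂ) * (1 - s) + (starRingEnd ℂ) (m j)) = 1 := by
      rw [← Finset.prod_mul_distrib]
      exact Finset.prod_eq_one fun j _ => mul_inv_cancel₀ (hG2 j)
    simp only [hA, hB]
    rw [e1, e2]
    set P1 := ∏ j, Gamma ((l j : ℂ) * s + m j)
    set P2 := ∏ j, Gamma ((l j : ℂ) * (1 - s) + (starRingEnd ℂ) (m j))
    set I1 := ∏ j, iG ((l j : ℂ) * s + m j)
    set I2 := ∏ j, iG ((l j : ℂ) * (1 - s) + (starRingEnd ℂ) (m j))
    set cF := (starRingEnd ℂ) (F (1 - (starRingEnd ℂ) s))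
    linear_combination ((-s) ^ M * (s - 1) ^ M * I1 * I2) * hfes -
      ((Q : ℂ) ^ s * (-s) ^ M * (s - 1) ^ M * F s * I2) * p1 +
      (w * (Q : ℂ) ^ (1 - s) * (s - 1) ^ M * (-s) ^ M * cF * I1) * p2
  have hAB : A = B := by
    have hA' : AnalyticOnNhd ℂ A Set.univ := hAd.differentiableOn.analyticOnNhd isOpen_univ
    have hB' : AnalyticOnNhd ℂ B Set.univ := hBd.differentiableOn.analyticOnNhd isOpen_univ
    refine hA'.eq_of_eventuallyEq hB' (z₀ := (1 / 2 : ℂ)) ?_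
    have o1 : IsOpen {s : ℂ | 0 < s.re} := isOpen_lt continuous_const continuous_re
    have o2 : IsOpen {s : ℂ | s.re < 1} := isOpen_lt continuous_re continuous_const
    have : ({s : ℂ | 0 < s.re} ∩ {s : ℂ | s.re < 1}) ∈ 𝓝 (1 / 2 : ℂ) := by
      refine (o1.inter o2).mem_nhds ⟨?_, ?_⟩ <;> norm_num
    filter_upwards [this] with s hs
    exact hstrip s hs.1 hs.2
  exact congrFun hAB s

lemma FNO_cpow {Q : ℝ} (hQ : 0 < Q) : FNO_B univ (fun s => (Q : ℂ) ^ s) := by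
  refine ⟨1, |Real.log Q|, zero_le_one, abs_nonneg _, fun s _ => ?_⟩
  rw [norm_cpow_eq_rpow_re_of_pos hQ, Real.rpow_def_of_pos hQ, one_mul]
  refine Real.exp_le_exp.2 ?_
  have h1 : Real.log Q * s.re ≤ |Real.log Q| * ‖s‖ := by
    refine (le_abs_self _).trans ?_
    rw [abs_mul]
    exact mul_le_mul_of_nonneg_left (Complex.abs_re_le_norm s) (abs_nonneg _)
  have h2 : 0 ≤ ‖s‖ := norm_nonneg s
  have h3 : ‖s‖ ≤ (1 + ‖s‖) ^ 2 := by nlinarith
  exact h1.trans (mul_le_mul_of_nonneg_left h3 (abs_nonneg _))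

/-- bounded by a polynomial -/
lemma FNO_poly {S : Set ℂ} {g : ℂ → ℂ} {B : ℕ} {C : ℝ}
    (h : ∀ s ∈ S, ‖g s‖ ≤ C * (1 + ‖s‖) ^ B) : FNO_B S g := by
  refine ⟨|C|, B, abs_nonneg _, Nat.cast_nonneg _, fun s hs => (h s hs).trans ?_⟩
  have h2 : 0 ≤ ‖s‖ := norm_nonneg s
  have h1 : (1 + ‖s‖) ^ B ≤ Real.exp (B * (1 + ‖s‖) ^ 2) := by
    have h3 : 1 + ‖s‖ ≤ Real.exp ((1 + ‖s‖) ^ 2) := by
      have := Real.add_one_le_exp ((1 + ‖s‖) ^ 2)
      nlinarith
    calc (1 + ‖s‖) ^ B ≤ (Real.exp ((1 + ‖s‖) ^ 2)) ^ B := by gcongr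
      _ = _ := by rw [← Real.exp_nat_mul]
  exact (mul_le_mul_of_nonneg_right (le_abs_self C) (by positivity)).trans
    (mul_le_mul_of_nonneg_left h1 (abs_nonneg _))

/-- a bound on the whole plane gives finite order -/
lemma FNO_fin {g : ℂ → ℂ} (h : FNO_B univ g) : FiniteOrder g := by
  obtain ⟨C, D, hC, hD, H⟩ := h
  refine ⟨3, C * Real.exp (D ^ 3), fun s => (H s (mem_univ s)).trans ?_⟩
  rw [mul_assoc, ← Real.exp_add]
  refine mul_le_mul_of_nonneg_left (Real.exp_le_exp.2 ?_) hC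
  have h2 : 0 ≤ ‖s‖ := norm_nonneg s
  have e : (1 + ‖s‖) ^ (3 : ℝ) = (1 + ‖s‖) ^ 3 := by
    rw [show (3 : ℝ) = ((3 : ℕ) : ℝ) by norm_num, Real.rpow_natCast]
  rw [e]
  by_cases h3 : D ≤ 1 + ‖s‖
  · have : D * (1 + ‖s‖) ^ 2 ≤ (1 + ‖s‖) * (1 + ‖s‖) ^ 2 :=
      mul_le_mul_of_nonneg_right h3 (by positivity)
    have h4 : 0 ≤ D ^ 3 := by positivity
    nlinarith
  · push Not at h3
    have : D * (1 + ‖s‖) ^ 2 ≤ D * D ^ 2 := by
      refine mul_le_mul_of_nonneg_left ?_ hD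
      gcongr
    have h4 : 0 ≤ (1 + ‖s‖) ^ 3 := by positivity
    nlinarith

theorem p_FNO : T_FNO := by
  intro F g M hg hgF hF hB
  obtain ⟨Q, k, l, m, w, hQ, hl, hm, hw, hfe⟩ := hF
  obtain ⟨B, C, hBC⟩ := hB
  have hid := FNO_id hg hgF hQ hl hm hfe
  have hQ0 : (Q : ℂ) ≠ 0 := by exact_mod_cast hQ.ne'
  set S : Set ℂ := {s | s.re ≤ 1 / 2} with hS
  -- the right-hand side after solving for `g`
  set R : ℂ → ℂ := fun s => w * ((Q : ℂ) ^ (1 - s) * ((Q : ℂ) ^ (-s) * ((s - 1) ^ M *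
    (g (1 - (starRingEnd ℂ) s) * ((∏ j, Gamma ((l j : ℂ) * (1 - s) + (starRingEnd ℂ) (m j))) *
      ∏ j, (Gamma ((l j : ℂ) * s + m j))⁻¹))))) with hR
  have hbR : FNO_B S R := by
    refine FNO_mul (FNO_const S w) (FNO_mul ?_ (FNO_mul ?_ (FNO_mul ?_ (FNO_mul ?_
      (FNO_mul ?_ ?_)))))
    · refine FNO_comp (φ := fun s => 1 - s) (FNO_cpow hQ) (K := 1) zero_le_one fun s _ =>
        ⟨mem_univ _, ?_⟩
      rw [one_mul]
      exact (norm_sub_le _ _).trans (by simp)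
    · refine FNO_comp (φ := fun s => -s) (FNO_cpow hQ) (K := 1) zero_le_one fun s _ =>
        ⟨mem_univ _, ?_⟩
      rw [one_mul, norm_neg]
      linarith [norm_nonneg s]
    · refine FNO_pow (FNO_lin (K := 1) zero_le_one fun s _ => ?_) M
      rw [one_mul]
      exact (norm_sub_le _ _).trans (by simp [add_comm])
    · refine FNO_comp (T := {s | 1 / 2 ≤ s.re}) (φ := fun s => 1 - (starRingEnd ℂ) s)
        (FNO_poly (B := B) (C := C) fun s hs => hBC s hs) (K := 1) zero_le_one fun s hs => ⟨?_, ?_⟩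
      · have hs' : s.re ≤ 1 / 2 := hs
        simp only [mem_ofPred_eq, sub_re, one_re, conj_re]
        linarith
      · rw [one_mul]
        exact (norm_sub_le _ _).trans (by simp)
    · refine FNO_prod Finset.univ fun j _ => ?_
      refine FNO_comp (T := {s | l j / 2 ≤ s.re})
        (φ := fun s => (l j : ℂ) * (1 - s) + (starRingEnd ℂ) (m j))
        (FNO_G (l j / 2) (half_pos (hl j))) (K := l j + ‖m j‖)
        (add_nonneg (hl j).le (norm_nonneg _)) fun s hs => ⟨?_, ?_⟩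
      · have hs' : s.re ≤ 1 / 2 := hs
        have := hm j
        have := hl j
        simp only [mem_ofPred_eq, add_re, mul_re, ofReal_re, ofReal_im, sub_re, one_re, conj_re,
          zero_mul, sub_zero]
        nlinarith
      · have h1 : ‖(l j : ℂ) * (1 - s)‖ ≤ l j * (1 + ‖s‖) := by
          rw [norm_mul, norm_real, Real.norm_of_nonneg (hl j).le]
          exact mul_le_mul_of_nonneg_left ((norm_sub_le _ _).trans (by simp)) (hl j).le
        have h2 : ‖(starRingEnd ℂ) (m j)‖ ≤ ‖m j‖ * (1 + ‖s‖) := by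
          rw [RCLike.norm_conj]
          nlinarith [norm_nonneg s, norm_nonneg (m j)]
        refine (norm_add_le _ _).trans ?_
        rw [add_mul]
        exact add_le_add h1 h2
    · refine FNO_prod Finset.univ fun j _ => ?_
      refine FNO_comp (T := univ) (f := fun s => (Gamma s)⁻¹) (φ := fun s => (l j : ℂ) * s + m j)
        FNO_iG (K := l j + ‖m j‖)
        (add_nonneg (hl j).le (norm_nonneg _)) fun s _ => ⟨mem_univ _, ?_⟩
      have h1 : ‖(l j : ℂ) * s‖ ≤ l j * (1 + ‖s‖) := by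
        rw [norm_mul, norm_real, Real.norm_of_nonneg (hl j).le]
        exact mul_le_mul_of_nonneg_left (by linarith) (hl j).le
      have h2 : ‖m j‖ ≤ ‖m j‖ * (1 + ‖s‖) := by
        nlinarith [norm_nonneg s, norm_nonneg (m j)]
      refine (norm_add_le _ _).trans ?_
      rw [add_mul]
      exact add_le_add h1 h2
  -- the norm identity on the left
  have hgR : ∀ s ∈ S, ‖s‖ ^ M * ‖g s‖ = ‖R s‖ := by
    intro s hs
    have hs' : s.re ≤ 1 / 2 := hs
    have hG2 : ∀ j, Gamma ((l j : ℂ) * (1 - s) + (starRingEnd ℂ) (m j)) ≠ 0 := fun j => by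
      apply Complex.Gamma_ne_zero_of_re_pos
      have := mul_pos (hl j) (show 0 < 1 - s.re by linarith)
      simp; linarith [hm j]
    have p2 : (∏ j, Gamma ((l j : ℂ) * (1 - s) + (starRingEnd ℂ) (m j))) *
        ∏ j, (Gamma ((l j : ℂ) * (1 - s) + (starRingEnd ℂ) (m j)))⁻¹ = 1 := by
      rw [← Finset.prod_mul_distrib]
      exact Finset.prod_eq_one fun j _ => mul_inv_cancel₀ (hG2 j)
    have hQs : (Q : ℂ) ^ (-s) * (Q : ℂ) ^ s = 1 := by
      rw [← Complex.cpow_add _ _ hQ0]; simp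
    have e := hid s
    set P2 := ∏ j, Gamma ((l j : ℂ) * (1 - s) + (starRingEnd ℂ) (m j))
    set I1 := ∏ j, (Gamma ((l j : ℂ) * s + m j))⁻¹ with hI1
    set I2 := ∏ j, (Gamma ((l j : ℂ) * (1 - s) + (starRingEnd ℂ) (m j)))⁻¹
    set cg := (starRingEnd ℂ) (g ((starRingEnd ℂ) (1 - s))) with hcg
    have e1 : (-s) ^ M * g s = w * ((Q : ℂ) ^ (1 - s) * ((Q : ℂ) ^ (-s) * ((s - 1) ^ M *
        (cg * (P2 * I1))))) := by
      linear_combination ((Q : ℂ) ^ (-s) * P2) * e - ((-s) ^ M * g s * P2 * I2) * hQs -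
        ((-s) ^ M * g s) * p2
    have e2 := congrArg norm e1
    have e3 : ‖cg‖ = ‖g (1 - (starRingEnd ℂ) s)‖ := by
      rw [hcg, RCLike.norm_conj]; simp
    rw [norm_mul, norm_pow, norm_neg] at e2
    rw [e2]
    simp only [hR, norm_mul, e3]
    rfl
  -- the closed unit ball
  obtain ⟨K, hK⟩ := (isCompact_closedBall (0 : ℂ) 1).exists_bound_of_continuousOn
    hg.continuous.continuousOn
  obtain ⟨C1, D1, hC1, hD1, H1⟩ := hbR
  obtain ⟨C2, D2, hC2, hD2, H2⟩ := FNO_poly (S := {s : ℂ | 1 / 2 ≤ s.re}) (B := B) (C := C)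
    fun s hs => hBC s hs
  refine FNO_fin ⟨|K| + C1 + C2, D1 + D2, by positivity, by positivity, fun s _ => ?_⟩
  have hx : 0 ≤ (1 + ‖s‖) ^ 2 := by positivity
  have hE1 : Real.exp (D1 * (1 + ‖s‖) ^ 2) ≤ Real.exp ((D1 + D2) * (1 + ‖s‖) ^ 2) :=
    Real.exp_le_exp.2 (by nlinarith)
  have hE2 : Real.exp (D2 * (1 + ‖s‖) ^ 2) ≤ Real.exp ((D1 + D2) * (1 + ‖s‖) ^ 2) :=
    Real.exp_le_exp.2 (by nlinarith)
  have hE0 : 1 ≤ Real.exp ((D1 + D2) * (1 + ‖s‖) ^ 2) := Real.one_le_exp (by positivity)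
  have hK0 : 0 ≤ |K| := abs_nonneg K
  by_cases hs : 1 / 2 ≤ s.re
  · have h1 := H2 s hs
    nlinarith [mul_le_mul_of_nonneg_left hE2 hC2]
  · push Not at hs
    by_cases hn : ‖s‖ ≤ 1
    · have h1 := hK s (by simpa using hn)
      have h2 : K ≤ |K| := le_abs_self K
      nlinarith
    · push Not at hn
      have h1 := H1 s hs.le
      rw [← hgR s hs.le] at h1
      have h2 : 1 ≤ ‖s‖ ^ M := one_le_pow₀ hn.le
      have h3 : ‖g s‖ ≤ ‖s‖ ^ M * ‖g s‖ := le_mul_of_one_le_left (norm_nonneg _) h2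
      nlinarith [mul_le_mul_of_nonneg_left hE1 hC1]

end Pool.Agent.SelRel
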