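import Pool.Agent.SelRel.Dir

/-! Final assembly. -/

set_option autoImplicit false

namespace Pool.Agent.SelRel

open Complex Filter Topology Set MeasureTheory Metric Pool.Agent.SelPole Pool.Agent.SelCR
open Pool.Agent.PrimesOnly
open scoped ComplexConjugate ArithmeticFunction.vonMangoldt

/-- integral form of a rational relation -/
theorem int_rel (hQQ : T_QQ) {ι : Type} [Fintype ι] {F : ℂ → ℂ} {a b : ℕ → ℂ}
    (hF : IsSelberg F a b) {L : ι → ℂ → ℂ} {aL bL : ι → ℕ → ℂ}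
    (hL : ∀ j, IsSelberg (L j) (aL j) (bL j)) {c : ι → ℂ}
    (h : ∀ n, b n = ∑ j, c j * bL j n) :
    ∃ (N : ℕ) (m : ι → ℤ), 0 < N ∧ (∀ n, (N : ℂ) * b n = ∑ j, (m j : ℂ) * bL j n) ∧
      ∀ s, s ≠ 1 → F s ^ N * ∏ j, L j s ^ (-m j).toNat = ∏ j, L j s ^ (m j).toNat := by
  obtain ⟨r, hr⟩ := rat_rel hQQ hF hL h
  obtain ⟨N, m, hN, hm⟩ := common_den r
  have h1 : ∀ n, (N : ℂ) * b n = ∑ j, (m j : ℂ) * bL j n := by
    intro n
    rw [hr n, Finset.mul_sum]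
    refine Finset.sum_congr rfl (fun j _ => ?_)
    have h2 : ((m j : ℚ) : ℂ) = ((N * r j : ℚ) : ℂ) := by rw [hm j]
    push_cast at h2
    rw [h2]
    ring
  exact ⟨N, m, hN, h1, fun s hs => fun_rel hF hL h1 s hs⟩

/-- Dirichlet L-functions, general case -/
theorem dir_gen (hSLF : T_SLF) (hMSB : T_MSB) (hALP : T_ALP) (hQQ : T_QQ) {F : ℂ → ℂ} {a b : ℕ → ℂ}
    (hF : IsSelberg F a b) {d : ℕ} (hP : PolyE b d) {q : ℕ} [NeZero q]
    (X : Finset (DirichletCharacter ℂ q × ℝ)) (hX : ∀ x ∈ X, x.1 = 1 → x.2 = 0)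
    (c : DirichletCharacter ℂ q × ℝ → ℂ)
    (hrel : Small (fun p => open Classical in if p ∣ q then 0 else
      a p - ∑ x ∈ X, c x * (x.1 (p : ZMod q) * (p : ℂ) ^ (-((x.2 : ℂ) * I))))) :
    ∃ (N : ℕ) (m : DirichletCharacter ℂ q × ℝ → ℤ), 0 < N ∧ ∀ s, s ≠ 1 →
      F s ^ N * ∏ x ∈ X, LF x s ^ (-m x).toNat = ∏ x ∈ X, LF x s ^ (m x).toNat := by
  classical
  have h := dir_rel hSLF hMSB hALP hF hP X hX c hrel
  have hL : ∀ x : X, IsSelberg (LF (x : DirichletCharacter ℂ q × ℝ))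
      (aLF (x : DirichletCharacter ℂ q × ℝ)) (bLF (x : DirichletCharacter ℂ q × ℝ)) :=
    fun x => hSLF _ (hX x x.2)
  obtain ⟨N, m, hN, -, hm⟩ := int_rel hQQ hF hL h
  refine ⟨N, fun x => if hx : x ∈ X then m ⟨x, hx⟩ else 0, hN, fun s hs => ?_⟩
  rw [← Finset.prod_coe_sort X, ← Finset.prod_coe_sort X]
  have h1 := hm s hs
  simp only [Finset.coe_mem, dite_true, Subtype.coe_eta]
  exact h1

/-- Dirichlet L-functions, separated case -/
theorem dir_sep (hSLF : T_SLF) (hMSB : T_MSB) (hALP : T_ALP) (hVAN : T_VAN) (hSEP : T_SEP)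
    (hENT : T_ENT) {F : ℂ → ℂ} {a b : ℕ → ℂ}
    (hF : IsSelberg F a b) {d : ℕ} (hP : PolyE b d) {q : ℕ} [NeZero q]
    (X : Finset (DirichletCharacter ℂ q × ℝ)) (hX : ∀ x ∈ X, x.1 = 1 → x.2 = 0)
    (c : DirichletCharacter ℂ q × ℝ → ℂ)
    (hrel : Small (fun p => open Classical in if p ∣ q then 0 else
      a p - ∑ x ∈ X, c x * (x.1 (p : ZMod q) * (p : ℂ) ^ (-((x.2 : ℂ) * I)))))
    (u : (ZMod q)ˣ) (hu : ∀ x ∈ X, ∀ y ∈ X, x.2 = y.2 → x.1 u = y.1 u → x = y) :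
    ∃ m : DirichletCharacter ℂ q × ℝ → ℕ, (∀ x ∈ X, c x = m x) ∧
      (∀ s, s ≠ 1 → F s = ∏ x ∈ X, LF x s ^ m x) ∧ Q1For F := by
  classical
  have h := dir_rel hSLF hMSB hALP hF hP X hX c hrel
  have hL : ∀ x : X, IsSelberg (LF (x : DirichletCharacter ℂ q × ℝ))
      (aLF (x : DirichletCharacter ℂ q × ℝ)) (bLF (x : DirichletCharacter ℂ q × ℝ)) :=
    fun x => hSLF _ (hX x x.2)
  obtain ⟨p, hp, hpu, hps⟩ := (hSEP X u hu).nonempty
  obtain ⟨m, hm⟩ := dir_int hVAN hP X c h hp hpu hps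
  refine ⟨m, hm, fun s hs => ?_, ?_⟩
  · have h1 := fun_rel hF hL (N := 1) (m := fun x : X => (m x : ℤ)) (fun n => by
      rw [Nat.cast_one, one_mul, h n]
      refine Finset.sum_congr rfl (fun x _ => ?_)
      rw [hm x x.2]
      simp) s hs
    rw [← Finset.prod_coe_sort X]
    have h2 : ∀ k : ℕ, (-(k : ℤ)).toNat = 0 := fun k => by omega
    simpa [h2] using h1
  · refine q1_closure hENT hF hL h (fun x => ?_)
    by_cases hx : (x : DirichletCharacter ℂ q × ℝ).1 = 1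
    · right
      intro s _
      exact LF_zeta hx (hX x x.2 hx) s
    · left
      refine ⟨m x, Nat.cast_nonneg _, ?_, Q1For_LF hx⟩
      rw [hm x x.2]
      simp

/-- functions of the residue class, cyclic case -/
theorem dir_cyc (hSLF : T_SLF) (hMSB : T_MSB) (hALP : T_ALP) (hVAN : T_VAN) (hSEP : T_SEP)
    (hENT : T_ENT) (hCYC : T_CYC) {F : ℂ → ℂ} {a b : ℕ → ℂ}
    (hF : IsSelberg F a b) {d : ℕ} (hP : PolyE b d) {q : ℕ} [NeZero q] (hq : IsCyclic (ZMod q)ˣ)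
    (f : ZMod q → ℂ)
    (hrel : Small (fun p => open Classical in if p ∣ q then 0 else a p - f (p : ZMod q))) :
    (∃ m : DirichletCharacter ℂ q → ℕ, ∀ s, s ≠ 1 →
      F s = ∏ᶠ χ : DirichletCharacter ℂ q, DirichletCharacter.LFunction χ.primitiveCharacter s ^ m χ) ∧
      Q1For F := by
  classical
  obtain ⟨⟨u, hu⟩, hf⟩ := hCYC hq
  obtain ⟨c, hc⟩ := hf (fun v => f v)
  haveI : Fintype (DirichletCharacter ℂ q) := Fintype.ofFinite _
  set X : Finset (DirichletCharacter ℂ q × ℝ) := Finset.univ.image (fun χ => (χ, (0 : ℝ))) with hX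
  have hmem : ∀ x ∈ X, x.2 = 0 := by
    intro x hx
    rw [hX, Finset.mem_image] at hx
    obtain ⟨χ, -, rfl⟩ := hx
    rfl
  have hinj : Function.Injective (fun χ : DirichletCharacter ℂ q => (χ, (0 : ℝ))) := by
    intro χ ψ h
    exact (Prod.ext_iff.1 h).1
  obtain ⟨m, -, h2, h3⟩ := dir_sep hSLF hMSB hALP hVAN hSEP hENT hF hP X (fun x hx _ => hmem x hx)
    (fun x => c x.1) (small_congr (NeZero.ne q) hrel (fun p hp hpq => by
      rw [if_neg hpq, if_neg hpq]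
      congr 1
      rw [hX, Finset.sum_image (fun x _ y _ h => hinj h)]
      have hcop : p.Coprime q := (Nat.Prime.coprime_iff_not_dvd hp).2 hpq
      have h4 := hc (ZMod.unitOfCoprime p hcop)
      rw [ZMod.coe_unitOfCoprime] at h4
      rw [h4, finsum_eq_sum_of_fintype]
      refine Finset.sum_congr rfl (fun χ _ => ?_)
      simp)) u (fun x hx y hy _ h => by
        have h5 := hu x.1 y.1 h
        exact Prod.ext h5 (by rw [hmem x hx, hmem y hy]))
  refine ⟨⟨fun χ => m (χ, 0), fun s hs => ?_⟩, h3⟩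
  rw [h2 s hs, hX, Finset.prod_image (fun x _ y _ h => hinj h), finprod_eq_prod_of_fintype]
  refine Finset.prod_congr rfl (fun χ _ => ?_)
  simp [LF]

end Pool.Agent.SelRel
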