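import Pool.Agent.SelRel.Defs2
import Pool.Agent.SelDeg2.LFE

/-! HFE: functional equations of zeta and of `L(s, χ)` with phases, and vertical shifts. -/

set_option autoImplicit false

namespace Pool.Agent.SelRel

open Complex Filter Topology Set Pool.Agent.SelPole Pool.Agent.SelDeg2
open scoped ComplexConjugate

theorem HFE_cpow {Q : ℝ} (hQ : 0 < Q) (z : ℂ) :
    (Q : ℂ) ^ z = exp ((Real.log Q : ℂ) * z) := by
  have h : (Q : ℂ) ≠ 0 := by exact_mod_cast hQ.ne'
  rw [Complex.cpow_def_of_ne_zero h, Complex.ofReal_log hQ.le]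

theorem HFE_cpow_conj {Q : ℝ} (hQ : 0 < Q) (z : ℂ) :
    (Q : ℂ) ^ (conj z) = conj ((Q : ℂ) ^ z) := by
  rw [HFE_cpow hQ, HFE_cpow hQ, ← Complex.exp_conj, map_mul, Complex.conj_ofReal]

/-- `π^(-s/2) Γ(s/2)` written with `Q = π^(-1/2)` -/
theorem HFE_gammaR (s : ℂ) :
    ((Real.pi ^ (-(1 / 2) : ℝ) : ℝ) : ℂ) ^ s * Gamma (((1 / 2 : ℝ) : ℂ) * s + 0) = Gammaℝ s := by
  rw [Gammaℝ_def, HFE_cpow (Real.rpow_pos_of_pos Real.pi_pos _), HFE_cpow Real.pi_pos,
    Real.log_rpow Real.pi_pos]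
  congr 2
  · push_cast
    ring
  · push_cast
    ring

theorem HFE_completed_zeta_conj {s : ℂ} (hs : 0 < s.re) :
    completedRiemannZeta (conj s) = conj (completedRiemannZeta s) := by
  have key : ∀ z : ℂ, 0 < z.re → completedRiemannZeta z = Gammaℝ z * riemannZeta z := by
    intro z hz
    have hz0 : z ≠ 0 := by intro h; rw [h] at hz; simp at hz
    have hG : Gammaℝ z ≠ 0 := Gammaℝ_ne_zero_of_re_pos hz
    rw [riemannZeta_def_of_ne_zero hz0]; field_simp
  rw [key _ hs, key _ (by simpa using hs), map_mul, LFE_.Gammaℝ_conj, riemannZeta_conj]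

theorem HFE_zeta : HasFunctionalEquation riemannZeta := by
  refine ⟨Real.pi ^ (-(1 / 2) : ℝ), 1, fun _ => 1 / 2, fun _ => 0, 1,
    Real.rpow_pos_of_pos Real.pi_pos _, fun _ => by norm_num, fun _ => by simp, by simp, ?_⟩
  intro s h0 h1
  have key : ∀ z : ℂ, 0 < z.re → ((Real.pi ^ (-(1 / 2) : ℝ) : ℝ) : ℂ) ^ z *
      (∏ _j : Fin 1, Gamma (((1 / 2 : ℝ) : ℂ) * z + 0)) * riemannZeta z =
      completedRiemannZeta z := by
    intro z hz
    have hz0 : z ≠ 0 := by intro h; rw [h] at hz; simp at hz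
    have hG : Gammaℝ z ≠ 0 := Gammaℝ_ne_zero_of_re_pos hz
    simp only [Finset.prod_const, Finset.card_univ, Fintype.card_fin, pow_one]
    rw [HFE_gammaR, riemannZeta_def_of_ne_zero hz0]
    field_simp
  have e1 : 0 < (1 - conj s).re := by simp; linarith
  rw [key s h0, key _ e1, one_mul, completedRiemannZeta_one_sub, HFE_completed_zeta_conj h0,
    Complex.conj_conj]

theorem HFE_dirichlet {N : ℕ} [NeZero N] {χ : DirichletCharacter ℂ N} (hp : χ.IsPrimitive)
    (hχ : χ ≠ 1) : HasFunctionalEquation (DirichletCharacter.LFunction χ) := by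
  have hN : (0 : ℝ) < N := by exact_mod_cast Nat.pos_of_ne_zero (NeZero.ne N)
  have hQ : 0 < ((N : ℝ) / Real.pi) ^ (1 / 2 : ℝ) := Real.rpow_pos_of_pos (by positivity) _
  refine ⟨((N : ℝ) / Real.pi) ^ (1 / 2 : ℝ), 1, fun _ => 1 / 2,
    fun _ => ((LFE_.par χ : ℝ) : ℂ) / 2, DirichletCharacter.rootNumber χ, hQ,
    fun _ => by norm_num, fun _ => ?_, LFE_.norm_rootNumber hp hχ, ?_⟩
  · have := LFE_.par_nonneg χ
    simp
    linarith
  intro s h0 h1
  have hgf : ∀ z : ℂ, DirichletCharacter.gammaFactor χ z = Gammaℝ (z + LFE_.par χ) := by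
    intro z
    rcases χ.even_or_odd with h | h
    · rw [h.gammaFactor_def, show LFE_.par χ = 0 from if_pos h]
      simp
    · rw [h.gammaFactor_def, show LFE_.par χ = 1 from if_neg h.not_even]
      simp
  -- the function `Φ`
  have key : ∀ z : ℂ, 0 < z.re → ((((N : ℝ) / Real.pi) ^ (1 / 2 : ℝ) : ℝ) : ℂ) ^ z *
      (∏ _j : Fin 1, Gamma (((1 / 2 : ℝ) : ℂ) * z + ((LFE_.par χ : ℝ) : ℂ) / 2)) *
        DirichletCharacter.LFunction χ z =
      ((N : ℝ) : ℂ) ^ (z / 2) * (Real.pi : ℂ) ^ (((LFE_.par χ : ℝ) : ℂ) / 2) *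
        DirichletCharacter.completedLFunction χ z := by
    intro z hz
    rw [LFE_.completed_eq hz, hgf, Gammaℝ_def]
    simp only [Finset.prod_const, Finset.card_univ, Fintype.card_fin, pow_one]
    rw [HFE_cpow hQ, HFE_cpow hN, HFE_cpow Real.pi_pos, HFE_cpow Real.pi_pos,
      Real.log_rpow (by positivity), Real.log_div hN.ne' Real.pi_pos.ne']
    have e1 : ((1 / 2 : ℝ) : ℂ) * z + ((LFE_.par χ : ℝ) : ℂ) / 2 = (z + LFE_.par χ) / 2 := by
      push_cast
      ring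
    rw [e1]
    have e2 : exp (((1 / 2 * (Real.log N - Real.log Real.pi) : ℝ) : ℂ) * z) =
        exp ((Real.log N : ℂ) * (z / 2)) *
          exp ((Real.log Real.pi : ℂ) * (((LFE_.par χ : ℝ) : ℂ) / 2)) *
          exp ((Real.log Real.pi : ℂ) * (-(z + LFE_.par χ) / 2)) := by
      rw [← Complex.exp_add, ← Complex.exp_add]
      congr 1
      push_cast
      ring
    rw [e2]
    ring
  have e1 : 0 < (1 - conj s).re := by simp; linarith
  rw [key s h0, key _ e1]
  have h2 := hp.completedLFunction_one_sub (1 - s)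
  rw [sub_sub_cancel, LFE_.completed_conj hχ, map_sub, map_one] at h2
  rw [h2, map_mul, map_mul, ← HFE_cpow_conj hN, ← HFE_cpow_conj Real.pi_pos]
  have e3 : conj (((LFE_.par χ : ℝ) : ℂ) / 2) = ((LFE_.par χ : ℝ) : ℂ) / 2 := by
    rw [map_div₀, Complex.conj_ofReal, Complex.conj_ofNat]
  have e4 : conj ((1 - conj s) / 2) = (1 - s) / 2 := by
    rw [map_div₀, map_sub, Complex.conj_conj, Complex.conj_ofNat, map_one]
  rw [e3, e4]
  have e5 : ((N : ℝ) : ℂ) ^ ((1 - s) / 2) =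
      ((N : ℝ) : ℂ) ^ (s / 2) * (N : ℂ) ^ (1 - s - 1 / 2) := by
    rw [show ((N : ℕ) : ℂ) = ((N : ℝ) : ℂ) by simp, ← Complex.cpow_add _ _
      (by exact_mod_cast hN.ne')]
    congr 1
    ring
  rw [e5]
  ring

theorem HFE_shift {F : ℂ → ℂ} (hF : HasFunctionalEquation F) (θ : ℝ) :
    HasFunctionalEquation (fun s => F (s + θ * I)) := by
  obtain ⟨Q, k, lam, mu, w, hQ, hlam, hmu, hw, h⟩ := hF
  have hQ0 : (Q : ℂ) ≠ 0 := by exact_mod_cast hQ.ne'
  have hn : ‖(Q : ℂ) ^ ((θ : ℂ) * I)‖ = 1 := by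
    rw [Complex.norm_cpow_eq_rpow_re_of_pos hQ]
    simp
  have hz : (Q : ℂ) ^ ((θ : ℂ) * I) ≠ 0 := by
    intro h0
    rw [h0] at hn
    simp at hn
  refine ⟨Q, k, lam, fun j => mu j + lam j * (θ * I),
    w * (conj ((Q : ℂ) ^ ((θ : ℂ) * I)) / (Q : ℂ) ^ ((θ : ℂ) * I)), hQ, hlam,
    fun j => ?_, ?_, ?_⟩
  · simpa using hmu j
  · rw [norm_mul, norm_div, Complex.norm_conj, hn, hw]
    norm_num
  · intro s h0 h1
    have h2 := h (s + θ * I) (by simpa using h0) (by simpa using h1)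
    have e1 : 1 - conj (s + θ * I) = (1 - conj s) + θ * I := by
      rw [map_add, map_mul, Complex.conj_ofReal, Complex.conj_I]
      ring
    rw [e1] at h2
    have key : ∀ z : ℂ, (Q : ℂ) ^ (z + θ * I) * (∏ j, Gamma (lam j * (z + θ * I) + mu j)) *
        F (z + θ * I) = (Q : ℂ) ^ ((θ : ℂ) * I) * ((Q : ℂ) ^ z *
          (∏ j, Gamma (lam j * z + (mu j + lam j * (θ * I)))) * F (z + θ * I)) := by
      intro z
      rw [Complex.cpow_add _ _ hQ0]
      have e2 : ∀ j, (lam j : ℂ) * (z + θ * I) + mu j = lam j * z + (mu j + lam j * (θ * I)) := by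
        intro j
        ring
      simp only [e2]
      ring
    rw [key, key, map_mul] at h2
    apply mul_left_cancel₀ hz
    rw [h2]
    field_simp

theorem p_HFE : T_HFE :=
  ⟨HFE_zeta, fun hp hχ => HFE_dirichlet hp hχ, fun hF θ => HFE_shift hF θ⟩

end Pool.Agent.SelRel
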