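import Pool.Agent.SelRel.Dir

/-! The relation between the local roots. -/

set_option autoImplicit false

namespace Pool.Agent.SelRel

open Complex

theorem sum_ite_card {d : ℕ} (α : Fin d → ℂ) (ω : ℂ) :
    (∑ i, (open Classical in if α i = ω then (1 : ℂ) else 0)) = (Nat.card {i // α i = ω} : ℂ) := by
  classical
  rw [Finset.sum_ite]
  simp only [Finset.sum_const, nsmul_eq_mul, mul_one, mul_zero, add_zero]
  congr 1
  rw [Nat.card_eq_fintype_card, Fintype.card_subtype]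

/-- local roots -/
theorem loc_rel (hVAN : T_VAN) {ι : Type} [Fintype ι] {b : ℕ → ℂ} {bL : ι → ℕ → ℂ} {c : ι → ℂ}
    (h : ∀ n, b n = ∑ j, c j * bL j n) {p : ℕ} {d : ℕ} {α : Fin d → ℂ}
    (hα : ∀ n : ℕ, 1 ≤ n → (n : ℂ) * b (p ^ n) = ∑ i, α i ^ n) {e : ι → ℕ}
    {β : ∀ j, Fin (e j) → ℂ}
    (hβ : ∀ j, ∀ n : ℕ, 1 ≤ n → (n : ℂ) * bL j (p ^ n) = ∑ i, β j i ^ n) {ω : ℂ} (hω : ω ≠ 0) :
    (Nat.card {i // α i = ω} : ℂ) = ∑ j, c j * (Nat.card {i // β j i = ω} : ℂ) := by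
  classical
  set w : (Fin d ⊕ Σ j, Fin (e j)) → ℂ := Sum.elim (fun _ => 1) (fun x => -c x.1) with hw
  set y : (Fin d ⊕ Σ j, Fin (e j)) → ℂ := Sum.elim α (fun x => β x.1 x.2) with hy
  have h1 : ∀ n : ℕ, 1 ≤ n → ∑ i, w i * y i ^ n = 0 := by
    intro n hn
    rw [Fintype.sum_sum_type, Fintype.sum_sigma]
    simp only [hw, hy, Sum.elim_inl, Sum.elim_inr, one_mul]
    rw [← hα n hn, h (p ^ n), Finset.mul_sum, ← Finset.sum_add_distrib]
    refine Finset.sum_eq_zero (fun j _ => ?_)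
    rw [← Finset.mul_sum, ← hβ j n hn]
    ring
  have h2 := hVAN h1 ω hω
  rw [Fintype.sum_sum_type, Fintype.sum_sigma] at h2
  simp only [hw, hy, Sum.elim_inl, Sum.elim_inr] at h2
  have h3 := sum_ite_card α ω
  have h4 : ∀ j, ∑ i, (if β j i = ω then -c j else 0) =
      -c j * (Nat.card {i // β j i = ω} : ℂ) := by
    intro j
    rw [← sum_ite_card (β j) ω, Finset.mul_sum]
    refine Finset.sum_congr rfl (fun i _ => ?_)
    split_ifs
    · rw [mul_one]
    · rw [mul_zero]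
  have h5 : (Nat.card {i // α i = ω} : ℂ) + ∑ j, -c j * (Nat.card {i // β j i = ω} : ℂ) = 0 := by
    rw [← h3]
    rw [← Finset.sum_congr rfl (fun j _ => h4 j)]
    convert h2
  have h6 : ∑ j, -c j * (Nat.card {i // β j i = ω} : ℂ) =
      -∑ j, c j * (Nat.card {i // β j i = ω} : ℂ) := by
    rw [← Finset.sum_neg_distrib]
    exact Finset.sum_congr rfl (fun j _ => by ring)
  rw [h6] at h5
  linear_combination h5

end Pool.Agent.SelRel
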