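import Pool.Agent.SelRel.Defs2
import Mathlib.NumberTheory.LSeries.PrimesInAP

set_option linter.style.longLine false
namespace Pool.Agent.SelRel

open Complex ArithmeticFunction LSeries

theorem MSB_resid (n : ℕ) : vonMangoldt.residueClass (1 : ZMod 1) n = vonMangoldt n := by
  unfold vonMangoldt.residueClass
  rw [Set.indicator_of_mem]
  show (n : ZMod 1) = 1
  exact Subsingleton.elim _ _

theorem MSB_summable {x : ℝ} (hx : 1 < x) :
    Summable (fun n : ℕ => (vonMangoldt n : ℝ) / (n : ℝ) ^ x) := by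
  have h := (LSeriesSummable_vonMangoldt (s := (x : ℂ)) (by simpa using hx)).norm
  refine h.congr fun n => ?_
  rcases eq_or_ne n 0 with rfl | hn
  · simp
  · rw [LSeries.norm_term_eq, if_neg hn]
    simp [abs_of_nonneg (vonMangoldt_nonneg (n := n))]

theorem MSB_upper : ∃ C : ℝ, ∀ x : ℝ, 1 < x → x ≤ 2 →
    ∑' n : ℕ, (vonMangoldt n : ℝ) / (n : ℝ) ^ x ≤ 1 / (x - 1) + C := by
  have ha : IsUnit (1 : ZMod 1) := isUnit_one
  have H {x : ℝ} (hx : 1 < x) :
      ∑' n, vonMangoldt.residueClass (1 : ZMod 1) n / (n : ℝ) ^ x =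
        (vonMangoldt.LFunctionResidueClassAux (1 : ZMod 1) x).re + ((1 : ℕ).totient : ℝ)⁻¹ / (x - 1) := by
    refine ofReal_injective ?_
    simp only [ofReal_tsum, ofReal_div, ofReal_cpow (Nat.cast_nonneg _), ofReal_natCast,
      ofReal_add, ofReal_inv, ofReal_sub, ofReal_one]
    simp_rw [← vonMangoldt.LFunctionResidueClassAux_real ha hx,
      vonMangoldt.eqOn_LFunctionResidueClassAux ha <| Set.mem_ofPred.mpr (ofReal_re x ▸ hx), sub_add_cancel,
      LSeries, term]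
    refine tsum_congr fun n ↦ ?_
    split_ifs with hn
    · simp only [hn, vonMangoldt.residueClass_apply_zero, ofReal_zero, zero_div]
    · rfl
  have hcont : ContinuousOn (fun x : ℝ ↦ (vonMangoldt.LFunctionResidueClassAux (1 : ZMod 1) x).re) (Set.Icc 1 2) :=
    continuous_re.continuousOn.comp (t := Set.univ) (vonMangoldt.continuousOn_LFunctionResidueClassAux (1 : ZMod 1))
      (fun ⦃x⦄ a ↦ trivial) |>.comp continuous_ofReal.continuousOn fun x hx ↦ by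
        simpa only [Set.mem_ofPred_eq, ofReal_re] using hx.1
  obtain ⟨C, hC⟩ := bddAbove_def.mp <| IsCompact.bddAbove_image isCompact_Icc hcont
  refine ⟨C, fun x hx hx2 => ?_⟩
  have h1 : (vonMangoldt.LFunctionResidueClassAux (1 : ZMod 1) x).re ≤ C :=
    hC _ (Set.mem_image_of_mem (fun x : ℝ ↦ (vonMangoldt.LFunctionResidueClassAux (1 : ZMod 1) x).re) ⟨hx.le, hx2⟩)
  have h2 := H hx
  simp only [MSB_resid] at h2
  rw [h2]
  simp only [Nat.totient_one, Nat.cast_one, inv_one]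
  linarith

theorem p_MSB : T_MSB := by
  intro δ B hB
  obtain ⟨C, hC⟩ := MSB_upper
  refine ⟨B ^ 2 * (1 + |C|), fun h h0 h1 => ?_⟩
  have hx : (1 : ℝ) < 1 + h := by linarith
  have hs := MSB_summable hx
  have hs' : Summable (fun p : Nat.Primes => (vonMangoldt (p : ℕ) : ℝ) / ((p : ℕ) : ℝ) ^ (1 + h)) :=
    hs.comp_injective Nat.Primes.coe_nat_injective
  have hle : ∀ p : Nat.Primes, ‖δ p‖ ^ 2 * Real.log p * ((p : ℕ) : ℝ) ^ (-(1 + h)) ≤
      B ^ 2 * ((vonMangoldt (p : ℕ) : ℝ) / ((p : ℕ) : ℝ) ^ (1 + h)) := fun p => by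
    have hB2 : ‖δ p‖ ^ 2 ≤ B ^ 2 := pow_le_pow_left₀ (norm_nonneg _) (hB p p.2) 2
    rw [vonMangoldt_apply_prime p.2, Real.rpow_neg (Nat.cast_nonneg _), ← div_eq_mul_inv]
    have hl : 0 ≤ Real.log (p : ℕ) / ((p : ℕ) : ℝ) ^ (1 + h) :=
      div_nonneg (Real.log_natCast_nonneg _) (Real.rpow_nonneg (Nat.cast_nonneg _) _)
    calc ‖δ p‖ ^ 2 * Real.log (p : ℕ) / ((p : ℕ) : ℝ) ^ (1 + h)
        = ‖δ p‖ ^ 2 * (Real.log (p : ℕ) / ((p : ℕ) : ℝ) ^ (1 + h)) := by ring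
      _ ≤ _ := mul_le_mul_of_nonneg_right hB2 hl
  have h0' : ∀ p : Nat.Primes, 0 ≤ ‖δ p‖ ^ 2 * Real.log p * ((p : ℕ) : ℝ) ^ (-(1 + h)) := fun p =>
    mul_nonneg (mul_nonneg (sq_nonneg _) (Real.log_natCast_nonneg _))
      (Real.rpow_nonneg (Nat.cast_nonneg _) _)
  have hsum : Summable (fun p : Nat.Primes => ‖δ p‖ ^ 2 * Real.log p * ((p : ℕ) : ℝ) ^ (-(1 + h))) :=
    Summable.of_nonneg_of_le h0' hle (hs'.mul_left _)
  refine ⟨hsum, ?_⟩
  have hT : ∑' p : Nat.Primes, ‖δ p‖ ^ 2 * Real.log p * ((p : ℕ) : ℝ) ^ (-(1 + h)) ≤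
      B ^ 2 * (1 / h + C) := by
    calc _ ≤ ∑' p : Nat.Primes, B ^ 2 * ((vonMangoldt (p : ℕ) : ℝ) / ((p : ℕ) : ℝ) ^ (1 + h)) :=
          hsum.tsum_le_tsum hle (hs'.mul_left _)
      _ = B ^ 2 * ∑' p : Nat.Primes, ((vonMangoldt (p : ℕ) : ℝ) / ((p : ℕ) : ℝ) ^ (1 + h)) := tsum_mul_left
      _ ≤ B ^ 2 * ∑' n : ℕ, ((vonMangoldt n : ℝ) / (n : ℝ) ^ (1 + h)) := by
          refine mul_le_mul_of_nonneg_left ?_ (sq_nonneg _)
          exact tsum_comp_le_tsum_of_inj hs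
            (fun n => div_nonneg vonMangoldt_nonneg (Real.rpow_nonneg (Nat.cast_nonneg _) _))
            Nat.Primes.coe_nat_injective
      _ ≤ B ^ 2 * (1 / h + C) := by
          refine mul_le_mul_of_nonneg_left ?_ (sq_nonneg _)
          have := hC (1 + h) hx (by linarith)
          simpa using this
  have hh : h * (1 / h + C) ≤ 1 + |C| := by
    rw [mul_add, mul_one_div_cancel h0.ne']
    have : h * C ≤ |C| := by
      calc h * C ≤ h * |C| := mul_le_mul_of_nonneg_left (le_abs_self _) h0.le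
        _ ≤ 1 * |C| := mul_le_mul_of_nonneg_right h1 (abs_nonneg _)
        _ = |C| := one_mul _
    linarith
  calc h * _ ≤ h * (B ^ 2 * (1 / h + C)) := mul_le_mul_of_nonneg_left hT h0.le
    _ = B ^ 2 * (h * (1 / h + C)) := by ring
    _ ≤ B ^ 2 * (1 + |C|) := mul_le_mul_of_nonneg_left hh (sq_nonneg _)

end Pool.Agent.SelRel
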