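import Pool.Agent.SelRel.Defs2

/-! Relations at primes in the Selberg class: block QQ. -/

set_option autoImplicit false

namespace Pool.Agent.SelRel

theorem p_QQ : T_QQ := by
  have hinj : LinearMap.ker (Algebra.linearMap ℚ ℂ) = ⊥ := by
    rw [LinearMap.ker_eq_bot]
    exact (algebraMap ℚ ℂ).injective
  obtain ⟨φ, hφ⟩ := LinearMap.exists_leftInverse_of_injective (Algebra.linearMap ℚ ℂ) hinj
  refine ⟨φ, ?_⟩
  have h1 := LinearMap.congr_fun hφ 1
  simpa using h1

end Pool.Agent.SelRel
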