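import Pool.Agent.SelRel.Defs2

/-! Relations at primes: primes separating a finite set of pairs (Dirichlet's theorem). -/

set_option autoImplicit false

namespace Pool.Agent.SelRel

open Complex Filter Topology Set

noncomputable section

lemma SEP_aLF {q : ℕ} [NeZero q] (x : DirichletCharacter ℂ q × ℝ) {u : (ZMod q)ˣ} {p : ℕ}
    (hp : (p : ZMod q) = u) : aLF x p = x.1 u * (p : ℂ) ^ (-((x.2 : ℂ) * I)) := by
  unfold aLF
  congr 1
  have hc : IsCoprime (p : ℤ) (q : ℤ) := by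
    rw [Nat.isCoprime_iff_coprime, ← ZMod.isUnit_iff_coprime, hp]
    exact u.isUnit
  have h := DirichletCharacter.primitiveCharacter_apply_of_isCoprime x.1 hc
  rw [Int.cast_natCast, Int.cast_natCast, hp] at h
  exact h

lemma SEP_cpow {p : ℕ} (hp : p.Prime) (θ : ℝ) (m : ℕ) :
    ((p : ℂ) ^ (-((θ : ℂ) * I))) ^ m = exp (((-(m * θ * Real.log p) : ℝ) : ℂ) * I) := by
  have h0 : (p : ℂ) ≠ 0 := by exact_mod_cast hp.ne_zero
  rw [Complex.cpow_def_of_ne_zero h0, ← Complex.exp_nat_mul, ← Complex.natCast_log]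
  congr 1
  push_cast
  ring

/-- the character values are roots of unity of order dividing the order of the group -/
lemma SEP_pow {q : ℕ} [NeZero q] (χ : DirichletCharacter ℂ q) (u : (ZMod q)ˣ) :
    χ u ^ Fintype.card (ZMod q)ˣ = 1 := by
  rw [← map_pow, ← Units.val_pow_eq_pow_val, pow_card_eq_one, Units.val_one, map_one]

/-- the integer attached to a prime with equal values -/
lemma SEP_int {q : ℕ} [NeZero q] {x y : DirichletCharacter ℂ q × ℝ} {u : (ZMod q)ˣ} {p : ℕ}
    (hp : p.Prime) (hpu : (p : ZMod q) = u) (h : aLF x p = aLF y p) : ∃ k : ℤ,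
      (Fintype.card (ZMod q)ˣ : ℝ) * (x.2 - y.2) * Real.log p = k * (2 * Real.pi) := by
  have h1 : aLF x p ^ Fintype.card (ZMod q)ˣ = aLF y p ^ Fintype.card (ZMod q)ˣ := by rw [h]
  rw [SEP_aLF x hpu, SEP_aLF y hpu, mul_pow, mul_pow, SEP_pow, SEP_pow, one_mul, one_mul,
    SEP_cpow hp, SEP_cpow hp, Complex.exp_eq_exp_iff_exists_int] at h1
  obtain ⟨n, hn⟩ := h1
  refine ⟨-n, ?_⟩
  have h2 := congrArg Complex.im hn
  simp only [Complex.mul_im, Complex.add_im, Complex.ofReal_re, Complex.ofReal_im, Complex.I_re,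
    Complex.I_im, Complex.intCast_re, Complex.intCast_im, Complex.mul_re] at h2
  simp at h2
  rw [ZMod.card_units_eq_totient]
  push_cast
  linarith

lemma SEP_two {p p' : ℕ} (hp : p.Prime) (hp' : p'.Prime) {c : ℝ} (hc : c ≠ 0) {k k' : ℤ}
    (h : c * Real.log p = k * (2 * Real.pi)) (h' : c * Real.log p' = k' * (2 * Real.pi)) :
    p = p' := by
  have hl : 0 < Real.log p := Real.log_pos (by exact_mod_cast hp.one_lt)
  have hl' : 0 < Real.log p' := Real.log_pos (by exact_mod_cast hp'.one_lt)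
  have hpi := Real.pi_pos
  have h1 : (k' : ℝ) * Real.log p = k * Real.log p' := by
    have h2 : c * (2 * Real.pi) * ((k' : ℝ) * Real.log p - k * Real.log p') = 0 := by
      linear_combination (k' : ℝ) * (2 * Real.pi) * h - (k : ℝ) * (2 * Real.pi) * h'
    have h3 : c * (2 * Real.pi) ≠ 0 := mul_ne_zero hc (by positivity)
    have := (mul_eq_zero.1 h2).resolve_left h3
    linarith
  have hk : k ≠ 0 := by
    rintro rfl
    rw [Int.cast_zero, zero_mul] at h
    exact mul_ne_zero hc hl.ne' h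
  have hk' : k' ≠ 0 := by
    rintro rfl
    rw [Int.cast_zero, zero_mul] at h'
    exact mul_ne_zero hc hl'.ne' h'
  have h2 : (k'.natAbs : ℝ) * Real.log p = k.natAbs * Real.log p' := by
    have h3 := congrArg abs h1
    rw [abs_mul, abs_mul, abs_of_pos hl, abs_of_pos hl'] at h3
    simpa [Nat.cast_natAbs] using h3
  have h3 : p ^ k'.natAbs = p' ^ k.natAbs := by
    rw [← Real.log_pow, ← Real.log_pow] at h2
    have h4 := Real.log_injOn_pos (by
      simp only [Set.mem_Ioi]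
      exact pow_pos (by exact_mod_cast hp.pos) _) (by
      simp only [Set.mem_Ioi]
      exact pow_pos (by exact_mod_cast hp'.pos) _) h2
    exact_mod_cast h4
  have h4 : p ∣ p' ^ k.natAbs := by
    rw [← h3]
    exact dvd_pow_self p (Int.natAbs_ne_zero.2 hk')
  exact (Nat.prime_dvd_prime_iff_eq hp hp').1 (hp.dvd_of_dvd_pow h4)

/-- SEP -/
theorem p_SEP : T_SEP := by
  intro q _ X u hX
  have hinf := Nat.infinite_setOfPred_prime_and_eq_mod (q := q) (a := (u : ZMod q)) u.isUnit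
  set Bad : (DirichletCharacter ℂ q × ℝ) × (DirichletCharacter ℂ q × ℝ) → Set ℕ := fun z =>
    {p : ℕ | p.Prime ∧ (p : ZMod q) = u ∧ aLF z.1 p = aLF z.2 p ∧ z.1 ≠ z.2} with hBad
  have hfin : ∀ z ∈ (↑(X ×ˢ X) : Set ((DirichletCharacter ℂ q × ℝ) ×
      (DirichletCharacter ℂ q × ℝ))), (Bad z).Finite := by
    rintro ⟨x, y⟩ hz
    rw [Finset.mem_coe, Finset.mem_product] at hz
    apply Set.Subsingleton.finite
    rintro p ⟨hp, hpu, hpe, hne⟩ p' ⟨hp', hpu', hpe', -⟩
    have h1 : x.2 ≠ y.2 := by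
      intro h2
      apply hne
      refine hX x hz.1 y hz.2 h2 ?_
      have h3 : aLF x p = aLF y p := hpe
      rw [SEP_aLF x hpu, SEP_aLF y hpu, h2] at h3
      have h0 : (p : ℂ) ≠ 0 := by exact_mod_cast hp.ne_zero
      exact mul_right_cancel₀ (by
        rw [Ne, Complex.cpow_eq_zero_iff]
        tauto) h3
    obtain ⟨k, hk⟩ := SEP_int hp hpu hpe
    obtain ⟨k', hk'⟩ := SEP_int hp' hpu' hpe'
    refine SEP_two hp hp' (mul_ne_zero ?_ (sub_ne_zero.2 h1)) hk hk'
    exact_mod_cast Fintype.card_ne_zero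
  have hfin' := (X ×ˢ X).finite_toSet.biUnion hfin
  refine (hinf.sdiff hfin').mono ?_
  rintro p ⟨⟨hp, hpu⟩, hn⟩
  refine ⟨hp, hpu, fun x hx y hy he => ?_⟩
  by_contra hne
  apply hn
  simp only [Set.mem_iUnion]
  exact ⟨(x, y), by simp [hx, hy], hp, hpu, he, hne⟩

end

end Pool.Agent.SelRel
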