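import Pool.Agent.SelRel.Targets

/-! Relations at primes: PDI, polynomial growth of Dirichlet L-functions. -/

set_option autoImplicit false

namespace Pool.Agent.SelRel

open Complex Filter Topology Set MeasureTheory

section

variable {N : ℕ} [NeZero N]

theorem PDI_range_eq (f : ZMod N → ℂ) :
    ∑ m ∈ Finset.range N, f (m : ZMod N) = ∑ a : ZMod N, f a := by
  refine Finset.sum_nbij' (fun m => (m : ZMod N)) ZMod.val ?_ ?_ ?_ ?_ ?_
  · intro m _; exact Finset.mem_univ _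
  · intro a _; exact Finset.mem_range.2 (ZMod.val_lt a)
  · intro m hm; exact ZMod.val_cast_of_lt (Finset.mem_range.1 hm)
  · intro a _; exact ZMod.natCast_zmod_val a
  · intro m _; rfl

theorem PDI_range_le (χ : DirichletCharacter ℂ N) (hχ : χ ≠ 1) (n : ℕ) :
    ‖∑ m ∈ Finset.range n, χ (m : ZMod N)‖ ≤ N := by
  have hp0 : 0 < N := Nat.pos_of_ne_zero (NeZero.ne N)
  have hzero : ∀ k : ℕ, ∑ m ∈ Finset.range (N * k), χ (m : ZMod N) = 0 := by
    intro k
    induction k with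
    | zero => simp
    | succ k ih =>
      rw [Nat.mul_succ, Finset.sum_range_add, ih, zero_add]
      have : ∀ m ∈ Finset.range N, χ ((N * k + m : ℕ) : ZMod N) = χ (m : ZMod N) := by
        intro m _
        congr 1
        push_cast
        simp
      rw [Finset.sum_congr rfl this, PDI_range_eq (fun a => χ a)]
      exact MulChar.sum_eq_zero_of_ne_one hχ
  rw [← Nat.div_add_mod n N, Finset.sum_range_add, hzero, zero_add]
  refine (norm_sum_le _ _).trans ?_
  calc ∑ x ∈ Finset.range (n % N), ‖χ ((N * (n / N) + x : ℕ) : ZMod N)‖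
      ≤ ∑ _x ∈ Finset.range (n % N), (1 : ℝ) := Finset.sum_le_sum fun x _ => χ.norm_le_one _
    _ = (n % N : ℕ) := by simp
    _ ≤ N := by exact_mod_cast (Nat.mod_lt n hp0).le

/-- the partial sums -/
noncomputable def PDI_S (χ : DirichletCharacter ℂ N) (t : ℝ) : ℂ :=
  ∑ k ∈ Finset.Icc 1 ⌊t⌋₊, χ (k : ZMod N)

theorem PDI_Icc_le (χ : DirichletCharacter ℂ N) (hχ : χ ≠ 1) (n : ℕ) :
    ‖∑ k ∈ Finset.Icc 1 n, χ (k : ZMod N)‖ ≤ N + 1 := by
  have h1 : ∑ m ∈ Finset.range (n + 1), χ (m : ZMod N) =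
      χ ((0 : ℕ) : ZMod N) + ∑ k ∈ Finset.Icc 1 n, χ (k : ZMod N) := by
    have : Finset.range (n + 1) = insert 0 (Finset.Icc 1 n) := by
      ext m
      simp only [Finset.mem_range, Finset.mem_insert, Finset.mem_Icc]
      omega
    rw [this, Finset.sum_insert (by simp)]
  have h2 : ∑ k ∈ Finset.Icc 1 n, χ (k : ZMod N) =
      ∑ m ∈ Finset.range (n + 1), χ (m : ZMod N) - χ ((0 : ℕ) : ZMod N) := by
    rw [h1]; ring
  rw [h2]
  exact (norm_sub_le _ _).trans (add_le_add (PDI_range_le χ hχ _) (χ.norm_le_one _))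

theorem PDI_S_le (χ : DirichletCharacter ℂ N) (hχ : χ ≠ 1) (t : ℝ) : ‖PDI_S χ t‖ ≤ N + 1 :=
  PDI_Icc_le χ hχ _

omit [NeZero N] in
theorem PDI_S_zero (χ : DirichletCharacter ℂ N) {t : ℝ} (ht : t < 1) : PDI_S χ t = 0 := by
  unfold PDI_S
  rw [Nat.floor_eq_zero.mpr ht]
  simp

omit [NeZero N] in
theorem PDI_S_meas (χ : DirichletCharacter ℂ N) : Measurable (PDI_S χ) := by
  have h : Measurable (fun n : ℕ => ∑ k ∈ Finset.Icc 1 n, χ (k : ZMod N)) :=
    measurable_from_nat
  exact h.comp Nat.measurable_floor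

/-- the integral -/
noncomputable def PDI_I (χ : DirichletCharacter ℂ N) (s : ℂ) : ℂ :=
  ∫ t in Ioi (1 : ℝ), PDI_S χ t * (t : ℂ) ^ (-(s + 1))

theorem PDI_I_eq (χ : DirichletCharacter ℂ N) (s : ℂ) : PDI_I χ s = mellin (PDI_S χ) (-s) := by
  unfold PDI_I mellin
  have h1 : ∫ t in Ioi (0 : ℝ), (t : ℂ) ^ (-s - 1) • PDI_S χ t =
      ∫ t in Ici (1 : ℝ), (t : ℂ) ^ (-s - 1) • PDI_S χ t := by
    apply setIntegral_eq_of_subset_of_forall_sdiff_eq_zero measurableSet_Ioi
    · intro t ht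
      have ht' : (1 : ℝ) ≤ t := ht
      exact lt_of_lt_of_le one_pos ht'
    · intro t ht
      rw [PDI_S_zero χ (not_le.mp fun h => ht.2 h), smul_zero]
  rw [h1, integral_Ici_eq_integral_Ioi]
  congr 1
  funext t
  rw [smul_eq_mul, mul_comm]
  congr 2
  ring

theorem PDI_diff (χ : DirichletCharacter ℂ N) (hχ : χ ≠ 1) {s : ℂ} (hs : 0 < s.re) :
    DifferentiableAt ℂ (PDI_I χ) s := by
  have h0 : PDI_I χ = fun s => mellin (PDI_S χ) (-s) := by
    funext s
    exact PDI_I_eq χ s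
  rw [h0]
  have h1 : DifferentiableAt ℂ (mellin (PDI_S χ)) (-s) := by
    refine mellin_differentiableAt_of_isBigO_rpow (a := 0) (b := (-s).re - 1) ?_ ?_ ?_ ?_ ?_
    · refine LocallyIntegrable.locallyIntegrableOn ?_ _
      refine (locallyIntegrable_const ((N : ℝ) + 1)).mono (PDI_S_meas χ).aestronglyMeasurable ?_
      refine ae_of_all _ fun t => ?_
      rw [Real.norm_of_nonneg (by positivity)]
      exact PDI_S_le χ hχ t
    · refine Asymptotics.IsBigO.of_bound ((N : ℝ) + 1) (Eventually.of_forall fun t => ?_)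
      simp only [neg_zero, Real.rpow_zero, norm_one, mul_one]
      exact PDI_S_le χ hχ t
    · rw [neg_re]; linarith
    · refine Asymptotics.IsBigO.of_bound 1 ?_
      have : Iio (1 : ℝ) ∈ 𝓝[>] (0 : ℝ) := mem_nhdsWithin_of_mem_nhds (Iio_mem_nhds one_pos)
      filter_upwards [this] with t ht
      rw [PDI_S_zero χ ht, norm_zero]
      positivity
    · linarith
  exact h1.comp s differentiableAt_id.neg

theorem PDI_bound (χ : DirichletCharacter ℂ N) (hχ : χ ≠ 1) {s : ℂ} (hs : 0 < s.re) :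
    ‖PDI_I χ s‖ ≤ (N + 1) / s.re := by
  have hlt : -(s.re + 1) < -1 := by linarith
  have h1 : ‖PDI_I χ s‖ ≤ ∫ t in Ioi (1 : ℝ), ((N : ℝ) + 1) * t ^ (-(s.re + 1)) := by
    refine norm_integral_le_of_norm_le ?_ ?_
    · exact (integrableOn_Ioi_rpow_of_lt hlt one_pos).const_mul _
    · refine (ae_restrict_iff' measurableSet_Ioi).mpr (ae_of_all _ fun t ht => ?_)
      have ht0 : (0 : ℝ) < t := lt_trans one_pos ht
      rw [norm_mul, norm_cpow_eq_rpow_re_of_pos ht0]
      have : (-(s + 1)).re = -(s.re + 1) := by simp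
      rw [this]
      exact mul_le_mul_of_nonneg_right (PDI_S_le χ hχ t) (Real.rpow_nonneg ht0.le _)
  refine h1.trans (le_of_eq ?_)
  rw [integral_const_mul, integral_Ioi_rpow_of_lt hlt one_pos]
  have e : -(s.re + 1) + 1 = -s.re := by ring
  have hne : s.re ≠ 0 := hs.ne'
  rw [Real.one_rpow, e]
  field_simp

theorem PDI_eq (χ : DirichletCharacter ℂ N) (hχ : χ ≠ 1) {s : ℂ} (hs : 0 < s.re) :
    DirichletCharacter.LFunction χ s = s * PDI_I χ s := by
  have hopen : IsOpen {s : ℂ | 0 < s.re} := isOpen_lt continuous_const continuous_re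
  have hpre : IsPreconnected {s : ℂ | 0 < s.re} := (convex_halfSpace_re_gt 0).isPreconnected
  have h1 : AnalyticOnNhd ℂ (DirichletCharacter.LFunction χ) {s : ℂ | 0 < s.re} :=
    (DirichletCharacter.differentiable_LFunction hχ).differentiableOn.analyticOnNhd hopen
  have h2 : AnalyticOnNhd ℂ (fun s => s * PDI_I χ s) {s : ℂ | 0 < s.re} := by
    refine DifferentiableOn.analyticOnNhd (fun z hz => ?_) hopen
    exact (differentiableAt_id.mul (PDI_diff χ hχ hz)).differentiableWithinAt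
  have h3 : (2 : ℂ) ∈ {s : ℂ | 0 < s.re} := by simp
  have h4 : DirichletCharacter.LFunction χ =ᶠ[𝓝 (2 : ℂ)] fun s => s * PDI_I χ s := by
    have hnb : {s : ℂ | 1 < s.re} ∈ 𝓝 (2 : ℂ) :=
      (isOpen_lt continuous_const continuous_re).mem_nhds (by simp)
    filter_upwards [hnb] with z hz
    have hz' : 1 < z.re := hz
    rw [DirichletCharacter.LFunction_eq_LSeries χ hz']
    refine LSeries_eq_mul_integral _ le_rfl (by linarith)
      (DirichletCharacter.LSeriesSummable_of_one_lt_re χ hz') ?_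
    refine Asymptotics.IsBigO.of_bound ((N : ℝ) + 1) (Eventually.of_forall fun n => ?_)
    simp only [Real.rpow_zero, norm_one, mul_one]
    exact PDI_Icc_le χ hχ n
  exact h1.eqOn_of_preconnected_of_eventuallyEq h2 hpre h3 h4 hs

end

theorem p_PDI : T_PDI := by
  intro N _ χ _ hχ
  refine ⟨1, 40 * ((N : ℝ) + 1), zero_le_one, by positivity, fun s h1 h2 h3 => ?_⟩
  have hs : 0 < s.re := by linarith
  rw [PDI_eq χ hχ hs, norm_mul, Real.rpow_one]
  have hb := PDI_bound χ hχ hs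
  have hn : ‖s‖ ≤ 5 * s.im := by
    have := norm_le_abs_re_add_abs_im s
    rw [abs_of_pos hs, abs_of_nonneg (by linarith : 0 ≤ s.im)] at this
    linarith
  have hb2 : ‖PDI_I χ s‖ ≤ 8 * ((N : ℝ) + 1) := by
    refine hb.trans ?_
    rw [div_le_iff₀ hs]
    have : (0 : ℝ) ≤ (N : ℝ) + 1 := by positivity
    nlinarith
  calc ‖s‖ * ‖PDI_I χ s‖ ≤ (5 * s.im) * (8 * ((N : ℝ) + 1)) :=
        mul_le_mul hn hb2 (norm_nonneg _) (by linarith)
    _ = 40 * ((N : ℝ) + 1) * s.im := by ring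

end Pool.Agent.SelRel
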