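import Pool.Agent.SelRel.Defs2
import Pool.Agent.SelRel.PDI
import Pool.Agent.Lib.ZetaCrude

/-! Relations at primes: zeta and the shifted Dirichlet L-functions are in the Selberg class. -/

set_option autoImplicit false

namespace Pool.Agent.SelRel

open Complex Filter Topology Set MeasureTheory Metric Pool.Agent.SelPole Pool.Agent.SelCR
open Pool.Agent.PrimesOnly
open scoped ComplexConjugate ArithmeticFunction.vonMangoldt

noncomputable section

theorem SLF_term (f : ℕ → ℂ) (t : ℝ) (s : ℂ) :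
    LSeries.term (fun n : ℕ => f n * (n : ℂ) ^ (-((t : ℂ) * I))) s =
      LSeries.term f (s + t * I) := by
  funext n
  by_cases hn : n = 0
  · simp [hn]
  · rw [LSeries.term_of_ne_zero hn, LSeries.term_of_ne_zero hn]
    have hn' : (n : ℂ) ≠ 0 := by exact_mod_cast hn
    rw [Complex.cpow_add _ _ hn', Complex.cpow_neg]
    have h1 : (n : ℂ) ^ s ≠ 0 := by
      rw [Complex.cpow_ne_zero_iff]
      exact Or.inl hn'
    have h2 : (n : ℂ) ^ ((t : ℂ) * I) ≠ 0 := by
      rw [Complex.cpow_ne_zero_iff]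
      exact Or.inl hn'
    field_simp

theorem SLF_LSeries (f : ℕ → ℂ) (t : ℝ) (s : ℂ) :
    LSeries (fun n : ℕ => f n * (n : ℂ) ^ (-((t : ℂ) * I))) s = LSeries f (s + t * I) := by
  unfold LSeries
  rw [SLF_term]

theorem SLF_norm_pow (t : ℝ) {n : ℕ} (hn : n ≠ 0) : ‖(n : ℂ) ^ (-((t : ℂ) * I))‖ = 1 := by
  rw [norm_natCast_cpow_of_pos (Nat.pos_of_ne_zero hn)]
  simp

theorem SLF_norm_a {N : ℕ} (χ : DirichletCharacter ℂ N) (t : ℝ) {n : ℕ} (hn : n ≠ 0) :
    ‖χ (n : ZMod N) * (n : ℂ) ^ (-((t : ℂ) * I))‖ ≤ 1 := by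
  rw [norm_mul, SLF_norm_pow t hn, mul_one]
  exact χ.norm_le_one _

theorem SLF_lam (n : ℕ) : 0 ≤ Λ n / Real.log n ∧ Λ n / Real.log n ≤ 1 := by
  have h1 : 0 ≤ Λ n := ArithmeticFunction.vonMangoldt_nonneg
  have h2 : 0 ≤ Real.log n := Real.log_natCast_nonneg n
  exact ⟨div_nonneg h1 h2, div_le_one_of_le₀ ArithmeticFunction.vonMangoldt_le_log h2⟩

theorem SLF_norm_b {N : ℕ} (χ : DirichletCharacter ℂ N) (t : ℝ) {n : ℕ} (hn : n ≠ 0) :
    ‖((Λ n / Real.log n : ℝ) : ℂ) * (χ (n : ZMod N) * (n : ℂ) ^ (-((t : ℂ) * I)))‖ ≤ 1 := by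
  obtain ⟨h1, h2⟩ := SLF_lam n
  rw [norm_mul, norm_real, Real.norm_of_nonneg h1]
  exact mul_le_one₀ h2 (norm_nonneg _) (SLF_norm_a χ t hn)

theorem SLF_re (s : ℂ) (t : ℝ) : (s + t * I).re = s.re := by simp

theorem SLF_norm_shift (s : ℂ) (t : ℝ) : ‖s + t * I‖ ≤ (1 + |t|) * (1 + ‖s‖) := by
  have h1 : ‖s + t * I‖ ≤ ‖s‖ + |t| := by
    refine (norm_add_le _ _).trans ?_
    rw [norm_mul, norm_I, mul_one, norm_real, Real.norm_eq_abs]
  have h2 := norm_nonneg s
  have h3 := abs_nonneg t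
  nlinarith

/-- crude bound for `(s - 1) ζ(s)` -/
theorem SLF_zeta : ∃ C : ℝ, ∀ s : ℂ, 1 / 2 ≤ s.re → ‖riemannZeta₁ s‖ ≤ C * (1 + ‖s‖) ^ 2 := by
  set S := ∑' n : ℕ, (n + 1 : ℝ) ^ (-(1 / 2 : ℝ) - 1) with hS
  have hsumm := Pool.Agent.Lib.ZetaCrude.summable_rpow_aux (σ := 1 / 2) (by norm_num)
  have hS0 : 0 ≤ S := tsum_nonneg fun n => by positivity
  refine ⟨1 + S, fun s hs => ?_⟩
  have hre : 0 < s.re := by linarith
  have hbound : ∀ n : ℕ, ‖Pool.Agent.Lib.ZetaCrude.g n s‖ ≤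
      ‖s - 1‖ * ‖s‖ * (n + 1 : ℝ) ^ (-(1 / 2 : ℝ) - 1) := by
    intro n
    refine (Pool.Agent.Lib.ZetaCrude.norm_g_le n s hre.le).trans ?_
    apply mul_le_mul_of_nonneg_left _ (by positivity)
    apply Real.rpow_le_rpow_of_exponent_le
    · have : (0 : ℝ) ≤ n := Nat.cast_nonneg n
      linarith
    · linarith
  have hts : ‖∑' n, Pool.Agent.Lib.ZetaCrude.g n s‖ ≤ ‖s - 1‖ * ‖s‖ * S := by
    rw [hS, ← tsum_mul_left]
    exact tsum_of_norm_bounded (hsumm.mul_left _).hasSum hbound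
  rw [← Pool.Agent.Lib.ZetaCrude.G_eq hre]
  have hG : ‖Pool.Agent.Lib.ZetaCrude.G s‖ ≤ 1 + ‖s - 1‖ * ‖s‖ * S := by
    unfold Pool.Agent.Lib.ZetaCrude.G
    refine (norm_add_le _ _).trans ?_
    simpa using hts
  refine hG.trans ?_
  have h1 : ‖s - 1‖ ≤ 1 + ‖s‖ := by
    have := norm_sub_le s 1
    rw [norm_one] at this
    linarith
  have h2 := norm_nonneg s
  have h3 : ‖s - 1‖ * ‖s‖ ≤ (1 + ‖s‖) * (1 + ‖s‖) :=
    mul_le_mul h1 (by linarith) h2 (by linarith)
  have h4 : ‖s - 1‖ * ‖s‖ * S ≤ (1 + ‖s‖) * (1 + ‖s‖) * S := mul_le_mul_of_nonneg_right h3 hS0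
  nlinarith

theorem SLF_modOne {N : ℕ} [NeZero N] (χ : DirichletCharacter ℂ N) (hN : N = 1) :
    DirichletCharacter.LFunction χ = riemannZeta := by
  subst hN
  exact DirichletCharacter.LFunction_modOne_eq

/-- the general statement -/
theorem SLF_gen (hFNO : T_FNO) (hHFE : T_HFE) {N : ℕ} [NeZero N] (χ : DirichletCharacter ℂ N)
    (hp : χ.IsPrimitive) (t : ℝ) (h1 : χ = 1 → N = 1 ∧ t = 0) :
    IsSelberg (fun s => DirichletCharacter.LFunction χ (s + t * I))
      (fun n : ℕ => χ (n : ZMod N) * (n : ℂ) ^ (-((t : ℂ) * I)))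
      (fun n : ℕ => ((Λ n / Real.log n : ℝ) : ℂ) *
        (χ (n : ZMod N) * (n : ℂ) ^ (-((t : ℂ) * I)))) := by
  have hfe : HasFunctionalEquation (fun s => DirichletCharacter.LFunction χ (s + t * I)) := by
    by_cases hχ : χ = 1
    · obtain ⟨hN, ht⟩ := h1 hχ
      rw [SLF_modOne χ hN]
      exact hHFE.2.2 hHFE.1 t
    · exact hHFE.2.2 (hHFE.2.1 hp hχ) t
  refine ⟨?_, ?_, ?_, hfe, ?_, ?_, ?_, ?_, ?_, ?_⟩
  · intro s hs
    exact LSeriesSummable_of_bounded_of_one_lt_re (m := 1) (fun n hn => SLF_norm_a χ t hn) hs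
  · intro s hs
    have hs' : 1 < (s + (t : ℂ) * I).re := by rw [SLF_re]; exact hs
    rw [SLF_LSeries (fun n : ℕ => χ (n : ZMod N)) t s]
    exact DirichletCharacter.LFunction_eq_LSeries χ hs'
  · by_cases hχ : χ = 1
    · obtain ⟨hN, ht⟩ := h1 hχ
      have hg : ∀ s : ℂ, s ≠ 1 → riemannZeta₁ s =
          (s - 1) ^ 1 * DirichletCharacter.LFunction χ (s + t * I) := by
        intro s hs
        have h2 : s - 1 ≠ 0 := sub_ne_zero.2 hs
        rw [SLF_modOne χ hN, ht, riemannZeta_eq_inv_sub_mul (by simpa using hs)]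
        simp only [ofReal_zero, zero_mul, add_zero, pow_one]
        rw [← mul_assoc, mul_inv_cancel₀ h2, one_mul]
      refine ⟨1, riemannZeta₁, differentiable_riemannZeta₁, ?_, hg⟩
      refine hFNO (F := fun s => DirichletCharacter.LFunction χ (s + t * I)) (M := 1)
        differentiable_riemannZeta₁ hg hfe ?_
      obtain ⟨C, hC⟩ := SLF_zeta
      exact ⟨2, C, hC⟩
    · have hd : Differentiable ℂ (fun s => DirichletCharacter.LFunction χ (s + t * I)) :=
        (DirichletCharacter.differentiable_LFunction hχ).comp (differentiable_id.add_const _)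
      have hg : ∀ s : ℂ, s ≠ 1 → DirichletCharacter.LFunction χ (s + t * I) =
          (s - 1) ^ 0 * DirichletCharacter.LFunction χ (s + t * I) := fun s _ => by simp
      refine ⟨0, _, hd, ?_, hg⟩
      refine hFNO (F := fun s => DirichletCharacter.LFunction χ (s + t * I)) (M := 0)
        hd hg hfe ?_
      refine ⟨1, (1 + |t|) * (2 * ((N : ℝ) + 1)), fun s hs => ?_⟩
      have hs0 : 0 < (s + (t : ℂ) * I).re := by rw [SLF_re]; linarith
      rw [PDI_eq χ hχ hs0, norm_mul, pow_one]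
      have h2 := SLF_norm_shift s t
      have h3 := PDI_bound χ hχ hs0
      rw [SLF_re] at h3
      have h4 : ((N : ℝ) + 1) / s.re ≤ 2 * ((N : ℝ) + 1) := by
        rw [div_le_iff₀ (by linarith)]
        have : (0 : ℝ) ≤ (N : ℝ) + 1 := by positivity
        nlinarith
      calc ‖s + t * I‖ * ‖PDI_I χ (s + t * I)‖
          ≤ ((1 + |t|) * (1 + ‖s‖)) * (2 * ((N : ℝ) + 1)) :=
            mul_le_mul h2 (h3.trans h4) (norm_nonneg _) (by positivity)
        _ = _ := by ring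
  · intro ε hε
    refine ⟨1, fun n hn => ?_⟩
    have h2 : (1 : ℝ) ≤ (n : ℝ) ^ ε := Real.one_le_rpow (by exact_mod_cast hn) hε.le
    have h3 := SLF_norm_a χ t (n := n) (by omega)
    linarith
  · simp
  · intro s hs
    exact LSeriesSummable_of_bounded_of_one_lt_re (m := 1) (fun n hn => SLF_norm_b χ t hn) hs
  · intro s hs
    have hs' : 1 < (s + (t : ℂ) * I).re := by rw [SLF_re]; exact hs
    have h2 : (fun n : ℕ => ((Λ n / Real.log n : ℝ) : ℂ) *
        (χ (n : ZMod N) * (n : ℂ) ^ (-((t : ℂ) * I)))) = fun n : ℕ =>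
        (χ (n : ZMod N) * Λ n / Real.log n) * (n : ℂ) ^ (-((t : ℂ) * I)) := by
      funext n
      push_cast
      ring
    rw [h2, SLF_LSeries (fun n : ℕ => χ (n : ZMod N) * Λ n / Real.log n) t s,
      DirichletCharacter.LSeries_eq_exp_LSeries χ hs',
      DirichletCharacter.LFunction_eq_LSeries χ hs']
  · intro n hn
    rw [ArithmeticFunction.vonMangoldt_eq_zero_iff.2 hn]
    simp
  · refine ⟨0, 1, by norm_num, fun n hn => ?_⟩
    rw [Real.rpow_zero, mul_one]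
    exact SLF_norm_b χ t (by omega)

theorem p_SLF (hFNO : T_FNO) (hHFE : T_HFE) : T_SLF := by
  intro q _ x hx
  refine SLF_gen hFNO hHFE x.1.primitiveCharacter x.1.primitiveCharacter_isPrimitive x.2 ?_
  intro h
  have h2 : x.1.primitiveCharacter.conductor = 1 :=
    DirichletCharacter.eq_one_iff_conductor_eq_one.1 h
  have h3 : x.1.primitiveCharacter.conductor = x.1.conductor :=
    x.1.primitiveCharacter_isPrimitive
  have h4 : x.1.conductor = 1 := by rw [← h3]; exact h2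
  exact ⟨h4, hx (DirichletCharacter.eq_one_iff_conductor_eq_one.2 h4)⟩

end

end Pool.Agent.SelRel
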