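import Pool.Agent.SelRel.Targets

/-! Relations at primes in the Selberg class: block VAN (equality of power sums). -/

set_option autoImplicit false

namespace Pool.Agent.SelRel

open Polynomial

theorem p_VAN : T_VAN := by
  classical
  intro κ _ w x h ω hω
  have hP : ∀ P : ℂ[X], P.coeff 0 = 0 → ∑ i, w i * P.eval (x i) = 0 := by
    intro P hP
    have h1 : ∀ i, w i * P.eval (x i) = ∑ k ∈ P.support, P.coeff k * (w i * x i ^ k) := by
      intro i
      rw [Polynomial.eval_eq_sum, Polynomial.sum, Finset.mul_sum]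
      refine Finset.sum_congr rfl fun k _ => ?_
      ring
    rw [Finset.sum_congr rfl fun i _ => h1 i, Finset.sum_comm]
    refine Finset.sum_eq_zero fun k hk => ?_
    rw [← Finset.mul_sum]
    rcases Nat.eq_zero_or_pos k with rfl | hk0
    · rw [hP, zero_mul]
    · rw [h k hk0, mul_zero]
  set s : Finset ℂ := (Finset.univ.image x).erase ω with hs
  set P : ℂ[X] := X * ∏ y ∈ s, (X - C y) with hPd
  have h0 : P.coeff 0 = 0 := by
    rw [hPd, Polynomial.mul_coeff_zero, Polynomial.coeff_X_zero, zero_mul]
  have hne : P.eval ω ≠ 0 := by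
    rw [hPd, Polynomial.eval_mul, Polynomial.eval_X, Polynomial.eval_prod]
    refine mul_ne_zero hω (Finset.prod_ne_zero_iff.mpr fun y hy => ?_)
    rw [Polynomial.eval_sub, Polynomial.eval_X, Polynomial.eval_C]
    have : y ≠ ω := (Finset.mem_erase.mp hy).1
    exact sub_ne_zero.mpr (Ne.symm this)
  have hz : ∀ i, x i ≠ ω → P.eval (x i) = 0 := by
    intro i hi
    rw [hPd, Polynomial.eval_mul, Polynomial.eval_prod]
    have hm : x i ∈ s := Finset.mem_erase.mpr ⟨hi, Finset.mem_image_of_mem x (Finset.mem_univ i)⟩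
    rw [Finset.prod_eq_zero hm (by simp), mul_zero]
  have h2 := hP P h0
  have h3 : ∀ i, w i * P.eval (x i) = (if x i = ω then w i else 0) * P.eval ω := by
    intro i
    by_cases hi : x i = ω
    · rw [if_pos hi, hi]
    · rw [if_neg hi, hz i hi, mul_zero, zero_mul]
  rw [Finset.sum_congr rfl fun i _ => h3 i, ← Finset.sum_mul] at h2
  have h4 := (mul_eq_zero.mp h2).resolve_right hne
  convert h4 using 2

end Pool.Agent.SelRel
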