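import Pool.Agent.SelRel.MinS
import Pool.Agent.SelRel.SLF
import Pool.Agent.SelRel.FNO
import Pool.Agent.SelRel.HFE
import Pool.Agent.SelRel.SEP
import Pool.Agent.SelRel.CYC
import Pool.Agent.SelRel.ENT
import Pool.Agent.SelRel.QQ
import Pool.Agent.SelRel.ALP
import Pool.Agent.SelRel.VAN
import Pool.Agent.SelRel.MSB
import Pool.Agent.SelRel.Loc

/-! The final theorems, without hypotheses. -/

set_option autoImplicit false

namespace Pool.Agent.SelRel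

open Complex Filter Topology Set MeasureTheory Metric Pool.Agent.SelPole Pool.Agent.SelCR
open Pool.Agent.PrimesOnly
open scoped ComplexConjugate ArithmeticFunction.vonMangoldt

theorem slf : T_SLF := p_SLF p_FNO p_HFE

/-- bounded coefficients at the squares of primes -/
theorem poly_bound {F : ℂ → ℂ} {a b : ℕ → ℂ} (hF : IsSelberg F a b) {d : ℕ} (hP : PolyE b d)
    {p : ℕ} (hp : p.Prime) : ‖b (p ^ 2)‖ ≤ d := by
  obtain ⟨α, hα⟩ := hP p hp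
  have h1 := p_ALP hF hp hα
  have h2 := hα 2 (by norm_num)
  have h3 : ‖((2 : ℕ) : ℂ) * b (p ^ 2)‖ ≤ d := by
    rw [h2]
    refine (norm_sum_le _ _).trans ?_
    calc ∑ i, ‖α i ^ 2‖ ≤ ∑ i : Fin d, (1 : ℝ) := by
          refine Finset.sum_le_sum (fun i _ => ?_)
          rw [norm_pow]
          exact pow_le_one₀ (norm_nonneg _) (h1 i)
      _ = d := by simp
  rw [norm_mul, Complex.norm_natCast] at h3
  push_cast at h3
  linarith [norm_nonneg (b (p ^ 2))]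

/-- relation theorem -/
theorem final_rel {ι : Type} [Fintype ι] {F : ℂ → ℂ} {a b : ℕ → ℂ}
    (hF : IsSelberg F a b) {L : ι → ℂ → ℂ} {aL bL : ι → ℕ → ℂ}
    (hL : ∀ j, IsSelberg (L j) (aL j) (bL j)) {c : ι → ℂ}
    (h1 : MinSmall (fun p => a p - ∑ j, c j * aL j p))
    (h2 : MeanSq (fun p => b (p ^ 2) - ∑ j, c j * bL j (p ^ 2)) ∨
      ((∃ d, PolyE b d) ∧ ∀ j, ∃ d, PolyE (bL j) d)) :
    (∀ n, b n = ∑ j, c j * bL j n) ∧
    (∀ z, ((meromorphicOrderAt F z).untop₀ : ℂ) =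
      ∑ j, c j * ((meromorphicOrderAt (L j) z).untop₀ : ℂ)) ∧
    (∃ (N : ℕ) (m : ι → ℤ), 0 < N ∧ (∀ n, (N : ℂ) * b n = ∑ j, (m j : ℂ) * bL j n) ∧
      ∀ s, s ≠ 1 → F s ^ N * ∏ j, L j s ^ (-m j).toNat = ∏ j, L j s ^ (m j).toNat) ∧
    (∀ p : ℕ, p.Prime → ∀ (d : ℕ) (α : Fin d → ℂ),
      (∀ n : ℕ, 1 ≤ n → (n : ℂ) * b (p ^ n) = ∑ i, α i ^ n) →
      ∀ (e : ι → ℕ) (β : ∀ j, Fin (e j) → ℂ),
      (∀ j, ∀ n : ℕ, 1 ≤ n → (n : ℂ) * bL j (p ^ n) = ∑ i, β j i ^ n) →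
      ∀ ω : ℂ, ω ≠ 0 →
        (Nat.card {i // α i = ω} : ℂ) = ∑ j, c j * (Nat.card {i // β j i = ω} : ℂ)) ∧
    ((∀ j, (∃ x : ℝ, 0 ≤ x ∧ c j = x ∧ Q1For (L j)) ∨ ∀ s, s ≠ 1 → L j s = riemannZeta s) →
      Q1For F) := by
  have h2' : MSB (fun p => b (p ^ 2) - ∑ j, c j * bL j (p ^ 2)) := by
    rcases h2 with h2 | ⟨⟨d, hd⟩, hdL⟩
    · exact h2
    · choose e he using hdL
      apply msb_of
      refine p_MSB (δ := fun p => b (p ^ 2) - ∑ j, c j * bL j (p ^ 2))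
        (B := (d : ℝ) + ∑ j, ‖c j‖ * e j) (fun p hp => ?_)
      refine (norm_sub_le _ _).trans (add_le_add (poly_bound hF hd hp) ?_)
      refine (norm_sum_le _ _).trans (Finset.sum_le_sum (fun j _ => ?_))
      rw [norm_mul]
      exact mul_le_mul_of_nonneg_left (poly_bound (hL j) (he j) hp) (norm_nonneg _)
  have h := one_rel hF hL (small_min h1 (bound_fam hF hL c)) h2'
  exact ⟨h, fun z => ord_rel hF hL h z, int_rel p_QQ hF hL h,
    fun p _ d α hα e β hβ ω hω => loc_rel p_VAN h hα hβ hω,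
    fun hc => q1_closure p_ENT hF hL h hc⟩

/-- Dirichlet L-functions -/
theorem final_dir {F : ℂ → ℂ} {a b : ℕ → ℂ}
    (hF : IsSelberg F a b) {d : ℕ} (hP : PolyE b d) {q : ℕ} [NeZero q]
    (X : Finset (DirichletCharacter ℂ q × ℝ)) (hX : ∀ x ∈ X, x.1 = 1 → x.2 = 0)
    (c : DirichletCharacter ℂ q × ℝ → ℂ)
    (hrel : MinSmall (fun p => open Classical in if p ∣ q then 0 else
      a p - ∑ x ∈ X, c x * (x.1 (p : ZMod q) * (p : ℂ) ^ (-((x.2 : ℂ) * I))))) :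
    (∃ (N : ℕ) (m : DirichletCharacter ℂ q × ℝ → ℤ), 0 < N ∧ ∀ s, s ≠ 1 →
      F s ^ N * ∏ x ∈ X, LF x s ^ (-m x).toNat = ∏ x ∈ X, LF x s ^ (m x).toNat) ∧
    ∀ u : (ZMod q)ˣ, (∀ x ∈ X, ∀ y ∈ X, x.2 = y.2 → x.1 u = y.1 u → x = y) →
      ∃ m : DirichletCharacter ℂ q × ℝ → ℕ, (∀ x ∈ X, c x = m x) ∧
      (∀ s, s ≠ 1 → F s = ∏ x ∈ X, LF x s ^ m x) ∧ Q1For F := by
  have hb : ∀ p : ℕ, p.Prime → ‖∑ x ∈ X, c x * (x.1 (p : ZMod q) *
      (p : ℂ) ^ (-((x.2 : ℂ) * I)))‖ ≤ ∑ x ∈ X, ‖c x‖ := by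
    intro p hp
    refine (norm_sum_le _ _).trans (Finset.sum_le_sum (fun x _ => ?_))
    rw [norm_mul, norm_mul]
    have h1 : ‖(p : ℂ) ^ (-((x.2 : ℂ) * I))‖ = 1 := by
      rw [Complex.norm_natCast_cpow_of_pos hp.pos]
      simp
    rw [h1, mul_one]
    exact mul_le_of_le_one_right (norm_nonneg _) (DirichletCharacter.norm_le_one _ _)
  have hrel' := small_min hrel (fun ε hε => bound_bdd hF (f := fun p =>
    ∑ x ∈ X, c x * (x.1 (p : ZMod q) * (p : ℂ) ^ (-((x.2 : ℂ) * I)))) hb q ε hε)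
  exact ⟨dir_gen slf p_MSB p_ALP p_QQ hF hP X hX c hrel',
    fun u hu => dir_sep slf p_MSB p_ALP p_VAN p_SEP p_ENT hF hP X hX c hrel' u hu⟩

/-- residue classes -/
theorem final_cyc {F : ℂ → ℂ} {a b : ℕ → ℂ}
    (hF : IsSelberg F a b) {d : ℕ} (hP : PolyE b d) {q : ℕ} [NeZero q] (hq : IsCyclic (ZMod q)ˣ)
    (f : ZMod q → ℂ)
    (hrel : MinSmall (fun p => open Classical in if p ∣ q then 0 else a p - f (p : ZMod q))) :
    (∃ m : DirichletCharacter ℂ q → ℕ, ∀ s, s ≠ 1 →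
      F s = ∏ᶠ χ : DirichletCharacter ℂ q, DirichletCharacter.LFunction χ.primitiveCharacter s ^ m χ) ∧
      Q1For F := by
  haveI : Fintype (ZMod q) := ZMod.fintype q
  have hb : ∀ p : ℕ, p.Prime → ‖f (p : ZMod q)‖ ≤ ∑ x : ZMod q, ‖f x‖ := fun p _ =>
    Finset.single_le_sum (f := fun x => ‖f x‖) (fun x _ => norm_nonneg _) (Finset.mem_univ _)
  have hrel' := small_min hrel (fun ε hε => bound_bdd hF (f := fun p => f (p : ZMod q)) hb q ε hε)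
  exact dir_cyc slf p_MSB p_ALP p_VAN p_SEP p_ENT p_CYC hF hP hq f hrel'

end Pool.Agent.SelRel
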