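import Pool.Agent.SelRel.Fin

/-! The smallness condition in the form used in the statement. -/

set_option autoImplicit false

namespace Pool.Agent.SelRel

open Complex Filter Topology Set MeasureTheory Metric Pool.Agent.SelPole Pool.Agent.SelCR

/-- `∑_p min(1, |δ(p)|) p^(-σ) < ∞` for some `σ < 1/2` -/
def MinSmall (δ : ℕ → ℂ) : Prop := ∃ σ : ℝ, σ < 1 / 2 ∧
  Summable (fun p : Nat.Primes => min 1 ‖δ p‖ * ((p : ℕ) : ℝ) ^ (-σ))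

theorem small_min {δ : ℕ → ℂ} (h : MinSmall δ)
    (hδ : ∀ ε : ℝ, 0 < ε → ∃ C : ℝ, ∀ p : ℕ, p.Prime → ‖δ p‖ ≤ C * (p : ℝ) ^ ε) : Small δ := by
  obtain ⟨σ, hσ, hs⟩ := h
  set ε : ℝ := (1 / 2 - σ) / 2 with hε
  have hε0 : 0 < ε := by rw [hε]; linarith
  obtain ⟨C, hC⟩ := hδ ε hε0
  refine ⟨σ + ε, by rw [hε]; linarith, ?_⟩
  refine Summable.of_nonneg_of_le (fun p => by positivity) (fun p => ?_) (hs.mul_left (max C 1))
  have hp0 : (0 : ℝ) < (p : ℕ) := by exact_mod_cast p.2.pos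
  have hp1 : (1 : ℝ) ≤ (p : ℕ) := by exact_mod_cast p.2.one_lt.le
  have h1 : ‖δ p‖ ≤ max C 1 * ((p : ℕ) : ℝ) ^ ε * min 1 ‖δ p‖ := by
    have hpe : (1 : ℝ) ≤ ((p : ℕ) : ℝ) ^ ε := Real.one_le_rpow hp1 hε0.le
    rcases le_total 1 ‖δ p‖ with h2 | h2
    · rw [min_eq_left h2, mul_one]
      refine (hC p p.2).trans ?_
      exact mul_le_mul_of_nonneg_right (le_max_left _ _) (by positivity)
    · rw [min_eq_right h2]
      have h3 : 1 ≤ max C 1 * ((p : ℕ) : ℝ) ^ ε := by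
        have : 1 ≤ max C 1 := le_max_right _ _
        nlinarith
      exact le_mul_of_one_le_left (norm_nonneg _) h3
  calc ‖δ p‖ * ((p : ℕ) : ℝ) ^ (-(σ + ε)) ≤
      (max C 1 * ((p : ℕ) : ℝ) ^ ε * min 1 ‖δ p‖) * ((p : ℕ) : ℝ) ^ (-(σ + ε)) :=
        mul_le_mul_of_nonneg_right h1 (by positivity)
    _ = max C 1 * (min 1 ‖δ p‖ * (((p : ℕ) : ℝ) ^ ε * ((p : ℕ) : ℝ) ^ (-(σ + ε)))) := by ring
    _ = _ := by
        rw [← Real.rpow_add hp0]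
        congr 3
        ring

theorem bound_sel {F : ℂ → ℂ} {a b : ℕ → ℂ} (hF : IsSelberg F a b) (ε : ℝ) (hε : 0 < ε) :
    ∃ C : ℝ, ∀ p : ℕ, p.Prime → ‖a p‖ ≤ C * (p : ℝ) ^ ε := by
  obtain ⟨C, hC⟩ := hF.ramanujan ε hε
  exact ⟨C, fun p hp => hC p hp.one_lt.le⟩

theorem bound_fam {ι : Type} [Fintype ι] {F : ℂ → ℂ} {a b : ℕ → ℂ}
    (hF : IsSelberg F a b) {L : ι → ℂ → ℂ} {aL bL : ι → ℕ → ℂ}
    (hL : ∀ j, IsSelberg (L j) (aL j) (bL j)) (c : ι → ℂ) (ε : ℝ) (hε : 0 < ε) :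
    ∃ C : ℝ, ∀ p : ℕ, p.Prime → ‖a p - ∑ j, c j * aL j p‖ ≤ C * (p : ℝ) ^ ε := by
  obtain ⟨C, hC⟩ := bound_sel hF ε hε
  choose D hD using fun j => bound_sel (hL j) ε hε
  refine ⟨C + ∑ j, ‖c j‖ * D j, fun p hp => ?_⟩
  rw [add_mul, Finset.sum_mul]
  refine (norm_sub_le _ _).trans (add_le_add (hC p hp) ?_)
  refine (norm_sum_le _ _).trans (Finset.sum_le_sum (fun j _ => ?_))
  rw [norm_mul, mul_assoc]
  exact mul_le_mul_of_nonneg_left (hD j p hp) (norm_nonneg _)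

theorem bound_bdd {F : ℂ → ℂ} {a b : ℕ → ℂ} (hF : IsSelberg F a b) {f : ℕ → ℂ} {B : ℝ}
    (hf : ∀ p : ℕ, p.Prime → ‖f p‖ ≤ B) (q : ℕ) (ε : ℝ) (hε : 0 < ε) :
    ∃ C : ℝ, ∀ p : ℕ, p.Prime → ‖(open Classical in if p ∣ q then 0 else a p - f p)‖ ≤
      C * (p : ℝ) ^ ε := by
  obtain ⟨C, hC⟩ := bound_sel hF ε hε
  refine ⟨|C| + |B|, fun p hp => ?_⟩
  have hp1 : (1 : ℝ) ≤ p := by exact_mod_cast hp.one_lt.le
  have hpe : (1 : ℝ) ≤ (p : ℝ) ^ ε := Real.one_le_rpow hp1 hε.le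
  split_ifs
  · rw [norm_zero]
    positivity
  · rw [add_mul]
    refine (norm_sub_le _ _).trans (add_le_add ?_ ?_)
    · exact (hC p hp).trans (mul_le_mul_of_nonneg_right (le_abs_self _) (by positivity))
    · exact ((hf p hp).trans (le_abs_self _)).trans (le_mul_of_one_le_right (abs_nonneg _) hpe)

end Pool.Agent.SelRel
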