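import Pool.Agent.SelRel.Targets
import Pool.Agent.Lib.ZetaCrude

/-! Relations at primes in the Selberg class: block PZE (polynomial growth of `ζ`). -/

set_option autoImplicit false

namespace Pool.Agent.SelRel

open Complex Filter Topology Pool.Agent.Lib.ZetaCrude

/-- crude bound in the half plane `Re s ≥ 1/8` -/
theorem norm_zeta_eighth : ∃ C : ℝ, 1 ≤ C ∧ ∀ s : ℂ, 1 / 8 ≤ s.re → 1 ≤ ‖s - 1‖ →
    ‖riemannZeta s‖ ≤ C * (1 + ‖s‖) := by
  set S := ∑' n : ℕ, (n + 1 : ℝ) ^ (-(1 / 8 : ℝ) - 1) with hS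
  have hsumm := summable_rpow_aux (σ := 1 / 8) (by norm_num)
  have hS0 : 0 ≤ S := tsum_nonneg fun n => by positivity
  refine ⟨1 + S, by linarith, ?_⟩
  intro s hs hs1
  have hsne : s ≠ 1 := by
    rintro rfl
    simp at hs1
    linarith
  have hre : 0 < s.re := by linarith
  have hbound : ∀ n : ℕ, ‖g n s‖ ≤ ‖s - 1‖ * ‖s‖ * (n + 1 : ℝ) ^ (-(1 / 8 : ℝ) - 1) := by
    intro n
    refine (norm_g_le n s hre.le).trans ?_
    apply mul_le_mul_of_nonneg_left _ (by positivity)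
    apply Real.rpow_le_rpow_of_exponent_le
    · have : (0 : ℝ) ≤ n := Nat.cast_nonneg n
      linarith
    · linarith
  have hts : ‖∑' n, g n s‖ ≤ ‖s - 1‖ * ‖s‖ * S := by
    rw [hS, ← tsum_mul_left]
    exact tsum_of_norm_bounded (hsumm.mul_left _).hasSum hbound
  have hG : ‖G s‖ ≤ 1 + ‖s - 1‖ * ‖s‖ * S := by
    unfold G
    refine (norm_add_le _ _).trans ?_
    simpa using hts
  rw [riemannZeta_eq_inv_sub_mul hsne, ← G_eq hre, norm_mul, norm_inv]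
  have h1 : ‖s - 1‖⁻¹ * ‖G s‖ ≤ ‖s - 1‖⁻¹ * (1 + ‖s - 1‖ * ‖s‖ * S) := by
    gcongr
  refine h1.trans ?_
  have h2 : ‖s - 1‖⁻¹ ≤ 1 := inv_le_one_of_one_le₀ hs1
  have h3 : ‖s - 1‖⁻¹ * (1 + ‖s - 1‖ * ‖s‖ * S) = ‖s - 1‖⁻¹ + ‖s‖ * S := by
    have : ‖s - 1‖ ≠ 0 := by positivity
    field_simp
  rw [h3]
  have h4 : 0 ≤ ‖s‖ := norm_nonneg s
  nlinarith

theorem p_PZE : T_PZE := by
  obtain ⟨C, hC, h⟩ := norm_zeta_eighth
  refine ⟨1, C * 6, by norm_num, by positivity, ?_⟩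
  intro s h1 h2 h3
  have h4 : 1 ≤ ‖s - 1‖ := by
    refine h3.trans ?_
    have := Complex.abs_im_le_norm (s - 1)
    simp only [sub_im, one_im, sub_zero] at this
    exact (le_abs_self _).trans this
  have h5 : ‖s‖ ≤ 5 * s.im := by
    have h6 := Complex.norm_le_abs_re_add_abs_im s
    rw [abs_of_pos (by linarith : 0 < s.re), abs_of_pos (by linarith : 0 < s.im)] at h6
    linarith
  refine (h s h1 h4).trans ?_
  rw [Real.rpow_one, mul_assoc]
  refine mul_le_mul_of_nonneg_left ?_ (by linarith)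
  linarith

end Pool.Agent.SelRel
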