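import Pool.Agent.SelRel.All
import Pool.Agent.SelRel.Defs2

/-! Rational relations and consequences for Q1. -/

set_option autoImplicit false

namespace Pool.Agent.SelRel

open Complex Filter Topology Set MeasureTheory Metric Pool.Agent.SelPole Pool.Agent.SelCR
open Pool.Agent.PrimesOnly
open scoped ComplexConjugate ArithmeticFunction.vonMangoldt

/-- products of powers -/
theorem prod_pow_EulerFE {ι : Type} (S : Finset ι) {F : ι → ℂ → ℂ} {c : ι → ℕ → ℂ}
    (hF : ∀ j, EulerFE (F j) (c j)) (m : ι → ℕ) :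
    EulerFE (fun s => ∏ j ∈ S, F j s ^ m j) (fun n => ∑ j ∈ S, (m j : ℂ) * c j n) := by
  classical
  induction S using Finset.induction_on with
  | empty =>
    have h1 : (fun s : ℂ => ∏ j ∈ (∅ : Finset ι), F j s ^ m j) = fun _ => (1 : ℂ) := by
      funext s; simp
    have h2 : (fun n : ℕ => ∑ j ∈ (∅ : Finset ι), (m j : ℂ) * c j n) = 0 := by
      funext n; simp
    rw [h1, h2]
    exact eulerFE_const_one
  | insert j S hj ih =>
    have h1 : (fun s : ℂ => ∏ i ∈ insert j S, F i s ^ m i) =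
        fun s => F j s ^ m j * ∏ i ∈ S, F i s ^ m i := by
      funext s; rw [Finset.prod_insert hj]
    have h2 : (fun n : ℕ => ∑ i ∈ insert j S, (m i : ℂ) * c i n) =
        (fun n => (m j : ℂ) * c j n) + fun n => ∑ i ∈ S, (m i : ℂ) * c i n := by
      funext n; rw [Finset.sum_insert hj]; rfl
    rw [h1, h2]
    exact ((hF j).pow (m j)).mul ih

theorem prod_pow_tendsto {ι : Type} (S : Finset ι) {F : ι → ℂ → ℂ}
    (hF : ∀ j, Tendsto (fun x : ℝ => F j x) atTop (𝓝 1)) (m : ι → ℕ) :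
    Tendsto (fun x : ℝ => ∏ j ∈ S, F j x ^ m j) atTop (𝓝 1) := by
  have h1 : Tendsto (fun x : ℝ => ∏ j ∈ S, F j x ^ m j) atTop (𝓝 (∏ j ∈ S, (1 : ℂ) ^ m j)) :=
    tendsto_finsetProd _ (fun j _ => (hF j).pow (m j))
  simpa using h1

/-- a common denominator -/
theorem common_den {ι : Type} [Fintype ι] (q : ι → ℚ) :
    ∃ (N : ℕ) (m : ι → ℤ), 0 < N ∧ ∀ j, (m j : ℚ) = N * q j := by
  classical
  refine ⟨∏ j, (q j).den, fun j => (q j).num * ∏ i ∈ Finset.univ.erase j, ((q i).den : ℤ), ?_, ?_⟩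
  · exact Finset.prod_pos (fun j _ => (q j).den_pos)
  · intro j
    have h1 : ((∏ i, (q i).den : ℕ) : ℚ) = (q j).den * ∏ i ∈ Finset.univ.erase j, ((q i).den : ℚ) := by
      push_cast
      exact (Finset.mul_prod_erase Finset.univ (fun i => ((q i).den : ℚ)) (Finset.mem_univ j)).symm
    rw [h1]
    push_cast
    have h2 : (q j).num = (q j).den * q j := by
      rw [mul_comm]
      exact (Rat.mul_den_eq_num (q j)).symm
    rw [h2]
    ring

/-- relation between orders at every point -/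
theorem ord_rel {ι : Type} [Fintype ι] {F : ℂ → ℂ} {a b : ℕ → ℂ} (hF : IsSelberg F a b)
    {L : ι → ℂ → ℂ} {aL bL : ι → ℕ → ℂ} (hL : ∀ j, IsSelberg (L j) (aL j) (bL j)) {c : ι → ℂ}
    (h : ∀ n, b n = ∑ j, c j * bL j n) (z : ℂ) : (od F z : ℂ) = ∑ j, c j * (od (L j) z : ℂ) := by
  set G : Option ι → ℂ → ℂ := fun o => o.elim F L with hG
  set cc : Option ι → ℕ → ℂ := fun o => o.elim (ldc b) (fun j => ldc (bL j)) with hcc
  set g : Option ι → ℂ := fun o => o.elim 1 (fun j => -c j) with hg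
  have hE : ∀ o, EulerFE (G o) (cc o) := by
    intro o
    cases o with
    | none => exact hF.isEulerProduct.toEulerFE
    | some j => exact (hL j).isEulerProduct.toEulerFE
  have h1 := p_GLO hE (g := g) (fun n _ => by
    simp only [cco, Fintype.sum_option]
    simp only [hcc, hg, Option.elim, ldc, h n]
    rw [one_mul, Finset.mul_sum, ← Finset.sum_add_distrib]
    refine Finset.sum_eq_zero (fun j _ => ?_)
    ring) z
  simp only [cord, Fintype.sum_option] at h1
  simp only [hG, hg, Option.elim, one_mul, neg_mul, Finset.sum_neg_distrib] at h1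
  linear_combination h1

/-- rational coefficients -/
theorem rat_rel (hQQ : T_QQ) {ι : Type} [Fintype ι] {F : ℂ → ℂ} {a b : ℕ → ℂ}
    (hF : IsSelberg F a b) {L : ι → ℂ → ℂ} {aL bL : ι → ℕ → ℂ}
    (hL : ∀ j, IsSelberg (L j) (aL j) (bL j)) {c : ι → ℂ}
    (h : ∀ n, b n = ∑ j, c j * bL j n) : ∃ q : ι → ℚ, ∀ n, b n = ∑ j, (q j : ℂ) * bL j n := by
  obtain ⟨φ, hφ⟩ := hQQ
  have hφn : ∀ (x : ℂ) (m : ℤ), φ (x * (m : ℂ)) = φ x * m := by
    intro x m
    have h1 : x * (m : ℂ) = (m : ℚ) • x := by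
      rw [Rat.smul_def]
      push_cast
      ring
    rw [h1, map_smul, smul_eq_mul]
    ring
  refine ⟨fun j => φ (c j), ?_⟩
  have hord : ∀ z, (od F z : ℚ) = ∑ j, φ (c j) * (od (L j) z : ℚ) := by
    intro z
    have h1 := congrArg φ (ord_rel hF hL h z)
    rw [map_sum] at h1
    simp only [hφn] at h1
    have h2 := hφn 1 (od F z)
    rw [one_mul, hφ, one_mul] at h2
    rw [h2] at h1
    exact h1
  set G : Option ι → ℂ → ℂ := fun o => o.elim F L with hG
  set cc : Option ι → ℕ → ℂ := fun o => o.elim (ldc b) (fun j => ldc (bL j)) with hcc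
  set g : Option ι → ℝ := fun o => o.elim 1 (fun j => -((φ (c j) : ℚ) : ℝ)) with hg
  have hE : ∀ o, EulerFE (G o) (cc o) := by
    intro o
    cases o with
    | none => exact hF.isEulerProduct.toEulerFE
    | some j => exact (hL j).isEulerProduct.toEulerFE
  have hP : ∀ o, PGr (G o) := by
    intro o
    cases o with
    | none => exact p_PLG hF
    | some j => exact p_PLG (hL j)
  have hz : ∀ z, ∑ o, g o * (od (G o) z : ℝ) = 0 := by
    intro z
    rw [Fintype.sum_option]
    simp only [hG, hg, Option.elim, one_mul, neg_mul, Finset.sum_neg_distrib]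
    have h1 : ((od F z : ℚ) : ℝ) = ((∑ j, φ (c j) * (od (L j) z : ℚ) : ℚ) : ℝ) := by
      rw [hord z]
    push_cast at h1
    linarith
  have hmain := p_Z hE hP (g := g) (fun z _ _ => hz z) (by
    have : (fun t : ℝ => (if 0 < t then ∑ o, g o * (od (G o) (pt t) : ℝ) else 0) ^ 2) =
        fun _ => 0 := by
      funext t
      rw [hz]
      simp
    rw [this]
    exact summable_zero)
  intro n
  by_cases hn : 2 ≤ n
  · have h3 := hmain n hn
    rw [Fintype.sum_option] at h3
    simp only [hcc, hg, Option.elim, ldc] at h3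
    have h4 : (Real.log n : ℂ) ≠ 0 := by
      have : 0 < Real.log n := Real.log_pos (by exact_mod_cast (by omega : 1 < n))
      exact_mod_cast this.ne'
    have h5 : (Real.log n : ℂ) * (b n - ∑ j, (φ (c j) : ℂ) * bL j n) = 0 := by
      rw [mul_sub, Finset.mul_sum, ← h3]
      push_cast
      rw [one_mul, sub_eq_add_neg, ← Finset.sum_neg_distrib]
      congr 1
      exact Finset.sum_congr rfl (fun j _ => by ring)
    have h6 := (mul_eq_zero.1 h5).resolve_left h4
    exact sub_eq_zero.1 h6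
  · have h5 : ¬ IsPrimePow n := by
      intro h
      have := h.one_lt
      omega
    rw [hF.b_supp n h5]
    exact (Finset.sum_eq_zero (fun j _ => by rw [(hL j).b_supp n h5, mul_zero])).symm

theorem od_int {F : ℂ → ℂ} {c : ℕ → ℂ} (hF : EulerFE F c) (z : ℂ) :
    meromorphicOrderAt F z = ((od F z : ℤ) : WithTop ℤ) := by
  unfold od
  rw [WithTop.coe_untop₀_of_ne_top (hF.order_ne_top z)]

/-- the identity between the functions -/
theorem fun_rel {ι : Type} [Fintype ι] {F : ℂ → ℂ} {a b : ℕ → ℂ}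
    (hF : IsSelberg F a b) {L : ι → ℂ → ℂ} {aL bL : ι → ℕ → ℂ}
    (hL : ∀ j, IsSelberg (L j) (aL j) (bL j)) {N : ℕ} {m : ι → ℤ}
    (h : ∀ n, (N : ℂ) * b n = ∑ j, (m j : ℂ) * bL j n) (s : ℂ) (hs : s ≠ 1) :
    F s ^ N * ∏ j, L j s ^ (-m j).toNat = ∏ j, L j s ^ (m j).toNat := by
  have e1 := (hF.isEulerProduct.toEulerFE.pow N).mul
    (prod_pow_EulerFE Finset.univ (fun j => (hL j).isEulerProduct.toEulerFE) (fun j => (-m j).toNat))
  have e2 := prod_pow_EulerFE Finset.univ (fun j => (hL j).isEulerProduct.toEulerFE)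
    (fun j => (m j).toNat)
  have t0 : ∀ {G : ℂ → ℂ} {u v : ℕ → ℂ}, IsSelberg G u v → Tendsto (fun x : ℝ => G x) atTop (𝓝 1) :=
    fun hG => hG.isEulerProduct.tendsto_one
  refine eq_of_coeff e2 e1 (fun n _ => ?_) (prod_pow_tendsto _ (fun j => t0 (hL j)) _) ?_ s hs
  · simp only [Pi.add_apply, ldc]
    have h1 : (N : ℂ) * ((Real.log n : ℂ) * b n) = ∑ j, (m j : ℂ) * ((Real.log n : ℂ) * bL j n) := by
      calc (N : ℂ) * ((Real.log n : ℂ) * b n) = (Real.log n : ℂ) * ((N : ℂ) * b n) := by ring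
        _ = _ := by
          rw [h n, Finset.mul_sum]
          exact Finset.sum_congr rfl (fun j _ => by ring)
    rw [h1, ← Finset.sum_add_distrib]
    refine Finset.sum_congr rfl (fun j _ => ?_)
    have h2 : (m j : ℂ) = ((m j).toNat : ℂ) - ((-m j).toNat : ℂ) := by
      have : m j = ((m j).toNat : ℤ) - ((-m j).toNat : ℤ) := by omega
      calc (m j : ℂ) = ((((m j).toNat : ℤ) - ((-m j).toNat : ℤ) : ℤ) : ℂ) := by rw [← this]
        _ = _ := by push_cast; ring
    rw [h2]
    ring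
  · have h1 := ((t0 hF).pow N).mul (prod_pow_tendsto Finset.univ (fun j => t0 (hL j))
      (fun j => (-m j).toNat))
    simpa using h1

/-- `F` satisfies Q1 -/
def Q1For (F : ℂ → ℂ) : Prop := ∀ r : ℕ, 1 ≤ r →
  meromorphicOrderAt F 1 = ((-(r : ℤ) : ℤ) : WithTop ℤ) →
  ∃ L₁ : ℂ → ℂ, Differentiable ℂ L₁ ∧ ∀ s : ℂ, s ≠ 1 → F s = riemannZeta s ^ r * L₁ s

theorem od_congr {F G : ℂ → ℂ} (h : ∀ s, s ≠ 1 → F s = G s) (z : ℂ) : od F z = od G z := by
  unfold od
  congr 1
  refine meromorphicOrderAt_congr ?_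
  have h1 : ∀ᶠ s in 𝓝[≠] z, s ≠ 1 := by
    by_cases hz : z = 1
    · subst hz
      exact self_mem_nhdsWithin
    · exact mem_nhdsWithin_of_mem_nhds (isOpen_ne.mem_nhds hz)
  filter_upwards [h1] with s hs using h s hs

theorem od_nonneg {F : ℂ → ℂ} {c : ℕ → ℂ} (hF : EulerFE F c) {z : ℂ} (hz : z ≠ 1) : 0 ≤ od F z := by
  have h := order_nonneg hF hz
  rw [od_int hF z] at h
  exact_mod_cast h

theorem od_zeta_one : od riemannZeta 1 = -1 := by
  unfold od
  rw [order_zeta_one]
  rfl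

/-- the inequality behind Q1 -/
theorem q1_ineq {F : ℂ → ℂ} {c : ℕ → ℂ} (hF : EulerFE F c) (hQ : Q1For F) {z : ℂ} (hz : z ≠ 1) :
    -od F 1 * od riemannZeta z ≤ od F z := by
  have hζ := od_nonneg zeta_toEulerFE hz
  by_cases hr : 1 ≤ -od F 1
  · obtain ⟨r, hr'⟩ : ∃ r : ℕ, -od F 1 = r := ⟨(-od F 1).toNat, by omega⟩
    have hr1 : 1 ≤ r := by omega
    have ho : meromorphicOrderAt F 1 = ((-(r : ℤ) : ℤ) : WithTop ℤ) := by
      rw [od_int hF 1]
      congr 1
      omega
    obtain ⟨L₁, hL, hFL⟩ := hQ r hr1 ho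
    have h1 : od F z = od (fun s => riemannZeta s ^ r * L₁ s) z := od_congr hFL z
    have h2 := order_zetaL r hL z
    have h3 : (0 : WithTop ℤ) ≤ meromorphicOrderAt L₁ z := (hL.analyticAt z).meromorphicOrderAt_nonneg
    have h4 : meromorphicOrderAt F z = meromorphicOrderAt (fun s => riemannZeta s ^ r * L₁ s) z := by
      refine meromorphicOrderAt_congr ?_
      filter_upwards [mem_nhdsWithin_of_mem_nhds (isOpen_ne.mem_nhds hz)] with s hs using hFL s hs
    rw [h2, od_int hF z, od_int zeta_toEulerFE z] at h4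
    have h5 : meromorphicOrderAt L₁ z ≠ ⊤ := by
      intro h
      rw [h] at h4
      simp at h4
    obtain ⟨k, hk⟩ := WithTop.ne_top_iff_exists.1 h5
    rw [← hk] at h4 h3
    have h6 : (od F z : ℤ) = r * od riemannZeta z + k := by
      have e : ((r : ℕ) : WithTop ℤ) = (((r : ℤ)) : WithTop ℤ) := by simp
      rw [e, ← WithTop.coe_mul, ← WithTop.coe_add] at h4
      exact_mod_cast h4
    have h7 : 0 ≤ k := by exact_mod_cast h3
    rw [hr', h6]
    omega
  · have h1 := od_nonneg hF hz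
    have h2 : -od F 1 ≤ 0 := by omega
    nlinarith

/-- **Q1 is inherited** by functions related at primes to functions satisfying Q1. -/
theorem q1_closure (hENT : T_ENT) {ι : Type} [Fintype ι] {F : ℂ → ℂ} {a b : ℕ → ℂ}
    (hF : IsSelberg F a b) {L : ι → ℂ → ℂ} {aL bL : ι → ℕ → ℂ}
    (hL : ∀ j, IsSelberg (L j) (aL j) (bL j)) {c : ι → ℂ}
    (h : ∀ n, b n = ∑ j, c j * bL j n)
    (hc : ∀ j, (∃ x : ℝ, 0 ≤ x ∧ c j = x ∧ Q1For (L j)) ∨ ∀ s, s ≠ 1 → L j s = riemannZeta s) :
    Q1For F := by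
  intro r hr hpole
  have hFE := hF.isEulerProduct.toEulerFE
  have hLE : ∀ j, EulerFE (L j) (ldc (bL j)) := fun j => (hL j).isEulerProduct.toEulerFE
  have ho := ord_rel hF hL h
  have hre : ∀ z, (od F z : ℝ) = ∑ j, (c j).re * (od (L j) z : ℝ) := by
    intro z
    have h1 := congrArg Complex.re (ho z)
    rw [Complex.re_sum] at h1
    have h2 : ∀ j, (c j * (od (L j) z : ℂ)).re = (c j).re * (od (L j) z : ℝ) := by
      intro j
      have : (od (L j) z : ℂ) = ((od (L j) z : ℝ) : ℂ) := by push_cast; rfl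
      rw [this, Complex.re_mul_ofReal]
    simp only [h2] at h1
    simpa using h1
  have hod1 : od F 1 = -(r : ℤ) := by
    unfold od
    rw [hpole]
    rfl
  have hle : ∀ z : ℂ, z ≠ 1 → (r : ℤ) * od riemannZeta z ≤ od F z := by
    intro z hz
    have h1 : ∀ j, (c j).re * (-(od (L j) 1 : ℝ) * (od riemannZeta z : ℝ)) ≤
        (c j).re * (od (L j) z : ℝ) := by
      intro j
      rcases hc j with ⟨x, hx, hcx, hQ⟩ | hj
      · have h2 := q1_ineq (hLE j) hQ hz
        have h3 : (c j).re = x := by rw [hcx]; simp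
        rw [h3]
        refine mul_le_mul_of_nonneg_left ?_ hx
        exact_mod_cast h2
      · have h2 : od (L j) z = od riemannZeta z := od_congr hj z
        have h3 : od (L j) 1 = -1 := by rw [od_congr hj 1, od_zeta_one]
        rw [h2, h3]
        push_cast
        exact le_of_eq (by ring)
    have h4 : (r : ℝ) * (od riemannZeta z : ℝ) ≤ (od F z : ℝ) := by
      have h5 := Finset.sum_le_sum (fun j (_ : j ∈ Finset.univ) => h1 j)
      rw [← hre z] at h5
      have h6 : ∑ j, (c j).re * (-(od (L j) 1 : ℝ) * (od riemannZeta z : ℝ)) =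
          -(od F 1 : ℝ) * (od riemannZeta z : ℝ) := by
        rw [hre 1, ← Finset.sum_neg_distrib, Finset.sum_mul]
        exact Finset.sum_congr rfl (fun j _ => by ring)
      rw [h6, hod1] at h5
      push_cast at h5
      linarith
    exact_mod_cast h4
  have hG := (zeta_toEulerFE.pow r)
  obtain ⟨H, hH, hFH⟩ := hENT hFE hG (fun z => by
    have hp : meromorphicOrderAt (fun s => riemannZeta s ^ r) z =
        (((r : ℤ) * od riemannZeta z : ℤ) : WithTop ℤ) := by
      have e0 : (fun s => riemannZeta s ^ r) = riemannZeta ^ r := rfl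
      rw [e0, meromorphicOrderAt_pow (zeta_toEulerFE.meromorphicAt z), od_int zeta_toEulerFE z]
      have e : ((r : ℕ) : WithTop ℤ) = (((r : ℤ)) : WithTop ℤ) := by simp
      rw [e, ← WithTop.coe_mul]
    rw [hp, od_int hFE z]
    by_cases hz : z = 1
    · subst hz
      rw [hod1, od_zeta_one]
      exact_mod_cast (by omega : (r : ℤ) * (-1) ≤ -(r : ℤ))
    · exact_mod_cast hle z hz)
  exact ⟨H, hH, hFH⟩

end Pool.Agent.SelRel
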