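import Pool.Agent.SelRel.Z3
import Pool.Agent.PrimesOnly.REF

/-! The relation theorem for families with complex coefficients. -/

set_option autoImplicit false

namespace Pool.Agent.SelRel

open Complex Filter Topology Set MeasureTheory Metric Pool.Agent.SelPole Pool.Agent.SelCR
open Pool.Agent.PrimesOnly
open scoped ComplexConjugate

theorem od_reflect {F : ℂ → ℂ} {c : ℕ → ℂ} (h : Cls F c) {z : ℂ} (h0 : 0 < z.re) (h1 : z.re < 1) :
    od F z = od F (1 - conj z) := by
  unfold od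
  rw [p_REF h.ufe (fun z => h.eu.meromorphicAt z) z h0 h1]

theorem cord_re {ι : Type} [Fintype ι] (F : ι → ℂ → ℂ) (g : ι → ℂ) (z : ℂ) :
    (cord F g z).re = ∑ j, (g j).re * (od (F j) z : ℝ) := by
  simp only [cord, Complex.re_sum]
  refine Finset.sum_congr rfl (fun j _ => ?_)
  have : (od (F j) z : ℂ) = ((od (F j) z : ℝ) : ℂ) := by push_cast; rfl
  rw [this, Complex.re_mul_ofReal]

theorem cord_im {ι : Type} [Fintype ι] (F : ι → ℂ → ℂ) (g : ι → ℂ) (z : ℂ) :
    (cord F g z).im = ∑ j, (g j).im * (od (F j) z : ℝ) := by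
  simp only [cord, Complex.im_sum]
  refine Finset.sum_congr rfl (fun j _ => ?_)
  have : (od (F j) z : ℂ) = ((od (F j) z : ℝ) : ℂ) := by push_cast; rfl
  rw [this, Complex.im_mul_ofReal]

/-- from real to complex coefficients -/
theorem Z_complex (hZ : T_Z) {ι : Type} [Fintype ι] {F : ι → ℂ → ℂ} {c : ι → ℕ → ℂ} {g : ι → ℂ}
    (hF : ∀ j, EulerFE (F j) (c j)) (hG : ∀ j, PGr (F j))
    (hoff : ∀ z ∈ Qd, z.re ≠ 1 / 2 → cord F g z = 0)
    (hl2 : Summable (fun t : ℝ => ‖cord F g (pt t)‖ ^ 2)) (n : ℕ) (hn : 2 ≤ n) :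
    cco c g n = 0 := by
  have h1 := hZ (g := fun j => (g j).re) hF hG (fun z hz hz2 => by
    rw [← cord_re, hoff z hz hz2, Complex.zero_re]) (by
    refine Summable.of_nonneg_of_le (fun t => sq_nonneg _) (fun t => ?_) hl2
    split_ifs
    · rw [← cord_re, ← sq_abs]
      exact pow_le_pow_left₀ (abs_nonneg _) (Complex.abs_re_le_norm _) 2
    · have : (0 : ℝ) ^ 2 = 0 := by norm_num
      rw [this]
      positivity) n hn
  have h2 := hZ (g := fun j => (g j).im) hF hG (fun z hz hz2 => by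
    rw [← cord_im, hoff z hz hz2, Complex.zero_im]) (by
    refine Summable.of_nonneg_of_le (fun t => sq_nonneg _) (fun t => ?_) hl2
    split_ifs
    · rw [← cord_im, ← sq_abs]
      exact pow_le_pow_left₀ (abs_nonneg _) (Complex.abs_im_le_norm _) 2
    · have : (0 : ℝ) ^ 2 = 0 := by norm_num
      rw [this]
      positivity) n hn
  have h3 : cco c g n = (∑ j, ((g j).re : ℂ) * c j n) + I * ∑ j, ((g j).im : ℂ) * c j n := by
    simp only [cco]
    rw [Finset.mul_sum, ← Finset.sum_add_distrib]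
    refine Finset.sum_congr rfl (fun j _ => ?_)
    conv_lhs => rw [← Complex.re_add_im (g j)]
    ring
  rw [h3, h1, h2]
  simp

/-- **Relation theorem for families** -/
theorem rel_main (hZ : T_Z) (hFAM : T_FAM) (hL2 : T_L2) {ι : Type} [Fintype ι] {F : ι → ℂ → ℂ}
    {c : ι → ℕ → ℂ} {g : ι → ℂ} (hC : ∀ j, Cls (F j) (c j))
    (hab : LSeries.abscissaOfAbsConv (cco c g) ≤ ((1 / 2 : ℝ) : EReal))
    {d : ℕ → ℂ} {σ₀ K : ℝ} (hσ : σ₀ < 1 / 2)
    (hs : LSeriesSummable (fun n => cco c g n - (PrimesOnly.sq n : ℂ) * d n) σ₀)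
    (hd : ∀ h : ℝ, 0 < h → h ≤ 1 →
      Summable (fun n : ℕ => PrimesOnly.sq n * ‖d n‖ ^ 2 * (n : ℝ) ^ (-(1 / 2 + h))) ∧
      h * ∑' n : ℕ, PrimesOnly.sq n * ‖d n‖ ^ 2 * (n : ℝ) ^ (-(1 / 2 + h)) ≤ K)
    (n : ℕ) (hn : 2 ≤ n) : cco c g n = 0 := by
  have hF : ∀ j, EulerFE (F j) (c j) := fun j => (hC j).eu
  have h1 := (hFAM hF hab).2
  obtain ⟨B, hB⟩ := hL2 hF hab hσ hs hd
  refine Z_complex hZ hF (fun j => (hC j).gr) (fun z hz hz2 => ?_) ?_ n hn
  · rcases lt_or_gt_of_ne hz2 with h | h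
    · have h2 : cord F g z = cord F g (1 - conj z) := by
        simp only [cord]
        refine Finset.sum_congr rfl (fun j _ => ?_)
        rw [od_reflect (hC j) hz.1 (by linarith)]
      rw [h2]
      refine h1 _ ?_
      simp
      linarith
    · exact h1 z h
  · exact summable_of_sum_le (fun t => by positivity) hB

end Pool.Agent.SelRel
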