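import Pool.Agent.SelRel.Rel
import Pool.Agent.SelCR.PK3
import Pool.Agent.PrimesOnly.UPROD
import Pool.Agent.PrimesOnly.UNORM
import Pool.Agent.PrimesOnly.SQ

/-! The relation theorem for members of the Selberg class. -/

set_option autoImplicit false

namespace Pool.Agent.SelRel

open Complex Filter Topology Set MeasureTheory Metric Pool.Agent.SelPole Pool.Agent.SelCR
open Pool.Agent.PrimesOnly
open scoped ComplexConjugate ArithmeticFunction.vonMangoldt

/-- bounded in mean square over the primes -/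
def MSB (δ : ℕ → ℂ) : Prop := ∃ K : ℝ, ∀ h : ℝ, 0 < h → h ≤ 1 →
  Summable (fun p : Nat.Primes => ‖δ p‖ ^ 2 * Real.log p * ((p : ℕ) : ℝ) ^ (-(1 + h))) ∧
  h * ∑' p : Nat.Primes, ‖δ p‖ ^ 2 * Real.log p * ((p : ℕ) : ℝ) ^ (-(1 + h)) ≤ K

/-- summable over the primes on a line to the left of `Re s = 1/2` -/
def Small (δ : ℕ → ℂ) : Prop := ∃ σ₀ : ℝ, σ₀ < 1 / 2 ∧
  Summable (fun p : Nat.Primes => ‖δ p‖ * ((p : ℕ) : ℝ) ^ (-σ₀))

theorem sel_cls (hPLG : T_PLG) {F : ℂ → ℂ} {a b : ℕ → ℂ} (hF : IsSelberg F a b) :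
    Cls F (ldc b) :=
  ⟨hF.isEulerProduct.toEulerFE, hPLG hF, ((p_UPROD p_UNORM).1 hF.isEulerProduct).1⟩

theorem b_prime {F : ℂ → ℂ} {a b : ℕ → ℂ} (hF : IsSelberg F a b) {p : ℕ} (hp : p.Prime) :
    b p = a p := by
  have h := rec_pow hF hp 0
  simp only [zero_add, pow_one, Nat.cast_one, one_mul, Finset.range_one, Finset.sum_singleton,
    Nat.sub_self, pow_zero, hF.a_one] at h
  exact h.symm

theorem log_le_rpow {ε : ℝ} (hε : 0 < ε) {n : ℕ} (hn : 1 ≤ n) :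
    Real.log n ≤ (1 / ε) * (n : ℝ) ^ ε := by
  have hn0 : (0 : ℝ) < n := by exact_mod_cast hn
  have := Real.log_le_rpow_div hn0.le hε
  rw [one_div, inv_mul_eq_div]
  exact this

/-- sums over primes -/
theorem sum_primes {f : ℕ → ℝ} (hf : Summable (fun p : Nat.Primes => f p)) :
    Summable (fun n : ℕ => open Classical in if n.Prime then f n else 0) := by
  have hinj : Function.Injective (fun p : Nat.Primes => (p : ℕ)) := Subtype.val_injective
  refine (hinj.summable_iff ?_).1 ?_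
  · intro n hn
    rw [if_neg]
    intro h
    exact hn ⟨⟨n, h⟩, rfl⟩
  · refine hf.congr (fun p => ?_)
    simp only [Function.comp_apply]
    rw [if_pos p.2]

/-- sums over squares of primes -/
theorem sum_squares {f : ℕ → ℝ} (hf : Summable (fun p : Nat.Primes => f (p ^ 2))) :
    Summable (fun n : ℕ => open Classical in if ∃ p : ℕ, p.Prime ∧ n = p ^ 2 then f n else 0) := by
  have hinj : Function.Injective (fun p : Nat.Primes => (p : ℕ) ^ 2) := by
    intro p q h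
    apply Subtype.ext
    exact Nat.pow_left_injective (n := 2) (by norm_num) h
  refine (hinj.summable_iff ?_).1 ?_
  · intro n hn
    rw [if_neg]
    rintro ⟨p, hp, rfl⟩
    exact hn ⟨⟨p, hp⟩, rfl⟩
  · refine hf.congr (fun p => ?_)
    simp only [Function.comp_apply]
    rw [if_pos ⟨p, p.2, rfl⟩]

theorem tsum_squares (f : ℕ → ℝ) :
    ∑' n : ℕ, (open Classical in if ∃ p : ℕ, p.Prime ∧ n = p ^ 2 then f n else 0) =
      ∑' p : Nat.Primes, f (p ^ 2) := by
  have hinj : Function.Injective (fun p : Nat.Primes => (p : ℕ) ^ 2) := by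
    intro p q h
    apply Subtype.ext
    exact Nat.pow_left_injective (n := 2) (by norm_num) h
  rw [← hinj.tsum_eq]
  · refine tsum_congr (fun p => ?_)
    rw [if_pos ⟨p, p.2, rfl⟩]
  · intro n hn
    rw [Function.mem_support] at hn
    by_contra h
    apply hn
    rw [if_neg]
    rintro ⟨p, hp, rfl⟩
    exact h ⟨⟨p, hp⟩, rfl⟩

theorem sq_sq {p : ℕ} (hp : p.Prime) : PrimesOnly.sq (p ^ 2) = 2 * Real.log p := by
  unfold PrimesOnly.sq
  rw [if_pos ⟨p, by ring⟩]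
  have : Nat.sqrt (p ^ 2) = p := Nat.sqrt_eq' p
  rw [this, ArithmeticFunction.vonMangoldt_apply_prime hp]

/-- summability to the left of `1/2` -/
theorem summ_left {ι : Type} [Fintype ι] {F : ι → ℂ → ℂ} {a b : ι → ℕ → ℂ} {g : ι → ℂ}
    (hF : ∀ j, IsSelberg (F j) (a j) (b j))
    (h1 : Small (fun p => ∑ j, g j * a j p)) :
    ∃ σ₀ : ℝ, σ₀ < 1 / 2 ∧ Summable (fun n : ℕ => open Classical in
      if ∃ p : ℕ, p.Prime ∧ n = p ^ 2 then 0 else
        ‖cco (fun j => ldc (b j)) g n‖ * (n : ℝ) ^ (-σ₀)) := by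
  obtain ⟨σ₁, hσ₁, hs1⟩ := h1
  choose β hβ hβs using fun j => higher (hF j)
  -- a common abscissa
  obtain ⟨σ₀, hσ0, hσ1, hσβ⟩ : ∃ σ₀ : ℝ, σ₀ < 1 / 2 ∧ σ₁ < σ₀ ∧ ∀ j, β j < σ₀ := by
    have e1 : ∀ᶠ x : ℝ in 𝓝[<] (1 / 2), ∀ j, β j < x := by
      rw [eventually_all]
      intro j
      exact mem_nhdsWithin_of_mem_nhds (Ioi_mem_nhds (hβ j))
    have e2 : ∀ᶠ x : ℝ in 𝓝[<] (1 / 2), σ₁ < x :=
      mem_nhdsWithin_of_mem_nhds (Ioi_mem_nhds hσ₁)
    obtain ⟨x, ⟨h2, h3⟩, h4⟩ := ((e1.and e2).and self_mem_nhdsWithin).exists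
    exact ⟨x, h4, h3, h2⟩
  refine ⟨σ₀, hσ0, ?_⟩
  set ε : ℝ := σ₀ - σ₁ with hε
  have hε0 : 0 < ε := by rw [hε]; linarith
  have s1 : Summable (fun n : ℕ => open Classical in if n.Prime then
      (1 / ε) * (‖∑ j, g j * a j n‖ * (n : ℝ) ^ (-σ₁)) else 0) :=
    sum_primes (f := fun n => (1 / ε) * (‖∑ j, g j * a j n‖ * (n : ℝ) ^ (-σ₁)))
      (hs1.mul_left (1 / ε))
  have s2 : Summable (fun n : ℕ => ∑ j, ‖g j‖ * (open Classical in
      if P12 n then 0 else ‖b j n‖ * Real.log n * (n : ℝ) ^ (-σ₀))) :=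
    summable_sum (fun j _ => (hβs j σ₀ (hσβ j)).mul_left _)
  refine Summable.of_nonneg_of_le (fun n => ?_) (fun n => ?_) (s1.add s2)
  · split_ifs
    · exact le_rfl
    · positivity
  · have n1 : 0 ≤ (open Classical in if n.Prime then
      (1 / ε) * (‖∑ j, g j * a j n‖ * (n : ℝ) ^ (-σ₁)) else 0) := by
      split_ifs
      · positivity
      · exact le_rfl
    have n2 : 0 ≤ ∑ j, ‖g j‖ * (open Classical in
      if P12 n then 0 else ‖b j n‖ * Real.log n * (n : ℝ) ^ (-σ₀)) := by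
      refine Finset.sum_nonneg (fun j _ => mul_nonneg (norm_nonneg _) ?_)
      split_ifs
      · exact le_rfl
      · have := Real.log_natCast_nonneg n
        positivity
    by_cases hsq : ∃ p : ℕ, p.Prime ∧ n = p ^ 2
    · rw [if_pos hsq]
      exact add_nonneg n1 n2
    rw [if_neg hsq]
    by_cases hp : n.Prime
    · have hn1 : 1 ≤ n := hp.one_lt.le
      have hn0 : (0 : ℝ) < n := by exact_mod_cast hp.pos
      have e1 : ‖cco (fun j => ldc (b j)) g n‖ = Real.log n * ‖∑ j, g j * a j n‖ := by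
        have e2 : cco (fun j => ldc (b j)) g n = (Real.log n : ℂ) * ∑ j, g j * a j n := by
          simp only [cco, ldc]
          rw [Finset.mul_sum]
          refine Finset.sum_congr rfl (fun j _ => ?_)
          rw [b_prime (hF j) hp]
          ring
        rw [e2, norm_mul, Complex.norm_real, Real.norm_of_nonneg (Real.log_natCast_nonneg n)]
      rw [e1]
      have e3 : Real.log n * ‖∑ j, g j * a j n‖ * (n : ℝ) ^ (-σ₀) ≤
          (1 / ε) * (‖∑ j, g j * a j n‖ * (n : ℝ) ^ (-σ₁)) := by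
        have e4 := log_le_rpow hε0 hn1
        have e5 : (n : ℝ) ^ ε * (n : ℝ) ^ (-σ₀) = (n : ℝ) ^ (-σ₁) := by
          rw [← Real.rpow_add hn0]
          congr 1
          rw [hε]; ring
        calc Real.log n * ‖∑ j, g j * a j n‖ * (n : ℝ) ^ (-σ₀) ≤
            ((1 / ε) * (n : ℝ) ^ ε) * ‖∑ j, g j * a j n‖ * (n : ℝ) ^ (-σ₀) := by gcongr
          _ = (1 / ε) * (‖∑ j, g j * a j n‖ * ((n : ℝ) ^ ε * (n : ℝ) ^ (-σ₀))) := by ring
          _ = _ := by rw [e5]
      rw [if_pos hp]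
      linarith
    · have h12 : ¬ P12 n := fun h => h.elim hp hsq
      rw [if_neg hp]
      simp only [if_neg h12]
      rw [zero_add]
      calc ‖cco (fun j => ldc (b j)) g n‖ * (n : ℝ) ^ (-σ₀) ≤
          (∑ j, ‖g j‖ * (‖b j n‖ * Real.log n)) * (n : ℝ) ^ (-σ₀) := by
            refine mul_le_mul_of_nonneg_right ?_ (by positivity)
            refine (norm_sum_le _ _).trans (Finset.sum_le_sum (fun j _ => ?_))
            show ‖g j * ((Real.log n : ℂ) * b j n)‖ ≤ _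
            rw [norm_mul, norm_mul, Complex.norm_real,
              Real.norm_of_nonneg (Real.log_natCast_nonneg n), mul_comm (Real.log n)]
        _ = _ := by
            rw [Finset.sum_mul]
            exact Finset.sum_congr rfl (fun j _ => by ring)

/-- the squares of primes -/
theorem summ_sq {ι : Type} [Fintype ι] {F : ι → ℂ → ℂ} {a b : ι → ℕ → ℂ} {g : ι → ℂ}
    (hF : ∀ j, IsSelberg (F j) (a j) (b j)) {σ : ℝ} (hσ : 1 / 2 < σ) :
    Summable (fun n : ℕ => open Classical in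
      if ∃ p : ℕ, p.Prime ∧ n = p ^ 2 then
        ‖cco (fun j => ldc (b j)) g n‖ * (n : ℝ) ^ (-σ) else 0) := by
  set ε : ℝ := (2 * σ - 1) / 3 with hε
  have hε0 : 0 < ε := by rw [hε]; linarith
  choose C hC0 hC using fun j => b_small (hF j) 2 ε hε0
  have h1 : Summable (fun p : Nat.Primes => ((p : ℕ) : ℝ) ^ (-(1 + ε))) :=
    Nat.Primes.summable_rpow.2 (by linarith)
  refine sum_squares (f := fun n => ‖cco (fun j => ldc (b j)) g n‖ * (n : ℝ) ^ (-σ)) ?_
  refine Summable.of_nonneg_of_le (fun p => by positivity) (fun p => ?_)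
    (h1.mul_left ((∑ j, ‖g j‖ * C j) * (2 * (1 / ε))))
  have hp := p.2
  have hp0 : (0 : ℝ) < (p : ℕ) := by exact_mod_cast hp.pos
  have hlog : Real.log (((p : ℕ) ^ 2 : ℕ) : ℝ) ≤ 2 * ((1 / ε) * ((p : ℕ) : ℝ) ^ ε) := by
    push_cast
    rw [Real.log_pow]
    push_cast
    have := log_le_rpow hε0 hp.one_lt.le
    linarith
  have hlog0 : 0 ≤ Real.log (((p : ℕ) ^ 2 : ℕ) : ℝ) := Real.log_natCast_nonneg _
  have e1 : ‖cco (fun j => ldc (b j)) g ((p : ℕ) ^ 2)‖ ≤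
      (∑ j, ‖g j‖ * C j) * (2 * (1 / ε)) * (((p : ℕ) : ℝ) ^ ε * ((p : ℕ) : ℝ) ^ ε) := by
    calc ‖cco (fun j => ldc (b j)) g ((p : ℕ) ^ 2)‖ ≤
        ∑ j, ‖g j‖ * ((2 * ((1 / ε) * ((p : ℕ) : ℝ) ^ ε)) * (C j * ((p : ℕ) : ℝ) ^ ε)) := by
          refine (norm_sum_le _ _).trans (Finset.sum_le_sum (fun j _ => ?_))
          show ‖g j * ((Real.log (((p : ℕ) ^ 2 : ℕ) : ℝ) : ℂ) * b j ((p : ℕ) ^ 2))‖ ≤ _
          rw [norm_mul, norm_mul, Complex.norm_real, Real.norm_of_nonneg hlog0]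
          refine mul_le_mul_of_nonneg_left ?_ (norm_nonneg _)
          exact mul_le_mul hlog (hC j p hp) (norm_nonneg _) (by positivity)
      _ = _ := by
          rw [Finset.sum_mul, Finset.sum_mul]
          exact Finset.sum_congr rfl (fun j _ => by ring)
  have e2 : (((p : ℕ) ^ 2 : ℕ) : ℝ) ^ (-σ) = ((p : ℕ) : ℝ) ^ (-(2 * σ)) := by
    push_cast
    rw [← Real.rpow_natCast, ← Real.rpow_mul hp0.le]
    congr 1
    push_cast
    ring
  rw [e2]
  calc ‖cco (fun j => ldc (b j)) g ((p : ℕ) ^ 2)‖ * ((p : ℕ) : ℝ) ^ (-(2 * σ)) ≤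
      (∑ j, ‖g j‖ * C j) * (2 * (1 / ε)) * (((p : ℕ) : ℝ) ^ ε * ((p : ℕ) : ℝ) ^ ε) *
        ((p : ℕ) : ℝ) ^ (-(2 * σ)) := mul_le_mul_of_nonneg_right e1 (by positivity)
    _ = (∑ j, ‖g j‖ * C j) * (2 * (1 / ε)) * (((p : ℕ) : ℝ) ^ ε * ((p : ℕ) : ℝ) ^ ε *
        ((p : ℕ) : ℝ) ^ (-(2 * σ))) := by ring
    _ = _ := by
        rw [← Real.rpow_add hp0, ← Real.rpow_add hp0]
        congr 2
        rw [hε]
        ring

end Pool.Agent.SelRel
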