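import Pool.Agent.SelRel.Sel

/-! The relation theorem for members of the Selberg class, second part. -/

set_option autoImplicit false

namespace Pool.Agent.SelRel

open Complex Filter Topology Set MeasureTheory Metric Pool.Agent.SelPole Pool.Agent.SelCR
open Pool.Agent.PrimesOnly
open scoped ComplexConjugate ArithmeticFunction.vonMangoldt

theorem LSS_of {f : ℕ → ℂ} {σ : ℝ} {u : ℕ → ℝ} (hu : Summable u)
    (h : ∀ n : ℕ, n ≠ 0 → ‖f n‖ * (n : ℝ) ^ (-σ) ≤ u n) : LSeriesSummable f σ := by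
  have hu' : Summable (fun n => |u n|) := hu.abs
  refine Summable.of_norm_bounded hu' (fun n => ?_)
  by_cases hn : n = 0
  · simp [hn]
  · have hn0 : (0 : ℝ) < n := by exact_mod_cast Nat.pos_of_ne_zero hn
    rw [LSeries.norm_term_eq, if_neg hn, Complex.ofReal_re, div_eq_mul_inv, ← Real.rpow_neg hn0.le]
    exact (h n hn).trans (le_abs_self _)

theorem sel_rel (hZ : T_Z) (hFAM : T_FAM) (hL2 : T_L2) (hPLG : T_PLG) {ι : Type} [Fintype ι]
    {F : ι → ℂ → ℂ} {a b : ι → ℕ → ℂ} {g : ι → ℂ} (hF : ∀ j, IsSelberg (F j) (a j) (b j))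
    (h1 : Small (fun p => ∑ j, g j * a j p)) (h2 : MSB (fun p => ∑ j, g j * b j (p ^ 2)))
    (n : ℕ) : ∑ j, g j * b j n = 0 := by
  classical
  set c : ι → ℕ → ℂ := fun j => ldc (b j) with hc
  set d : ℕ → ℂ := fun n => if ∃ p : ℕ, p.Prime ∧ n = p ^ 2 then ∑ j, g j * b j n else 0 with hd
  have hcco : ∀ n, cco c g n = (Real.log n : ℂ) * ∑ j, g j * b j n := by
    intro n
    simp only [cco, hc, ldc]
    rw [Finset.mul_sum]
    exact Finset.sum_congr rfl (fun j _ => by ring)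
  obtain ⟨σ₀, hσ₀, hs0⟩ := summ_left hF h1
  have hs0' : Summable (fun n : ℕ => if ∃ p : ℕ, p.Prime ∧ n = p ^ 2 then 0 else
        ‖cco c g n‖ * (n : ℝ) ^ (-σ₀)) := by
    refine hs0.congr (fun n => ?_)
    congr 1
  -- the remainder
  have hsum : LSeriesSummable (fun n => cco c g n - (PrimesOnly.sq n : ℂ) * d n) σ₀ := by
    refine LSS_of hs0' (fun n hn => ?_)
    by_cases hsq : ∃ p : ℕ, p.Prime ∧ n = p ^ 2
    · rw [if_pos hsq]
      obtain ⟨p, hp, rfl⟩ := hsq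
      have e1 : cco c g (p ^ 2) - (PrimesOnly.sq (p ^ 2) : ℂ) * d (p ^ 2) = 0 := by
        rw [hcco, sq_sq hp]
        simp only [hd]
        rw [if_pos ⟨p, hp, rfl⟩]
        push_cast
        rw [Real.log_pow]
        push_cast
        ring
      rw [e1]
      simp
    · rw [if_neg hsq]
      simp only [hd]
      rw [if_neg hsq, mul_zero, sub_zero]
  -- the abscissa
  have hab : LSeries.abscissaOfAbsConv (cco c g) ≤ ((1 / 2 : ℝ) : EReal) := by
    refine LSeries.abscissaOfAbsConv_le_of_forall_lt_LSeriesSummable (fun y hy => ?_)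
    have hs1 := summ_sq (g := g) hF hy
    refine LSS_of (hs0'.add hs1) (fun n hn => ?_)
    have hn1 : (1 : ℝ) ≤ n := by exact_mod_cast Nat.one_le_iff_ne_zero.2 hn
    by_cases hsq : ∃ p : ℕ, p.Prime ∧ n = p ^ 2
    · rw [if_pos hsq, if_pos hsq, zero_add]
    · rw [if_neg hsq, if_neg hsq, add_zero]
      refine mul_le_mul_of_nonneg_left ?_ (norm_nonneg _)
      exact Real.rpow_le_rpow_of_exponent_le hn1 (by linarith)
  -- the mean square bound
  obtain ⟨K, hK⟩ := h2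
  beta_reduce at hK
  have hterm : ∀ (h : ℝ) (n : ℕ), PrimesOnly.sq n * ‖d n‖ ^ 2 * (n : ℝ) ^ (-(1 / 2 + h)) =
      if ∃ p : ℕ, p.Prime ∧ n = p ^ 2 then
        (PrimesOnly.sq n * ‖∑ j, g j * b j n‖ ^ 2 * (n : ℝ) ^ (-(1 / 2 + h))) else 0 := by
    intro h n
    by_cases hsq : ∃ p : ℕ, p.Prime ∧ n = p ^ 2
    · simp only [hd]
      rw [if_pos hsq, if_pos hsq]
    · simp only [hd]
      rw [if_neg hsq, if_neg hsq]
      simp
  have hval : ∀ (h : ℝ) (p : Nat.Primes), PrimesOnly.sq ((p : ℕ) ^ 2) *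
      ‖∑ j, g j * b j ((p : ℕ) ^ 2)‖ ^ 2 * (((p : ℕ) ^ 2 : ℕ) : ℝ) ^ (-(1 / 2 + h)) =
      2 * (‖∑ j, g j * b j ((p : ℕ) ^ 2)‖ ^ 2 * Real.log p * ((p : ℕ) : ℝ) ^ (-(1 + 2 * h))) := by
    intro h p
    have hp0 : (0 : ℝ) < (p : ℕ) := by exact_mod_cast p.2.pos
    rw [sq_sq p.2]
    have e2 : (((p : ℕ) ^ 2 : ℕ) : ℝ) ^ (-(1 / 2 + h)) = ((p : ℕ) : ℝ) ^ (-(1 + 2 * h)) := by
      push_cast
      rw [← Real.rpow_natCast, ← Real.rpow_mul hp0.le]
      congr 1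
      push_cast
      ring
    rw [e2]
    ring
  have hms : ∀ h : ℝ, 0 < h → h ≤ 1 →
      Summable (fun p : Nat.Primes => ‖∑ j, g j * b j ((p : ℕ) ^ 2)‖ ^ 2 * Real.log p *
        ((p : ℕ) : ℝ) ^ (-(1 + 2 * h))) ∧
      h * ∑' p : Nat.Primes, ‖∑ j, g j * b j ((p : ℕ) ^ 2)‖ ^ 2 * Real.log p *
        ((p : ℕ) : ℝ) ^ (-(1 + 2 * h)) ≤ K := by
    intro h hh0 hh1
    by_cases h2 : 2 * h ≤ 1
    · obtain ⟨k1, k2⟩ := hK (2 * h) (by linarith) h2
      refine ⟨k1, ?_⟩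
      have hnn : 0 ≤ ∑' p : Nat.Primes, ‖∑ j, g j * b j ((p : ℕ) ^ 2)‖ ^ 2 * Real.log p *
          ((p : ℕ) : ℝ) ^ (-(1 + 2 * h)) := tsum_nonneg (fun p => by
        have := Real.log_natCast_nonneg (p : ℕ)
        positivity)
      nlinarith
    · obtain ⟨k1, k2⟩ := hK 1 one_pos le_rfl
      have hle : ∀ p : Nat.Primes, ‖∑ j, g j * b j ((p : ℕ) ^ 2)‖ ^ 2 * Real.log p *
          ((p : ℕ) : ℝ) ^ (-(1 + 2 * h)) ≤ ‖∑ j, g j * b j ((p : ℕ) ^ 2)‖ ^ 2 * Real.log p *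
          ((p : ℕ) : ℝ) ^ (-(1 + 1 : ℝ)) := by
        intro p
        have h3 : (1 : ℝ) ≤ (p : ℕ) := by exact_mod_cast p.2.one_lt.le
        have h4 := Real.log_natCast_nonneg (p : ℕ)
        refine mul_le_mul_of_nonneg_left ?_ (by positivity)
        exact Real.rpow_le_rpow_of_exponent_le h3 (by linarith)
      have hnn : ∀ p : Nat.Primes, 0 ≤ ‖∑ j, g j * b j ((p : ℕ) ^ 2)‖ ^ 2 * Real.log p *
          ((p : ℕ) : ℝ) ^ (-(1 + 2 * h)) := fun p => by
        have := Real.log_natCast_nonneg (p : ℕ)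
        positivity
      have k3 := Summable.of_nonneg_of_le hnn hle k1
      refine ⟨k3, ?_⟩
      have k4 := k3.tsum_le_tsum hle k1
      have k5 : 0 ≤ ∑' p : Nat.Primes, ‖∑ j, g j * b j ((p : ℕ) ^ 2)‖ ^ 2 * Real.log p *
          ((p : ℕ) : ℝ) ^ (-(1 + 2 * h)) := tsum_nonneg hnn
      nlinarith
  have hmain := rel_main hZ hFAM hL2 (fun j => sel_cls hPLG (hF j)) hab (d := d) hσ₀ hsum
    (K := 2 * K) (fun h hh0 hh1 => by
      obtain ⟨m1, m2⟩ := hms h hh0 hh1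
      have e1 : (fun n : ℕ => PrimesOnly.sq n * ‖d n‖ ^ 2 * (n : ℝ) ^ (-(1 / 2 + h))) =
          fun n : ℕ => (open Classical in if ∃ p : ℕ, p.Prime ∧ n = p ^ 2 then
        (PrimesOnly.sq n * ‖∑ j, g j * b j n‖ ^ 2 * (n : ℝ) ^ (-(1 / 2 + h))) else 0) := by
        funext n
        rw [hterm h n]
      rw [e1]
      constructor
      · refine sum_squares (f := fun n => PrimesOnly.sq n * ‖∑ j, g j * b j n‖ ^ 2 *
          (n : ℝ) ^ (-(1 / 2 + h))) ?_
        exact (m1.mul_left 2).congr (fun p => (hval h p).symm)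
      · rw [tsum_squares (fun n => PrimesOnly.sq n * ‖∑ j, g j * b j n‖ ^ 2 *
          (n : ℝ) ^ (-(1 / 2 + h)))]
        have e2 : ∑' p : Nat.Primes, PrimesOnly.sq ((p : ℕ) ^ 2) *
            ‖∑ j, g j * b j ((p : ℕ) ^ 2)‖ ^ 2 * (((p : ℕ) ^ 2 : ℕ) : ℝ) ^ (-(1 / 2 + h)) =
            2 * ∑' p : Nat.Primes, ‖∑ j, g j * b j ((p : ℕ) ^ 2)‖ ^ 2 * Real.log p *
              ((p : ℕ) : ℝ) ^ (-(1 + 2 * h)) := by
          rw [← tsum_mul_left]
          exact tsum_congr (fun p => hval h p)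
        rw [e2]
        linarith)
  by_cases hn : 2 ≤ n
  · have h3 := hmain n hn
    rw [hcco] at h3
    have h4 : (Real.log n : ℂ) ≠ 0 := by
      have : 0 < Real.log n := Real.log_pos (by exact_mod_cast (by omega : 1 < n))
      exact_mod_cast this.ne'
    exact (mul_eq_zero.1 h3).resolve_left h4
  · have h5 : ¬ IsPrimePow n := by
      intro h
      have := h.one_lt
      omega
    exact Finset.sum_eq_zero (fun j _ => by rw [(hF j).b_supp n h5, mul_zero])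

end Pool.Agent.SelRel
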