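import Pool.Agent.SelRel.Defs2

/-! Relations at primes: block THN, a relation outside a thin set (helper42). -/

set_option autoImplicit false

namespace Pool.Agent.SelRel

open Set

theorem p_THN : T_THN := by
  intro E δ hE h0 hR
  obtain ⟨σ₀, hσ, hs⟩ := hE
  obtain ⟨C, hC⟩ := hR ((1 / 2 - σ₀) / 2) (by linarith)
  refine ⟨σ₀ + (1 / 2 - σ₀) / 2, by linarith, ?_⟩
  refine Summable.of_norm_bounded (hs.mul_left C) fun p => ?_
  have hp : (0 : ℝ) < ((p : ℕ) : ℝ) := by exact_mod_cast p.2.pos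
  have hn : 0 ≤ ‖δ p‖ * ((p : ℕ) : ℝ) ^ (-(σ₀ + (1 / 2 - σ₀) / 2)) := by positivity
  rw [Real.norm_of_nonneg hn]
  by_cases hpE : (p : ℕ) ∈ E
  · rw [indicator_of_mem hpE]
    calc ‖δ p‖ * ((p : ℕ) : ℝ) ^ (-(σ₀ + (1 / 2 - σ₀) / 2))
        ≤ (C * ((p : ℕ) : ℝ) ^ ((1 / 2 - σ₀) / 2)) *
          ((p : ℕ) : ℝ) ^ (-(σ₀ + (1 / 2 - σ₀) / 2)) :=
          mul_le_mul_of_nonneg_right (hC p p.2) (by positivity)
      _ = C * ((p : ℕ) : ℝ) ^ (-σ₀) := by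
          rw [mul_assoc, ← Real.rpow_add hp]
          congr 2
          ring
  · rw [indicator_of_notMem hpE, h0 p p.2 hpE]
    simp

end Pool.Agent.SelRel
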