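import Pool.Agent.SelRel.Defs

/-! Relations at primes in the Selberg class: exact targets of the blocks. -/

set_option autoImplicit false

namespace Pool.Agent.SelRel

open Complex Filter Topology Set MeasureTheory Metric Pool.Agent.SelPole Pool.Agent.SelCR
open Pool.Agent.PrimesOnly
open scoped ComplexConjugate ArithmeticFunction.vonMangoldt

/-! ### Part A: real relations between orders (Theorem Z) -/

/-- CNT: zeros on the critical line, per unit interval -/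
def T_CNT : Prop := ∀ {F : ℂ → ℂ} {c : ℕ → ℂ}, EulerFE F c → PGr F → ∃ C : ℝ, ∀ T : ℝ, 0 ≤ T →
  ∀ S : Finset ℝ, (∀ t ∈ S, T ≤ t ∧ t ≤ T + 1 ∧ od F (pt t) ≠ 0) →
    (S.card : ℝ) ≤ C * (1 + Real.log (1 + T))

/-- SUM -/
def T_SUM : Prop := ∀ {e : ℝ → ℝ}, Ln e → Ln' e

/-- LOC: local structure of `ES` and `VS` -/
def T_LOC : Prop := ∀ {e : ℝ → ℝ}, Ln' e → ∀ z ∈ Qd, ∃ (r : ℝ) (V : ℂ → ℂ), 0 < r ∧
  DifferentiableOn ℂ V (ball z r) ∧ ∀ s ∈ ball z r, s ≠ z →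
    VS e s = ez e z * Real.log ‖s - z‖ + (V s).re ∧
    ES e s = (ez e z : ℂ) / (s - z) + deriv V s

/-- LOF: local structure of `log |F|` -/
def T_LOF : Prop := ∀ {F : ℂ → ℂ} {c : ℕ → ℂ}, EulerFE F c → ∀ z ∈ Qd, ∃ (r : ℝ) (V : ℂ → ℂ), 0 < r ∧
  DifferentiableOn ℂ V (ball z r) ∧ (∀ s ∈ ball z r, s ≠ z → F s ≠ 0 ∧
    Real.log ‖F s‖ = od F z * Real.log ‖s - z‖ + (V s).re) ∧
    (1 < z.re → od F z = 0 ∧ deriv V z = -LSeries c z)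

/-- GLU: a function that is locally the real part of an analytic function, off a discrete set -/
def T_GLU : Prop := ∀ {U : ℂ → ℝ} {Q : Set ℂ}, IsOpen Q → Convex ℝ Q → Q.Nonempty →
  (∀ z ∈ Q, ∃ (r : ℝ) (V : ℂ → ℂ), 0 < r ∧ DifferentiableOn ℂ V (ball z r) ∧
    ∀ s ∈ ball z r, s ≠ z → U s = (V s).re) →
  ∃ f : ℂ → ℂ, AnalyticOnNhd ℂ f Q ∧ (∀ z ∈ Q, ∀ᶠ s in 𝓝[≠] z, U s = (f s).re) ∧
    ∀ z ∈ Q, ∀ (r : ℝ) (V : ℂ → ℂ), 0 < r → DifferentiableOn ℂ V (ball z r) →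
      (∀ s ∈ ball z r, s ≠ z → U s = (V s).re) → deriv f z = deriv V z

/-- AVV: circle averages of `VS` -/
def T_AVV : Prop := ∀ {e : ℝ → ℝ}, Ln' e → ∃ A K : ℝ, 0 ≤ A ∧ 0 ≤ K ∧ ∀ T : ℝ, 3 ≤ T →
  CircleIntegrable (VS e) (ctr T) (15 / 8) ∧
  Real.circleAverage (fun s => |VS e s|) (ctr T) (15 / 8) ≤ K * T ^ A

/-- AVF: circle averages of `log |F|` -/
def T_AVF : Prop := ∀ {F : ℂ → ℂ} {c : ℕ → ℂ}, EulerFE F c → PGr F → ∃ K : ℝ, 0 ≤ K ∧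
  ∀ T : ℝ, 3 ≤ T → CircleIntegrable (fun s => Real.log ‖F s‖) (ctr T) (15 / 8) ∧
  Real.circleAverage (fun s => |Real.log ‖F s‖|) (ctr T) (15 / 8) ≤ K * T

/-- GRO: growth of an analytic function from the circle averages of its real part -/
def T_GRO : Prop := ∀ {f : ℂ → ℂ} {U : ℂ → ℝ}, AnalyticOnNhd ℂ f Qd →
  (∀ z ∈ Qd, ∀ᶠ s in 𝓝[≠] z, U s = (f s).re) → ∀ {A K : ℝ}, 0 ≤ A → 0 ≤ K →
  (∀ T : ℝ, 3 ≤ T → CircleIntegrable U (ctr T) (15 / 8) ∧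
    Real.circleAverage (fun s => |U s|) (ctr T) (15 / 8) ≤ K * T ^ A) →
  (∀ T : ℝ, 3 ≤ T → ‖f (ctr T)‖ ≤ K * T ^ A) →
  ∃ K' : ℝ, 0 ≤ K' ∧ ∀ s : ℂ, 1 / 4 ≤ s.re → s.re ≤ 2 → 3 ≤ s.im → ‖f s‖ ≤ K' * s.im ^ A

/-- MES: `ES` on the line `Re s = 2` -/
def T_MES : Prop := ∀ {e : ℝ → ℝ}, Ln' e → ContinuousOn (ES e) {s | 1 < s.re} ∧
  (∃ K : ℝ, 0 ≤ K ∧ ∀ t : ℝ, 0 ≤ t → ‖ES e (ctr t)‖ ≤ K * (1 + t)) ∧
  ∀ δ : ℝ, 0 < δ → Tendsto (fun T : ℝ => (1 / T) * ∫ t in Ioi (3 : ℝ),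
    (∫ τ in t..t + δ, ‖ES e (ctr τ)‖) * Real.exp (-(t / T) ^ 2)) atTop (𝓝 0)

/-- VSY: `VS` is symmetric about the critical line -/
def T_VSY : Prop := ∀ (e : ℝ → ℝ) (σ t : ℝ), VS e (σ + t * I) = VS e ((1 - σ : ℝ) + t * I)

/-- **Z**: the main theorem of part A -/
def T_Z : Prop := ∀ {ι : Type} [Fintype ι] {F : ι → ℂ → ℂ} {c : ι → ℕ → ℂ} {g : ι → ℝ},
  (∀ j, EulerFE (F j) (c j)) → (∀ j, PGr (F j)) →
  (∀ z ∈ Qd, z.re ≠ 1 / 2 → ∑ j, g j * (od (F j) z : ℝ) = 0) →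
  Summable (fun t : ℝ => (if 0 < t then ∑ j, g j * (od (F j) (pt t) : ℝ) else 0) ^ 2) →
  ∀ n : ℕ, 2 ≤ n → ∑ j, (g j : ℂ) * c j n = 0

/-! ### Part B: from relations at primes to relations between orders -/

/-- FAM: boundary behaviour of the logarithmic derivative of a family -/
def T_FAM : Prop := ∀ {ι : Type} [Fintype ι] {F : ι → ℂ → ℂ} {c : ι → ℕ → ℂ} {g : ι → ℂ},
  (∀ j, EulerFE (F j) (c j)) →
  LSeries.abscissaOfAbsConv (cco c g) ≤ ((1 / 2 : ℝ) : EReal) →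
  (∀ t : ℝ, Tendsto (fun y : ℝ => (y : ℂ) * LSeries (cco c g) (pt t + y)) (𝓝[>] 0)
    (𝓝 (-cord F g (pt t)))) ∧
  ∀ z : ℂ, 1 / 2 < z.re → cord F g z = 0

/-- GLO: a relation between the coefficients gives the relation between the orders everywhere -/
def T_GLO : Prop := ∀ {ι : Type} [Fintype ι] {F : ι → ℂ → ℂ} {c : ι → ℕ → ℂ} {g : ι → ℂ},
  (∀ j, EulerFE (F j) (c j)) → (∀ n : ℕ, 2 ≤ n → cco c g n = 0) → ∀ z : ℂ, cord F g z = 0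

/-- L2: the weights on the line are square summable -/
def T_L2 : Prop := ∀ {ι : Type} [Fintype ι] {F : ι → ℂ → ℂ} {c : ι → ℕ → ℂ} {g : ι → ℂ},
  (∀ j, EulerFE (F j) (c j)) →
  LSeries.abscissaOfAbsConv (cco c g) ≤ ((1 / 2 : ℝ) : EReal) →
  ∀ {d : ℕ → ℂ} {σ₀ K : ℝ}, σ₀ < 1 / 2 →
  LSeriesSummable (fun n => cco c g n - (PrimesOnly.sq n : ℂ) * d n) σ₀ →
  (∀ h : ℝ, 0 < h → h ≤ 1 → Summable (fun n : ℕ => PrimesOnly.sq n * ‖d n‖ ^ 2 * (n : ℝ) ^ (-(1 / 2 + h))) ∧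
    h * ∑' n : ℕ, PrimesOnly.sq n * ‖d n‖ ^ 2 * (n : ℝ) ^ (-(1 / 2 + h)) ≤ K) →
  ∃ B : ℝ, ∀ S : Finset ℝ, ∑ t ∈ S, ‖cord F g (pt t)‖ ^ 2 ≤ B

/-! ### Part C: growth -/

/-- PLG: members of the Selberg class have polynomial growth -/
def T_PLG : Prop := ∀ {F : ℂ → ℂ} {a b : ℕ → ℂ}, IsSelberg F a b → PGr F

/-- PZE -/
def T_PZE : Prop := PGr riemannZeta

/-- PDI -/
def T_PDI : Prop := ∀ {N : ℕ} [NeZero N] {χ : DirichletCharacter ℂ N}, χ.IsPrimitive → χ ≠ 1 →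
  PGr (DirichletCharacter.LFunction χ)

/-- UDI -/
def T_UDI : Prop := ∀ {N : ℕ} [NeZero N] {χ : DirichletCharacter ℂ N}, χ.IsPrimitive → χ ≠ 1 →
  UFE (DirichletCharacter.LFunction χ)

/-! ### Part D: arithmetic -/

/-- VAN: equality of power sums -/
def T_VAN : Prop := ∀ {κ : Type} [Fintype κ] {w x : κ → ℂ},
  (∀ k : ℕ, 1 ≤ k → ∑ i, w i * x i ^ k = 0) → ∀ ω : ℂ, ω ≠ 0 →
  (∑ i, (open Classical in if x i = ω then w i else 0)) = 0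

/-- ALP: the local roots of a member of the Selberg class are bounded by 1 -/
def T_ALP : Prop := ∀ {F : ℂ → ℂ} {a b : ℕ → ℂ}, IsSelberg F a b → ∀ {p : ℕ}, p.Prime →
  ∀ {d : ℕ} {α : Fin d → ℂ}, (∀ k : ℕ, 1 ≤ k → k * b (p ^ k) = ∑ i, α i ^ k) → ∀ i, ‖α i‖ ≤ 1

end Pool.Agent.SelRel
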