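import Pool.Agent.SelRel.Targets
import Pool.Agent.SelDeg2.TargetsA

/-! Relations at primes in the Selberg class: growth, exact targets. -/

set_option autoImplicit false

namespace Pool.Agent.SelRel

open Complex Filter Topology Set MeasureTheory Metric Pool.Agent.SelPole Pool.Agent.SelCR
open Pool.Agent.PrimesOnly Pool.Agent.SelTwo

/-- GAM: quotient of gamma factors, every degree -/
def T_GAM : Prop := ∀ (k : ℕ) (l : Fin k → ℝ) (m : Fin k → ℂ), (∀ j, 0 < l j) →
  (∀ j, 0 ≤ (m j).re) → ∃ (C : ℝ) (N : ℕ), ∀ τ : ℝ, ‖gP k l m (vl (5 / 4) τ)‖ ≤ C * (1 + |τ|) ^ N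


end Pool.Agent.SelRel
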