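import Pool.Agent.SelRel.Targets
import Pool.Agent.SelDeg2.LFE
import Pool.Agent.PrimesOnly.UNORM

/-! Block UDI: the functional equation in absolute values for `L(s, χ)`. -/

set_option autoImplicit false

namespace Pool.Agent.SelRel

open Complex Filter Topology Set MeasureTheory Metric
open Pool.Agent.SelDeg2.LFE_

theorem UDI_key {N : ℕ} [NeZero N] {χ : DirichletCharacter ℂ N} (hχ : χ ≠ 1) (u x : ℝ)
    (hx : 0 < x) : (((N : ℝ) / Real.pi) ^ (1 / 2 : ℝ)) ^ x *
      (∏ _j : Fin 1, ‖Gamma (((1 / 2 : ℝ) : ℂ) * ((x : ℂ) + u * I) + ((par χ : ℂ) / 2))‖) *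
      ‖DirichletCharacter.LFunction χ ((x : ℂ) + u * I)‖ =
      (N : ℝ) ^ (x / 2) * Real.pi ^ (par χ / 2) *
        ‖DirichletCharacter.completedLFunction χ ((x : ℂ) + u * I)‖ := by
  have hN : (0 : ℝ) < N := by exact_mod_cast Nat.pos_of_ne_zero (NeZero.ne N)
  have hs : 0 < ((x : ℂ) + u * I).re := by simpa using hx
  rw [norm_completed hχ hs]
  have e1 : ((x : ℂ) + u * I).re = x := by simp
  have e2 : ((1 / 2 : ℝ) : ℂ) * ((x : ℂ) + u * I) + ((par χ : ℂ) / 2) =
      ((x : ℂ) + u * I + par χ) / 2 := by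
    push_cast
    ring
  simp only [Finset.prod_const, Finset.card_univ, Fintype.card_fin, pow_one]
  rw [e1, e2]
  have e4 : (((N : ℝ) / Real.pi) ^ (1 / 2 : ℝ)) ^ x =
      (N : ℝ) ^ (x / 2) * Real.pi ^ (-x / 2) := by
    rw [← Real.rpow_mul (by positivity), Real.div_rpow hN.le Real.pi_pos.le,
      show (1 / 2 : ℝ) * x = x / 2 by ring, neg_div, Real.rpow_neg Real.pi_pos.le]
    rfl
  have e5 : Real.pi ^ (-x / 2) = Real.pi ^ (par χ / 2) * Real.pi ^ (-(x + par χ) / 2) := by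
    rw [← Real.rpow_add Real.pi_pos]
    congr 1
    ring
  rw [e4, e5]
  ring

/-- **UDI** -/
theorem p_UDI : T_UDI := by
  intro N _ χ hp hχ
  have hN : (0 : ℝ) < N := by exact_mod_cast Nat.pos_of_ne_zero (NeZero.ne N)
  refine Pool.Agent.PrimesOnly.p_UNORM (F := DirichletCharacter.LFunction χ)
    (k := 1) (Q := ((N : ℝ) / Real.pi) ^ (1 / 2 : ℝ)) (Real.rpow_pos_of_pos (by positivity) _)
    (lam := fun _ => 1 / 2) (mu := fun _ => (par χ : ℂ) / 2)
    (fun _ => by norm_num) (fun _ => ?_) ?_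
  · have := par_nonneg χ
    simp
    linarith
  · intro σ u h0 h1
    have k1 := UDI_key hχ u σ h0
    have k2 := UDI_key hχ u (1 - σ) (by linarith)
    have k3 := norm_fe_strip hp hχ σ u
    have e6 : (N : ℝ) ^ (σ / 2) * (N : ℝ) ^ (1 / 2 - σ) = (N : ℝ) ^ ((1 - σ) / 2) := by
      rw [← Real.rpow_add hN]
      congr 1
      ring
    refine (k1.trans ?_).trans k2.symm
    rw [k3, ← e6]
    ring

end Pool.Agent.SelRel
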