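import Pool.Agent.SelRel.Core

/-! Theorem Z: a real relation between orders gives the relation between coefficients. -/

set_option autoImplicit false

namespace Pool.Agent.SelRel

open Complex Filter Topology Set MeasureTheory Metric Pool.Agent.SelPole Pool.Agent.SelCR
open Pool.Agent.PrimesOnly
open scoped ComplexConjugate

theorem p_VSY : T_VSY := by
  intro e σ t
  unfold VS
  refine tsum_congr (fun τ => ?_)
  congr 2
  have h : conj (1 - (((σ : ℂ) + t * I) - 1 / 2) / (τ * I)) =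
      1 - ((((1 - σ : ℝ) : ℂ) + t * I) - 1 / 2) / (τ * I) := by
    simp only [map_sub, map_one, map_div₀, map_add, map_mul, Complex.conj_ofReal, Complex.conj_I,
      map_ofNat]
    by_cases hτ : (τ : ℂ) = 0
    · simp [hτ]
    · have hI : (I : ℂ) ≠ 0 := I_ne_zero
      push_cast
      field_simp
      ring
  rw [← h, Complex.norm_conj]

theorem ctr_re (T : ℝ) : (ctr T).re = 2 := by simp [ctr]
theorem ctr_im (T : ℝ) : (ctr T).im = T := by simp [ctr]

theorem ez_off {e : ℝ → ℝ} {z : ℂ} (h : z.re ≠ 1 / 2) : ez e z = 0 := by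
  unfold ez
  rw [if_neg h]

theorem ez_on {e : ℝ → ℝ} {z : ℂ} (h : z.re = 1 / 2) : ez e z = e z.im := by
  unfold ez
  rw [if_pos h]

/-- the weights attached to a family -/
theorem fam_Ln (hCNT : T_CNT) {ι : Type} [Fintype ι] {F : ι → ℂ → ℂ} {c : ι → ℕ → ℂ} {g : ι → ℝ}
    (hF : ∀ j, EulerFE (F j) (c j)) (hG : ∀ j, PGr (F j))
    (hl2 : Summable (fun t : ℝ => (if 0 < t then ∑ j, g j * (od (F j) (pt t) : ℝ) else 0) ^ 2)) :
    Ln (fun t : ℝ => if 0 < t then ∑ j, g j * (od (F j) (pt t) : ℝ) else 0) := by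
  classical
  refine ⟨fun t ht => if_neg (not_lt.2 ht), hl2, ?_⟩
  choose C hC using fun j => hCNT (hF j) (hG j)
  refine ⟨∑ j, |C j|, fun T hT S hS => ?_⟩
  have h1 : S ⊆ Finset.univ.biUnion (fun j => S.filter (fun t => od (F j) (pt t) ≠ 0)) := by
    intro t ht
    obtain ⟨h2, h3, h4⟩ := hS t ht
    rw [Finset.mem_biUnion]
    by_contra hcon
    apply h4
    have h6 : ∀ j, od (F j) (pt t) = 0 := by
      intro j
      by_contra h8
      exact hcon ⟨j, Finset.mem_univ j, Finset.mem_filter.2 ⟨ht, h8⟩⟩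
    have h7 : ∑ j, g j * (od (F j) (pt t) : ℝ) = 0 :=
      Finset.sum_eq_zero (fun j _ => by rw [h6 j]; simp)
    show (if 0 < t then ∑ j, g j * (od (F j) (pt t) : ℝ) else 0) = 0
    rw [h7]
    simp
  have h2 : S.card ≤ ∑ j, (S.filter (fun t => od (F j) (pt t) ≠ 0)).card :=
    (Finset.card_le_card h1).trans Finset.card_biUnion_le
  have h3 : 0 ≤ 1 + Real.log (1 + T) := by
    have := Real.log_nonneg (by linarith : (1 : ℝ) ≤ 1 + T)
    linarith
  calc (S.card : ℝ) ≤ ∑ j, ((S.filter (fun t => od (F j) (pt t) ≠ 0)).card : ℝ) := by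
        exact_mod_cast h2
    _ ≤ ∑ j, |C j| * (1 + Real.log (1 + T)) := by
        refine Finset.sum_le_sum (fun j _ => ?_)
        refine (hC j T hT _ (fun t ht => ?_)).trans
          (mul_le_mul_of_nonneg_right (le_abs_self _) h3)
        rw [Finset.mem_filter] at ht
        obtain ⟨h4, h5, -⟩ := hS t ht.1
        exact ⟨h4, h5, ht.2⟩
    _ = _ := by rw [Finset.sum_mul]

/-- local structure of the potential -/
theorem fam_loc (hLOC : T_LOC) (hLOF : T_LOF) (hMES : T_MES) {ι : Type} [Fintype ι]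
    {F : ι → ℂ → ℂ} {c : ι → ℕ → ℂ} {g : ι → ℝ}
    (hF : ∀ j, EulerFE (F j) (c j)) {e : ℝ → ℝ} (hLn' : Ln' e)
    (hord : ∀ z ∈ Qd, ∑ j, g j * (od (F j) z : ℝ) = ez e z) (z : ℂ) (hz : z ∈ Qd) :
    ∃ (r : ℝ) (V : ℂ → ℂ), 0 < r ∧ DifferentiableOn ℂ V (ball z r) ∧
      (∀ s ∈ ball z r, s ≠ z → (∑ j, g j * Real.log ‖F j s‖) - VS e s = (V s).re) ∧
      (∀ s ∈ ball z r, s ≠ z → ∀ j, F j s ≠ 0) ∧
      (1 < z.re → deriv V z = -(∑ j, (g j : ℂ) * LSeries (c j) z) - ES e z) := by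
  choose rj Vj hrj hVj hVj1 hVj2 using fun j => hLOF (hF j) z hz
  obtain ⟨r0, V0, hr0, hV0, hV1⟩ := hLOC hLn' z hz
  obtain ⟨r1, hr1, hr1j⟩ : ∃ r1 : ℝ, (∀ j, r1 ≤ rj j) ∧ 0 < r1 := by
    have h1 : ∀ᶠ r : ℝ in 𝓝[>] 0, ∀ j, r ≤ rj j := by
      rw [eventually_all]
      intro j
      have h2 : Iio (rj j) ∈ 𝓝 (0 : ℝ) := Iio_mem_nhds (hrj j)
      filter_upwards [mem_nhdsWithin_of_mem_nhds h2] with r hr
      exact (mem_Iio.1 hr).le
    exact (h1.and self_mem_nhdsWithin).exists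
  have hb0 : ball z (min r0 r1) ⊆ ball z r0 := ball_subset_ball (min_le_left _ _)
  have hbj : ∀ j, ball z (min r0 r1) ⊆ ball z (rj j) := fun j =>
    ball_subset_ball ((min_le_right _ _).trans (hr1 j))
  have hz0 : z ∈ ball z (min r0 r1) := mem_ball_self (lt_min hr0 hr1j)
  refine ⟨min r0 r1, fun s => (∑ j, (g j : ℂ) * Vj j s) - V0 s, lt_min hr0 hr1j, ?_, ?_, ?_, ?_⟩
  · refine DifferentiableOn.sub ?_ (hV0.mono hb0)
    exact DifferentiableOn.fun_sum (fun j _ => ((hVj j).mono (hbj j)).const_mul _)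
  · intro s hs hsz
    have h1 : ∀ j, Real.log ‖F j s‖ = od (F j) z * Real.log ‖s - z‖ + (Vj j s).re :=
      fun j => (hVj1 j s (hbj j hs) hsz).2
    have h2 := (hV1 s (hb0 hs) hsz).1
    simp only [h1, h2, mul_add, Finset.sum_add_distrib, Complex.sub_re, Complex.re_sum,
      Complex.re_ofReal_mul]
    have h3 : ∑ j, g j * ((od (F j) z : ℝ) * Real.log ‖s - z‖) = ez e z * Real.log ‖s - z‖ := by
      rw [← hord z hz, Finset.sum_mul]
      exact Finset.sum_congr rfl (fun j _ => by ring)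
    rw [h3]
    ring
  · intro s hs hsz j
    exact (hVj1 j s (hbj j hs) hsz).1
  · intro hz1
    have hd0 : DifferentiableAt ℂ V0 z := hV0.differentiableAt (isOpen_ball.mem_nhds (hb0 hz0))
    have hdj : ∀ j, DifferentiableAt ℂ (Vj j) z := fun j =>
      (hVj j).differentiableAt (isOpen_ball.mem_nhds (hbj j hz0))
    have h1 : deriv (fun s => (∑ j, (g j : ℂ) * Vj j s) - V0 s) z =
        (∑ j, (g j : ℂ) * deriv (Vj j) z) - deriv V0 z := by
      have h2 : HasDerivAt (fun s => ∑ j, (g j : ℂ) * Vj j s) (∑ j, (g j : ℂ) * deriv (Vj j) z) z :=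
        HasDerivAt.fun_sum (fun j _ => ((hdj j).hasDerivAt.const_mul _))
      exact (h2.sub hd0.hasDerivAt).deriv
    rw [h1]
    have h2 : ∀ j, deriv (Vj j) z = -LSeries (c j) z := fun j => (hVj2 j hz1).2
    have h3 : deriv V0 z = ES e z := by
      have hc1 : ContinuousAt (ES e) z :=
        (hMES hLn').1.continuousAt ((isOpen_lt continuous_const continuous_re).mem_nhds hz1)
      have hc2 : ContinuousAt (deriv V0) z :=
        ((hV0.analyticOnNhd isOpen_ball) z (hb0 hz0)).deriv.continuousAt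
      have he0 : ez e z = 0 := ez_off (by linarith)
      have h4 : ∀ᶠ s in 𝓝[≠] z, ES e s = deriv V0 s := by
        filter_upwards [mem_nhdsWithin_of_mem_nhds (isOpen_ball.mem_nhds (hb0 hz0)),
          self_mem_nhdsWithin] with s hs hsz
        have := (hV1 s hs hsz).2
        rw [he0] at this
        simpa using this
      have h5 : Tendsto (ES e) (𝓝[≠] z) (𝓝 (deriv V0 z)) :=
        (hc2.tendsto.mono_left nhdsWithin_le_nhds).congr' (h4.mono (fun s hs => hs.symm))
      exact tendsto_nhds_unique h5 (hc1.tendsto.mono_left nhdsWithin_le_nhds)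
    rw [h3]
    simp only [h2, mul_neg, Finset.sum_neg_distrib]

end Pool.Agent.SelRel
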