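import Pool.Agent.SelRel.Z

/-! Theorem Z, second part: growth and functional equation of the potential. -/

set_option autoImplicit false

namespace Pool.Agent.SelRel

open Complex Filter Topology Set MeasureTheory Metric Pool.Agent.SelPole Pool.Agent.SelCR
open Pool.Agent.PrimesOnly
open scoped ComplexConjugate

/-- growth on the line `Re s = 2` from the derivative -/
theorem grow_two (hMES : T_MES) {ι : Type} [Fintype ι] {F : ι → ℂ → ℂ}
    {c : ι → ℕ → ℂ} {g : ι → ℝ} (hF : ∀ j, EulerFE (F j) (c j)) {e : ℝ → ℝ} (hLn' : Ln' e)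
    {f : ℂ → ℂ} (hf : AnalyticOnNhd ℂ f Qd)
    (hd : ∀ z ∈ Qd, 1 < z.re → deriv f z = -(∑ j, (g j : ℂ) * LSeries (c j) z) - ES e z) :
    ∃ K : ℝ, 0 ≤ K ∧ ∀ T : ℝ, 3 ≤ T → ‖f (ctr T)‖ ≤ K * T ^ (2 : ℝ) := by
  obtain ⟨K, hK0, hK⟩ := (hMES hLn').2.1
  set C₀ : ℝ := ∑ j, |g j| * ∑' n, ‖LSeries.term (c j) 2 n‖ with hC₀
  have hC₀0 : 0 ≤ C₀ :=
    Finset.sum_nonneg (fun j _ => mul_nonneg (abs_nonneg _) (tsum_nonneg (fun n => norm_nonneg _)))
  have hmem : ∀ τ : ℝ, 0 < τ → ctr τ ∈ Qd := fun τ hτ =>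
    ⟨by rw [ctr_re]; norm_num, by rw [ctr_im]; exact hτ⟩
  have hbd : ∀ τ : ℝ, 3 ≤ τ → ‖deriv f (ctr τ)‖ ≤ C₀ + K * (1 + τ) := by
    intro τ hτ
    rw [hd _ (hmem τ (by linarith)) (by rw [ctr_re]; norm_num)]
    refine (norm_sub_le _ _).trans (add_le_add ?_ (hK τ (by linarith)))
    rw [norm_neg]
    refine (norm_sum_le _ _).trans (Finset.sum_le_sum (fun j _ => ?_))
    rw [norm_mul, Complex.norm_real, Real.norm_eq_abs]
    refine mul_le_mul_of_nonneg_left ?_ (abs_nonneg _)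
    have hs2 : LSeriesSummable (c j) 2 := (hF j).summ 2 (by simp)
    have h2 : ∀ n, ‖LSeries.term (c j) (ctr τ) n‖ ≤ ‖LSeries.term (c j) 2 n‖ :=
      fun n => LSeries.norm_term_le_of_re_le_re _ (by rw [ctr_re]; simp) n
    have hs : Summable (fun n => ‖LSeries.term (c j) (ctr τ) n‖) :=
      Summable.of_nonneg_of_le (fun n => norm_nonneg _) h2 hs2.norm
    exact (norm_tsum_le_tsum_norm hs).trans (hs.tsum_le_tsum h2 hs2.norm)
  refine ⟨(C₀ + 2 * K) + ‖f (ctr 3)‖, by positivity, fun T hT => ?_⟩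
  -- mean value inequality on the segment
  set S : Set ℂ := {z | z.re = 2 ∧ 3 ≤ z.im ∧ z.im ≤ T} with hS
  have hSc : Convex ℝ S := by
    have h1 : S = {z | z.re = 2} ∩ ({z | 3 ≤ z.im} ∩ {z | z.im ≤ T}) := by
      ext z; simp [hS]
    rw [h1]
    refine Convex.inter ?_ ((convex_halfSpace_im_ge 3).inter (convex_halfSpace_im_le T))
    have h2 : {z : ℂ | z.re = 2} = {z | 2 ≤ z.re} ∩ {z | z.re ≤ 2} := by
      ext z
      simp only [mem_ofPred_eq, mem_inter_iff]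
      constructor
      · intro h; exact ⟨h.ge, h.le⟩
      · rintro ⟨h, h'⟩; exact le_antisymm h' h
    rw [h2]
    exact (convex_halfSpace_re_ge 2).inter (convex_halfSpace_re_le 2)
  have hSQ : ∀ z ∈ S, z ∈ Qd ∧ z = ctr z.im := by
    intro z hz
    refine ⟨⟨by rw [hz.1]; norm_num, by linarith [hz.2.1]⟩, ?_⟩
    apply Complex.ext
    · rw [ctr_re]; exact hz.1
    · rw [ctr_im]
  have h1 := hSc.norm_image_sub_le_of_norm_deriv_le (f := f) (C := C₀ + K * (1 + T))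
    (fun z hz => (hf z (hSQ z hz).1).differentiableAt) (fun z hz => by
      rw [(hSQ z hz).2]
      refine (hbd z.im hz.2.1).trans ?_
      have := hz.2.2
      gcongr) (x := ctr 3) (y := ctr T) ⟨ctr_re 3, by rw [ctr_im], by rw [ctr_im]; exact hT⟩
      ⟨ctr_re T, by rw [ctr_im]; exact hT, by rw [ctr_im]⟩
  have h2 : ‖ctr T - ctr 3‖ ≤ T := by
    have : ctr T - ctr 3 = ((T - 3 : ℝ) : ℂ) * I := by
      simp only [ctr]
      push_cast
      ring
    rw [this, norm_mul, Complex.norm_real, Complex.norm_I, mul_one, Real.norm_of_nonneg (by linarith)]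
    linarith
  have hT2 : T ^ (2 : ℝ) = T ^ 2 := by norm_cast
  rw [hT2]
  have h3 : ‖f (ctr T)‖ ≤ ‖f (ctr T) - f (ctr 3)‖ + ‖f (ctr 3)‖ := by
    have := norm_add_le (f (ctr T) - f (ctr 3)) (f (ctr 3))
    rwa [sub_add_cancel] at this
  have h4 : (C₀ + K * (1 + T)) * ‖ctr T - ctr 3‖ ≤ (C₀ + K * (1 + T)) * T :=
    mul_le_mul_of_nonneg_left h2 (by positivity)
  have h5 : (C₀ + K * (1 + T)) * T ≤ (C₀ + 2 * K) * T ^ 2 := by
    have : 0 ≤ C₀ * (T * (T - 1)) := mul_nonneg hC₀0 (mul_nonneg (by linarith) (by linarith))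
    have : 0 ≤ K * (T * (T - 1)) := mul_nonneg hK0 (mul_nonneg (by linarith) (by linarith))
    nlinarith
  have h6 : ‖f (ctr 3)‖ ≤ ‖f (ctr 3)‖ * T ^ 2 := by
    have : 1 ≤ T ^ 2 := by nlinarith
    nlinarith [norm_nonneg (f (ctr 3))]
  calc ‖f (ctr T)‖ ≤ (C₀ + 2 * K) * T ^ 2 + ‖f (ctr 3)‖ * T ^ 2 := by linarith
    _ = _ := by ring

/-- growth -/
theorem grow_all (hAVV : T_AVV) (hAVF : T_AVF) (hGRO : T_GRO) (hMES : T_MES) {ι : Type} [Fintype ι]
    {F : ι → ℂ → ℂ} {c : ι → ℕ → ℂ} {g : ι → ℝ} (hF : ∀ j, EulerFE (F j) (c j))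
    (hG : ∀ j, PGr (F j)) {e : ℝ → ℝ} (hLn' : Ln' e)
    {f : ℂ → ℂ} (hf : AnalyticOnNhd ℂ f Qd)
    (hU : ∀ z ∈ Qd, ∀ᶠ s in 𝓝[≠] z, (∑ j, g j * Real.log ‖F j s‖) - VS e s = (f s).re)
    (hd : ∀ z ∈ Qd, 1 < z.re → deriv f z = -(∑ j, (g j : ℂ) * LSeries (c j) z) - ES e z) :
    ∃ A K : ℝ, 0 ≤ A ∧ 0 ≤ K ∧ ∀ s : ℂ, 1 / 4 ≤ s.re → s.re ≤ 2 → 3 ≤ s.im →
      ‖f s‖ ≤ K * s.im ^ A := by
  obtain ⟨A, K₀, hA, hK₀, hV⟩ := hAVV hLn'
  choose Kj hKj0 hKj using fun j => hAVF (hF j) (hG j)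
  obtain ⟨K₂, hK₂, h2⟩ := grow_two hMES hF hLn' hf hd
  set A' : ℝ := max A 2 with hA'
  have hA'1 : A ≤ A' := le_max_left _ _
  have hA'2 : 2 ≤ A' := le_max_right _ _
  set K' : ℝ := (∑ j, |g j| * Kj j) + K₀ + K₂ with hK'
  have hs0 : 0 ≤ ∑ j, |g j| * Kj j :=
    Finset.sum_nonneg (fun j _ => mul_nonneg (abs_nonneg _) (hKj0 j))
  have hK'0 : 0 ≤ K' := by positivity
  have hcirc : ∀ T : ℝ, 3 ≤ T →
      CircleIntegrable (fun s => (∑ j, g j * Real.log ‖F j s‖) - VS e s) (ctr T) (15 / 8) ∧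
      Real.circleAverage (fun s => |(∑ j, g j * Real.log ‖F j s‖) - VS e s|) (ctr T) (15 / 8) ≤
        K' * T ^ A' := by
    intro T hT
    have hT1 : 1 ≤ T := by linarith
    have i1 : ∀ j, CircleIntegrable (fun s => g j * Real.log ‖F j s‖) (ctr T) (15 / 8) := by
      intro j
      have := ((hKj j T hT).1).const_fun_smul (a := g j)
      simpa [smul_eq_mul] using this
    have i2 : CircleIntegrable (fun s => ∑ j, g j * Real.log ‖F j s‖) (ctr T) (15 / 8) :=
      CircleIntegrable.fun_sum _ (fun j _ => i1 j)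
    have i3 : CircleIntegrable (fun s => (∑ j, g j * Real.log ‖F j s‖) - VS e s) (ctr T) (15 / 8) :=
      i2.sub (hV T hT).1
    refine ⟨i3, ?_⟩
    have i4 : ∀ j, CircleIntegrable (fun s => |g j| * |Real.log ‖F j s‖|) (ctr T) (15 / 8) := by
      intro j
      have := ((hKj j T hT).1.abs).const_fun_smul (a := |g j|)
      simpa [smul_eq_mul] using this
    have i6 : CircleIntegrable (fun s => |VS e s|) (ctr T) (15 / 8) := (hV T hT).1.abs
    have i5 : CircleIntegrable (fun s => (∑ j, |g j| * |Real.log ‖F j s‖|) + |VS e s|)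
        (ctr T) (15 / 8) :=
      (CircleIntegrable.fun_sum _ (fun j _ => i4 j)).add i6
    have h3 : Real.circleAverage (fun s => |(∑ j, g j * Real.log ‖F j s‖) - VS e s|) (ctr T) (15 / 8) ≤
        Real.circleAverage (fun s => (∑ j, |g j| * |Real.log ‖F j s‖|) + |VS e s|) (ctr T) (15 / 8) := by
      refine Real.circleAverage_mono i3.abs i5 (fun s _ => ?_)
      refine (abs_sub _ _).trans (add_le_add ?_ le_rfl)
      refine (Finset.abs_sum_le_sum_abs _ _).trans (le_of_eq ?_)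
      exact Finset.sum_congr rfl (fun j _ => abs_mul _ _)
    have h4 : Real.circleAverage (fun s => (∑ j, |g j| * |Real.log ‖F j s‖|) + |VS e s|)
        (ctr T) (15 / 8) = (∑ j, |g j| * Real.circleAverage (fun s => |Real.log ‖F j s‖|)
          (ctr T) (15 / 8)) + Real.circleAverage (fun s => |VS e s|) (ctr T) (15 / 8) := by
      rw [Real.circleAverage_fun_add (CircleIntegrable.fun_sum _ (fun j _ => i4 j)) i6,
        Real.circleAverage_fun_sum (fun j _ => i4 j)]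
      congr 1
      refine Finset.sum_congr rfl (fun j _ => ?_)
      have := Real.circleAverage_fun_smul (a := |g j|) (f := fun s => |Real.log ‖F j s‖|)
        (c := ctr T) (R := 15 / 8)
      simpa [smul_eq_mul] using this
    have h5 : T ^ A ≤ T ^ A' := Real.rpow_le_rpow_of_exponent_le hT1 hA'1
    have h6 : T ≤ T ^ A' := by
      calc T = T ^ (1 : ℝ) := (Real.rpow_one T).symm
        _ ≤ T ^ A' := Real.rpow_le_rpow_of_exponent_le hT1 (by linarith)
    calc _ ≤ _ := h3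
      _ = _ := h4
      _ ≤ (∑ j, |g j| * (Kj j * T ^ A')) + K₀ * T ^ A' := by
          refine add_le_add (Finset.sum_le_sum (fun j _ => ?_)) ?_
          · refine mul_le_mul_of_nonneg_left ?_ (abs_nonneg _)
            exact ((hKj j T hT).2).trans (mul_le_mul_of_nonneg_left h6 (hKj0 j))
          · exact ((hV T hT).2).trans (mul_le_mul_of_nonneg_left h5 hK₀)
      _ = ((∑ j, |g j| * Kj j) + K₀) * T ^ A' := by
          rw [add_mul, Finset.sum_mul]
          congr 1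
          exact Finset.sum_congr rfl (fun j _ => by ring)
      _ ≤ K' * T ^ A' := by
          refine mul_le_mul_of_nonneg_right ?_ (by positivity)
          rw [hK']
          linarith
  obtain ⟨K₃, hK₃, h3⟩ := hGRO hf hU (by linarith : (0 : ℝ) ≤ A') hK'0 hcirc (fun T hT => by
    refine (h2 T hT).trans ?_
    have h5 : T ^ (2 : ℝ) ≤ T ^ A' := Real.rpow_le_rpow_of_exponent_le (by linarith) hA'2
    calc K₂ * T ^ (2 : ℝ) ≤ K₂ * T ^ A' := mul_le_mul_of_nonneg_left h5 hK₂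
      _ ≤ K' * T ^ A' := by
          refine mul_le_mul_of_nonneg_right ?_ (by positivity)
          rw [hK']
          linarith)
  exact ⟨A', K₃, by linarith, hK₃, h3⟩

end Pool.Agent.SelRel
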