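import Pool.Agent.SelRel.Z2

/-! Theorem Z, third part: functional equation of the potential, series on `Re s = 2`, and the end. -/

set_option autoImplicit false

namespace Pool.Agent.SelRel

open Complex Filter Topology Set MeasureTheory Metric Pool.Agent.SelPole Pool.Agent.SelCR
open Pool.Agent.PrimesOnly
open scoped ComplexConjugate

/-- vertical lines and punctured neighbourhoods -/
theorem tend_line (x : ℝ) (t₀ : ℝ) :
    Tendsto (fun t : ℝ => ((x : ℂ) + t * I)) (𝓝[≠] t₀) (𝓝[≠] ((x : ℂ) + t₀ * I)) := by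
  refine tendsto_nhdsWithin_iff.2 ⟨?_, ?_⟩
  · exact ((by fun_prop : Continuous (fun t : ℝ => ((x : ℂ) + t * I))).tendsto t₀).mono_left
      nhdsWithin_le_nhds
  · filter_upwards [self_mem_nhdsWithin] with t ht h
    apply ht
    have := congrArg Complex.im h
    simpa using this

/-- the difference of the real parts on two symmetric lines -/
theorem fam_re {ι : Type} [Fintype ι] {F : ι → ℂ → ℂ} {c : ι → ℕ → ℂ} {g : ι → ℝ}
    (hF : ∀ j, EulerFE (F j) (c j)) {e : ℝ → ℝ} {f : ℂ → ℂ} (hf : AnalyticOnNhd ℂ f Qd)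
    (hU : ∀ z ∈ Qd, ∀ᶠ s in 𝓝[≠] z, (∑ j, g j * Real.log ‖F j s‖) - VS e s = (f s).re)
    (hne : ∀ z ∈ Qd, ∀ᶠ s in 𝓝[≠] z, ∀ j, F j s ≠ 0)
    {σ : ℝ} (h0 : 0 < σ) (h12 : σ < 1 / 2) {δ : ℝ} (hδ : 0 < δ) :
    Tendsto (fun t : ℝ => ((f (σ + (t + δ : ℝ) * I)).re - (f ((1 - σ : ℝ) + (t + δ : ℝ) * I)).re) -
      ((f (σ + t * I)).re - (f ((1 - σ : ℝ) + t * I)).re)) atTop (𝓝 0) := by
  choose Dj κj fej using fun j => (hF j).fe
  choose Xj Xj0 hXj Xjl using fun j => fej j σ h0 h12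
  set w : ℝ → ℝ := fun t => (f (σ + t * I)).re - (f ((1 - σ : ℝ) + t * I)).re with hw
  set D : ℝ := ∑ j, g j * Dj j with hD
  set κ : ℝ := ∑ j, g j * κj j with hκ
  have hQ1 : ∀ t : ℝ, 0 < t → (σ + t * I : ℂ) ∈ Qd := fun t ht => ⟨by simpa using h0, by simpa using ht⟩
  have hQ2 : ∀ t : ℝ, 0 < t → (((1 - σ : ℝ) : ℂ) + t * I : ℂ) ∈ Qd := fun t ht =>
    ⟨by simp; linarith, by simpa using ht⟩
  -- the good points
  set N : Set ℝ := {t : ℝ | ((∑ j, g j * Real.log ‖F j (σ + t * I)‖) - VS e (σ + t * I) =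
      (f (σ + t * I)).re) ∧ ((∑ j, g j * Real.log ‖F j (((1 - σ : ℝ) : ℂ) + t * I)‖) -
      VS e (((1 - σ : ℝ) : ℂ) + t * I) = (f (((1 - σ : ℝ) : ℂ) + t * I)).re) ∧
      ∀ j, F j (((1 - σ : ℝ) : ℂ) + t * I) ≠ 0} with hN
  have hNp : ∀ t₀ : ℝ, 0 < t₀ → ∀ᶠ t in 𝓝[≠] t₀, t ∈ N := by
    intro t₀ ht₀
    filter_upwards [(tend_line σ t₀).eventually (hU _ (hQ1 t₀ ht₀)),
      (tend_line (1 - σ) t₀).eventually (hU _ (hQ2 t₀ ht₀)),
      (tend_line (1 - σ) t₀).eventually (hne _ (hQ2 t₀ ht₀))] with t a1 a2 a3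
    exact ⟨a1, a2, a3⟩
  have hid : ∀ᶠ t in atTop, t ∈ N → w t = ∑ j, g j * Real.log (Xj j t) := by
    have e1 : ∀ᶠ t in atTop, ∀ j, 0 < Xj j t := eventually_all.2 Xj0
    have e2 : ∀ᶠ t : ℝ in atTop, ∀ j, ‖F j ((σ : ℂ) + t * I)‖ =
        Xj j t * ‖F j (((1 - σ : ℝ) : ℂ) + t * I)‖ := eventually_all.2 hXj
    filter_upwards [e1, e2, eventually_gt_atTop 0] with t h1 h2 h5 h6
    obtain ⟨a1, a2, a3⟩ := h6
    have h7 : ∀ j, Real.log ‖F j ((σ : ℂ) + t * I)‖ =
        Real.log (Xj j t) + Real.log ‖F j (((1 - σ : ℝ) : ℂ) + t * I)‖ := by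
      intro j
      rw [h2 j, Real.log_mul (h1 j).ne' (norm_ne_zero_iff.2 (a3 j))]
    simp only [hw]
    rw [← a1, ← a2, p_VSY e σ t]
    simp only [h7, mul_add, Finset.sum_add_distrib]
    ring
  have hasy : Tendsto (fun t => (∑ j, g j * Real.log (Xj j t))
      - (1 - 2 * σ) * (D * Real.log t + κ)) atTop (𝓝 0) := by
    have h1 : Tendsto (fun t => ∑ j, g j * (Real.log (Xj j t) -
        (1 - 2 * σ) * (Dj j * Real.log t + κj j))) atTop (𝓝 (∑ j, g j * 0)) :=
      tendsto_finsetSum _ (fun j _ => (Xjl j).const_mul (g j))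
    simp only [mul_zero, Finset.sum_const_zero] at h1
    refine h1.congr (fun t => ?_)
    rw [hD, hκ, Finset.sum_mul, ← Finset.sum_add_distrib, Finset.mul_sum, ← Finset.sum_sub_distrib]
    exact Finset.sum_congr rfl (fun j _ => by ring)
  have hwc : ContinuousOn w (Ioi 0) := by
    intro t ht
    have h1 : ContinuousAt (fun t : ℝ => f (σ + t * I)) t :=
      ContinuousAt.comp (f := fun t : ℝ => (σ + t * I : ℂ)) (hf _ (hQ1 t ht)).continuousAt
        (by fun_prop)
    have h2 : ContinuousAt (fun t : ℝ => f (((1 - σ : ℝ) : ℂ) + t * I)) t :=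
      ContinuousAt.comp (f := fun t : ℝ => (((1 - σ : ℝ) : ℂ) + t * I : ℂ))
        (hf _ (hQ2 t ht)).continuousAt (by fun_prop)
    have h3 : ContinuousAt w t :=
      ((Complex.continuous_re.continuousAt).comp h1).sub
        ((Complex.continuous_re.continuousAt).comp h2)
    exact h3.continuousWithinAt
  -- asymptotics for all `t`
  have hall : Tendsto (fun t => w t - (1 - 2 * σ) * (D * Real.log t + κ)) atTop (𝓝 0) := by
    rw [Metric.tendsto_atTop]
    intro ε hε
    have h5 : ∀ᶠ t in atTop, |(∑ j, g j * Real.log (Xj j t))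
        - (1 - 2 * σ) * (D * Real.log t + κ)| < ε / 2 := by
      have := hasy.abs
      rw [abs_zero] at this
      exact this.eventually (gt_mem_nhds (by linarith))
    obtain ⟨T, hT⟩ := eventually_atTop.mp ((hid.and h5).and (eventually_gt_atTop 0))
    refine ⟨T + 1, fun t ht => ?_⟩
    have hTt : T < t := by linarith
    have hT0 : 0 < T := (hT T le_rfl).2
    set v : ℝ → ℝ := fun t => w t - (1 - 2 * σ) * (D * Real.log t + κ) with hv
    have hvc : ContinuousOn v (Ioi T) := by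
      refine ContinuousOn.sub (hwc.mono (Ioi_subset_Ioi hT0.le)) ?_
      refine ContinuousOn.mul continuousOn_const ?_
      refine ContinuousOn.add (ContinuousOn.mul continuousOn_const ?_) continuousOn_const
      exact Real.continuousOn_log.mono (fun x hx => by
        have := mem_Ioi.1 hx
        simp
        linarith)
    have hvt : Tendsto v (𝓝[≠] t) (𝓝 (v t)) :=
      (hvc.continuousAt (Ioi_mem_nhds hTt)).tendsto.mono_left nhdsWithin_le_nhds
    have h6 : |v t| ≤ ε / 2 := by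
      refine le_of_tendsto hvt.abs ?_
      filter_upwards [hNp t (by linarith), mem_nhdsWithin_of_mem_nhds (Ioi_mem_nhds hTt)] with t' a b
      have h7 := (hT t' (le_of_lt b)).1
      simp only [hv]
      rw [h7.1 a]
      exact h7.2.le
    rw [Real.dist_eq, sub_zero]
    linarith
  have hlog : Tendsto (fun t : ℝ => Real.log (t + δ) - Real.log t) atTop (𝓝 0) := by
    have h1 : Tendsto (fun t : ℝ => Real.log (1 + δ / t)) atTop (𝓝 (Real.log (1 + 0))) := by
      have h2 : Tendsto (fun t : ℝ => 1 + δ / t) atTop (𝓝 (1 + 0)) :=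
        tendsto_const_nhds.add (tendsto_const_nhds.div_atTop tendsto_id)
      exact (Real.continuousAt_log (by norm_num)).tendsto.comp h2
    rw [add_zero, Real.log_one] at h1
    refine h1.congr' ?_
    filter_upwards [eventually_gt_atTop 0] with t ht
    rw [← Real.log_div (by linarith) ht.ne']
    congr 1
    field_simp
  have h1 : Tendsto (fun t : ℝ => t + δ) atTop atTop := tendsto_atTop_add_const_right _ _ tendsto_id
  have h2 := ((hall.comp h1).sub hall).add ((hlog.const_mul ((1 - 2 * σ) * D)))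
  simp only [sub_zero, mul_zero, add_zero, Function.comp_def] at h2
  refine h2.congr (fun t => ?_)
  simp only [hw]
  ring

/-- the Dirichlet series on the line `Re s = 2`, with the remainder -/
theorem fam_ser (hMES : T_MES) {ι : Type} [Fintype ι] {F : ι → ℂ → ℂ} {c : ι → ℕ → ℂ} {g : ι → ℝ}
    (hF : ∀ j, EulerFE (F j) (c j)) {e : ℝ → ℝ} (hLn' : Ln' e)
    {f : ℂ → ℂ} (hf : AnalyticOnNhd ℂ f Qd)
    (hd : ∀ z ∈ Qd, 1 < z.re → deriv f z = -(∑ j, (g j : ℂ) * LSeries (c j) z) - ES e z)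
    {δ : ℝ} (hδ : 0 < δ) :
    ∃ r : ℝ → ℂ, (∀ t : ℝ, 0 < t →
      f (2 + ((t + δ : ℝ) : ℂ) * I) - f (2 + t * I) =
        (LSeries (unlog (cco c (fun j => (g j : ℂ)))) (2 + ((t + δ : ℝ) : ℂ) * I) -
          LSeries (unlog (cco c (fun j => (g j : ℂ)))) (2 + t * I)) + r t) ∧
      Tendsto (fun T : ℝ => (1 / T) * ∫ t in Ioi (3 : ℝ), ‖r t‖ * Real.exp (-(t / T) ^ 2))
        atTop (𝓝 0) := by
  obtain ⟨hcont, ⟨K, hK0, hK⟩, hmean⟩ := hMES hLn'
  set d : ℕ → ℂ := cco c (fun j => (g j : ℂ)) with hd0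
  have hd1 : d 1 = 0 := by
    simp only [hd0, cco]
    exact Finset.sum_eq_zero (fun j _ => by rw [(hF j).one, mul_zero])
  have hds : ∀ s : ℂ, 1 < s.re → LSeriesSummable d s ∧
      LSeries d s = ∑ j, (g j : ℂ) * LSeries (c j) s := by
    intro s hs
    have h1 : d = ∑ j, (g j : ℂ) • c j := by
      funext n
      simp [hd0, cco, Finset.sum_apply]
    have h2 : ∀ j ∈ Finset.univ, LSeriesSummable ((g j : ℂ) • c j) s := fun j _ =>
      ((hF j).summ s hs).smul _
    rw [h1]
    refine ⟨LSeriesSummable.sum h2, ?_⟩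
    rw [LSeries_sum h2]
    exact Finset.sum_congr rfl (fun j _ => by rw [LSeries_smul])
  have hab : LSeries.abscissaOfAbsConv (unlog d) ≤ ((1 : ℝ) : EReal) := by
    refine LSeries.abscissaOfAbsConv_le_of_forall_lt_LSeriesSummable (fun y hy => ?_)
    exact unlog_summable hd1 (hds y (by simpa using hy)).1
  set l : ℂ → ℂ := LSeries (unlog d) with hl
  have hld : ∀ s : ℂ, 1 < s.re → HasDerivAt l (-LSeries d s) s := by
    intro s hs'
    have h1 : LSeries.abscissaOfAbsConv (unlog d) < s.re :=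
      lt_of_le_of_lt hab (by exact_mod_cast hs')
    have h2 := LSeries_hasDerivAt h1
    have h3 : LSeries (LSeries.logMul (unlog d)) s = LSeries d s :=
      LSeries_congr (fun hn => logMul_unlog hd1 hn) s
    rw [h3] at h2
    exact h2
  have hE : Continuous (fun τ : ℝ => ES e (ctr τ)) := by
    refine hcont.comp_continuous (by unfold ctr; fun_prop) (fun τ => ?_)
    show 1 < (ctr τ).re
    rw [ctr_re]
    norm_num
  have hctr : ∀ τ : ℝ, (2 + τ * I : ℂ) = ctr τ := fun τ => rfl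
  -- the derivative along the line
  have hline : ∀ τ : ℝ, 0 < τ → HasDerivAt (fun τ : ℝ => f (ctr τ) - l (ctr τ)) (-ES e (ctr τ) * I) τ := by
    intro τ hτ
    have hQ : ctr τ ∈ Qd := ⟨by rw [ctr_re]; norm_num, by rw [ctr_im]; exact hτ⟩
    have h1re : 1 < (ctr τ).re := by rw [ctr_re]; norm_num
    have h1 : HasDerivAt (fun z => f z - l z) (-ES e (ctr τ)) (ctr τ) := by
      have h2 := (hf _ hQ).differentiableAt.hasDerivAt.sub (hld _ h1re)
      rw [hd _ hQ h1re, (hds _ h1re).2] at h2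
      have e0 : -(∑ j, (g j : ℂ) * LSeries (c j) (ctr τ)) - ES e (ctr τ) -
          -∑ j, (g j : ℂ) * LSeries (c j) (ctr τ) = -ES e (ctr τ) := by ring
      rw [e0] at h2
      exact h2
    have h2 : HasDerivAt (fun τ : ℝ => ctr τ) I τ := by
      have h3 : HasDerivAt (fun τ : ℝ => (τ : ℂ)) 1 τ := Complex.ofRealCLM.hasDerivAt
      have h4 := (h3.mul_const I).const_add 2
      rw [one_mul] at h4
      exact h4
    exact h1.comp τ h2
  refine ⟨fun t => (f (ctr (t + δ)) - l (ctr (t + δ))) - (f (ctr t) - l (ctr t)), fun t _ => ?_, ?_⟩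
  · rw [hctr, hctr]
    ring
  have hrn : ∀ t : ℝ, 3 < t → ‖(f (ctr (t + δ)) - l (ctr (t + δ))) - (f (ctr t) - l (ctr t))‖ ≤
      ∫ τ in t..t + δ, ‖ES e (ctr τ)‖ := by
    intro t ht
    have h1 : ∫ τ in t..t + δ, -ES e (ctr τ) * I =
        (f (ctr (t + δ)) - l (ctr (t + δ))) - (f (ctr t) - l (ctr t)) := by
      refine intervalIntegral.integral_eq_sub_of_hasDerivAt (f := fun τ : ℝ => f (ctr τ) - l (ctr τ))
        (fun τ hτ => ?_) ?_
      · rw [uIcc_of_le (by linarith)] at hτ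
        exact hline τ (by linarith [hτ.1])
      · exact (hE.neg.mul continuous_const).intervalIntegrable _ _
    rw [← h1]
    refine (intervalIntegral.norm_integral_le_integral_norm (by linarith)).trans (le_of_eq ?_)
    congr 1
    funext τ
    rw [norm_mul, norm_neg, Complex.norm_I, mul_one]
  set hh : ℝ → ℝ := fun τ => ‖ES e (ctr τ)‖ with hhh
  have hhc : Continuous hh := hE.norm
  have hPc : Continuous (fun t : ℝ => ∫ τ in t..t + δ, hh τ) := by
    have h1 : Continuous (fun x : ℝ => ∫ τ in (0 : ℝ)..x, hh τ) :=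
      intervalIntegral.continuous_primitive (fun a b => hhc.intervalIntegrable a b) 0
    have h2 : (fun t : ℝ => ∫ τ in t..t + δ, hh τ) =
        fun t => (∫ τ in (0 : ℝ)..t + δ, hh τ) - ∫ τ in (0 : ℝ)..t, hh τ := by
      funext t
      rw [intervalIntegral.integral_interval_sub_left (hhc.intervalIntegrable _ _)
        (hhc.intervalIntegrable _ _)]
    rw [h2]
    exact (h1.comp (continuous_id.add continuous_const)).sub h1
  have hPb : ∀ t : ℝ, 3 < t → ‖∫ τ in t..t + δ, hh τ‖ ≤ (K * (2 + δ) * δ) * t ^ (1 : ℝ) := by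
    intro t ht
    rw [Real.rpow_one]
    have h1 : ∀ τ ∈ uIoc t (t + δ), ‖hh τ‖ ≤ K * (1 + (t + δ)) := by
      intro τ hτ
      rw [uIoc_of_le (by linarith)] at hτ
      simp only [hhh, norm_norm]
      refine (hK τ (by linarith [hτ.1])).trans ?_
      have := hτ.2
      gcongr
    have h2 := intervalIntegral.norm_integral_le_of_norm_le_const h1
    refine h2.trans ?_
    rw [add_sub_cancel_left, abs_of_pos hδ]
    have h3 : 1 + (t + δ) ≤ (2 + δ) * t := by nlinarith
    calc K * (1 + (t + δ)) * δ ≤ K * ((2 + δ) * t) * δ := by gcongr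
      _ = _ := by ring
  refine squeeze_zero' ?_ ?_ (hmean δ hδ)
  · filter_upwards [eventually_gt_atTop 0] with T hT
    exact mul_nonneg (by positivity) (integral_nonneg (fun t => by positivity))
  · filter_upwards [eventually_gt_atTop 0] with T hT
    refine mul_le_mul_of_nonneg_left ?_ (by positivity)
    refine integral_mono_of_nonneg (Eventually.of_forall (fun t => by positivity)) ?_ ?_
    · refine Integrable.mono' (((integrableOn_rpow_gauss hT (zero_le_one) (by norm_num : (0 : ℝ) ≤ 3)).const_mul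
        (K * (2 + δ) * δ))) ?_ ?_
      · refine ContinuousOn.aestronglyMeasurable ?_ measurableSet_Ioi
        exact (hPc.mul (by fun_prop)).continuousOn
      · filter_upwards [ae_restrict_mem measurableSet_Ioi] with t ht
        rw [norm_mul, Real.norm_of_nonneg (Real.exp_pos _).le, ← mul_assoc]
        exact mul_le_mul_of_nonneg_right (hPb t ht) (Real.exp_pos _).le
    · filter_upwards [ae_restrict_mem measurableSet_Ioi] with t ht
      exact mul_le_mul_of_nonneg_right (hrn t ht) (Real.exp_pos _).le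

/-- **Theorem Z.** -/
theorem main_Z (hCNT : T_CNT) (hSUM : T_SUM) (hLOC : T_LOC) (hLOF : T_LOF) (hGLU : T_GLU)
    (hAVV : T_AVV) (hAVF : T_AVF) (hGRO : T_GRO) (hMES : T_MES) : T_Z := by
  intro ι _ F c g hF hG hoff hl2
  set e : ℝ → ℝ := fun t => if 0 < t then ∑ j, g j * (od (F j) (pt t) : ℝ) else 0 with he
  have hLn' : Ln' e := hSUM (fam_Ln hCNT hF hG hl2)
  have hord : ∀ z ∈ Qd, ∑ j, g j * (od (F j) z : ℝ) = ez e z := by
    intro z hz
    by_cases h : z.re = 1 / 2
    · rw [ez_on h]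
      have hz2 : pt z.im = z := by
        apply Complex.ext
        · simp [pt, h]
        · simp [pt]
      show _ = if 0 < z.im then _ else _
      rw [if_pos hz.2, hz2]
    · rw [ez_off h]
      exact hoff z hz h
  have hloc := fam_loc hLOC hLOF hMES hF hLn' hord
  obtain ⟨f, hf, hf1, hf2⟩ := hGLU (U := fun s => (∑ j, g j * Real.log ‖F j s‖) - VS e s)
    isOpen_Qd convex_Qd ⟨1 + I, by simp [Qd]⟩ (fun z hz => by
      obtain ⟨r, V, h1, h2, h3, -, -⟩ := hloc z hz
      exact ⟨r, V, h1, h2, h3⟩)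
  have hd : ∀ z ∈ Qd, 1 < z.re → deriv f z = -(∑ j, (g j : ℂ) * LSeries (c j) z) - ES e z := by
    intro z hz hz1
    obtain ⟨r, V, h1, h2, h3, -, h5⟩ := hloc z hz
    rw [hf2 z hz r V h1 h2 h3, h5 hz1]
  have hne : ∀ z ∈ Qd, ∀ᶠ s in 𝓝[≠] z, ∀ j, F j s ≠ 0 := by
    intro z hz
    obtain ⟨r, V, h1, h2, h3, h4, -⟩ := hloc z hz
    filter_upwards [mem_nhdsWithin_of_mem_nhds (ball_mem_nhds z h1), self_mem_nhdsWithin] with s a b
    exact h4 s a b
  obtain ⟨A, K, hA, hK, hb⟩ := grow_all hAVV hAVF hGRO hMES hF hG hLn' hf hf1 hd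
  have hd1 : cco c (fun j => (g j : ℂ)) 1 = 0 := by
    simp only [cco]
    exact Finset.sum_eq_zero (fun j _ => by rw [(hF j).one, mul_zero])
  have hs2 : ∀ t : ℝ, LSeriesSummable (unlog (cco c (fun j => (g j : ℂ)))) (2 + t * I) := by
    intro t
    refine unlog_summable hd1 ?_
    have h1 : cco c (fun j => (g j : ℂ)) = ∑ j, (g j : ℂ) • c j := by
      funext n
      simp [cco, Finset.sum_apply]
    rw [h1]
    exact LSeriesSummable.sum (fun j _ => ((hF j).summ _ (by simp)).smul _)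
  have hcore := core_abs hf hA hK hb (fun δ hδ =>
    fam_re hF hf hf1 hne (σ := 1 / 4) (by norm_num) (by norm_num) hδ) hs2
    (fun δ hδ => fam_ser hMES hF hLn' hf hd hδ)
  intro n hn
  have h1 := hcore n hn
  have h2 := logMul_unlog hd1 (show n ≠ 0 by omega)
  rw [LSeries.logMul, h1, mul_zero] at h2
  exact h2.symm

end Pool.Agent.SelRel
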